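import Pool.Agent.Lib_helper26.XS.Defs

set_option autoImplicit false

namespace Pool.Agent.XS

open Finset Complex MeasureTheory Pool.Agent.Var35 Pool.Agent.Var73 Pool.Agent.HC Pool.Agent.MF
open scoped ArithmeticFunction ArithmeticFunction.Moebius

/-- pigeonhole: few bad numbers, so a multiple of `q` which is not bad -/
theorem da2_pick (P : ℕ → Prop) [DecidablePred P] {q Y : ℕ} (hq : 1 ≤ q) (hY : 2 * q ≤ Y)
    (hb : (((Icc 1 Y).filter P).card : ℝ) ≤ 1 / (4 * q) * Y) :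
    ∃ Q : ℕ, 1 ≤ Q ∧ Q ≤ Y ∧ q ∣ Q ∧ ¬ P Q := by
  by_contra hcon
  push Not at hcon
  have hsub : (Icc 1 (Y / q)).image (fun j => q * j) ⊆ (Icc 1 Y).filter P := by
    intro x hx
    rw [mem_image] at hx
    obtain ⟨j, hj, rfl⟩ := hx
    rw [mem_Icc] at hj
    have h1 : 1 ≤ q * j := Nat.one_le_iff_ne_zero.2 (Nat.mul_ne_zero (by omega) (by omega))
    have h2 : q * j ≤ Y := le_trans (Nat.mul_le_mul_left q hj.2) (Nat.mul_div_le Y q)
    rw [mem_filter, mem_Icc]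
    exact ⟨⟨h1, h2⟩, hcon _ h1 h2 (dvd_mul_right q j)⟩
  have hcard : Y / q ≤ ((Icc 1 Y).filter P).card := by
    have := card_le_card hsub
    rw [card_image_of_injective _ (fun a b h => Nat.eq_of_mul_eq_mul_left (by omega) h),
      Nat.card_Icc] at this
    omega
  have hq0 : (0 : ℝ) < q := by exact_mod_cast hq
  have h3 : ((Y / q : ℕ) : ℝ) ≤ 1 / (4 * q) * Y := le_trans (by exact_mod_cast hcard) hb
  have h4 : (Y : ℝ) < q * ((Y / q : ℕ) : ℝ) + q := by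
    have := Nat.lt_mul_div_succ Y (show 0 < q by omega)
    have h5 : (Y : ℝ) < q * (((Y / q : ℕ) : ℝ) + 1) := by exact_mod_cast this
    linarith
  have h6 : (q : ℝ) * ((Y / q : ℕ) : ℝ) ≤ Y / 4 := by
    calc (q : ℝ) * ((Y / q : ℕ) : ℝ) ≤ q * (1 / (4 * q) * Y) :=
          mul_le_mul_of_nonneg_left h3 hq0.le
      _ = Y / 4 := by field_simp
  have h7 : (2 : ℝ) * q ≤ Y := by exact_mod_cast hY
  linarith

theorem almost_to_one_pr {κ : ℝ} (h0 : 0 < κ) (h1 : κ < 1) (h : AlmostAll κ) :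
    OneModulus κ := by
  intro ε hε q hq
  set ε' : ℝ := min (ε / 2) ((1 - κ) / 4) with hε'
  have he0 : 0 < ε' := lt_min (by linarith) (by linarith)
  have he1 : ε' ≤ ε / 2 := min_le_left _ _
  have he2 : ε' ≤ (1 - κ) / 4 := min_le_right _ _
  have hq0 : (0 : ℝ) < q := by exact_mod_cast hq
  obtain ⟨C0, hC0⟩ := h ε' he0 (1 / (4 * q)) (by positivity)
  have ev1 := (tendsto_rpow_atTop (show 0 < (1 - κ) / 2 by linarith)).eventually_ge_atTop (2 : ℝ)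
  have ev2 := (tendsto_rpow_atTop (show 0 < ε / 2 by linarith)).eventually_ge_atTop (2 : ℝ)
  have ev3 := (tendsto_rpow_atTop h0).eventually_ge_atTop (2 * q : ℝ)
  have ev4 := Filter.eventually_ge_atTop (1 : ℝ)
  have ev5 := Filter.eventually_ge_atTop C0
  obtain ⟨C, hC⟩ := Filter.eventually_atTop.1 (ev1.and (ev2.and (ev3.and (ev4.and ev5))))
  refine ⟨C, fun X hX => ?_⟩
  obtain ⟨a1, a2, a3, a4, a5⟩ := hC X hX
  have hX0 : 0 < X := by linarith
  set Z : ℝ := X ^ (κ + ε') with hZ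
  have hZ1 : 1 ≤ Z := Real.one_le_rpow a4 (by linarith)
  set Y : ℕ := ⌈Z⌉₊ with hYdef
  have hY1 : Z ≤ (Y : ℝ) := Nat.le_ceil Z
  have hY2 : (Y : ℝ) ≤ 2 * Z := by
    have := Nat.ceil_lt_add_one (show 0 ≤ Z by linarith)
    linarith
  have hY3 : (Y : ℝ) ≤ X ^ (1 - ε') := by
    calc (Y : ℝ) ≤ 2 * Z := hY2
      _ ≤ X ^ ((1 - κ) / 2) * X ^ (κ + ε') := mul_le_mul_of_nonneg_right a1 (by linarith)
      _ = X ^ ((1 - κ) / 2 + (κ + ε')) := (Real.rpow_add hX0 _ _).symm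
      _ ≤ X ^ (1 - ε') := Real.rpow_le_rpow_of_exponent_le a4 (by linarith)
  have hY4 : (Y : ℝ) ≤ X ^ (κ + ε) := by
    calc (Y : ℝ) ≤ 2 * Z := hY2
      _ ≤ X ^ (ε / 2) * X ^ (κ + ε') := mul_le_mul_of_nonneg_right a2 (by linarith)
      _ = X ^ (ε / 2 + (κ + ε')) := (Real.rpow_add hX0 _ _).symm
      _ ≤ X ^ (κ + ε) := Real.rpow_le_rpow_of_exponent_le a4 (by linarith)
  have hY5 : 2 * q ≤ Y := by
    have h1 : (2 * q : ℝ) ≤ Y := by
      calc (2 * q : ℝ) ≤ X ^ κ := a3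
        _ ≤ Z := Real.rpow_le_rpow_of_exponent_le a4 (by linarith)
        _ ≤ Y := hY1
    exact_mod_cast h1
  obtain ⟨Q, hQ1, hQ2, hQ3, hQ4⟩ :=
    da2_pick (fun Q : ℕ => X ^ (1 + ε') < GX X Q) hq hY5 (hC0 X Y a5 hY1 hY3)
  refine ⟨Q, hQ1, hQ3, ?_, ?_⟩
  · exact le_trans (by exact_mod_cast hQ2) hY4
  · exact le_trans (not_lt.1 hQ4) (Real.rpow_le_rpow_of_exponent_le a4 (by linarith))


end Pool.Agent.XS

namespace Pool.Agent.XS

/-- alias -/
theorem almost_to_one : type_of% @almost_to_one_pr := @almost_to_one_pr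

end Pool.Agent.XS
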