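import Pool.Agent.Lib_helper26.XS.Defs
import Pool.Agent.Lib_helper59.MFF.C3a

/-!
# XS (MP_5dd4bb_nt), block DA3: one character and the variance
-/

set_option autoImplicit false

namespace Pool.Agent.XS

open Finset Complex MeasureTheory Pool.Agent.Var35 Pool.Agent.Var73 Pool.Agent.HC Pool.Agent.MF
open scoped ArithmeticFunction ArithmeticFunction.Moebius

theorem da3_zero {Q : ℕ} (ψ : DirichletCharacter ℂ Q) {n : ℕ} (h : ¬ n.Coprime Q) :
    ψ (n : ZMod Q) = 0 :=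
  ψ.map_nonunit fun hu => h ((ZMod.isUnit_iff_coprime n Q).1 hu)

theorem da3_mod {Q : ℕ} (n : ℕ) : (n % Q).Coprime Q ↔ n.Coprime Q := by
  rw [← ZMod.isUnit_iff_coprime, ← ZMod.isUnit_iff_coprime, ZMod.natCast_mod]

/-- the sum of a character over the reduced residues -/
theorem da3_sum {Q : ℕ} [NeZero Q] (ψ : DirichletCharacter ℂ Q) :
    ∑ a ∈ (range Q).filter (fun a => a.Coprime Q), ψ (a : ZMod Q) = ∑ a : ZMod Q, ψ a := by
  rw [sum_filter_of_ne]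
  · exact Finset.sum_nbij' (fun a : ℕ => (a : ZMod Q)) (fun a : ZMod Q => a.val)
      (fun a _ => mem_univ _) (fun a _ => mem_range.2 (ZMod.val_lt a))
      (fun a ha => ZMod.val_natCast_of_lt (mem_range.1 ha)) (fun a _ => ZMod.natCast_zmod_val a)
      (fun a _ => rfl)
  · intro a _ h
    by_contra hc
    exact h (da3_zero ψ hc)

/-- the twisted sum over the reduced residues -/
theorem da3_tw {X : ℝ} {Q : ℕ} [NeZero Q] (ψ : DirichletCharacter ℂ Q) :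
    ∑ n ∈ Icc 1 ⌊X⌋₊, (Lam n : ℂ) * ψ (n : ZMod Q) =
      ∑ a ∈ (range Q).filter (fun a => a.Coprime Q), ψ (a : ZMod Q) *
        ((∑ n ∈ (Icc 1 ⌊X⌋₊).filter (fun n => n % Q = a), Lam n : ℝ) : ℂ) := by
  have hQ : 0 < Q := Nat.pos_of_ne_zero (NeZero.ne Q)
  have e1 : ∑ n ∈ Icc 1 ⌊X⌋₊, (Lam n : ℂ) * ψ (n : ZMod Q) =
      ∑ n ∈ (Icc 1 ⌊X⌋₊).filter (fun n => n.Coprime Q), (Lam n : ℂ) * ψ (n : ZMod Q) := by
    rw [sum_filter_of_ne]
    intro n _ h
    by_contra hc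
    exact h (by rw [da3_zero ψ hc, mul_zero])
  rw [e1, ← sum_fiberwise_of_maps_to (g := fun n => n % Q)
    (t := (range Q).filter (fun a => a.Coprime Q))]
  · apply sum_congr rfl
    intro a ha
    rw [mem_filter] at ha
    rw [filter_filter, Complex.ofReal_sum, mul_sum]
    apply sum_congr
    · apply filter_congr
      intro n _
      constructor
      · exact fun h => h.2
      · intro h
        refine ⟨?_, h⟩
        rw [← da3_mod, h]
        exact ha.2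
    · intro n hn
      rw [mem_filter] at hn
      rw [← hn.2, ZMod.natCast_mod, mul_comm]
  · intro n hn
    rw [mem_filter] at hn ⊢
    exact ⟨mem_range.2 (Nat.mod_lt _ hQ), (da3_mod n).2 hn.2⟩

theorem da3_ind {X : ℝ} {Q : ℕ} [NeZero Q] (ψ : DirichletCharacter ℂ Q) :
    EE ψ X = ∑ a ∈ (range Q).filter (fun a => a.Coprime Q), ψ (a : ZMod Q) *
      ((∑ n ∈ (Icc 1 ⌊X⌋₊).filter (fun n => n % Q = a), Lam n - X / Q.totient : ℝ) : ℂ) := by
  have hφ : ((Q.totient : ℝ) : ℂ) ≠ 0 := by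
    rw [Complex.ofReal_ne_zero, Nat.cast_ne_zero]
    exact (Nat.totient_pos.2 (Nat.pos_of_ne_zero (NeZero.ne Q))).ne'
  have h1 : ∑ a ∈ (range Q).filter (fun a => a.Coprime Q), ψ (a : ZMod Q) *
      ((∑ n ∈ (Icc 1 ⌊X⌋₊).filter (fun n => n % Q = a), Lam n - X / Q.totient : ℝ) : ℂ) =
      ∑ a ∈ (range Q).filter (fun a => a.Coprime Q), ψ (a : ZMod Q) *
        ((∑ n ∈ (Icc 1 ⌊X⌋₊).filter (fun n => n % Q = a), Lam n : ℝ) : ℂ) -
      (∑ a ∈ (range Q).filter (fun a => a.Coprime Q), ψ (a : ZMod Q)) *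
        ((X / Q.totient : ℝ) : ℂ) := by
    rw [sum_mul, ← sum_sub_distrib]
    apply sum_congr rfl
    intro a _
    rw [Complex.ofReal_sub, mul_sub]
  rw [h1, ← da3_tw, da3_sum]
  unfold EE
  congr 1
  by_cases h : ψ = 1
  · rw [if_pos h, h, MulChar.sum_one_eq_card_units, ZMod.card_units_eq_totient, Complex.ofReal_div]
    rw [Complex.ofReal_natCast] at hφ ⊢
    field_simp
  · rw [if_neg h, MulChar.sum_eq_zero_of_ne_one h, zero_mul]

theorem da3_cs {X : ℝ} {Q : ℕ} [NeZero Q] (ψ : DirichletCharacter ℂ Q) :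
    ‖EE ψ X‖ ^ 2 ≤ Q * GX X Q := by
  set f : ℕ → ℝ := fun a =>
    ∑ n ∈ (Icc 1 ⌊X⌋₊).filter (fun n => n % Q = a), Lam n - X / Q.totient with hf
  have h1 : ‖EE ψ X‖ ≤ ∑ a ∈ (range Q).filter (fun a => a.Coprime Q), |f a| := by
    rw [da3_ind ψ]
    refine (norm_sum_le _ _).trans (sum_le_sum fun a _ => ?_)
    rw [norm_mul, Complex.norm_real, Real.norm_eq_abs]
    exact mul_le_of_le_one_left (abs_nonneg _) (ψ.norm_le_one _)
  have h2 : (∑ a ∈ (range Q).filter (fun a => a.Coprime Q), |f a|) ^ 2 ≤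
      ((range Q).filter (fun a => a.Coprime Q)).card *
        ∑ a ∈ (range Q).filter (fun a => a.Coprime Q), |f a| ^ 2 := sq_sum_le_card_mul_sum_sq
  have h3 : ((((range Q).filter (fun a => a.Coprime Q)).card : ℕ) : ℝ) ≤ Q := by
    have h4 := card_filter_le (range Q) (fun a => a.Coprime Q)
    rw [card_range] at h4
    exact_mod_cast h4
  have h4 : ∑ a ∈ (range Q).filter (fun a => a.Coprime Q), |f a| ^ 2 = GX X Q := by
    apply sum_congr rfl
    intro a _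
    rw [sq_abs]
  have h5 : 0 ≤ GX X Q := by
    rw [← h4]
    exact sum_nonneg fun a _ => sq_nonneg _
  calc ‖EE ψ X‖ ^ 2 ≤ (∑ a ∈ (range Q).filter (fun a => a.Coprime Q), |f a|) ^ 2 :=
        pow_le_pow_left₀ (norm_nonneg _) h1 2
    _ ≤ _ := h2
    _ ≤ Q * GX X Q := by
      rw [h4]
      exact mul_le_mul_of_nonneg_right h3 h5

/-- DA3 -/
theorem gx_char_pr {X : ℝ} (hX : 3 ≤ X) {Q : ℕ} (hQ : 1 ≤ Q) (hQX : (Q : ℝ) ≤ X) {q : ℕ} [NeZero q]
    (hq : q ∣ Q) (χ : DirichletCharacter ℂ q) :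
    ‖EE χ X‖ ^ 2 ≤ 2 * Q * GX X Q + 8 * Real.log X ^ 4 := by
  have hQ0 : NeZero Q := ⟨by omega⟩
  set ψ : DirichletCharacter ℂ Q := DirichletCharacter.changeLevel hq χ with hψ
  have h1 : ψ = 1 ↔ χ = 1 := DirichletCharacter.changeLevel_eq_one_iff hq
  have h2 : EE χ X - EE ψ X =
      ∑ n ∈ (Icc 1 ⌊X⌋₊).filter (fun n => ¬ Nat.Coprime n Q), (Lam n : ℂ) * χ (n : ZMod q) := by
    have e1 : EE χ X - EE ψ X = ∑ n ∈ Icc 1 ⌊X⌋₊, (Lam n : ℂ) * χ (n : ZMod q) -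
        ∑ n ∈ Icc 1 ⌊X⌋₊, (Lam n : ℂ) * ψ (n : ZMod Q) := by
      unfold EE
      by_cases h : χ = 1
      · rw [if_pos h, if_pos (h1.2 h)]
        ring
      · rw [if_neg h, if_neg (fun h' => h (h1.1 h'))]
        ring
    rw [e1, ← sum_sub_distrib, sum_filter]
    apply sum_congr rfl
    intro n _
    by_cases hn : n.Coprime Q
    · rw [if_neg (not_not.2 hn)]
      have h3 : ψ (n : ZMod Q) = χ (n : ZMod q) := by
        have h4 := DirichletCharacter.changeLevel_eq_cast_of_dvd χ hq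
          ((ZMod.isUnit_iff_coprime n Q).2 hn).unit
        rw [IsUnit.unit_spec, ZMod.cast_natCast hq] at h4
        exact h4
      rw [h3, sub_self]
    · rw [if_pos hn, da3_zero ψ hn, mul_zero, sub_zero]
  have h3 : ‖EE χ X - EE ψ X‖ ≤ 2 * Real.log X ^ 2 := by
    rw [h2]
    refine (norm_sum_le _ _).trans (le_trans (sum_le_sum fun n _ => ?_) (non_cop_pr X hX Q hQ hQX))
    have h4 : 0 ≤ Lam n := ArithmeticFunction.vonMangoldt_nonneg
    rw [norm_mul, Complex.norm_real, Real.norm_eq_abs, abs_of_nonneg h4]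
    exact mul_le_of_le_one_right h4 (χ.norm_le_one _)
  have h4 : ‖EE χ X‖ ≤ ‖EE ψ X‖ + ‖EE χ X - EE ψ X‖ := by
    have h5 := norm_add_le (EE ψ X) (EE χ X - EE ψ X)
    rwa [add_sub_cancel] at h5
  have h5 := da3_cs (X := X) ψ
  have h6 : ‖EE χ X‖ ^ 2 ≤ (‖EE ψ X‖ + ‖EE χ X - EE ψ X‖) ^ 2 :=
    pow_le_pow_left₀ (norm_nonneg _) h4 2
  have h7 : ‖EE χ X - EE ψ X‖ ^ 2 ≤ (2 * Real.log X ^ 2) ^ 2 :=
    pow_le_pow_left₀ (norm_nonneg _) h3 2
  nlinarith [sq_nonneg (‖EE ψ X‖ - ‖EE χ X - EE ψ X‖)]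

end Pool.Agent.XS

namespace Pool.Agent.XS

/-- alias -/
theorem gx_char : type_of% @gx_char_pr := @gx_char_pr

end Pool.Agent.XS
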