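import Pool.Agent.Lib_helper26.XS.Defs
import Pool.Agent.Lib_helper26.XSF.DA3

set_option autoImplicit false

namespace Pool.Agent.XS

open Finset Complex MeasureTheory Pool.Agent.Var35 Pool.Agent.Var73 Pool.Agent.HC Pool.Agent.MF
open scoped ArithmeticFunction ArithmeticFunction.Moebius

theorem da4_Lam_nonneg (n : ℕ) : 0 ≤ Lam n := by
  unfold Lam
  exact ArithmeticFunction.vonMangoldt_nonneg

theorem da4_Lam_le (n : ℕ) : Lam n ≤ Real.log n := by
  unfold Lam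
  exact ArithmeticFunction.vonMangoldt_le_log

/-- trivial bound -/
theorem da4_triv {q : ℕ} [NeZero q] (χ : DirichletCharacter ℂ q) {x B : ℝ} (hx : 1 ≤ x)
    (hB : x ≤ B) : ‖EE χ x‖ ≤ B * Real.log B + B := by
  unfold EE
  have hB1 : 1 ≤ B := hx.trans hB
  have h1 : ‖∑ n ∈ Icc 1 ⌊x⌋₊, (Lam n : ℂ) * χ (n : ZMod q)‖ ≤ B * Real.log B := by
    refine (norm_sum_le _ _).trans ?_
    have h2 : ∀ n ∈ Icc 1 ⌊x⌋₊, ‖(Lam n : ℂ) * χ (n : ZMod q)‖ ≤ Real.log B := by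
      intro n hn
      rw [Finset.mem_Icc] at hn
      rw [norm_mul, Complex.norm_real, Real.norm_of_nonneg (da4_Lam_nonneg n)]
      have hnx : (n : ℝ) ≤ B := ((Nat.le_floor_iff (by linarith)).1 hn.2).trans hB
      have hn0 : (0 : ℝ) < n := by exact_mod_cast hn.1
      have h3 : Lam n ≤ Real.log B := (da4_Lam_le n).trans (Real.log_le_log hn0 hnx)
      have h4 := χ.norm_le_one (n : ZMod q)
      calc Lam n * ‖χ (n : ZMod q)‖ ≤ Lam n * 1 :=
            mul_le_mul_of_nonneg_left h4 (da4_Lam_nonneg n)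
        _ ≤ Real.log B := by rw [mul_one]; exact h3
    refine (Finset.sum_le_sum h2).trans ?_
    rw [Finset.sum_const, Nat.card_Icc, nsmul_eq_mul]
    have h5 : ((⌊x⌋₊ + 1 - 1 : ℕ) : ℝ) ≤ B := by
      rw [Nat.add_sub_cancel]
      exact (Nat.floor_le (by linarith)).trans hB
    exact mul_le_mul_of_nonneg_right h5 (Real.log_nonneg hB1)
  refine (norm_sub_le _ _).trans (add_le_add h1 ?_)
  split_ifs
  · rw [Complex.norm_real, Real.norm_of_nonneg (by linarith)]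
    exact hB
  · rw [norm_zero]; linarith

theorem one_to_bound_pr {κ : ℝ} (h0 : 0 < κ) (h1 : κ < 1) (h : OneModulus κ) {ε : ℝ} (hε : 0 < ε)
    (q : ℕ) [NeZero q] (χ : DirichletCharacter ℂ q) :
    ∃ C : ℝ, ∀ x : ℝ, 1 ≤ x → ‖EE χ x‖ ≤ C * x ^ ((1 + κ) / 2 + ε) := by
  set ε' : ℝ := min ε (1 - κ) with hε'
  have hε'0 : 0 < ε' := lt_min hε (by linarith)
  have hε'1 : ε' ≤ ε := min_le_left _ _
  have hε'2 : ε' ≤ 1 - κ := min_le_right _ _
  obtain ⟨C₀, hC₀⟩ := h ε' hε'0 q (Nat.one_le_iff_ne_zero.2 (NeZero.ne q))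
  set C₁ : ℝ := max C₀ 3 with hC₁
  have hC₁3 : 3 ≤ C₁ := le_max_right _ _
  have hlogC : 0 ≤ Real.log C₁ := Real.log_nonneg (by linarith)
  refine ⟨50 + (C₁ * Real.log C₁ + C₁), fun x hx => ?_⟩
  have hx0 : 0 < x := by linarith
  have hbig : 0 ≤ C₁ * Real.log C₁ + C₁ := by positivity
  have hxp : (1 : ℝ) ≤ x ^ ((1 + κ) / 2 + ε) := Real.one_le_rpow hx (by linarith)
  rcases lt_or_ge x C₁ with hlt | hge
  · have := da4_triv χ hx hlt.le
    calc ‖EE χ x‖ ≤ C₁ * Real.log C₁ + C₁ := this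
      _ ≤ 50 + (C₁ * Real.log C₁ + C₁) := by linarith
      _ = (50 + (C₁ * Real.log C₁ + C₁)) * 1 := by ring
      _ ≤ _ := mul_le_mul_of_nonneg_left hxp (by linarith)
  · have hx3 : 3 ≤ x := hC₁3.trans hge
    obtain ⟨Q, hQ1, hqQ, hQle, hG⟩ := hC₀ x ((le_max_left _ _).trans hge)
    have hQx : (Q : ℝ) ≤ x := by
      refine hQle.trans ?_
      calc x ^ (κ + ε') ≤ x ^ (1 : ℝ) := Real.rpow_le_rpow_of_exponent_le hx (by linarith)
        _ = x := Real.rpow_one x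
    have hmain := gx_char hx3 hQ1 hQx hqQ χ
    have hlog : Real.log x ^ 4 ≤ 256 * x := by
      have h2 := Real.log_le_rpow_div hx0.le (by norm_num : (0 : ℝ) < 1 / 4)
      have h3 : Real.log x ≤ 4 * x ^ (1 / 4 : ℝ) := by
        refine h2.trans (le_of_eq ?_)
        ring
      have h4 : 0 ≤ Real.log x := Real.log_nonneg hx
      calc Real.log x ^ 4 ≤ (4 * x ^ (1 / 4 : ℝ)) ^ 4 := pow_le_pow_left₀ h4 h3 4
        _ = 256 * (x ^ (1 / 4 : ℝ)) ^ 4 := by ring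
        _ = 256 * x := by
          rw [← Real.rpow_natCast, ← Real.rpow_mul hx0.le]
          norm_num
    have hQ0 : (0 : ℝ) ≤ Q := Nat.cast_nonneg _
    have hprod : (Q : ℝ) * GX x Q ≤ x ^ (1 + κ + 2 * ε) := by
      calc (Q : ℝ) * GX x Q ≤ Q * x ^ (1 + ε') := mul_le_mul_of_nonneg_left hG hQ0
        _ ≤ x ^ (κ + ε') * x ^ (1 + ε') :=
          mul_le_mul_of_nonneg_right hQle (Real.rpow_nonneg hx0.le _)
        _ = x ^ (κ + ε' + (1 + ε')) := (Real.rpow_add hx0 _ _).symm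
        _ ≤ x ^ (1 + κ + 2 * ε) := Real.rpow_le_rpow_of_exponent_le hx (by linarith)
    have hx1 : x ≤ x ^ (1 + κ + 2 * ε) := by
      calc x = x ^ (1 : ℝ) := (Real.rpow_one x).symm
        _ ≤ _ := Real.rpow_le_rpow_of_exponent_le hx (by linarith)
    have hsq : x ^ (1 + κ + 2 * ε) = (x ^ ((1 + κ) / 2 + ε)) ^ 2 := by
      rw [← Real.rpow_natCast, ← Real.rpow_mul hx0.le]
      congr 1
      push_cast
      ring
    have h5 : ‖EE χ x‖ ^ 2 ≤ (50 * x ^ ((1 + κ) / 2 + ε)) ^ 2 := by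
      calc ‖EE χ x‖ ^ 2 ≤ 2 * Q * GX x Q + 8 * Real.log x ^ 4 := hmain
        _ ≤ 2 * x ^ (1 + κ + 2 * ε) + 8 * (256 * x ^ (1 + κ + 2 * ε)) := by
          nlinarith [hprod, hlog, hx1]
        _ ≤ 2500 * x ^ (1 + κ + 2 * ε) := by
          have : 0 ≤ x ^ (1 + κ + 2 * ε) := Real.rpow_nonneg hx0.le _
          linarith
        _ = _ := by rw [hsq]; ring
    have h6 : ‖EE χ x‖ ≤ 50 * x ^ ((1 + κ) / 2 + ε) :=
      abs_le_of_sq_le_sq' h5 (by positivity) |>.2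
    refine h6.trans ?_
    apply mul_le_mul_of_nonneg_right _ (by positivity)
    linarith


end Pool.Agent.XS

namespace Pool.Agent.XS

/-- alias -/
theorem one_to_bound : type_of% @one_to_bound_pr := @one_to_bound_pr

end Pool.Agent.XS
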