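import Pool.Agent.Lib_helper26.XS.Defs
import Pool.Agent.Lib_helper98.GAF.Lcs
import Pool.Agent.Lib_helper98.GAF.Lbd

/-! # XS, block DA5: no zeros from a bound for the sums -/

set_option autoImplicit false

namespace Pool.Agent.XS

open Finset Complex MeasureTheory Pool.Agent.Var35 Pool.Agent.Var73 Pool.Agent.HC Pool.Agent.MF
open Filter Asymptotics
open scoped Topology

/-- the error term, cut off at `1` -/
noncomputable def da5_E {q : ℕ} (χ : DirichletCharacter ℂ q) (t : ℝ) : ℂ :=
  if 1 < t then EE χ t else 0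

theorem da5_meas {q : ℕ} (χ : DirichletCharacter ℂ q) : Measurable (da5_E χ) := by
  classical
  unfold da5_E
  refine Measurable.ite measurableSet_Ioi ?_ measurable_const
  unfold EE
  refine Measurable.sub ?_ ?_
  · exact (measurable_from_nat (f := fun n : ℕ => ∑ k ∈ Icc 1 n, (Lam k : ℂ) *
      χ (k : ZMod q))).comp Nat.measurable_floor
  · by_cases h : χ = 1
    · simp only [h, if_true]
      exact Complex.measurable_ofReal
    · simp only [h, if_false]
      exact measurable_const

section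

variable {a : ℝ} {q : ℕ} {χ : DirichletCharacter ℂ q} {C : ℝ}

theorem da5_C (h : ∀ x : ℝ, 1 ≤ x → ‖EE χ x‖ ≤ C * x ^ a) : 0 ≤ C := by
  have := h 1 le_rfl
  rw [Real.one_rpow, mul_one] at this
  exact (norm_nonneg _).trans this

theorem da5_norm (h : ∀ x : ℝ, 1 ≤ x → ‖EE χ x‖ ≤ C * x ^ a) (t : ℝ) :
    ‖da5_E χ t‖ ≤ C * |t| ^ a := by
  unfold da5_E
  split_ifs with h1
  · rw [abs_of_pos (by linarith)]
    exact h t h1.le
  · rw [norm_zero]
    exact mul_nonneg (da5_C h) (Real.rpow_nonneg (abs_nonneg _) _)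

theorem da5_diff (ha : 0 < a) (h : ∀ x : ℝ, 1 ≤ x → ‖EE χ x‖ ≤ C * x ^ a) {s : ℂ}
    (hs : a < s.re) : DifferentiableAt ℂ (fun s => s * mellin (da5_E χ) (-s)) s := by
  have h1 : DifferentiableAt ℂ (mellin (da5_E χ)) (-s) := by
    refine mellin_differentiableAt_of_isBigO_rpow (a := -a) (b := -s.re - 1) ?_ ?_ ?_ ?_ ?_
    · refine (LocallyIntegrable.locallyIntegrableOn ?_ _)
      have hc : Continuous (fun t : ℝ => C * |t| ^ a) :=
        continuous_const.mul (continuous_abs.rpow_const fun _ => Or.inr ha.le)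
      refine hc.locallyIntegrable.mono (da5_meas χ).aestronglyMeasurable ?_
      refine Filter.Eventually.of_forall fun t => ?_
      exact (da5_norm h t).trans (Real.le_norm_self _)
    · rw [neg_neg]
      refine IsBigO.of_bound C ?_
      filter_upwards [eventually_gt_atTop 0] with t ht
      have := da5_norm h t
      rwa [abs_of_pos ht, ← abs_of_pos (Real.rpow_pos_of_pos ht a), ← Real.norm_eq_abs] at this
    · simpa using hs
    · refine IsBigO.of_bound 0 ?_
      filter_upwards [Ioo_mem_nhdsGT (zero_lt_one' ℝ)] with t ht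
      have : da5_E χ t = 0 := by
        unfold da5_E
        rw [if_neg (not_lt.2 ht.2.le)]
      rw [this]; simp
    · simp
  have h2 : DifferentiableAt ℂ (fun s => mellin (da5_E χ) (-s)) s := by
    have := h1.comp s (differentiableAt_id.neg)
    exact this
  exact differentiableAt_id.mul h2

theorem da5_mellin (s : ℂ) :
    mellin (da5_E χ) (-s) =
      ∫ t in Set.Ioi (1 : ℝ), EE χ t * (t : ℂ) ^ (-(s + 1)) := by
  unfold mellin
  have h2 : ∀ t : ℝ, (t : ℂ) ^ (-s - 1) • da5_E χ t = (Set.Ioi (1 : ℝ)).indicator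
      (fun t : ℝ => EE χ t * (t : ℂ) ^ (-(s + 1))) t := by
    intro t
    by_cases ht : 1 < t
    · rw [Set.indicator_of_mem (Set.mem_Ioi.2 ht)]
      unfold da5_E
      rw [if_pos ht, smul_eq_mul, mul_comm]
      congr 2
      ring
    · rw [Set.indicator_of_notMem (by simpa using ht)]
      unfold da5_E
      rw [if_neg ht, smul_zero]
  simp_rw [h2]
  rw [MeasureTheory.setIntegral_indicator measurableSet_Ioi]
  congr 2
  ext t
  simp only [Set.mem_inter_iff, Set.mem_Ioi]
  constructor
  · exact fun h => h.2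
  · exact fun h => ⟨by linarith, h⟩

theorem da5_int (h : ∀ x : ℝ, 1 ≤ x → ‖EE χ x‖ ≤ C * x ^ a) {s : ℂ} (hs : a < s.re) :
    IntegrableOn (fun t : ℝ => EE χ t * (t : ℂ) ^ (-(s + 1))) (Set.Ioi 1) := by
  have h1 : IntegrableOn (fun t : ℝ => C * t ^ (a - s.re - 1)) (Set.Ioi 1) :=
    (integrableOn_Ioi_rpow_of_lt (by linarith) zero_lt_one).const_mul C
  refine Integrable.mono' h1 ?_ ?_
  · refine AEStronglyMeasurable.mul ?_ ?_
    · refine ((da5_meas χ).aestronglyMeasurable (μ := volume.restrict (Set.Ioi 1))).congr ?_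
      refine (ae_restrict_iff' measurableSet_Ioi).2 (Eventually.of_forall fun t ht => ?_)
      unfold da5_E
      rw [if_pos (Set.mem_Ioi.1 ht)]
    · refine ContinuousOn.aestronglyMeasurable (fun t ht ↦ ?_) measurableSet_Ioi
      exact (Complex.continuousAt_ofReal_cpow_const _ _
        (Or.inr (zero_lt_one.trans ht).ne')).continuousWithinAt
  · refine (ae_restrict_iff' measurableSet_Ioi).2 (Eventually.of_forall fun t ht => ?_)
    have ht1 : 1 < t := ht
    have ht0 : 0 < t := by linarith
    rw [norm_mul, Complex.norm_cpow_eq_rpow_re_of_pos ht0]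
    have e1 : (-(s + 1)).re = - s.re - 1 := by simp; ring
    rw [e1]
    calc ‖EE χ t‖ * t ^ (-s.re - 1) ≤ C * t ^ a * t ^ (-s.re - 1) := by
          gcongr
          exact h t ht1.le
      _ = C * t ^ (a - s.re - 1) := by
          rw [mul_assoc, ← Real.rpow_add ht0]
          congr 2
          ring

end

open scoped Classical in
/-- the logarithmic derivative to the right of `1` -/
theorem da5_series {a : ℝ} (ha1 : a < 1) {q : ℕ} [NeZero q] (χ : DirichletCharacter ℂ q)
    {C : ℝ} (h : ∀ x : ℝ, 1 ≤ x → ‖EE χ x‖ ≤ C * x ^ a) {s : ℂ} (hs : 1 < s.re) :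
    logDeriv (GA.LF χ) s = -(s * mellin (da5_E χ) (-s) + if χ = 1 then s / (s - 1) else 0) := by
  have hC := da5_C h
  have h1 : logDeriv (GA.LF χ) s = -GA.Gj χ 0 s := by
    have := GA.LF_deriv χ 0 hs
    rw [iteratedDeriv_zero, pow_zero, one_mul] at this
    exact this
  rw [h1]
  have h2 : GA.Gj χ 0 s = LSeries (fun n => (Lam n : ℂ) * χ (n : ZMod q)) s := by
    unfold GA.Gj
    refine LSeries_congr (fun {n} _ => ?_) s
    simp
  have hsum : LSeriesSummable (fun n => (Lam n : ℂ) * χ (n : ZMod q)) s := by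
    have := GA.Gj_summable χ 0 hs
    simpa using this
  rw [h2]
  have hO : (fun n : ℕ ↦ ∑ k ∈ Icc 1 n, (Lam k : ℂ) * χ (k : ZMod q)) =O[atTop]
      fun n : ℕ ↦ (n : ℝ) ^ (1 : ℝ) := by
    refine IsBigO.of_bound (C + 1) ?_
    filter_upwards [eventually_ge_atTop 1] with n hn
    have hn1 : (1 : ℝ) ≤ n := by exact_mod_cast hn
    have e1 := h n hn1
    unfold EE at e1
    rw [Nat.floor_natCast] at e1
    have e3 : (n : ℝ) ^ a ≤ n := by
      calc (n : ℝ) ^ a ≤ (n : ℝ) ^ (1 : ℝ) := Real.rpow_le_rpow_of_exponent_le hn1 ha1.le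
        _ = n := Real.rpow_one _
    rw [Real.rpow_one, Real.norm_eq_abs, abs_of_nonneg (by linarith)]
    have e5 : ‖∑ k ∈ Icc 1 n, (Lam k : ℂ) * χ (k : ZMod q)‖ ≤ C * (n : ℝ) ^ a + n := by
      by_cases hχ : χ = 1
      · rw [if_pos hχ] at e1
        calc ‖∑ k ∈ Icc 1 n, (Lam k : ℂ) * χ (k : ZMod q)‖
            = ‖(∑ k ∈ Icc 1 n, (Lam k : ℂ) * χ (k : ZMod q) - ((n : ℝ) : ℂ)) + ((n : ℝ) : ℂ)‖ := by
              rw [sub_add_cancel]
          _ ≤ C * (n : ℝ) ^ a + n := (norm_add_le _ _).trans (add_le_add e1 (by simp))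
      · rw [if_neg hχ, sub_zero] at e1
        exact e1.trans (by linarith)
    calc ‖∑ k ∈ Icc 1 n, (Lam k : ℂ) * χ (k : ZMod q)‖ ≤ C * (n : ℝ) ^ a + n := e5
      _ ≤ C * n + n := by gcongr
      _ = (C + 1) * n := by ring
  rw [LSeries_eq_mul_integral _ zero_le_one hs hsum hO, da5_mellin]
  by_cases hχ : χ = 1
  · rw [if_pos hχ]
    have hs1 : s - 1 ≠ 0 := by
      intro h4
      have := congrArg Complex.re h4
      rw [sub_re, Complex.one_re, Complex.zero_re] at this
      linarith
    have e1 : ∀ t ∈ Set.Ioi (1 : ℝ), (∑ k ∈ Icc 1 ⌊t⌋₊, (Lam k : ℂ) * χ (k : ZMod q)) *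
        (t : ℂ) ^ (-(s + 1)) = EE χ t * (t : ℂ) ^ (-(s + 1)) + (t : ℂ) ^ (-s) := by
      intro t ht
      have ht0 : (t : ℂ) ≠ 0 := by
        have : (0 : ℝ) < t := lt_trans zero_lt_one ht
        exact_mod_cast this.ne'
      unfold EE
      rw [if_pos hχ, sub_mul, neg_add, Complex.cpow_add _ _ ht0, Complex.cpow_neg_one]
      field_simp
      ring
    have e2 : (∫ t in Set.Ioi (1 : ℝ), (t : ℂ) ^ (-s)) = 1 / (s - 1) := by
      rw [integral_Ioi_cpow_of_lt (by simpa using hs) zero_lt_one]
      rw [Complex.ofReal_one, Complex.one_cpow]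
      have : -s + 1 = -(s - 1) := by ring
      rw [this, neg_div_neg_eq]
    rw [setIntegral_congr_fun measurableSet_Ioi e1, integral_add (da5_int h (by linarith))
      (integrableOn_Ioi_cpow_of_lt (by simpa using hs) zero_lt_one), e2]
    ring
  · rw [if_neg hχ, add_zero]
    congr 2
    refine setIntegral_congr_fun measurableSet_Ioi fun t ht => ?_
    unfold EE
    simp only [if_neg hχ, sub_zero]

/-- a function with `f' = g f` has no zeros -/
theorem da5_gen {a : ℝ} (ha : a < 2) {f g : ℂ → ℂ} (hf : Differentiable ℂ f)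
    (hg : ∀ s : ℂ, a < s.re → DifferentiableAt ℂ g s)
    (hfg : ∀ s : ℂ, 1 < s.re → deriv f s = g s * f s) (h2 : f 2 ≠ 0) {s : ℂ} (hs : a < s.re) :
    f s ≠ 0 := by
  have hopen : IsOpen {s : ℂ | a < s.re} := isOpen_lt continuous_const Complex.continuous_re
  have hpre : IsPreconnected {s : ℂ | a < s.re} := (convex_halfSpace_re_gt a).isPreconnected
  have hfa : AnalyticOnNhd ℂ f {s : ℂ | a < s.re} := fun z _ => hf.analyticAt z
  have hga : AnalyticOnNhd ℂ g {s : ℂ | a < s.re} :=
    DifferentiableOn.analyticOnNhd (fun z hz => (hg z hz).differentiableWithinAt) hopen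
  have h2m : (2 : ℂ) ∈ {s : ℂ | a < s.re} := by simpa using ha
  have h4 : deriv f =ᶠ[𝓝 (2 : ℂ)] fun s => g s * f s := by
    have : {s : ℂ | 1 < s.re} ∈ 𝓝 (2 : ℂ) :=
      (isOpen_lt continuous_const Complex.continuous_re).mem_nhds (by simp)
    filter_upwards [this] with w hw
    exact hfg w hw
  have h5 : Set.EqOn (deriv f) (fun s => g s * f s) {s : ℂ | a < s.re} :=
    hfa.deriv.eqOn_of_preconnected_of_eventuallyEq (hga.mul hfa) hpre h2m h4
  intro hs0
  obtain ⟨r, hr, hball⟩ := Metric.isOpen_iff.1 hopen s hs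
  have hgb : DifferentiableOn ℂ g (Metric.ball s r) := fun z hz =>
    (hg z (hball hz)).differentiableWithinAt
  obtain ⟨G, hGs, hG⟩ := hgb.isExactOn_ball.with_val_at s 0
  have hH : ∀ z ∈ Metric.ball s r, HasDerivAt (fun w => f w * cexp (-(G w))) 0 z := by
    intro z hz
    have e0 : deriv f z = g z * f z := h5 (hball hz)
    have e1 : HasDerivAt f (g z * f z) z := by
      rw [← e0]
      exact (hf z).hasDerivAt
    have e2 : HasDerivAt (fun w => f w * cexp (-(G w))) _ z := e1.mul ((hG z hz).neg.cexp)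
    refine e2.congr_deriv ?_
    simp only [Pi.neg_apply]
    ring
  have hz : ∀ z ∈ Metric.ball s r, f z = 0 := by
    intro z hz
    have e4 := (convex_ball s r).is_const_of_fderivWithin_eq_zero (𝕜 := ℂ)
      (f := fun w => f w * cexp (-(G w))) (x := z) (y := s)
      (fun z hz => (hH z hz).differentiableAt.differentiableWithinAt) (by
        intro z hz
        have h3 := (hH z hz).hasFDerivAt
        rw [h3.hasFDerivWithinAt.fderivWithin (Metric.isOpen_ball.uniqueDiffWithinAt hz)]
        ext; simp) hz (Metric.mem_ball_self hr)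
    simp only [hs0, zero_mul, mul_eq_zero, Complex.exp_ne_zero, or_false] at e4
    exact e4
  have h6 : f =ᶠ[𝓝 s] 0 := by
    filter_upwards [Metric.isOpen_ball.mem_nhds (Metric.mem_ball_self hr)] with z hz'
    exact hz z hz'
  have h7 := hfa.eqOn_zero_of_preconnected_of_eventuallyEq_zero hpre hs h6
  exact h2 (h7 h2m)

theorem bound_to_zf_pr {a : ℝ} (ha : 0 < a) {q : ℕ} [NeZero q] (χ : DirichletCharacter ℂ q)
    {C : ℝ} (h : ∀ x : ℝ, 1 ≤ x → ‖EE χ x‖ ≤ C * x ^ a) {s : ℂ} (hs : a < s.re) (hs1 : s ≠ 1) :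
    χ.LFunction s ≠ 0 := by
  by_cases ha1 : 1 ≤ a
  · exact DirichletCharacter.LFunction_ne_zero_of_one_le_re χ (Or.inr hs1) (by linarith)
  push Not at ha1
  have h2re : 1 < (2 : ℂ).re := by simp
  have h2ne : χ.LFunction 2 ≠ 0 :=
    DirichletCharacter.LFunction_ne_zero_of_one_le_re χ (Or.inr (by norm_num)) h2re.le
  have hlog : ∀ w : ℂ, 1 < w.re → deriv χ.LFunction w =
      -(w * mellin (da5_E χ) (-w) + if χ = 1 then w / (w - 1) else 0) * χ.LFunction w := by
    intro w hw
    have e1 := da5_series ha1 χ h hw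
    rw [GA.LF_eq, logDeriv_apply] at e1
    have e2 : χ.LFunction w ≠ 0 := by
      refine DirichletCharacter.LFunction_ne_zero_of_one_le_re χ (Or.inr ?_) hw.le
      intro h4
      rw [h4, Complex.one_re] at hw
      exact lt_irrefl _ hw
    rw [div_eq_iff e2] at e1
    rw [e1]
  by_cases hχ : χ = 1
  · subst hχ
    simp only [if_true] at hlog
    have key := da5_gen (a := a) (f := DirichletCharacter.LFunctionTrivChar₁ q)
      (g := fun w => -(w * mellin (da5_E (1 : DirichletCharacter ℂ q)) (-w)) - 1) (by linarith)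
      (DirichletCharacter.differentiable_LFunctionTrivChar₁ q)
      (fun w hw => ((da5_diff ha h hw).neg).sub_const 1)
      (fun w hw => by
        have hw1 : w ≠ 1 := by
          intro h4
          rw [h4, Complex.one_re] at hw
          exact lt_irrefl _ hw
        have hw2 : w - 1 ≠ 0 := sub_ne_zero.2 hw1
        rw [DirichletCharacter.deriv_LFunctionTrivChar₁_apply_of_ne_one q hw1]
        have e3 : DirichletCharacter.LFunctionTrivChar₁ q w =
            (w - 1) * DirichletCharacter.LFunctionTrivChar q w := Function.update_of_ne hw1 _ _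
        rw [e3]
        have e4 := hlog w hw
        change deriv (DirichletCharacter.LFunctionTrivChar q) w = _ *
          DirichletCharacter.LFunctionTrivChar q w at e4
        rw [e4]
        field_simp
        ring)
      (by
        have e3 : DirichletCharacter.LFunctionTrivChar₁ q 2 =
            (2 - 1) * DirichletCharacter.LFunctionTrivChar q 2 :=
          Function.update_of_ne (by norm_num) _ _
        rw [e3]
        exact mul_ne_zero (by norm_num) h2ne) hs
    have e3 : DirichletCharacter.LFunctionTrivChar₁ q s =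
        (s - 1) * DirichletCharacter.LFunctionTrivChar q s := Function.update_of_ne hs1 _ _
    rw [e3] at key
    exact right_ne_zero_of_mul key
  · simp only [if_neg hχ, add_zero] at hlog
    exact da5_gen (a := a) (f := χ.LFunction)
      (g := fun w => -(w * mellin (da5_E χ) (-w))) (by linarith)
      (DirichletCharacter.differentiable_LFunction hχ)
      (fun w hw => (da5_diff ha h hw).neg)
      (fun w hw => hlog w hw) h2ne hs


end Pool.Agent.XS

namespace Pool.Agent.XS

/-- alias -/
theorem bound_to_zf : type_of% @bound_to_zf_pr := @bound_to_zf_pr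

end Pool.Agent.XS
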