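import Pool.Agent.Lib_helper26.XS.Defs
import Pool.Agent.Lib_helper59.MFF.X3
import Pool.Agent.Lib_helper59.MFF.X2a
import Pool.Agent.Lib_helper59.MFF.G8
import Pool.Agent.Lib_helper92.HCF.PAR
import Pool.Agent.Lib_helper92.PVF.SHO

/-!
# XS, block DFA: the defect far from the centres
-/

set_option autoImplicit false

namespace Pool.Agent.XS

open Finset Complex MeasureTheory Pool.Agent.Var35 Pool.Agent.Var73 Pool.Agent.HC Pool.Agent.MF
open scoped ArithmeticFunction ArithmeticFunction.Moebius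

/-- the sum of `1/φ` -/
theorem dfa_tot : ∃ C : ℝ, 1 ≤ C ∧ ∀ Y : ℕ, 1 ≤ Y →
    ∑ m ∈ Icc 1 Y, 1 / (Nat.totient m : ℝ) ≤ C * (2 + Real.log Y) := by
  obtain ⟨C, hC, h⟩ := Pool.Agent.PV.shortsum_pr
  refine ⟨max 1 C, le_max_left _ _, fun Y hY => ?_⟩
  have hY1 : (1 : ℝ) ≤ Y := by exact_mod_cast hY
  have h1 := h (1 / 2) Y (by norm_num) (by linarith)
  rw [Nat.floor_natCast] at h1
  have e1 : (Icc 1 Y).filter (fun m : ℕ => (1 / 2 : ℝ) < m) = Icc 1 Y := by
    refine filter_true_of_mem fun m hm => ?_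
    have : (1 : ℝ) ≤ m := by exact_mod_cast (mem_Icc.1 hm).1
    linarith
  rw [e1] at h1
  refine h1.trans ?_
  have e2 : (Y : ℝ) / (1 / 2) = 2 * Y := by ring
  rw [e2, Real.log_mul (by norm_num) (by linarith)]
  have h2 := Real.log_two_lt_d9
  have h3 : 0 ≤ Real.log (Y : ℝ) := Real.log_nonneg hY1
  calc C * (1 + (Real.log 2 + Real.log Y)) ≤ C * (2 + Real.log Y) := by
        apply mul_le_mul_of_nonneg_left _ hC.le
        linarith
    _ ≤ _ := mul_le_mul_of_nonneg_right (le_max_right _ _) (by linarith)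

theorem dfa_log {X : ℝ} (hX : 3 ≤ X) : (1.091 : ℝ) ≤ Real.log X := by
  rw [Real.le_log_iff_exp_le (by linarith)]
  have h1 := Real.exp_one_lt_d9
  have h2 : Real.exp (0.091 : ℝ) ≤ 1 / (1 - 0.091) :=
    Real.exp_bound_div_one_sub_of_interval (by norm_num) (by norm_num)
  have h3 : (1.091 : ℝ) = 1 + 0.091 := by norm_num
  rw [h3, Real.exp_add]
  calc Real.exp 1 * Real.exp 0.091 ≤ 2.7182818286 * (1 / (1 - 0.091)) :=
        mul_le_mul h1.le h2 (Real.exp_pos _).le (by norm_num)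
    _ ≤ 3 := by norm_num
    _ ≤ X := hX

theorem dfa_EQ_cont (X : ℝ) (q : ℕ) : Continuous (EQ X q) := by
  unfold EQ
  refine continuous_finsetSum _ fun c _ => ?_
  have h1 : Continuous fun β : ℝ => S Lam ⌊X⌋₊ ((c : ℝ) / q + β) :=
    (x3_S_cont _).comp (continuous_const.add continuous_id)
  have h2 := x3_Ic_cont X
  exact ((h1.sub (continuous_const.mul h2)).norm).pow 2

theorem dfa_EQ_nonneg (X : ℝ) (q : ℕ) (β : ℝ) : 0 ≤ EQ X q β :=
  sum_nonneg fun _ _ => by positivity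

theorem dfa_EQ_le (X : ℝ) (q : ℕ) (hq : 1 ≤ q) (β : ℝ) :
    EQ X q β ≤ 2 * CS (Sq Lam ⌊X⌋₊) q β + 2 * (1 / (Nat.totient q : ℝ)) * ‖Ic X β‖ ^ 2 := by
  have hφ : (0 : ℝ) < Nat.totient q := by exact_mod_cast Nat.totient_pos.mpr hq
  have h1 : ∀ c ∈ Cd q,
      ‖S Lam ⌊X⌋₊ ((c : ℝ) / q + β) - ((μ q : ℝ) / (Nat.totient q : ℝ) : ℝ) * Ic X β‖ ^ 2 ≤
      2 * Sq Lam ⌊X⌋₊ ((c : ℝ) / q + β) + 2 * ((1 / (Nat.totient q : ℝ)) * ‖Ic X β‖) ^ 2 := by
    intro c _
    have h2 : ‖(((μ q : ℝ) / (Nat.totient q : ℝ) : ℝ) : ℂ) * Ic X β‖ ≤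
        (1 / (Nat.totient q : ℝ)) * ‖Ic X β‖ := by
      rw [norm_mul, Complex.norm_real, Real.norm_eq_abs, abs_div, abs_of_pos hφ]
      apply mul_le_mul_of_nonneg_right _ (norm_nonneg _)
      apply div_le_div_of_nonneg_right _ hφ.le
      have := ArithmeticFunction.abs_moebius_le_one (n := q)
      exact_mod_cast this
    have h3 := norm_sub_le (S Lam ⌊X⌋₊ ((c : ℝ) / q + β))
      ((((μ q : ℝ) / (Nat.totient q : ℝ) : ℝ) : ℂ) * Ic X β)
    unfold Sq
    set a := ‖S Lam ⌊X⌋₊ ((c : ℝ) / q + β)‖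
    set b := (1 / (Nat.totient q : ℝ)) * ‖Ic X β‖
    have h4 : ‖S Lam ⌊X⌋₊ ((c : ℝ) / q + β) -
        (((μ q : ℝ) / (Nat.totient q : ℝ) : ℝ) : ℂ) * Ic X β‖ ≤ a + b := h3.trans (by linarith)
    calc _ ≤ (a + b) ^ 2 := pow_le_pow_left₀ (norm_nonneg _) h4 2
      _ ≤ _ := by nlinarith [sq_nonneg (a - b)]
  unfold EQ CS
  refine (sum_le_sum h1).trans (le_of_eq ?_)
  rw [sum_add_distrib, ← mul_sum, sum_const, card_Cd, nsmul_eq_mul]
  field_simp

theorem dfa_int {g : ℝ → ℝ} (hg : Continuous g) (q : ℕ) {Y : ℝ} (hY : 0 < Y) (a b : ℝ) :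
    IntervalIntegrable (fun β => kk (q * Y * |β|) * g β) volume a b := by
  refine IntervalIntegrable.mul_continuousOn (f := fun β => kk (q * Y * |β|)) ?_ hg.continuousOn
  refine IntervalIntegrable.mono_fun (f := fun _ => (1 : ℝ)) intervalIntegrable_const ?_ ?_
  · exact (g8_kk_meas.comp (by fun_prop)).aestronglyMeasurable
  · refine Filter.Eventually.of_forall (fun β => ?_)
    obtain ⟨h1, h2, -⟩ := kk_basic_pr (q * Y * |β|) (by positivity)
    show ‖kk (q * Y * |β|)‖ ≤ ‖(1 : ℝ)‖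
    rw [Real.norm_of_nonneg h1, norm_one]
    exact h2

theorem dfa_one {g : ℝ → ℝ} (hg : Continuous g) (h0 : ∀ β, 0 ≤ g β) {q : ℕ} (hq : 1 ≤ q)
    {Y V w : ℝ} (hY : 0 < Y) (hV : 1 ≤ V) (hw : 0 ≤ w) :
    ∫ β in (-w)..w, kk (q * Y * |β|) * g β ≤
      (∫ β in (-(V / (q * Y)))..(V / (q * Y)), g β) + (1 / V) * ∫ β in (-w)..w, g β := by
  have hq0 : (0 : ℝ) < q := by exact_mod_cast hq
  set v := V / (q * Y) with hv
  have hv0 : 0 < v := by positivity
  have hV0 : 0 < V := by linarith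
  have hI : ∀ a b, IntervalIntegrable g volume a b := fun a b => hg.intervalIntegrable a b
  have hK : ∀ a b, IntervalIntegrable (fun β => kk (q * Y * |β|) * g β) volume a b :=
    fun a b => dfa_int hg q hY a b
  have hle1 : ∀ a b, a ≤ b → ∫ β in a..b, kk (q * Y * |β|) * g β ≤ ∫ β in a..b, g β := by
    intro a b hab
    refine intervalIntegral.integral_mono_on hab (hK a b) (hI a b) fun β _ => ?_
    have := (kk_basic_pr (q * Y * |β|) (by positivity)).2.1
    nlinarith [h0 β]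
  have hnn : ∀ a b, a ≤ b → 0 ≤ ∫ β in a..b, g β := fun a b hab =>
    intervalIntegral.integral_nonneg hab fun β _ => h0 β
  have hout : ∀ a b, a ≤ b → (∀ β ∈ Set.Icc a b, v ≤ |β|) →
      ∫ β in a..b, kk (q * Y * |β|) * g β ≤ (1 / V) * ∫ β in a..b, g β := by
    intro a b hab h
    rw [← intervalIntegral.integral_const_mul]
    refine intervalIntegral.integral_mono_on hab (hK a b) ((hI a b).const_mul _) fun β hβ => ?_
    have h1 := h β hβ
    have h2 : 0 < |β| := hv0.trans_le h1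
    have h3 := (kk_basic_pr (q * Y * |β|) (by positivity)).2.2 (by positivity)
    have h4 : V ≤ q * Y * |β| := by
      have : q * Y * v = V := by rw [hv]; field_simp
      calc V = q * Y * v := this.symm
        _ ≤ _ := mul_le_mul_of_nonneg_left h1 (by positivity)
    have h5 : 1 / (q * Y * |β|) ≤ 1 / V := one_div_le_one_div_of_le hV0 h4
    exact mul_le_mul_of_nonneg_right (h3.trans h5) (h0 β)
  have hw2 : 0 ≤ (1 / V) * ∫ β in (-w)..w, g β :=
    mul_nonneg (by positivity) (hnn _ _ (by linarith))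
  by_cases hwv : w ≤ v
  · have h1 := hle1 (-w) w (by linarith)
    have h2 : ∫ β in (-w)..w, g β ≤ ∫ β in (-v)..v, g β := by
      refine intervalIntegral.integral_mono_interval (by linarith) (by linarith) hwv ?_ (hI _ _)
      exact Filter.Eventually.of_forall fun β => h0 β
    linarith
  · push Not at hwv
    have e1 : ∫ β in (-w)..w, kk (q * Y * |β|) * g β =
        (∫ β in (-w)..(-v), kk (q * Y * |β|) * g β) +
        ((∫ β in (-v)..v, kk (q * Y * |β|) * g β) + ∫ β in v..w, kk (q * Y * |β|) * g β) := by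
      rw [intervalIntegral.integral_add_adjacent_intervals (hK _ _) (hK _ _),
        intervalIntegral.integral_add_adjacent_intervals (hK _ _) (hK _ _)]
    have e2 : ∫ β in (-w)..w, g β = (∫ β in (-w)..(-v), g β) +
        ((∫ β in (-v)..v, g β) + ∫ β in v..w, g β) := by
      rw [intervalIntegral.integral_add_adjacent_intervals (hI _ _) (hI _ _),
        intervalIntegral.integral_add_adjacent_intervals (hI _ _) (hI _ _)]
    have h1 := hout (-w) (-v) (by linarith) (by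
      intro β hβ
      rw [abs_of_nonpos (by linarith [hβ.2])]
      linarith [hβ.2])
    have h2 := hout v w hwv.le (by
      intro β hβ
      rw [abs_of_nonneg (by linarith [hβ.1])]
      exact hβ.1)
    have h3 := hle1 (-v) v (by linarith)
    have h4 : 0 ≤ (1 / V) * ∫ β in (-v)..v, g β :=
      mul_nonneg (by positivity) (hnn _ _ (by linarith))
    rw [e1, e2]
    linarith [mul_add (1 / V) (∫ β in (-w)..(-v), g β) ((∫ β in (-v)..v, g β) + ∫ β in v..w, g β),
      mul_add (1 / V) (∫ β in (-v)..v, g β) (∫ β in v..w, g β)]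

theorem dfa_A2 {X : ℝ} (hX : 3 ≤ X) : A2 Lam ⌊X⌋₊ ≤ 6 * X * Real.log X := by
  have hL : 0 ≤ Real.log X := by linarith [dfa_log hX]
  have h1 : A2 Lam ⌊X⌋₊ ≤ Real.log X * ∑ n ∈ Icc 1 ⌊X⌋₊, Λ n := by
    unfold A2
    rw [mul_sum]
    refine sum_le_sum fun n hn => ?_
    rw [mem_Icc] at hn
    have hn0 : (0 : ℝ) < n := by exact_mod_cast hn.1
    have hnX : (n : ℝ) ≤ X := (Nat.le_floor_iff (by linarith)).1 hn.2
    have h2 : Λ n ≤ Real.log n := ArithmeticFunction.vonMangoldt_le_log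
    have h3 : Real.log n ≤ Real.log X := Real.log_le_log hn0 hnX
    have h4 : 0 ≤ Λ n := ArithmeticFunction.vonMangoldt_nonneg
    change Λ n ^ 2 ≤ _
    nlinarith
  have h2 : ∑ n ∈ Icc 1 ⌊X⌋₊, Λ n ≤ 6 * X := by
    have h3 := Chebyshev.psi_le_const_mul_self (x := X) (by linarith)
    unfold Chebyshev.psi at h3
    have h4 : Ioc 0 ⌊X⌋₊ = Icc 1 ⌊X⌋₊ := by
      ext n
      simp only [mem_Ioc, mem_Icc]
      omega
    rw [h4] at h3
    have h5 : Real.log 4 ≤ 2 := by
      have : (4 : ℝ) = 2 ^ 2 := by norm_num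
      rw [this, Real.log_pow]
      have := Real.log_two_lt_d9
      push_cast
      linarith
    nlinarith
  calc _ ≤ _ := h1
    _ ≤ Real.log X * (6 * X) := mul_le_mul_of_nonneg_left h2 hL
    _ = _ := by ring

/-- DFA: far from the centres -/
theorem dfar_pr : ∃ C : ℝ, 1 ≤ C ∧ ∀ (X : ℝ) (Y : ℕ) (V : ℝ), 3 ≤ X →
    Real.sqrt X * Real.log X ^ 12 ≤ (Y : ℝ) → (Y : ℝ) ≤ X → 1 ≤ V →
    DD X Y ≤ Y * ∑ q ∈ Icc 1 (RR X Y), (∫ β in (-(V / (q * Y)))..(V / (q * Y)), EQ X q β) +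
      C * X * Y * Real.log X ^ 2 / V := by
  obtain ⟨C₁, hC₁, htot⟩ := dfa_tot
  refine ⟨12 + 176 * C₁, by linarith, fun X Y V hX hY hYX hV => ?_⟩
  set L := Real.log X with hLd
  have hL : 1.091 ≤ L := dfa_log hX
  have hL1 : 1 ≤ L := by linarith
  have hL0 : 0 < L := by linarith
  have hX0 : 0 < X := by linarith
  have hV0 : 0 < V := by linarith
  have hY0 : (0 : ℝ) < Y := lt_of_lt_of_le (by positivity) hY
  have hY1 : (1 : ℝ) ≤ Y := by
    have : 0 < Y := by exact_mod_cast hY0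
    exact_mod_cast this
  set R := RR X Y with hRd
  have hL8 : (2 : ℝ) ≤ L ^ 8 := by
    calc (2 : ℝ) ≤ 1.091 ^ 8 := by norm_num
      _ ≤ L ^ 8 := pow_le_pow_left₀ (by norm_num) hL 8
  have hXY1 : 1 ≤ X / Y := by rw [le_div_iff₀ hY0]; linarith
  have hRle : (R : ℝ) ≤ X / Y * L ^ 8 := Nat.floor_le (by positivity)
  have hR2 : 2 ≤ R := by
    apply Nat.le_floor
    push_cast
    nlinarith
  have hR1 : 1 ≤ R := by omega
  have hR0 : (0 : ℝ) < R := by exact_mod_cast hR1
  have hwd0 : ∀ q, 0 ≤ wd X Y q := fun q => by unfold wd; positivity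
  -- the far parts
  have hmain : ∑ q ∈ Icc 1 R, ∫ β in (-(wd X Y q))..(wd X Y q), EQ X q β ≤
      (12 + 176 * C₁) * X * L ^ 2 := by
    have hfc : Continuous (Sq Lam ⌊X⌋₊) := by
      unfold Sq
      exact ((x3_S_cont _).norm).pow 2
    have hf0 : ∀ x, 0 ≤ Sq Lam ⌊X⌋₊ x := fun x => by unfold Sq; positivity
    have hIc := x3_Ic_cont X
    have hIc2 : Continuous fun β => ‖Ic X β‖ ^ 2 := hIc.norm.pow 2
    have hIcle : ∀ w, 0 ≤ w → w ≤ 1 / 2 → ∫ β in (-w)..w, ‖Ic X β‖ ^ 2 ≤ 8 * X * L := by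
      intro w hw0 hw
      have h1 : ∫ β in (-w)..w, ‖Ic X β‖ ^ 2 ≤ ∫ β in (-(1 / 2) : ℝ)..(1 / 2), ‖Ic X β‖ ^ 2 := by
        refine intervalIntegral.integral_mono_interval (by linarith) (by linarith) hw ?_
          (hIc2.intervalIntegrable _ _)
        exact Filter.Eventually.of_forall fun β => by positivity
      have h2 : ∫ β in (-(1 / 2) : ℝ)..(1 / 2), ‖Ic X β‖ ^ 2 ≤
          ∫ β in (-(1 / 2) : ℝ)..(1 / 2), X * ‖Ic X β‖ := by
        refine intervalIntegral.integral_mono_on (by norm_num) (hIc2.intervalIntegrable _ _)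
          ((continuous_const.mul hIc.norm).intervalIntegrable _ _) fun β _ => ?_
        have := x2a_le X β hX0.le
        nlinarith [norm_nonneg (Ic X β)]
      rw [intervalIntegral.integral_const_mul] at h2
      have h3 := ic_l1_pr X (by linarith)
      rw [← hLd] at h3
      calc _ ≤ X * ∫ β in (-(1 / 2) : ℝ)..(1 / 2), ‖Ic X β‖ := h1.trans h2
        _ ≤ X * (4 * (1 + L)) := mul_le_mul_of_nonneg_left h3 hX0.le
        _ ≤ _ := by nlinarith
    have hwd2 : ∀ q ∈ Icc 1 R, wd X Y q ≤ 1 / 2 := by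
      intro q hq
      rw [mem_Icc] at hq
      have hq1 : (1 : ℝ) ≤ q := by exact_mod_cast hq.1
      unfold wd
      rw [← hLd, div_le_iff₀ (by positivity)]
      have h1 : (Y : ℝ) ≤ q * (X * L ^ 8) := by
        calc (Y : ℝ) ≤ X := hYX
          _ = 1 * (X * 1) := by ring
          _ ≤ q * (X * L ^ 8) := by
            apply mul_le_mul hq1 _ (by positivity) (by positivity)
            apply mul_le_mul_of_nonneg_left _ hX0.le
            linarith
      linarith
    have h1 : ∀ q ∈ Icc 1 R, ∫ β in (-(wd X Y q))..(wd X Y q), EQ X q β ≤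
        2 * (∫ β in (-(wd X Y q))..(wd X Y q), CS (Sq Lam ⌊X⌋₊) q β) +
          (16 * X * L) * (1 / (Nat.totient q : ℝ)) := by
      intro q hq
      have hw := hwd0 q
      have hq1 := (mem_Icc.1 hq).1
      have hc1 : Continuous fun β => 2 * CS (Sq Lam ⌊X⌋₊) q β :=
        continuous_const.mul (g8_cs_cont hfc q)
      have hc2 : Continuous fun β => 2 * (1 / (Nat.totient q : ℝ)) * ‖Ic X β‖ ^ 2 :=
        continuous_const.mul hIc2
      have h2 : ∫ β in (-(wd X Y q))..(wd X Y q), EQ X q β ≤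
          ∫ β in (-(wd X Y q))..(wd X Y q), (2 * CS (Sq Lam ⌊X⌋₊) q β +
            2 * (1 / (Nat.totient q : ℝ)) * ‖Ic X β‖ ^ 2) := by
        refine intervalIntegral.integral_mono_on (by linarith)
          ((dfa_EQ_cont X q).intervalIntegrable _ _) ?_ fun β _ => dfa_EQ_le X q hq1 β
        exact (hc1.add hc2).intervalIntegrable _ _
      refine h2.trans ?_
      rw [intervalIntegral.integral_add (hc1.intervalIntegrable _ _)
        (hc2.intervalIntegrable _ _),
        intervalIntegral.integral_const_mul, intervalIntegral.integral_const_mul]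
      refine add_le_add le_rfl ?_
      have h3 := hIcle _ hw (hwd2 q hq)
      have h4 : (0 : ℝ) ≤ 2 * (1 / (Nat.totient q : ℝ)) := by positivity
      calc _ ≤ 2 * (1 / (Nat.totient q : ℝ)) * (8 * X * L) := mul_le_mul_of_nonneg_left h3 h4
        _ = _ := by ring
    refine (sum_le_sum h1).trans ?_
    rw [sum_add_distrib, ← mul_sum, ← mul_sum]
    have h5 := arc_le_pr (Sq Lam ⌊X⌋₊) hfc (sq_basic_pr Lam ⌊X⌋₊).1 hf0 R hR2 (wd X Y)
      (fun q _ => hwd0 q) (by
        intro q hq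
        have hq1 : (1 : ℝ) ≤ q := by exact_mod_cast (mem_Icc.1 hq).1
        have e1 : 2 * wd X Y q * q * R = (Y / (X * L ^ 8)) * R := by
          unfold wd
          rw [← hLd]
          field_simp
        rw [e1]
        calc (Y / (X * L ^ 8)) * R ≤ (Y / (X * L ^ 8)) * (X / Y * L ^ 8) :=
              mul_le_mul_of_nonneg_left hRle (by positivity)
          _ = 1 := by field_simp)
    rw [(sq_basic_pr Lam ⌊X⌋₊).2] at h5
    have h6 := dfa_A2 hX
    rw [← hLd] at h6
    have h7 := htot R hR1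
    have h8 : Real.log R ≤ 9 * L := by
      have h9 : (R : ℝ) ≤ X * L ^ 8 := by
        refine hRle.trans (mul_le_mul_of_nonneg_right ?_ (by positivity))
        rw [div_le_iff₀ hY0]
        nlinarith
      calc Real.log R ≤ Real.log (X * L ^ 8) := Real.log_le_log hR0 h9
        _ = L + 8 * Real.log L := by
          rw [Real.log_mul hX0.ne' (by positivity), Real.log_pow, ← hLd]
          push_cast
          ring
        _ ≤ 9 * L := by
          have := Real.log_le_self hL0.le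
          linarith
    have h9 : ∑ m ∈ Icc 1 R, 1 / (Nat.totient m : ℝ) ≤ 11 * C₁ * L := by
      refine h7.trans ?_
      calc C₁ * (2 + Real.log R) ≤ C₁ * (11 * L) :=
            mul_le_mul_of_nonneg_left (by linarith) (by linarith)
        _ = _ := by ring
    have h10 : (16 * X * L) * ∑ m ∈ Icc 1 R, 1 / (Nat.totient m : ℝ) ≤
        (16 * X * L) * (11 * C₁ * L) := mul_le_mul_of_nonneg_left h9 (by positivity)
    have h11 : X * L ≤ X * L ^ 2 := by
      apply mul_le_mul_of_nonneg_left _ hX0.le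
      nlinarith
    nlinarith
  unfold DD
  rw [← hRd]
  have hstep : ∀ q ∈ Icc 1 R, ∫ β in (-(wd X Y q))..(wd X Y q), kk (q * Y * |β|) * EQ X q β ≤
      (∫ β in (-(V / (q * Y)))..(V / (q * Y)), EQ X q β) +
        (1 / V) * ∫ β in (-(wd X Y q))..(wd X Y q), EQ X q β := by
    intro q hq
    exact dfa_one (dfa_EQ_cont X q) (dfa_EQ_nonneg X q) (mem_Icc.1 hq).1 hY0 hV (hwd0 q)
  have h1 := sum_le_sum hstep
  rw [sum_add_distrib, ← mul_sum] at h1
  have h2 : (1 / V) * ∑ q ∈ Icc 1 R, ∫ β in (-(wd X Y q))..(wd X Y q), EQ X q β ≤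
      (1 / V) * ((12 + 176 * C₁) * X * L ^ 2) :=
    mul_le_mul_of_nonneg_left hmain (by positivity)
  calc _ ≤ (Y : ℝ) * (∑ q ∈ Icc 1 R, (∫ β in (-(V / (q * Y)))..(V / (q * Y)), EQ X q β) +
        (1 / V) * ((12 + 176 * C₁) * X * L ^ 2)) :=
        mul_le_mul_of_nonneg_left (h1.trans (by linarith)) hY0.le
    _ = _ := by
      rw [mul_add]
      congr 1
      field_simp


end Pool.Agent.XS

namespace Pool.Agent.XS

/-- alias -/
theorem dfar : type_of% @dfar_pr := @dfar_pr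

end Pool.Agent.XS
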