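import Pool.Agent.Lib_helper26.XS.Defs
import Pool.Agent.Lib_helper73.Var.Block
import Pool.Agent.Lib_helper59.MFF.C1
import Pool.Agent.Lib_helper59.MFF.C3a

/-!
# XS, block EQC: the sum over `c` in terms of characters
-/

set_option autoImplicit false

namespace Pool.Agent.XS

open Finset Complex MeasureTheory Pool.Agent.Var35 Pool.Agent.Var73 Pool.Agent.HC Pool.Agent.MF
open scoped ArithmeticFunction ArithmeticFunction.Moebius

/-- orthogonality of the characters, over the residues -/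
theorem eqc_orth {q : ℕ} [NeZero q] (χ χ' : DirichletCharacter ℂ q) :
    ∑ a : ZMod q, χ a * (starRingEnd ℂ) (χ' a) = if χ = χ' then (Nat.totient q : ℂ) else 0 := by
  classical
  have h1 : ∀ a : ZMod q, χ a * (starRingEnd ℂ) (χ' a) = (χ * χ'⁻¹) a := by
    intro a
    rw [MulChar.mul_apply, ← MulChar.star_apply']
    rfl
  simp_rw [h1]
  split_ifs with h
  · rw [h, mul_inv_cancel, MulChar.sum_one_eq_card_units, ZMod.card_units_eq_totient]
  · apply MulChar.sum_eq_zero_of_ne_one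
    intro h2
    exact h (mul_inv_eq_one.1 h2)

/-- Parseval -/
theorem eqc_dual {q : ℕ} [NeZero q] (D : DirichletCharacter ℂ q → ℂ) :
    ∑ c ∈ Cd q, ‖∑ χ : DirichletCharacter ℂ q, χ (c : ZMod q) * D χ‖ ^ 2 =
      (Nat.totient q : ℝ) * ∑ χ : DirichletCharacter ℂ q, ‖D χ‖ ^ 2 := by
  classical
  rw [← sum_unit_Cd (fun a : ZMod q => ‖∑ χ : DirichletCharacter ℂ q, χ a * D χ‖ ^ 2)]
  have h0 : ∑ a ∈ univ.filter (fun a : ZMod q => IsUnit a),
      ‖∑ χ : DirichletCharacter ℂ q, χ a * D χ‖ ^ 2 =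
      ∑ a : ZMod q, ‖∑ χ : DirichletCharacter ℂ q, χ a * D χ‖ ^ 2 := by
    apply Finset.sum_filter_of_ne
    intro a _ hne
    by_contra hu
    apply hne
    rw [Finset.sum_eq_zero fun χ _ => by rw [MulChar.map_nonunit _ hu, zero_mul]]
    simp
  rw [h0]
  have hsq : ∀ z : ℂ, ((‖z‖ : ℂ)) ^ 2 = z * (starRingEnd ℂ) z := by
    intro z
    rw [Complex.mul_conj, Complex.normSq_eq_norm_sq]; push_cast; rfl
  have hc : ((∑ a : ZMod q, ‖∑ χ : DirichletCharacter ℂ q, χ a * D χ‖ ^ 2 : ℝ) : ℂ) =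
      (((Nat.totient q : ℝ) * ∑ χ : DirichletCharacter ℂ q, ‖D χ‖ ^ 2 : ℝ) : ℂ) := by
    push_cast
    simp_rw [hsq]
    have h1 : ∀ a : ZMod q, (∑ χ : DirichletCharacter ℂ q, χ a * D χ) *
        (starRingEnd ℂ) (∑ χ : DirichletCharacter ℂ q, χ a * D χ) =
        ∑ χ : DirichletCharacter ℂ q, ∑ χ' : DirichletCharacter ℂ q,
          D χ * (starRingEnd ℂ) (D χ') * (χ a * (starRingEnd ℂ) (χ' a)) := by
      intro a
      rw [map_sum, sum_mul_sum]
      refine sum_congr rfl fun χ _ => sum_congr rfl fun χ' _ => ?_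
      rw [map_mul]
      ring
    rw [sum_congr rfl fun a _ => h1 a, sum_comm, mul_sum]
    refine sum_congr rfl fun χ _ => ?_
    rw [sum_comm]
    simp_rw [← mul_sum, eqc_orth]
    simp only [mul_ite, mul_zero, Finset.sum_ite_eq, mem_univ, if_true]
    ring
  exact_mod_cast hc

/-- the Gauss sum of the principal character -/
theorem eqc_one {q : ℕ} [NeZero q] :
    gaussSum (1 : DirichletCharacter ℂ q)⁻¹ (ZMod.stdAddChar (N := q)) = ((μ q : ℤ) : ℂ) := by
  classical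
  rw [← sum_unit_std q 1 (isCoprime_one_left), inv_one]
  unfold gaussSum
  refine sum_congr rfl fun b _ => ?_
  split_ifs with h
  · rw [MulChar.one_apply h]
    simp
  · rw [MulChar.map_nonunit _ h, zero_mul]

/-- the Gauss sum of the inverse character -/
theorem eqc_gauss {q : ℕ} [NeZero q] (χ : DirichletCharacter ℂ q) :
    ‖gaussSum χ⁻¹ (ZMod.stdAddChar (N := q))‖ ^ 2 ≤ (prm χ).1 := by
  have h1 : χ⁻¹ = DirichletCharacter.changeLevel χ.conductor_dvd_level χ.primitiveCharacter⁻¹ := by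
    rw [map_inv, DirichletCharacter.changeLevel_primitiveCharacter]
  rw [h1]
  exact c1_level _ _ (inv_primitive (DirichletCharacter.primitiveCharacter_isPrimitive χ))

/-- the sum over the integers prime to `q` -/
theorem eqc_main {q : ℕ} [NeZero q] (X β : ℝ) {c : ℕ} (hc : Nat.Coprime c q) :
    (Nat.totient q : ℂ) * (∑ n ∈ (Icc 1 ⌊X⌋₊).filter (fun n => Nat.Coprime n q),
        (Lam n : ℂ) * e (n * ((c : ℝ) / q + β)) -
        ((μ q : ℝ) / (Nat.totient q : ℝ) : ℝ) * Ic X β) =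
      ∑ χ : DirichletCharacter ℂ q, χ (c : ZMod q) *
        (gaussSum χ⁻¹ (ZMod.stdAddChar (N := q)) * EB χ X β) := by
  classical
  have hφ : (Nat.totient q : ℂ) ≠ 0 := by
    have := Nat.totient_pos.mpr (Nat.pos_of_ne_zero (NeZero.ne q))
    exact_mod_cast this.ne'
  have hcu : IsUnit (c : ZMod q) := (ZMod.isUnit_iff_coprime c q).mpr hc
  have h1 : ∀ n ∈ (Icc 1 ⌊X⌋₊).filter (fun n => Nat.Coprime n q),
      (Nat.totient q : ℂ) * ((Lam n : ℂ) * e (n * ((c : ℝ) / q + β))) =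
      ∑ χ : DirichletCharacter ℂ q, χ (c : ZMod q) * (gaussSum χ⁻¹ (ZMod.stdAddChar (N := q)) *
        ((Lam n : ℂ) * χ (n : ZMod q) * e (n * β))) := by
    intro n hn
    have hnu : IsUnit (n : ZMod q) := (ZMod.isUnit_iff_coprime n q).mpr (mem_filter.1 hn).2
    have h2 := addchar_expand (r := q) ((n * c : ℕ) : ZMod q) (by
      rw [Nat.cast_mul]; exact hnu.mul hcu)
    have h3 : ZMod.stdAddChar (N := q) ((n * c : ℕ) : ZMod q) = e ((n : ℝ) * ((c : ℝ) / q)) := by
      rw [std_eq_nat]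
      congr 1
      push_cast
      ring
    have h4 : e (n * ((c : ℝ) / q + β)) = e ((n : ℝ) * ((c : ℝ) / q)) * e (n * β) := by
      rw [← e_add]
      congr 1
      ring
    rw [h4, ← h3]
    have h5 : (Nat.totient q : ℂ) * ((Lam n : ℂ) * (ZMod.stdAddChar (N := q) ((n * c : ℕ) : ZMod q) *
        e (n * β))) = ((Nat.totient q : ℂ) * ZMod.stdAddChar (N := q) ((n * c : ℕ) : ZMod q)) *
          ((Lam n : ℂ) * e (n * β)) := by ring
    rw [h5, ← h2, sum_mul]
    refine sum_congr rfl fun χ _ => ?_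
    rw [Nat.cast_mul, map_mul]
    ring
  have h6 : (Nat.totient q : ℂ) * ((((μ q : ℝ) / (Nat.totient q : ℝ) : ℝ) : ℂ) * Ic X β) =
      ∑ χ : DirichletCharacter ℂ q, χ (c : ZMod q) *
        (gaussSum χ⁻¹ (ZMod.stdAddChar (N := q)) * (if χ = 1 then Ic X β else 0)) := by
    rw [Finset.sum_eq_single (1 : DirichletCharacter ℂ q)]
    · rw [if_pos rfl, eqc_one, MulChar.one_apply hcu]
      push_cast
      field_simp
    · intro χ _ hχ
      rw [if_neg hχ]
      ring
    · intro h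
      exact absurd (mem_univ _) h
  rw [mul_sub, h6, mul_sum, sum_congr rfl h1, sum_comm, ← sum_sub_distrib]
  refine sum_congr rfl fun χ _ => ?_
  rw [← mul_sum, ← mul_sum, ← mul_sub, ← mul_sub]
  congr 2
  unfold EB
  congr 1
  · apply sum_filter_of_ne
    intro n _ hne
    by_contra hcop
    apply hne
    have h7 : χ (n : ZMod q) = 0 := by
      apply MulChar.map_nonunit
      rw [ZMod.isUnit_iff_coprime]
      exact hcop
    rw [h7]
    ring
  · split_ifs <;> rfl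

/-- from `χ` to the primitive character -/
theorem eqc_prm {X : ℝ} (hX : 3 ≤ X) {q : ℕ} [NeZero q] (hqX : (q : ℝ) ≤ X) (β : ℝ)
    (χ : DirichletCharacter ℂ q) :
    ‖EB χ X β‖ ^ 2 ≤ 2 * ‖EB (prm χ).2 X β‖ ^ 2 + 8 * Real.log X ^ 4 := by
  classical
  set N := ⌊X⌋₊ with hN
  have hq : 1 ≤ q := Nat.pos_of_ne_zero (NeZero.ne q)
  have hone : χ = 1 ↔ (prm χ).2 = 1 := by
    constructor
    · rintro rfl
      exact DirichletCharacter.primitiveCharacter_one
    · intro h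
      rw [← DirichletCharacter.changeLevel_primitiveCharacter χ,
        show χ.primitiveCharacter = 1 from h, map_one]
  have e1 : ∑ n ∈ Icc 1 N, (Lam n : ℂ) * χ (n : ZMod q) * e (n * β) =
      SS (Icc 1 N) (fun n => (Lam n : ℂ) * e (n * β)) (q / (prm χ).1) (prm χ) := by
    rw [← sum_char_prm χ (Icc 1 N) (fun n => (Lam n : ℂ) * e (n * β))]
    exact sum_congr rfl fun n _ => by ring
  have hev : ∀ n : ℕ, ‖ev (prm χ) n‖ ≤ 1 := fun n => DirichletCharacter.norm_le_one _ _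
  have e2 : ∑ n ∈ Icc 1 N, (Lam n : ℂ) * (prm χ).2 (n : ZMod (prm χ).1) * e (n * β) =
      ∑ n ∈ Icc 1 N, (Lam n : ℂ) * χ (n : ZMod q) * e (n * β) +
      ∑ n ∈ (Icc 1 N).filter (fun n => ¬ Nat.Coprime n (q / (prm χ).1)),
        (Lam n : ℂ) * e (n * β) * ev (prm χ) n := by
    rw [e1]
    unfold SS
    have e3 : ∑ n ∈ Icc 1 N, (Lam n : ℂ) * (prm χ).2 (n : ZMod (prm χ).1) * e (n * β) =
        ∑ n ∈ Icc 1 N, (Lam n : ℂ) * e (n * β) * ev (prm χ) n :=
      sum_congr rfl fun n _ => by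
        show _ = (Lam n : ℂ) * e (n * β) * (prm χ).2 (n : ZMod (prm χ).1)
        ring
    rw [e3, ← sum_filter_add_sum_filter_not (Icc 1 N)
      (fun n => Nat.Coprime n (q / (prm χ).1)) (fun n => (Lam n : ℂ) * e (n * β) * ev (prm χ) n)]
    congr 1
    rw [sum_filter]
    refine sum_congr rfl fun n _ => ?_
    split_ifs <;> simp
  have e3 : ‖∑ n ∈ (Icc 1 N).filter (fun n => ¬ Nat.Coprime n (q / (prm χ).1)),
      (Lam n : ℂ) * e (n * β) * ev (prm χ) n‖ ≤ 2 * Real.log X ^ 2 := by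
    refine (norm_sum_le _ _).trans ?_
    calc ∑ n ∈ (Icc 1 N).filter (fun n => ¬ Nat.Coprime n (q / (prm χ).1)),
          ‖(Lam n : ℂ) * e (n * β) * ev (prm χ) n‖
        ≤ ∑ n ∈ (Icc 1 N).filter (fun n => ¬ Nat.Coprime n (q / (prm χ).1)), Lam n := by
          refine sum_le_sum fun n _ => ?_
          rw [norm_mul, norm_mul, norm_e, mul_one, Complex.norm_real, Real.norm_eq_abs,
            abs_of_nonneg ArithmeticFunction.vonMangoldt_nonneg]
          exact mul_le_of_le_one_right ArithmeticFunction.vonMangoldt_nonneg (hev n)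
      _ ≤ ∑ n ∈ (Icc 1 N).filter (fun n => ¬ Nat.Coprime n q), Lam n := by
          refine sum_le_sum_of_subset_of_nonneg ?_ fun _ _ _ =>
            ArithmeticFunction.vonMangoldt_nonneg
          intro n hn
          rw [mem_filter] at hn ⊢
          refine ⟨hn.1, fun h => hn.2 ?_⟩
          exact Nat.Coprime.coprime_dvd_right (Nat.div_dvd_of_dvd χ.conductor_dvd_level) h
      _ ≤ _ := non_cop_pr X hX q hq hqX
  set B := ∑ n ∈ (Icc 1 N).filter (fun n => ¬ Nat.Coprime n (q / (prm χ).1)),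
      (Lam n : ℂ) * e (n * β) * ev (prm χ) n with hB
  have e4 : EB χ X β = EB (prm χ).2 X β - B := by
    unfold EB
    rw [← hN, e2]
    by_cases h : χ = 1
    · rw [if_pos h, if_pos (hone.1 h)]
      ring
    · rw [if_neg h, if_neg fun h' => h (hone.2 h')]
      ring
  have e5 : ‖EB χ X β‖ ≤ ‖EB (prm χ).2 X β‖ + 2 * Real.log X ^ 2 := by
    rw [e4]
    exact (norm_sub_le _ _).trans (by linarith)
  have e6 := pow_le_pow_left₀ (norm_nonneg _) e5 2
  refine e6.trans ?_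
  nlinarith [sq_nonneg (‖EB (prm χ).2 X β‖ - 2 * Real.log X ^ 2)]

/-- EQC: the sum over `c` in terms of characters -/
theorem eqch_pr {X : ℝ} (hX : 3 ≤ X) {q : ℕ} (hq : 1 ≤ q) (hqX : (q : ℝ) ≤ X) (β : ℝ) :
    EQ X q β ≤ (4 / (Nat.totient q : ℝ)) * ∑ r ∈ q.divisors, r * ∑ χ ∈ Pr r, ‖EB χ X β‖ ^ 2 +
      24 * q * Real.log X ^ 4 := by
  classical
  have : NeZero q := ⟨by omega⟩
  have hφ : (0 : ℝ) < Nat.totient q := by exact_mod_cast Nat.totient_pos.mpr hq
  set N := ⌊X⌋₊ with hN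
  set L := Real.log X with hL
  have hL4 : 0 ≤ L ^ 4 := by positivity
  -- the two parts
  set A : ℕ → ℂ := fun c => ∑ n ∈ (Icc 1 N).filter (fun n => Nat.Coprime n q),
        (Lam n : ℂ) * e (n * ((c : ℝ) / q + β)) -
        ((μ q : ℝ) / (Nat.totient q : ℝ) : ℝ) * Ic X β with hA
  set B : ℕ → ℂ := fun c => ∑ n ∈ (Icc 1 N).filter (fun n => ¬ Nat.Coprime n q),
        (Lam n : ℂ) * e (n * ((c : ℝ) / q + β)) with hB
  have hB2 : ∀ c, ‖B c‖ ≤ 2 * L ^ 2 := by
    intro c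
    refine (norm_sum_le _ _).trans ?_
    refine le_trans (sum_le_sum fun n _ => ?_) (non_cop_pr X hX q hq hqX)
    rw [norm_mul, norm_e, mul_one, Complex.norm_real, Real.norm_eq_abs,
      abs_of_nonneg ArithmeticFunction.vonMangoldt_nonneg]
  have hsplit : ∀ c : ℕ, S Lam N ((c : ℝ) / q + β) -
      ((μ q : ℝ) / (Nat.totient q : ℝ) : ℝ) * Ic X β = A c + B c := by
    intro c
    unfold S
    rw [← sum_filter_add_sum_filter_not (Icc 1 N) (fun n => Nat.Coprime n q)]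
    simp only [hA, hB]
    ring
  have h1 : EQ X q β ≤ 2 * ∑ c ∈ Cd q, ‖A c‖ ^ 2 + 8 * q * L ^ 4 := by
    unfold EQ
    rw [← hN]
    calc ∑ c ∈ Cd q, ‖S Lam N ((c : ℝ) / q + β) - ((μ q : ℝ) / (Nat.totient q : ℝ) : ℝ) * Ic X β‖ ^ 2
        ≤ ∑ c ∈ Cd q, (2 * ‖A c‖ ^ 2 + 8 * L ^ 4) := by
          refine sum_le_sum fun c _ => ?_
          rw [hsplit c]
          have h2 : ‖A c + B c‖ ≤ ‖A c‖ + 2 * L ^ 2 := (norm_add_le _ _).trans (by linarith [hB2 c])
          have h3 := pow_le_pow_left₀ (norm_nonneg _) h2 2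
          refine h3.trans ?_
          nlinarith [sq_nonneg (‖A c‖ - 2 * L ^ 2)]
      _ = 2 * ∑ c ∈ Cd q, ‖A c‖ ^ 2 + (Nat.totient q : ℝ) * (8 * L ^ 4) := by
          rw [sum_add_distrib, ← mul_sum, sum_const, card_Cd, nsmul_eq_mul]
      _ ≤ _ := by
          have h4 : (Nat.totient q : ℝ) ≤ q := by exact_mod_cast Nat.totient_le q
          have h5 : (Nat.totient q : ℝ) * (8 * L ^ 4) ≤ q * (8 * L ^ 4) :=
            mul_le_mul_of_nonneg_right h4 (by positivity)
          linarith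
  -- the sum over `c`
  have h2 : ∑ c ∈ Cd q, ‖A c‖ ^ 2 = (1 / (Nat.totient q : ℝ)) *
      ∑ χ : DirichletCharacter ℂ q, ‖gaussSum χ⁻¹ (ZMod.stdAddChar (N := q)) * EB χ X β‖ ^ 2 := by
    have h3 := eqc_dual (q := q)
      (fun χ => gaussSum χ⁻¹ (ZMod.stdAddChar (N := q)) * EB χ X β)
    have h4 : ∀ c ∈ Cd q, ‖∑ χ : DirichletCharacter ℂ q, χ (c : ZMod q) *
        (gaussSum χ⁻¹ (ZMod.stdAddChar (N := q)) * EB χ X β)‖ ^ 2 =
        (Nat.totient q : ℝ) ^ 2 * ‖A c‖ ^ 2 := by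
      intro c hc
      have hcop : Nat.Coprime c q := (mem_filter.1 hc).2
      rw [← eqc_main X β hcop, norm_mul, mul_pow, Complex.norm_natCast]
    rw [sum_congr rfl h4, ← mul_sum] at h3
    have h5 : ∑ c ∈ Cd q, ‖A c‖ ^ 2 = ((Nat.totient q : ℝ) ^ 2)⁻¹ *
        ((Nat.totient q : ℝ) ^ 2 * ∑ c ∈ Cd q, ‖A c‖ ^ 2) := by
      field_simp
    rw [h5, h3]
    field_simp
  -- to primitive characters
  set G : Chr → ℝ := fun x => (x.1 : ℝ) * ‖EB x.2 X β‖ ^ 2 with hG
  have h3 : ∑ χ : DirichletCharacter ℂ q,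
      ‖gaussSum χ⁻¹ (ZMod.stdAddChar (N := q)) * EB χ X β‖ ^ 2 ≤
      2 * ∑ r ∈ q.divisors, r * ∑ χ ∈ Pr r, ‖EB χ X β‖ ^ 2 +
        8 * (Nat.totient q : ℝ) * q * L ^ 4 := by
    calc ∑ χ : DirichletCharacter ℂ q,
        ‖gaussSum χ⁻¹ (ZMod.stdAddChar (N := q)) * EB χ X β‖ ^ 2
        ≤ ∑ χ : DirichletCharacter ℂ q, (2 * G (prm χ) + 8 * q * L ^ 4) := by
          refine sum_le_sum fun χ _ => ?_
          rw [norm_mul, mul_pow]
          have h4 := eqc_gauss χ
          have h5 := eqc_prm hX hqX β χ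
          have h6 : ((prm χ).1 : ℝ) ≤ q := by
            exact_mod_cast Nat.le_of_dvd hq χ.conductor_dvd_level
          calc ‖gaussSum χ⁻¹ (ZMod.stdAddChar (N := q))‖ ^ 2 * ‖EB χ X β‖ ^ 2
              ≤ ((prm χ).1 : ℝ) * (2 * ‖EB (prm χ).2 X β‖ ^ 2 + 8 * L ^ 4) :=
                mul_le_mul h4 h5 (by positivity) (by positivity)
            _ = 2 * G (prm χ) + ((prm χ).1 : ℝ) * (8 * L ^ 4) := by rw [hG]; ring
            _ ≤ 2 * G (prm χ) + q * (8 * L ^ 4) := by
                have := mul_le_mul_of_nonneg_right h6 (by positivity : (0 : ℝ) ≤ 8 * L ^ 4)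
                linarith
            _ = _ := by ring
      _ = 2 * ∑ χ : DirichletCharacter ℂ q, G (prm χ) +
            (Fintype.card (DirichletCharacter ℂ q) : ℝ) * (8 * q * L ^ 4) := by
          rw [sum_add_distrib, ← mul_sum, sum_const, Finset.card_univ, nsmul_eq_mul]
      _ = _ := by
          rw [sum_chars q G, sum_sigma]
          have h7 : Fintype.card (DirichletCharacter ℂ q) = Nat.totient q := by
            rw [← Nat.card_eq_fintype_card, DirichletCharacter.card_eq_totient_of_hasEnoughRootsOfUnity]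
          rw [h7]
          simp only [hG]
          congr 1
          · congr 1
            refine sum_congr rfl fun r _ => ?_
            rw [mul_sum]
          · ring
  calc EQ X q β ≤ 2 * ∑ c ∈ Cd q, ‖A c‖ ^ 2 + 8 * q * L ^ 4 := h1
    _ ≤ 2 * ((1 / (Nat.totient q : ℝ)) *
        (2 * ∑ r ∈ q.divisors, r * ∑ χ ∈ Pr r, ‖EB χ X β‖ ^ 2 +
          8 * (Nat.totient q : ℝ) * q * L ^ 4)) + 8 * q * L ^ 4 := by
        rw [h2]
        have h4 := mul_le_mul_of_nonneg_left h3 (by positivity : (0 : ℝ) ≤ 1 / (Nat.totient q : ℝ))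
        linarith
    _ = _ := by
        field_simp
        ring


end Pool.Agent.XS

namespace Pool.Agent.XS

/-- alias -/
theorem eqch : type_of% @eqch_pr := @eqch_pr

end Pool.Agent.XS
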