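import Pool.Agent.Lib_helper26.XS.Defs
import Pool.Agent.Lib_helper26.XSF.EQC
import Pool.Agent.Lib_helper92.PVF.SHO
import Pool.Agent.Lib_helper92.HCF.MJR

/-! # Project XS, block DNR: near the centres -/

set_option autoImplicit false

namespace Pool.Agent.XS

open Finset Complex MeasureTheory Pool.Agent.Var35 Pool.Agent.Var73 Pool.Agent.HC Pool.Agent.MF
open scoped ArithmeticFunction ArithmeticFunction.Moebius

theorem dnr_EB_cont {q : ℕ} (χ : DirichletCharacter ℂ q) (X : ℝ) :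
    Continuous (fun β : ℝ => EB χ X β) := by
  classical
  have h1 : Continuous (fun β : ℝ => ∑ n ∈ Icc 1 ⌊X⌋₊, (Lam n : ℂ) * χ (n : ZMod q) *
      e (n * β)) := by
    refine continuous_finsetSum _ fun n _ => ?_
    exact continuous_const.mul (MJR_e_cont.comp (continuous_const.mul continuous_id))
  unfold EB
  refine h1.sub ?_
  by_cases h : χ = 1
  · simp only [if_pos h]
    exact MJR_Ic_cont X
  · simp only [if_neg h]
    exact continuous_const

theorem dnr_EQ_cont (X : ℝ) (q : ℕ) : Continuous (fun β : ℝ => EQ X q β) := by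
  unfold EQ
  refine continuous_finsetSum _ fun c _ => ?_
  refine ((Continuous.sub ?_ (continuous_const.mul (MJR_Ic_cont X))).norm).pow 2
  unfold S
  refine continuous_finsetSum _ fun n _ => ?_
  exact continuous_const.mul (MJR_e_cont.comp (continuous_const.mul
    (continuous_const.add continuous_id)))

theorem dnr_inner {R r : ℕ} (hr : 1 ≤ r) :
    ∑ q ∈ (Icc 1 R).filter (fun q => r ∣ q), 1 / (Nat.totient q : ℝ) ≤
      1 / (Nat.totient r : ℝ) * ∑ m ∈ Icc 1 R, 1 / (Nat.totient m : ℝ) := by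
  have h1 : (Icc 1 R).filter (fun q => r ∣ q) ⊆ (Icc 1 R).image (fun m => r * m) := by
    intro q hq
    rw [mem_filter, mem_Icc] at hq
    obtain ⟨⟨hq1, hq2⟩, m, rfl⟩ := hq
    rw [mem_image]
    have hm : 1 ≤ m := by
      rcases Nat.eq_zero_or_pos m with h | h
      · subst h
        simp at hq1
      · exact h
    exact ⟨m, mem_Icc.2 ⟨hm, (Nat.le_mul_of_pos_left m hr).trans hq2⟩, rfl⟩
  calc _ ≤ ∑ q ∈ (Icc 1 R).image (fun m => r * m), 1 / (Nat.totient q : ℝ) :=
        Finset.sum_le_sum_of_subset_of_nonneg h1 (fun _ _ _ => by positivity)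
    _ = ∑ m ∈ Icc 1 R, 1 / (Nat.totient (r * m) : ℝ) :=
        Finset.sum_image (fun a _ b _ h => Nat.eq_of_mul_eq_mul_left hr h)
    _ ≤ ∑ m ∈ Icc 1 R, 1 / (Nat.totient r : ℝ) * (1 / (Nat.totient m : ℝ)) := by
        refine Finset.sum_le_sum fun m hm => ?_
        rw [mem_Icc] at hm
        have h2 : (Nat.totient r * Nat.totient m : ℝ) ≤ Nat.totient (r * m) := by
          exact_mod_cast Nat.totient_super_multiplicative r m
        have h3 : (0 : ℝ) < Nat.totient r := by exact_mod_cast Nat.totient_pos.2 hr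
        have h4 : (0 : ℝ) < Nat.totient m := by exact_mod_cast Nat.totient_pos.2 hm.1
        rw [div_mul_div_comm, one_mul]
        exact one_div_le_one_div_of_le (mul_pos h3 h4) h2
    _ = _ := (Finset.mul_sum _ _ _).symm

/-- one denominator -/
theorem dnr_one {X : ℝ} {Y : ℕ} {V : ℝ} (hX : 3 ≤ X) (hY : 1 ≤ Y) (hV : 1 ≤ V) {q : ℕ}
    (hq : 1 ≤ q) (hqX : (q : ℝ) ≤ X) :
    (∫ β in (-(V / (q * Y)))..(V / (q * Y)), EQ X q β) ≤
      (∑ r ∈ q.divisors, 4 / (Nat.totient q : ℝ) * (r * ∑ χ ∈ Pr r,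
        ∫ β in (-(V / (r * Y)))..(V / (r * Y)), ‖EB χ X β‖ ^ 2)) +
      48 * (V / Y) * Real.log X ^ 4 := by
  have hY0 : (0 : ℝ) < Y := by exact_mod_cast hY
  have hq0 : (0 : ℝ) < q := by exact_mod_cast hq
  have hV0 : 0 < V := by linarith
  have hw : 0 ≤ V / (q * Y) := by positivity
  have hc : ∀ (r : ℕ) (χ : DirichletCharacter ℂ r), Continuous (fun β : ℝ => ‖EB χ X β‖ ^ 2) :=
    fun r χ => ((dnr_EB_cont χ X).norm).pow 2
  have hcs : ∀ r : ℕ, Continuous (fun β : ℝ => ∑ χ ∈ Pr r, ‖EB χ X β‖ ^ 2) :=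
    fun r => continuous_finsetSum _ fun χ _ => hc r χ
  have hcr : Continuous (fun β : ℝ => ∑ r ∈ q.divisors, (r : ℝ) * ∑ χ ∈ Pr r,
      ‖EB χ X β‖ ^ 2) := continuous_finsetSum _ fun r _ => continuous_const.mul (hcs r)
  have h1 : (∫ β in (-(V / (q * Y)))..(V / (q * Y)), EQ X q β) ≤
      ∫ β in (-(V / (q * Y)))..(V / (q * Y)), ((4 / (Nat.totient q : ℝ)) * ∑ r ∈ q.divisors,
        r * ∑ χ ∈ Pr r, ‖EB χ X β‖ ^ 2 + 24 * q * Real.log X ^ 4) := by
    refine intervalIntegral.integral_mono_on (by linarith)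
      ((dnr_EQ_cont X q).intervalIntegrable _ _)
      (((continuous_const.mul hcr).add continuous_const).intervalIntegrable _ _) ?_
    intro β _
    exact eqch hX hq hqX β
  refine h1.trans ?_
  have hc1 : Continuous (fun β : ℝ => (4 / (Nat.totient q : ℝ)) * ∑ r ∈ q.divisors,
      (r : ℝ) * ∑ χ ∈ Pr r, ‖EB χ X β‖ ^ 2) := continuous_const.mul hcr
  have hc2 : Continuous (fun _ : ℝ => 24 * (q : ℝ) * Real.log X ^ 4) := continuous_const
  have hc3 : ∀ r : ℕ, Continuous (fun β : ℝ => (r : ℝ) * ∑ χ ∈ Pr r, ‖EB χ X β‖ ^ 2) :=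
    fun r => continuous_const.mul (hcs r)
  rw [intervalIntegral.integral_add (hc1.intervalIntegrable _ _) (hc2.intervalIntegrable _ _),
    intervalIntegral.integral_const_mul, intervalIntegral.integral_const,
    intervalIntegral.integral_finsetSum (fun r _ => (hc3 r).intervalIntegrable _ _),
    Finset.mul_sum]
  refine add_le_add (Finset.sum_le_sum fun r hr => ?_) (le_of_eq ?_)
  · rw [Nat.mem_divisors] at hr
    have hrq : r ≤ q := Nat.le_of_dvd hq hr.1
    have hr1 : 1 ≤ r := Nat.pos_of_dvd_of_pos hr.1 hq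
    have hr0 : (0 : ℝ) < r := by exact_mod_cast hr1
    have hwr : V / (q * Y) ≤ V / (r * Y) := by
      refine div_le_div_of_nonneg_left hV0.le (by positivity) ?_
      exact mul_le_mul_of_nonneg_right (by exact_mod_cast hrq) hY0.le
    refine mul_le_mul_of_nonneg_left ?_ (by positivity)
    rw [intervalIntegral.integral_const_mul, intervalIntegral.integral_finsetSum
      (fun χ _ => (hc r χ).intervalIntegrable _ _)]
    refine mul_le_mul_of_nonneg_left (Finset.sum_le_sum fun χ _ => ?_) hr0.le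
    refine intervalIntegral.integral_mono_interval (by linarith) (by linarith) hwr ?_
      ((hc r χ).intervalIntegrable _ _)
    exact Filter.Eventually.of_forall fun β => by positivity
  · rw [smul_eq_mul]
    field_simp
    ring

theorem dnear_pr : ∃ C : ℝ, 1 ≤ C ∧ ∀ (X : ℝ) (Y : ℕ) (V : ℝ), 3 ≤ X →
    Real.sqrt X * Real.log X ^ 12 ≤ (Y : ℝ) → (Y : ℝ) ≤ X → 1 ≤ V →
    Y * ∑ q ∈ Icc 1 (RR X Y), (∫ β in (-(V / (q * Y)))..(V / (q * Y)), EQ X q β) ≤
      C * Real.log X * (Y * ∑ r ∈ Icc 1 (RR X Y), ((r : ℝ) / Nat.totient r) *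
        ∑ χ ∈ Pr r, ∫ β in (-(V / (r * Y)))..(V / (r * Y)), ‖EB χ X β‖ ^ 2) +
      C * V * (X / Y) * Real.log X ^ 12 := by
  obtain ⟨C', hC', hS⟩ := Pool.Agent.PV.shortsum_pr
  refine ⟨12 * C' + 48, by linarith, fun X Y V hX hY1 hY2 hV => ?_⟩
  have hX0 : 0 < X := by linarith
  have hL : 1 ≤ Real.log X := by
    rw [Real.le_log_iff_exp_le hX0]
    have := Real.exp_one_lt_d9
    linarith
  have hL0 : 0 < Real.log X := by linarith
  have hsq : 1 ≤ Real.sqrt X := by
    rw [Real.one_le_sqrt]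
    linarith
  have hL8 : Real.log X ^ 8 ≤ (Y : ℝ) := by
    calc Real.log X ^ 8 ≤ Real.log X ^ 12 := pow_le_pow_right₀ hL (by norm_num)
      _ = 1 * Real.log X ^ 12 := (one_mul _).symm
      _ ≤ Real.sqrt X * Real.log X ^ 12 := mul_le_mul_of_nonneg_right hsq (by positivity)
      _ ≤ Y := hY1
  have hY0 : (0 : ℝ) < Y := lt_of_lt_of_le (by positivity) hL8
  have hY : 1 ≤ Y := by exact_mod_cast hY0
  have hR1 : (RR X Y : ℝ) ≤ X / Y * Real.log X ^ 8 := Nat.floor_le (by positivity)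
  have hR2 : (RR X Y : ℝ) ≤ X := by
    refine hR1.trans ?_
    rw [div_mul_eq_mul_div, div_le_iff₀ hY0]
    exact mul_le_mul_of_nonneg_left hL8 hX0.le
  have hR3 : RR X Y ≤ ⌊X⌋₊ := Nat.le_floor hR2
  -- the sum of `1/φ`
  have hsum : ∑ m ∈ Icc 1 (RR X Y), 1 / (Nat.totient m : ℝ) ≤ C' * (3 * Real.log X) := by
    have h1 := hS (1 / 2) X (by norm_num) (by linarith)
    have h2 : Icc 1 (RR X Y) ⊆ (Icc 1 ⌊X⌋₊).filter (fun m : ℕ => (1 / 2 : ℝ) < m) := by
      intro m hm
      rw [mem_Icc] at hm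
      rw [mem_filter, mem_Icc]
      refine ⟨⟨hm.1, hm.2.trans hR3⟩, ?_⟩
      have h3 : (1 : ℝ) ≤ m := by exact_mod_cast hm.1
      linarith
    refine (Finset.sum_le_sum_of_subset_of_nonneg h2 (fun _ _ _ => by positivity)).trans
      (h1.trans (mul_le_mul_of_nonneg_left ?_ hC'.le))
    have h3 : X / (1 / 2) = 2 * X := by ring
    rw [h3, Real.log_mul (by norm_num) hX0.ne']
    have h4 := Real.log_two_lt_d9
    linarith
  set J : ℕ → ℝ := fun r => ∑ χ ∈ Pr r, ∫ β in (-(V / (r * Y)))..(V / (r * Y)),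
    ‖EB χ X β‖ ^ 2 with hJ
  have hJ0 : ∀ r, 0 ≤ J r := by
    intro r
    refine Finset.sum_nonneg fun χ _ => ?_
    have hw : 0 ≤ V / (r * Y) := by positivity
    exact intervalIntegral.integral_nonneg (by linarith) fun β _ => by positivity
  have h1 : ∑ q ∈ Icc 1 (RR X Y), (∫ β in (-(V / (q * Y)))..(V / (q * Y)), EQ X q β) ≤
      ∑ q ∈ Icc 1 (RR X Y), ((∑ r ∈ q.divisors, 4 / (Nat.totient q : ℝ) * (r * J r)) +
        48 * (V / Y) * Real.log X ^ 4) := by
    refine Finset.sum_le_sum fun q hq => ?_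
    rw [mem_Icc] at hq
    have hqX : (q : ℝ) ≤ X := le_trans (by exact_mod_cast hq.2) hR2
    exact dnr_one hX hY hV hq.1 hqX
  have h2 : ∑ q ∈ Icc 1 (RR X Y), (∑ r ∈ q.divisors, 4 / (Nat.totient q : ℝ) * (r * J r)) =
      ∑ r ∈ Icc 1 (RR X Y), (r * J r) * (4 * ∑ q ∈ (Icc 1 (RR X Y)).filter (fun q => r ∣ q),
        1 / (Nat.totient q : ℝ)) := by
    have h3 : ∀ q ∈ Icc 1 (RR X Y), ∑ r ∈ q.divisors, 4 / (Nat.totient q : ℝ) * (r * J r) =
        ∑ r ∈ Icc 1 (RR X Y), if r ∣ q then 4 / (Nat.totient q : ℝ) * (r * J r) else 0 := by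
      intro q hq
      rw [mem_Icc] at hq
      rw [← Finset.sum_filter]
      refine Finset.sum_congr ?_ fun _ _ => rfl
      ext r
      rw [Nat.mem_divisors, mem_filter, mem_Icc]
      constructor
      · intro h
        exact ⟨⟨Nat.pos_of_dvd_of_pos h.1 hq.1, (Nat.le_of_dvd hq.1 h.1).trans hq.2⟩, h.1⟩
      · intro h
        exact ⟨h.2, by omega⟩
    rw [Finset.sum_congr rfl h3, Finset.sum_comm]
    refine Finset.sum_congr rfl fun r _ => ?_
    rw [← Finset.sum_filter]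
    generalize J r = j
    rw [Finset.mul_sum, Finset.mul_sum]
    exact Finset.sum_congr rfl fun q _ => by ring
  have h3 : ∑ r ∈ Icc 1 (RR X Y), (r * J r) * (4 * ∑ q ∈ (Icc 1 (RR X Y)).filter
      (fun q => r ∣ q), 1 / (Nat.totient q : ℝ)) ≤
      12 * C' * Real.log X * ∑ r ∈ Icc 1 (RR X Y), ((r : ℝ) / Nat.totient r) * J r := by
    rw [Finset.mul_sum]
    refine Finset.sum_le_sum fun r hr => ?_
    rw [mem_Icc] at hr
    have hr0 : (0 : ℝ) < Nat.totient r := by exact_mod_cast Nat.totient_pos.2 hr.1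
    calc (r * J r) * (4 * ∑ q ∈ (Icc 1 (RR X Y)).filter (fun q => r ∣ q),
          1 / (Nat.totient q : ℝ)) ≤ (r * J r) * (4 * (1 / (Nat.totient r : ℝ) *
            (C' * (3 * Real.log X)))) := by
          refine mul_le_mul_of_nonneg_left ?_ (mul_nonneg (Nat.cast_nonneg r) (hJ0 r))
          refine mul_le_mul_of_nonneg_left ?_ (by norm_num)
          exact (dnr_inner hr.1).trans (mul_le_mul_of_nonneg_left hsum (by positivity))
      _ = 12 * C' * Real.log X * (((r : ℝ) / Nat.totient r) * J r) := by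
          field_simp
          ring
  have hJs : 0 ≤ ∑ r ∈ Icc 1 (RR X Y), ((r : ℝ) / Nat.totient r) * J r :=
    Finset.sum_nonneg fun r _ => mul_nonneg (by positivity) (hJ0 r)
  have h4 : (Y : ℝ) * (RR X Y * (48 * (V / Y) * Real.log X ^ 4)) ≤
      48 * V * (X / Y) * Real.log X ^ 12 := by
    have e1 : (Y : ℝ) * (RR X Y * (48 * (V / Y) * Real.log X ^ 4)) =
        (48 * V * Real.log X ^ 4) * RR X Y := by
      field_simp
    rw [e1]
    calc (48 * V * Real.log X ^ 4) * RR X Y ≤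
          (48 * V * Real.log X ^ 4) * (X / Y * Real.log X ^ 8) :=
          mul_le_mul_of_nonneg_left hR1 (by positivity)
      _ = _ := by ring
  rw [Finset.sum_add_distrib, h2, Finset.sum_const, Nat.card_Icc, Nat.add_sub_cancel,
    nsmul_eq_mul] at h1
  have h5 : (Y : ℝ) * ∑ q ∈ Icc 1 (RR X Y), (∫ β in (-(V / (q * Y)))..(V / (q * Y)), EQ X q β) ≤
      12 * C' * Real.log X * (Y * ∑ r ∈ Icc 1 (RR X Y), ((r : ℝ) / Nat.totient r) * J r) +
        48 * V * (X / Y) * Real.log X ^ 12 := by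
    calc (Y : ℝ) * ∑ q ∈ Icc 1 (RR X Y), (∫ β in (-(V / (q * Y)))..(V / (q * Y)), EQ X q β) ≤
          Y * (12 * C' * Real.log X * ∑ r ∈ Icc 1 (RR X Y), ((r : ℝ) / Nat.totient r) * J r +
            RR X Y * (48 * (V / Y) * Real.log X ^ 4)) :=
          mul_le_mul_of_nonneg_left (h1.trans (add_le_add h3 le_rfl)) hY0.le
      _ = 12 * C' * Real.log X * (Y * ∑ r ∈ Icc 1 (RR X Y), ((r : ℝ) / Nat.totient r) * J r) +
            Y * (RR X Y * (48 * (V / Y) * Real.log X ^ 4)) := by ring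
      _ ≤ _ := add_le_add le_rfl h4
  refine h5.trans (add_le_add ?_ ?_)
  · refine mul_le_mul_of_nonneg_right ?_ (mul_nonneg hY0.le hJs)
    refine mul_le_mul_of_nonneg_right ?_ hL0.le
    linarith
  · have h6 : 0 ≤ V * (X / Y) * Real.log X ^ 12 := by positivity
    nlinarith

end Pool.Agent.XS

namespace Pool.Agent.XS

/-- alias -/
theorem dnear : type_of% @dnear_pr := @dnear_pr

end Pool.Agent.XS
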