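import Pool.Agent.Lib_helper26.XS.Defs

/-!
# XS: block FM1 (dyadic integrals 1)
-/

set_option autoImplicit false

namespace Pool.Agent.XS

open Finset Complex MeasureTheory Pool.Agent.Var35 Pool.Agent.Var73 Pool.Agent.HC Pool.Agent.MF
open scoped ArithmeticFunction ArithmeticFunction.Moebius

theorem fm1_fold {f : ℝ → ℝ} (hf : Continuous f) (t : ℝ) :
    ∫ u in (-t)..t, f u = ∫ u in (0 : ℝ)..t, (f u + f (-u)) := by
  have h1 : ∫ u in (0 : ℝ)..t, f (-u) = ∫ u in (-t)..0, f u := by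
    rw [intervalIntegral.integral_comp_neg, neg_zero]
  rw [intervalIntegral.integral_add (f := f) (g := fun u => f (-u)) (hf.intervalIntegrable _ _)
    ((hf.comp continuous_neg).intervalIntegrable _ _), h1, add_comm,
    intervalIntegral.integral_add_adjacent_intervals (hf.intervalIntegrable _ _)
      (hf.intervalIntegrable _ _)]

theorem fm1_parts {ι : Type} (S : Finset ι) (h : ι → ℝ → ℝ) (hc : ∀ i ∈ S, Continuous (h i))
    {w w' B P P' : ℝ → ℝ} (hw : ∀ t, HasDerivAt w (w' t) t) (hw'c : Continuous w')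
    (hwe : ∀ t, w (-t) = w t) (hw0 : ∀ t, 0 ≤ w t) (hw' : ∀ t, 0 ≤ t → w' t ≤ 0)
    (hB : ∀ t, 0 ≤ t → ∑ i ∈ S, ∫ u in (-t)..t, h i u ^ 2 ≤ B t)
    (hP : ∀ t, HasDerivAt P (P' t) t) (hPc : Continuous P') (hPB : ∀ t, 0 ≤ t → -w' t * B t ≤ P' t)
    {T : ℝ} (hT : 0 ≤ T) :
    ∑ i ∈ S, ∫ t in (-T)..T, h i t ^ 2 * w t ≤ w T * B T + (P T - P 0) := by
  have hwc : Continuous w := continuous_iff_continuousAt.2 fun t => (hw t).continuousAt
  set g : ℝ → ℝ := fun t => ∑ i ∈ S, (h i t ^ 2 + h i (-t) ^ 2) with hg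
  have gc : Continuous g := continuous_finsetSum _ fun i hi =>
    ((hc i hi).pow 2).add (((hc i hi).comp continuous_neg).pow 2)
  set G : ℝ → ℝ := fun t => ∫ u in (0 : ℝ)..t, g u with hGdef
  have hG : ∀ t, HasDerivAt G (g t) t := fun t => (gc.integral_hasStrictDerivAt 0 t).hasDerivAt
  have eG : ∀ t, G t = ∑ i ∈ S, ∫ u in (-t)..t, h i u ^ 2 := by
    intro t
    rw [hGdef]
    show ∫ u in (0 : ℝ)..t, ∑ i ∈ S, (h i u ^ 2 + h i (-u) ^ 2) = _
    rw [intervalIntegral.integral_finsetSum]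
    · refine Finset.sum_congr rfl fun i hi => ?_
      exact (fm1_fold (f := fun u => h i u ^ 2) ((hc i hi).pow 2) t).symm
    · intro i hi
      exact (((hc i hi).pow 2).add (((hc i hi).comp continuous_neg).pow 2)).intervalIntegrable _ _
  have e1 : ∑ i ∈ S, ∫ t in (-T)..T, h i t ^ 2 * w t = ∫ t in (0 : ℝ)..T, w t * g t := by
    have h1 : ∀ t, w t * g t = ∑ i ∈ S, (h i t ^ 2 * w t + h i (-t) ^ 2 * w (-t)) := by
      intro t
      rw [hg, Finset.mul_sum]
      refine Finset.sum_congr rfl fun i _ => ?_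
      rw [hwe]
      ring
    simp only [h1]
    rw [intervalIntegral.integral_finsetSum]
    · refine Finset.sum_congr rfl fun i hi => ?_
      exact fm1_fold (f := fun u => h i u ^ 2 * w u) (((hc i hi).pow 2).mul hwc) T
    · intro i hi
      exact ((((hc i hi).pow 2).mul hwc).add
        ((((hc i hi).comp continuous_neg).pow 2).mul (hwc.comp continuous_neg))).intervalIntegrable _ _
  have e2 := intervalIntegral.integral_mul_deriv_eq_deriv_mul (a := 0) (b := T) (u := w) (v := G)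
    (u' := w') (v' := g) (fun t _ => hw t) (fun t _ => hG t) (hw'c.intervalIntegrable _ _)
    (gc.intervalIntegrable _ _)
  have hG0 : G 0 = 0 := by
    rw [hGdef]
    exact intervalIntegral.integral_same
  have hGc : Continuous G := continuous_iff_continuousAt.2 fun t => (hG t).continuousAt
  have hPi : ∫ t in (0 : ℝ)..T, P' t = P T - P 0 :=
    intervalIntegral.integral_eq_sub_of_hasDerivAt (fun t _ => hP t) (hPc.intervalIntegrable _ _)
  have h3 : -∫ t in (0 : ℝ)..T, w' t * G t ≤ P T - P 0 := by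
    rw [← hPi, ← intervalIntegral.integral_neg]
    refine intervalIntegral.integral_mono_on hT ((hw'c.mul hGc).neg.intervalIntegrable _ _)
      (hPc.intervalIntegrable _ _) ?_
    intro t ht
    refine le_trans ?_ (hPB t ht.1)
    have h4 : G t ≤ B t := (eG t).le.trans (hB t ht.1)
    have h5 := hw' t ht.1
    nlinarith
  rw [e1, e2, hG0]
  have h6 : G T ≤ B T := (eG T).le.trans (hB T hT)
  have h7 := mul_le_mul_of_nonneg_left h6 (hw0 T)
  linarith

theorem fm1_mono {ι : Type} {S : Finset ι} {h : ι → ℝ → ℝ} (hc : ∀ i ∈ S, Continuous (h i))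
    {t T : ℝ} (ht : 0 ≤ t) (htT : t ≤ T) :
    ∑ i ∈ S, ∫ u in (-t)..t, h i u ^ 2 ≤ ∑ i ∈ S, ∫ u in (-T)..T, h i u ^ 2 := by
  refine Finset.sum_le_sum fun i hi => ?_
  refine intervalIntegral.integral_mono_interval (by linarith) (by linarith) htT ?_
    (((hc i hi).pow 2).intervalIntegrable _ _)
  exact Filter.Eventually.of_forall fun u => sq_nonneg _

theorem fm1_M {ε M : ℝ} {ι : Type} {S : Finset ι} {h : ι → ℝ → ℝ}
    (hM : ∀ T : ℝ, 1 ≤ T → ∑ i ∈ S, ∫ t in (-T)..T, h i t ^ 2 ≤ M * T ^ (1 + ε)) : 0 ≤ M := by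
  have h1 := hM 1 le_rfl
  rw [Real.one_rpow, mul_one] at h1
  refine le_trans ?_ h1
  refine Finset.sum_nonneg fun i _ => ?_
  exact intervalIntegral.integral_nonneg (by norm_num) fun u _ => sq_nonneg _

/-- the bound for all `t ≥ 0` -/
theorem fm1_all {ε M : ℝ} (hε : 0 < ε) (hM0 : 0 ≤ M) {ι : Type} {S : Finset ι} {h : ι → ℝ → ℝ}
    (hc : ∀ i ∈ S, Continuous (h i))
    (hM : ∀ T : ℝ, 1 ≤ T → ∑ i ∈ S, ∫ t in (-T)..T, h i t ^ 2 ≤ M * T ^ (1 + ε)) {t : ℝ}
    (ht : 0 ≤ t) : ∑ i ∈ S, ∫ u in (-t)..t, h i u ^ 2 ≤ M * (max 1 (t ^ 2)) ^ ((1 + ε) / 2) := by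
  rcases le_total t 1 with h1 | h1
  · refine (fm1_mono hc ht h1).trans ((hM 1 le_rfl).trans ?_)
    refine mul_le_mul_of_nonneg_left ?_ hM0
    rw [Real.one_rpow]
    exact Real.one_le_rpow (le_max_left _ _) (by positivity)
  · refine (hM t h1).trans (mul_le_mul_of_nonneg_left ?_ hM0)
    have h2 : t ^ (1 + ε) = (t ^ 2) ^ ((1 + ε) / 2) := by
      rw [← Real.rpow_natCast t 2, ← Real.rpow_mul ht]
      congr 1
      push_cast
      ring
    rw [h2]
    exact Real.rpow_le_rpow (by positivity) (le_max_right _ _) (by positivity)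

/-- integrability from a uniform bound -/
theorem fm1_integrable {f : ℝ → ℝ} (hf : Continuous f) (h0 : ∀ t, 0 ≤ f t) {K : ℝ}
    (hK : ∀ T : ℝ, 0 ≤ T → ∫ t in (-T)..T, f t ≤ K) : Integrable f := by
  refine integrable_of_intervalIntegral_norm_bounded (ι := ℕ) (l := Filter.atTop)
    (a := fun n : ℕ => -(n : ℝ)) (b := fun n : ℕ => (n : ℝ)) K ?_ ?_ ?_ ?_
  · intro n
    exact (hf.integrableOn_Icc).mono_set Set.Ioc_subset_Icc_self
  · exact Filter.tendsto_neg_atTop_atBot.comp tendsto_natCast_atTop_atTop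
  · exact tendsto_natCast_atTop_atTop
  · refine Filter.Eventually.of_forall fun n => ?_
    refine le_trans (le_of_eq ?_) (hK n (Nat.cast_nonneg n))
    refine intervalIntegral.integral_congr fun t _ => ?_
    exact Real.norm_of_nonneg (h0 t)

/-- FM1 -/
theorem fam_int_pr {ε : ℝ} (hε : 0 < ε) (hε1 : ε ≤ 1 / 4) (h : ℝ → ℝ) (hc : Continuous h)
    {M : ℝ} (hM : ∀ T : ℝ, 1 ≤ T → ∫ t in (-T)..T, h t ^ 2 ≤ M * T ^ (1 + ε)) :
    Integrable (fun t => h t ^ 2 / (1 + t ^ 2)) := by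
  have hM' : ∀ T : ℝ, 1 ≤ T →
      ∑ i ∈ ({()} : Finset Unit), ∫ t in (-T)..T, (fun _ : Unit => h) i t ^ 2 ≤ M * T ^ (1 + ε) := by
    intro T hT
    rw [Finset.sum_singleton]
    exact hM T hT
  have hM0 : 0 ≤ M := fm1_M hM'
  have hpos : ∀ t : ℝ, 0 < 1 + t ^ 2 := fun t => by positivity
  have hcont1 : Continuous fun t : ℝ => 1 + t ^ 2 := by fun_prop
  have hder1 : ∀ t : ℝ, HasDerivAt (fun t : ℝ => 1 + t ^ 2) (2 * t) t := by
    intro t
    simpa using (hasDerivAt_pow 2 t).const_add 1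
  have key : ∀ T : ℝ, 0 ≤ T → ∫ t in (-T)..T, h t ^ 2 * (1 + t ^ 2)⁻¹ ≤ M + 8 / 3 * M := by
    intro T hT
    have h1 := fm1_parts ({()} : Finset Unit) (fun _ => h) (fun _ _ => hc)
      (w := fun t => (1 + t ^ 2)⁻¹) (w' := fun t => -(2 * t) / (1 + t ^ 2) ^ 2)
      (B := fun t => M * (1 + t ^ 2) ^ (5 / 8 : ℝ))
      (P := fun t => -(8 / 3 * M) * (1 + t ^ 2) ^ (-3 / 8 : ℝ))
      (P' := fun t => -(8 / 3 * M) * (2 * t * (-3 / 8) * (1 + t ^ 2) ^ (-3 / 8 - 1 : ℝ)))
      (fun t => (hder1 t).inv (hpos t).ne')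
      ((continuous_const.mul continuous_id).neg.div (hcont1.pow 2) fun t => by
        have := hpos t
        positivity)
      (fun t => by ring) (fun t => by have := hpos t; positivity)
      (fun t ht => by
        have := hpos t
        rw [neg_div, neg_nonpos]
        positivity)
      (fun t ht => by
        refine (fm1_all hε hM0 (fun _ _ => hc) hM' ht).trans (mul_le_mul_of_nonneg_left ?_ hM0)
        have h9 : max 1 (t ^ 2) ≤ 1 + t ^ 2 :=
          max_le (by nlinarith [sq_nonneg t]) (by linarith)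
        refine le_trans (Real.rpow_le_rpow (by positivity) h9 (by positivity)) ?_
        exact Real.rpow_le_rpow_of_exponent_le (by nlinarith [sq_nonneg t]) (by linarith))
      (fun t => ((hder1 t).rpow_const (Or.inl (hpos t).ne')).const_mul _)
      (by
        refine continuous_const.mul (((continuous_const.mul continuous_id).mul
          continuous_const).mul ?_)
        exact hcont1.rpow_const fun t => Or.inl (hpos t).ne')
      (fun t ht => by
        apply le_of_eq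
        have h2 : (1 + t ^ 2) ^ (-3 / 8 - 1 : ℝ) = (1 + t ^ 2) ^ (5 / 8 : ℝ) / (1 + t ^ 2) ^ 2 := by
          rw [← Real.rpow_natCast (1 + t ^ 2) 2, ← Real.rpow_sub (hpos t)]
          norm_num
        rw [h2]
        ring)
      hT
    rw [Finset.sum_singleton] at h1
    refine h1.trans ?_
    have h3 : (1 + T ^ 2)⁻¹ * (M * (1 + T ^ 2) ^ (5 / 8 : ℝ)) ≤ M := by
      have h4 : (1 + T ^ 2) ^ (5 / 8 : ℝ) ≤ (1 + T ^ 2) := by
        conv_rhs => rw [← Real.rpow_one (1 + T ^ 2)]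
        exact Real.rpow_le_rpow_of_exponent_le (by nlinarith [sq_nonneg T]) (by norm_num)
      have h5 := hpos T
      rw [inv_mul_le_iff₀ h5]
      nlinarith
    have h6 : 0 ≤ (8 / 3 * M) * (1 + T ^ 2) ^ (-3 / 8 : ℝ) := by
      have := hpos T
      positivity
    have h7 : (1 + (0 : ℝ) ^ 2) ^ (-3 / 8 : ℝ) = 1 := by
      norm_num
    simp only [h7]
    linarith
  have h8 := fm1_integrable (f := fun t => h t ^ 2 * (1 + t ^ 2)⁻¹)
    ((hc.pow 2).mul (hcont1.inv₀ fun t => (hpos t).ne'))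
    (fun t => by have := hpos t; positivity) key
  simpa only [div_eq_mul_inv] using h8

/-- FM1 -/
theorem fam_one_pr {ε : ℝ} (hε : 0 < ε) (hε1 : ε ≤ 1 / 4) : ∃ C : ℝ, 1 ≤ C ∧ ∀ (ι : Type)
    (S : Finset ι) (h : ι → ℝ → ℝ), (∀ i ∈ S, Continuous (h i)) → ∀ M : ℝ, 0 ≤ M →
    (∀ T : ℝ, 1 ≤ T → ∑ i ∈ S, ∫ t in (-T)..T, h i t ^ 2 ≤ M * T ^ (1 + ε)) →
    ∀ lam : ℝ, 0 < lam → lam ≤ 1 →
    ∑ i ∈ S, Q1 lam (h i) ≤ C * M * lam ^ (-((1 + ε) / 2)) := by
  refine ⟨3 / 2, by norm_num, ?_⟩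
  intro ι S h hc M hM0 hM lam hl hl1
  set K : ℝ := M * lam ^ (-((1 + ε) / 2)) with hK
  have hK0 : 0 ≤ K := by positivity
  have hder : ∀ t : ℝ, HasDerivAt (fun t : ℝ => Real.exp (-(2 * lam * t ^ 2)))
      (-(4 * lam * t) * Real.exp (-(2 * lam * t ^ 2))) t := by
    intro t
    have h1 : HasDerivAt (fun t : ℝ => -(2 * lam * t ^ 2)) (-(4 * lam * t)) t := by
      have := ((hasDerivAt_pow 2 t).const_mul (2 * lam)).neg
      refine this.congr_deriv ?_
      push_cast
      ring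
    refine (h1.exp).congr_deriv ?_
    ring
  have hwc : Continuous fun t : ℝ => Real.exp (-(2 * lam * t ^ 2)) := by fun_prop
  have hB : ∀ t : ℝ, 0 ≤ t → ∑ i ∈ S, ∫ u in (-t)..t, h i u ^ 2 ≤ K * (1 + lam * t ^ 2) := by
    intro t ht
    refine (fm1_all hε hM0 hc hM ht).trans ?_
    rw [hK, mul_assoc]
    refine mul_le_mul_of_nonneg_left ?_ hM0
    have h1 : max 1 (t ^ 2) ≤ lam⁻¹ * (1 + lam * t ^ 2) := by
      rw [mul_add, ← mul_assoc, inv_mul_cancel₀ hl.ne', one_mul, mul_one]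
      have h2 : 1 ≤ lam⁻¹ := (one_le_inv₀ hl).2 hl1
      exact max_le (by nlinarith [sq_nonneg t]) (by linarith)
    refine (Real.rpow_le_rpow (by positivity) h1 (by positivity)).trans ?_
    rw [Real.mul_rpow (by positivity) (by positivity), Real.rpow_neg hl.le,
      Real.inv_rpow hl.le]
    refine mul_le_mul_of_nonneg_left ?_ (by positivity)
    conv_rhs => rw [← Real.rpow_one (1 + lam * t ^ 2)]
    refine Real.rpow_le_rpow_of_exponent_le ?_ (by linarith)
    have : 0 ≤ lam * t ^ 2 := by positivity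
    linarith
  have key : ∀ T : ℝ, 0 ≤ T →
      ∑ i ∈ S, ∫ t in (-T)..T, h i t ^ 2 * Real.exp (-(2 * lam * t ^ 2)) ≤ 3 / 2 * K := by
    intro T hT
    have h1 := fm1_parts S h hc
      (w := fun t => Real.exp (-(2 * lam * t ^ 2)))
      (w' := fun t => -(4 * lam * t) * Real.exp (-(2 * lam * t ^ 2)))
      (B := fun t => K * (1 + lam * t ^ 2))
      (P := fun t => -K * ((3 / 2 + lam * t ^ 2) * Real.exp (-(2 * lam * t ^ 2))))
      (P' := fun t => -K * ((2 * lam * t) * Real.exp (-(2 * lam * t ^ 2)) +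
        (3 / 2 + lam * t ^ 2) * (-(4 * lam * t) * Real.exp (-(2 * lam * t ^ 2)))))
      hder (by fun_prop) (fun t => by simp only [neg_sq]) (fun t => (Real.exp_pos _).le)
      (fun t ht => by
        rw [neg_mul, neg_nonpos]
        positivity)
      hB
      (fun t => by
        have h2 : HasDerivAt (fun t : ℝ => 3 / 2 + lam * t ^ 2) (2 * lam * t) t := by
          have := ((hasDerivAt_pow 2 t).const_mul lam).const_add (3 / 2)
          refine this.congr_deriv ?_
          push_cast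
          ring
        exact (h2.mul (hder t)).const_mul _)
      (by fun_prop)
      (fun t ht => by
        apply le_of_eq
        ring)
      hT
    refine h1.trans ?_
    have h3 : 0 < Real.exp (-(2 * lam * T ^ 2)) := Real.exp_pos _
    have h4 : Real.exp (-(2 * lam * (0 : ℝ) ^ 2)) = 1 := by norm_num
    simp only [h4]
    nlinarith [mul_nonneg hK0 h3.le]
  have hint : ∀ i ∈ S, Integrable (fun t => h i t ^ 2 * Real.exp (-(2 * lam * t ^ 2))) := by
    intro i hi
    refine fm1_integrable (((hc i hi).pow 2).mul hwc) (fun t => by positivity) (K := 3 / 2 * K) ?_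
    intro T hT
    refine le_trans ?_ (key T hT)
    refine Finset.single_le_sum (f := fun i => ∫ t in (-T)..T, h i t ^ 2 *
      Real.exp (-(2 * lam * t ^ 2))) (fun j _ => ?_) hi
    exact intervalIntegral.integral_nonneg (by linarith) fun u _ => by positivity
  have hlim : Filter.Tendsto (fun n : ℕ => ∑ i ∈ S, ∫ t in (-(n : ℝ))..(n : ℝ), h i t ^ 2 *
      Real.exp (-(2 * lam * t ^ 2))) Filter.atTop (nhds (∑ i ∈ S, Q1 lam (h i))) := by
    refine tendsto_finsetSum _ fun i hi => ?_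
    exact intervalIntegral_tendsto_integral (hint i hi)
      (Filter.tendsto_neg_atTop_atBot.comp tendsto_natCast_atTop_atTop)
      tendsto_natCast_atTop_atTop
  refine (le_of_tendsto' hlim fun n => key n (Nat.cast_nonneg n)).trans (le_of_eq ?_)
  rw [hK]
  ring


end Pool.Agent.XS

namespace Pool.Agent.XS

/-- alias -/
theorem fam_int : type_of% @fam_int_pr := @fam_int_pr

/-- alias -/
theorem fam_one : type_of% @fam_one_pr := @fam_one_pr

end Pool.Agent.XS
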