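import Pool.Agent.Lib_helper26.XS.Defs

/-! Block FM2 of project XS (helper26): dyadic integrals 2. -/

set_option autoImplicit false

namespace Pool.Agent.XS

open Finset Complex MeasureTheory Pool.Agent.Var35 Pool.Agent.Var73 Pool.Agent.HC Pool.Agent.MF
open scoped ArithmeticFunction ArithmeticFunction.Moebius

/-- the weight -/
private noncomputable def fm2_W (r t : ℝ) : ℝ := (1 + |t|) ^ (-r)

private theorem fm2_W_cont (r : ℝ) : Continuous (fm2_W r) := by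
  unfold fm2_W
  refine Continuous.rpow_const (by fun_prop) (fun t => Or.inl ?_)
  have := abs_nonneg t
  positivity

private theorem fm2_W_nonneg (r t : ℝ) : 0 ≤ fm2_W r t := by
  unfold fm2_W
  positivity

private theorem fm2_W_le {r b t : ℝ} (hr : 0 ≤ r) (hb : 0 < b) (ht : b ≤ |t|) :
    fm2_W r t ≤ b ^ (-r) := by
  unfold fm2_W
  exact Real.rpow_le_rpow_of_nonpos hb (by linarith) (by linarith)

/-- one dyadic step -/
private theorem fm2_step {G : ℝ → ℝ} (hG : Continuous G) (h0 : ∀ t, 0 ≤ G t) {r b : ℝ}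
    (hr : 0 ≤ r) (hb : 0 < b) :
    ∫ t in (-(2 * b))..(2 * b), G t * fm2_W r t ≤
      (∫ t in (-b)..b, G t * fm2_W r t) + b ^ (-r) * ∫ t in (-(2 * b))..(2 * b), G t := by
  have hc : Continuous fun t => G t * fm2_W r t := hG.mul (fm2_W_cont r)
  have e1 : ∫ t in (-(2 * b))..(2 * b), G t * fm2_W r t =
      (∫ t in (-(2 * b))..(-b), G t * fm2_W r t) + (∫ t in (-b)..b, G t * fm2_W r t) +
        ∫ t in b..(2 * b), G t * fm2_W r t := by
    rw [intervalIntegral.integral_add_adjacent_intervals (hc.intervalIntegrable _ _)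
      (hc.intervalIntegrable _ _), intervalIntegral.integral_add_adjacent_intervals
      (hc.intervalIntegrable _ _) (hc.intervalIntegrable _ _)]
  have e2 : ∫ t in (-(2 * b))..(2 * b), G t =
      (∫ t in (-(2 * b))..(-b), G t) + (∫ t in (-b)..b, G t) + ∫ t in b..(2 * b), G t := by
    rw [intervalIntegral.integral_add_adjacent_intervals (hG.intervalIntegrable _ _)
      (hG.intervalIntegrable _ _), intervalIntegral.integral_add_adjacent_intervals
      (hG.intervalIntegrable _ _) (hG.intervalIntegrable _ _)]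
  have f1 : ∫ t in (-(2 * b))..(-b), G t * fm2_W r t ≤
      ∫ t in (-(2 * b))..(-b), G t * b ^ (-r) := by
    refine intervalIntegral.integral_mono_on (by linarith) (hc.intervalIntegrable _ _)
      ((hG.mul continuous_const).intervalIntegrable _ _) fun t ht => ?_
    refine mul_le_mul_of_nonneg_left (fm2_W_le hr hb ?_) (h0 t)
    rw [abs_of_nonpos (by linarith [ht.2])]
    linarith [ht.2]
  have f2 : ∫ t in b..(2 * b), G t * fm2_W r t ≤ ∫ t in b..(2 * b), G t * b ^ (-r) := by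
    refine intervalIntegral.integral_mono_on (by linarith) (hc.intervalIntegrable _ _)
      ((hG.mul continuous_const).intervalIntegrable _ _) fun t ht => ?_
    refine mul_le_mul_of_nonneg_left (fm2_W_le hr hb ?_) (h0 t)
    rw [abs_of_nonneg (by linarith [ht.1])]
    exact ht.1
  rw [intervalIntegral.integral_mul_const] at f1 f2
  have f3 : 0 ≤ ∫ t in (-b)..b, G t :=
    intervalIntegral.integral_nonneg (by linarith) fun t _ => h0 t
  have f4 : 0 ≤ b ^ (-r) := (Real.rpow_pos_of_pos hb _).le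
  have f5 := mul_nonneg f4 f3
  rw [e1, e2]
  nlinarith [f1, f2, f5]

/-- the integral over a dyadic interval -/
private theorem fm2_dy {G : ℝ → ℝ} (hG : Continuous G) (h0 : ∀ t, 0 ≤ G t) {M r ε : ℝ}
    (hM0 : 0 ≤ M) (hε : 0 < ε) (hε1 : ε ≤ 1 / 4) (hr : r = 1 + 3 * ε / 2)
    (hM : ∀ T : ℝ, 1 ≤ T → ∫ t in (-T)..T, G t ≤ M * T ^ (1 + ε)) (n : ℕ) :
    ∫ t in (-((2 : ℝ) ^ n))..((2 : ℝ) ^ n), G t * fm2_W r t ≤
      M * (1 + 4 * ((1 - ((2 : ℝ) ^ (-(ε / 2))) ^ n) / (1 - (2 : ℝ) ^ (-(ε / 2))))) := by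
  have hq1 : (2 : ℝ) ^ (-(ε / 2)) < 1 := Real.rpow_lt_one_of_one_lt_of_neg (by norm_num) (by linarith)
  have hq0 : 0 < (2 : ℝ) ^ (-(ε / 2)) := Real.rpow_pos_of_pos (by norm_num) _
  have hr0 : 0 ≤ r := by rw [hr]; positivity
  induction n with
  | zero =>
    simp only [pow_zero, sub_self, zero_div, mul_zero, add_zero, mul_one]
    have h1 := hM 1 le_rfl
    rw [Real.one_rpow, mul_one] at h1
    refine le_trans ?_ h1
    refine intervalIntegral.integral_mono_on (by norm_num)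
      ((hG.mul (fm2_W_cont r)).intervalIntegrable _ _) (hG.intervalIntegrable _ _) fun t _ => ?_
    have h2 : fm2_W r t ≤ 1 := by
      unfold fm2_W
      exact Real.rpow_le_one_of_one_le_of_nonpos (by linarith [abs_nonneg t]) (by linarith)
    calc G t * fm2_W r t ≤ G t * 1 := mul_le_mul_of_nonneg_left h2 (h0 t)
      _ = G t := mul_one _
  | succ n ih =>
    have hb : (0 : ℝ) < 2 ^ n := by positivity
    have h1 := fm2_step hG h0 hr0 hb
    have h2 : (2 : ℝ) ^ (n + 1) = 2 * 2 ^ n := by rw [pow_succ]; ring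
    rw [h2]
    refine h1.trans ?_
    have h3 := hM (2 * 2 ^ n) (by
      have : (1 : ℝ) ≤ 2 ^ n := one_le_pow₀ (by norm_num)
      linarith)
    have h4 : ((2 : ℝ) ^ n) ^ (-r) * (M * (2 * 2 ^ n) ^ (1 + ε)) ≤
        M * (4 * ((2 : ℝ) ^ (-(ε / 2))) ^ n) := by
      rw [Real.mul_rpow (by norm_num) hb.le]
      have h5 : ((2 : ℝ) ^ n) ^ (-r) * ((2 : ℝ) ^ n) ^ (1 + ε) = ((2 : ℝ) ^ (-(ε / 2))) ^ n := by
        rw [← Real.rpow_add hb, hr, ← Real.rpow_natCast, ← Real.rpow_natCast, ← Real.rpow_mul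
          (by norm_num), ← Real.rpow_mul (by norm_num)]
        congr 1
        ring
      have h6 : (2 : ℝ) ^ (1 + ε) ≤ 4 := by
        calc (2 : ℝ) ^ (1 + ε) ≤ (2 : ℝ) ^ (2 : ℝ) :=
              Real.rpow_le_rpow_of_exponent_le (by norm_num) (by linarith)
          _ = 4 := by norm_num
      calc ((2 : ℝ) ^ n) ^ (-r) * (M * ((2 : ℝ) ^ (1 + ε) * ((2 : ℝ) ^ n) ^ (1 + ε)))
          = M * ((2 : ℝ) ^ (1 + ε) * (((2 : ℝ) ^ n) ^ (-r) * ((2 : ℝ) ^ n) ^ (1 + ε))) := by ring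
        _ = M * ((2 : ℝ) ^ (1 + ε) * ((2 : ℝ) ^ (-(ε / 2))) ^ n) := by rw [h5]
        _ ≤ _ := by gcongr
    have h7 : ((2 : ℝ) ^ n) ^ (-r) * ∫ t in (-(2 * (2 : ℝ) ^ n))..(2 * 2 ^ n), G t ≤
        M * (4 * ((2 : ℝ) ^ (-(ε / 2))) ^ n) :=
      (mul_le_mul_of_nonneg_left h3 (Real.rpow_pos_of_pos hb _).le).trans h4
    refine (add_le_add ih h7).trans (le_of_eq ?_)
    have h8 : (1 : ℝ) - (2 : ℝ) ^ (-(ε / 2)) ≠ 0 := by linarith
    field_simp
    ring

private noncomputable def fm2_C (ε : ℝ) : ℝ := 1 + 4 / (1 - (2 : ℝ) ^ (-(ε / 2)))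

private theorem fm2_dy' {G : ℝ → ℝ} (hG : Continuous G) (h0 : ∀ t, 0 ≤ G t) {M r ε : ℝ}
    (hM0 : 0 ≤ M) (hε : 0 < ε) (hε1 : ε ≤ 1 / 4) (hr : r = 1 + 3 * ε / 2)
    (hM : ∀ T : ℝ, 1 ≤ T → ∫ t in (-T)..T, G t ≤ M * T ^ (1 + ε)) (n : ℕ) :
    ∫ t in (-((2 : ℝ) ^ n))..((2 : ℝ) ^ n), G t * fm2_W r t ≤ M * fm2_C ε := by
  have hq1 : (2 : ℝ) ^ (-(ε / 2)) < 1 := Real.rpow_lt_one_of_one_lt_of_neg (by norm_num) (by linarith)
  have hq0 : 0 < (2 : ℝ) ^ (-(ε / 2)) := Real.rpow_pos_of_pos (by norm_num) _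
  refine (fm2_dy hG h0 hM0 hε hε1 hr hM n).trans ?_
  unfold fm2_C
  have h1 : (0 : ℝ) < 1 - (2 : ℝ) ^ (-(ε / 2)) := by linarith
  have h2 : (1 - ((2 : ℝ) ^ (-(ε / 2))) ^ n) / (1 - (2 : ℝ) ^ (-(ε / 2))) ≤
      1 / (1 - (2 : ℝ) ^ (-(ε / 2))) := by
    apply div_le_div_of_nonneg_right _ h1.le
    have := pow_nonneg hq0.le n
    linarith
  have h3 : 4 * ((1 - ((2 : ℝ) ^ (-(ε / 2))) ^ n) / (1 - (2 : ℝ) ^ (-(ε / 2)))) ≤
      4 / (1 - (2 : ℝ) ^ (-(ε / 2))) := by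
    calc _ ≤ 4 * (1 / (1 - (2 : ℝ) ^ (-(ε / 2)))) := by linarith
      _ = _ := by ring
  exact mul_le_mul_of_nonneg_left (by linarith) hM0

private theorem fm2_int {G : ℝ → ℝ} (hG : Continuous G) (h0 : ∀ t, 0 ≤ G t) {M r ε : ℝ}
    (hM0 : 0 ≤ M) (hε : 0 < ε) (hε1 : ε ≤ 1 / 4) (hr : r = 1 + 3 * ε / 2)
    (hM : ∀ T : ℝ, 1 ≤ T → ∫ t in (-T)..T, G t ≤ M * T ^ (1 + ε)) :
    Integrable (fun t => G t * fm2_W r t) ∧ ∫ t, G t * fm2_W r t ≤ M * fm2_C ε := by
  have hc : Continuous fun t => G t * fm2_W r t := hG.mul (fm2_W_cont r)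
  have ta : Filter.Tendsto (fun n : ℕ => -((2 : ℝ) ^ n)) Filter.atTop Filter.atBot :=
    Filter.tendsto_neg_atTop_atBot.comp (tendsto_pow_atTop_atTop_of_one_lt (by norm_num))
  have tb : Filter.Tendsto (fun n : ℕ => (2 : ℝ) ^ n) Filter.atTop Filter.atTop :=
    tendsto_pow_atTop_atTop_of_one_lt (by norm_num)
  have hi : Integrable (fun t => G t * fm2_W r t) := by
    refine integrable_of_intervalIntegral_norm_bounded (M * fm2_C ε)
      (a := fun n : ℕ => -((2 : ℝ) ^ n)) (b := fun n : ℕ => (2 : ℝ) ^ n)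
      (fun n => (hc.integrableOn_Icc).mono_set Set.Ioc_subset_Icc_self) ta tb
      (Filter.Eventually.of_forall fun n => ?_)
    have h1 : (fun t => ‖G t * fm2_W r t‖) = fun t => G t * fm2_W r t := by
      funext t
      exact Real.norm_of_nonneg (mul_nonneg (h0 t) (fm2_W_nonneg r t))
    simp only [h1]
    exact fm2_dy' hG h0 hM0 hε hε1 hr hM n
  refine ⟨hi, ?_⟩
  exact le_of_tendsto' (intervalIntegral_tendsto_integral hi ta tb)
    (fun n => fm2_dy' hG h0 hM0 hε hε1 hr hM n)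

/-- the Gaussian factor -/
private theorem fm2_gauss {lam b : ℝ} (hl : 0 < lam) (hl1 : lam ≤ 1) (hb : 0 ≤ b) (hb1 : b ≤ 1)
    (t : ℝ) : Real.exp (-(lam * t ^ 2)) / (1 + |t|) ≤ 2 * lam ^ (-b) * fm2_W (1 + 2 * b) t := by
  have h1 : 0 < 1 + |t| := by have := abs_nonneg t; positivity
  have h2 : (lam * (1 + |t|) ^ 2) ^ b ≤ 2 + 2 * (lam * t ^ 2) := by
    have h3 : lam * (1 + |t|) ^ 2 ≤ 2 + 2 * (lam * t ^ 2) := by
      have h4 : (1 + |t|) ^ 2 ≤ 2 + 2 * t ^ 2 := by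
        nlinarith [sq_nonneg (1 - |t|), sq_abs t]
      nlinarith [mul_le_mul_of_nonneg_left h4 hl.le]
    have h5 : 0 ≤ lam * t ^ 2 := by positivity
    calc (lam * (1 + |t|) ^ 2) ^ b ≤ (2 + 2 * (lam * t ^ 2)) ^ b :=
          Real.rpow_le_rpow (by positivity) h3 hb
      _ ≤ (2 + 2 * (lam * t ^ 2)) ^ (1 : ℝ) :=
          Real.rpow_le_rpow_of_exponent_le (by linarith) hb1
      _ = _ := Real.rpow_one _
  have h6 : (2 + 2 * (lam * t ^ 2)) * Real.exp (-(lam * t ^ 2)) ≤ 2 := by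
    have h7 := Real.add_one_le_exp (lam * t ^ 2)
    have h8 : Real.exp (lam * t ^ 2) * Real.exp (-(lam * t ^ 2)) = 1 := by
      rw [← Real.exp_add]; simp
    nlinarith [Real.exp_pos (-(lam * t ^ 2)), mul_le_mul_of_nonneg_right h7
      (Real.exp_pos (-(lam * t ^ 2))).le]
  have h9 : (lam * (1 + |t|) ^ 2) ^ b = lam ^ b * (1 + |t|) ^ (2 * b) := by
    rw [Real.mul_rpow hl.le (by positivity), ← Real.rpow_natCast (1 + |t|) 2, ← Real.rpow_mul h1.le]
    norm_num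
  have h10 : fm2_W (1 + 2 * b) t = (1 + |t|) ^ (-(2 * b)) / (1 + |t|) := by
    unfold fm2_W
    rw [neg_add, Real.rpow_add h1, Real.rpow_neg_one]
    ring
  rw [h10, ← mul_div_assoc]
  refine div_le_div_of_nonneg_right ?_ h1.le
  have h11 : 0 < lam ^ b * (1 + |t|) ^ (2 * b) := by positivity
  have h12 : Real.exp (-(lam * t ^ 2)) * (lam ^ b * (1 + |t|) ^ (2 * b)) ≤ 2 := by
    rw [← h9]
    calc _ ≤ Real.exp (-(lam * t ^ 2)) * (2 + 2 * (lam * t ^ 2)) :=
          mul_le_mul_of_nonneg_left h2 (Real.exp_pos _).le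
      _ ≤ 2 := by rw [mul_comm]; exact h6
  rw [Real.rpow_neg hl.le, Real.rpow_neg h1.le]
  have h13 : 2 * (lam ^ b)⁻¹ * ((1 + |t|) ^ (2 * b))⁻¹ = 2 / (lam ^ b * (1 + |t|) ^ (2 * b)) := by
    field_simp
  rw [h13, le_div_iff₀ h11]
  exact h12

theorem fam_two_pr {ε : ℝ} (hε : 0 < ε) (hε1 : ε ≤ 1 / 4) : ∃ C : ℝ, 1 ≤ C ∧ ∀ (ι : Type)
    (S : Finset ι) (h : ι → ℝ → ℝ), (∀ i ∈ S, Continuous (h i)) → (∀ i ∈ S, ∀ t, 0 ≤ h i t) →
    ∀ M : ℝ, 0 ≤ M →
    (∀ T : ℝ, 1 ≤ T → ∑ i ∈ S, ∫ t in (-T)..T, h i t ^ 2 ≤ M * T ^ (1 + ε)) →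
    ∀ lam : ℝ, 0 < lam → lam ≤ 1 →
    ∑ i ∈ S, Q2 lam (h i) ≤ C * M * lam ^ (-ε) := by
  classical
  have hA : Integrable (fun t : ℝ => fm2_W (1 + 2 * (ε / 4)) t) := by
    refine integrable_one_add_norm (E := ℝ) (r := 1 + 2 * (ε / 4)) ?_
    simp only [Module.finrank_self, Nat.cast_one]
    linarith
  set A : ℝ := ∫ t : ℝ, fm2_W (1 + 2 * (ε / 4)) t with hAdef
  have hA0 : 0 ≤ A := integral_nonneg fun t => fm2_W_nonneg _ t
  refine ⟨max 1 (4 * A * fm2_C ε), le_max_left _ _, ?_⟩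
  intro ι S h hc h0 M hM0 hM lam hl hl1
  let r : ℝ := 1 + 3 * ε / 2
  have hr : r = 1 + 3 * ε / 2 := rfl
  -- the individual functions
  have hMi : ∀ i ∈ S, ∀ T : ℝ, 1 ≤ T → ∫ t in (-T)..T, h i t ^ 2 ≤ M * T ^ (1 + ε) := by
    intro i hi T hT
    refine le_trans ?_ (hM T hT)
    exact Finset.single_le_sum (f := fun i => ∫ t in (-T)..T, h i t ^ 2)
      (fun j _ => intervalIntegral.integral_nonneg (by linarith) fun t _ => sq_nonneg _) hi
  have hint : ∀ i ∈ S, Integrable (fun t => h i t ^ 2 * fm2_W r t) := fun i hi =>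
    (fm2_int ((hc i hi).pow 2) (fun t => sq_nonneg _) hM0 hε hε1 hr (hMi i hi)).1
  have hsum : ∑ i ∈ S, ∫ t, h i t ^ 2 * fm2_W r t ≤ M * fm2_C ε := by
    have h1 : Continuous fun t => ∑ i ∈ S, h i t ^ 2 :=
      continuous_finsetSum S fun i hi => (hc i hi).pow 2
    have h2 := (fm2_int h1 (fun t => Finset.sum_nonneg fun i _ => sq_nonneg _) hM0 hε hε1 hr
      (fun T hT => by
        have h3 : ∫ t in (-T)..T, ∑ i ∈ S, h i t ^ 2 = ∑ i ∈ S, ∫ t in (-T)..T, h i t ^ 2 := by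
          refine intervalIntegral.integral_finsetSum (f := fun i t => h i t ^ 2) fun i hi => ?_
          exact ((hc i hi).pow 2).intervalIntegrable _ _
        rw [h3]
        exact hM T hT)).2
    rw [← integral_finsetSum S hint]
    simpa only [Finset.sum_mul] using h2
  -- the weight
  let w : ℝ → ℝ := fun t => Real.exp (-(lam * t ^ 2)) / (1 + |t|)
  have hwc : Continuous w := by
    refine Continuous.div (by fun_prop) (by fun_prop) fun t => ?_
    have := abs_nonneg t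
    positivity
  have hw0 : ∀ t, 0 ≤ w t := fun t => by
    have := abs_nonneg t
    simp only [w]
    positivity
  have hw1 : ∀ t, w t ≤ 2 * lam ^ (-(ε / 4)) * fm2_W (1 + 2 * (ε / 4)) t := fun t =>
    fm2_gauss hl hl1 (by linarith) (by linarith) t
  have hw2 : ∀ t, w t ≤ 2 * lam ^ (-(3 * ε / 4)) * fm2_W r t := fun t => by
    have := fm2_gauss hl hl1 (b := 3 * ε / 4) (by linarith) (by linarith) t
    rwa [show 1 + 2 * (3 * ε / 4) = r by rw [hr]; ring] at this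
  have hwi : Integrable w := by
    refine (hA.const_mul (2 * lam ^ (-(ε / 4)))).mono' hwc.aestronglyMeasurable
      (Filter.Eventually.of_forall fun t => ?_)
    rw [Real.norm_of_nonneg (hw0 t)]
    exact hw1 t
  have hwA : ∫ t, w t ≤ 2 * lam ^ (-(ε / 4)) * A := by
    rw [hAdef, ← integral_const_mul]
    exact integral_mono hwi (hA.const_mul _) hw1
  have hwh : ∀ i ∈ S, Integrable (fun t => h i t ^ 2 * w t) := by
    intro i hi
    refine ((hint i hi).const_mul (2 * lam ^ (-(3 * ε / 4)))).mono'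
      (((hc i hi).pow 2).mul hwc).aestronglyMeasurable (Filter.Eventually.of_forall fun t => ?_)
    rw [Real.norm_of_nonneg (mul_nonneg (sq_nonneg _) (hw0 t))]
    calc h i t ^ 2 * w t ≤ h i t ^ 2 * (2 * lam ^ (-(3 * ε / 4)) * fm2_W r t) :=
          mul_le_mul_of_nonneg_left (hw2 t) (sq_nonneg _)
      _ = _ := by ring
  have hwhA : ∀ i ∈ S, ∫ t, h i t ^ 2 * w t ≤
      2 * lam ^ (-(3 * ε / 4)) * ∫ t, h i t ^ 2 * fm2_W r t := by
    intro i hi
    rw [← integral_const_mul]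
    refine integral_mono (hwh i hi) ((hint i hi).const_mul _) fun t => ?_
    calc h i t ^ 2 * w t ≤ h i t ^ 2 * (2 * lam ^ (-(3 * ε / 4)) * fm2_W r t) :=
          mul_le_mul_of_nonneg_left (hw2 t) (sq_nonneg _)
      _ = _ := by ring
  have hcs : ∀ i ∈ S, Q2 lam (h i) ≤ (∫ t, w t) * ∫ t, h i t ^ 2 * w t := by
    intro i hi
    have hi1 : Integrable (fun t => h i t * w t) := by
      refine ((hwh i hi).add hwi).mono' ((hc i hi).mul hwc).aestronglyMeasurable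
        (Filter.Eventually.of_forall fun t => ?_)
      rw [Real.norm_of_nonneg (mul_nonneg (h0 i hi t) (hw0 t))]
      simp only [Pi.add_apply]
      nlinarith [mul_nonneg (sq_nonneg (h i t - 1 / 2)) (hw0 t), hw0 t]
    have hq : Q2 lam (h i) = (∫ t, h i t * w t) ^ 2 := by
      unfold Q2
      congr 1
      refine integral_congr_ae (Filter.Eventually.of_forall fun t => ?_)
      simp only [w]
      ring
    have hd : discrim (∫ t, w t) (-(2 * ∫ t, h i t * w t)) (∫ t, h i t ^ 2 * w t) ≤ 0 := by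
      refine discrim_le_zero fun s => ?_
      have h1 : (∫ t, w t) * (s * s) + -(2 * ∫ t, h i t * w t) * s + ∫ t, h i t ^ 2 * w t =
          ∫ t, (s - h i t) ^ 2 * w t := by
        have h2 : (fun t => (s - h i t) ^ 2 * w t) =
            fun t => ((s * s) * w t - (2 * s) * (h i t * w t)) + h i t ^ 2 * w t := by
          funext t
          ring
        have h3 : Integrable (fun t => (s * s) * w t - (2 * s) * (h i t * w t)) :=
          (hwi.const_mul (s * s)).sub (hi1.const_mul (2 * s))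
        rw [h2, integral_add h3 (hwh i hi),
          integral_sub (hwi.const_mul (s * s)) (hi1.const_mul (2 * s)), integral_const_mul,
          integral_const_mul]
        ring
      rw [h1]
      exact integral_nonneg fun t => mul_nonneg (sq_nonneg _) (hw0 t)
    rw [discrim] at hd
    rw [hq]
    nlinarith [hd]
  have hW0 : 0 ≤ ∫ t, w t := integral_nonneg hw0
  calc ∑ i ∈ S, Q2 lam (h i) ≤ ∑ i ∈ S, (∫ t, w t) * ∫ t, h i t ^ 2 * w t :=
        Finset.sum_le_sum hcs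
    _ = (∫ t, w t) * ∑ i ∈ S, ∫ t, h i t ^ 2 * w t := by rw [Finset.mul_sum]
    _ ≤ (∫ t, w t) * ∑ i ∈ S, 2 * lam ^ (-(3 * ε / 4)) * ∫ t, h i t ^ 2 * fm2_W r t :=
        mul_le_mul_of_nonneg_left (Finset.sum_le_sum hwhA) hW0
    _ = (∫ t, w t) * (2 * lam ^ (-(3 * ε / 4)) * ∑ i ∈ S, ∫ t, h i t ^ 2 * fm2_W r t) := by
        rw [← Finset.mul_sum]
    _ ≤ (2 * lam ^ (-(ε / 4)) * A) * (2 * lam ^ (-(3 * ε / 4)) * (M * fm2_C ε)) := by
        refine mul_le_mul hwA (mul_le_mul_of_nonneg_left hsum (by positivity)) ?_ (by positivity)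
        refine mul_nonneg (by positivity) (Finset.sum_nonneg fun i _ => integral_nonneg fun t => ?_)
        exact mul_nonneg (sq_nonneg _) (fm2_W_nonneg _ _)
    _ = 4 * A * fm2_C ε * M * (lam ^ (-(ε / 4)) * lam ^ (-(3 * ε / 4))) := by ring
    _ = 4 * A * fm2_C ε * M * lam ^ (-ε) := by
        rw [← Real.rpow_add hl]
        congr 2
        ring
    _ ≤ max 1 (4 * A * fm2_C ε) * M * lam ^ (-ε) := by
        gcongr
        exact le_max_right _ _


end Pool.Agent.XS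

namespace Pool.Agent.XS

/-- alias -/
theorem fam_two : type_of% @fam_two_pr := @fam_two_pr

end Pool.Agent.XS
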