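import Pool.Agent.Lib_helper26.XS.Defs
import Pool.Agent.Lib_helper26.XSF.FM1

set_option autoImplicit false

namespace Pool.Agent.XS

open Finset Complex MeasureTheory Pool.Agent.Var35 Pool.Agent.Var73 Pool.Agent.HC Pool.Agent.MF
open scoped ArithmeticFunction ArithmeticFunction.Moebius

/-- the weight -/
private noncomputable def fm3w (lam t : ℝ) : ℝ := (min 1 (lam * (1 + t ^ 2))) ^ 2 / (1 + t ^ 2)

private lemma fm3w_cont (lam : ℝ) : Continuous (fm3w lam) := by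
  unfold fm3w
  refine Continuous.div (by fun_prop) (by fun_prop) (fun t => ?_)
  positivity

private lemma fm3w_nonneg (lam t : ℝ) : 0 ≤ fm3w lam t := by
  unfold fm3w; positivity

private lemma fm3w_low {lam t T : ℝ} (hl : 0 < lam) (ht : |t| ≤ T) :
    fm3w lam t ≤ lam ^ 2 * (1 + T ^ 2) := by
  unfold fm3w
  have h1 : (0 : ℝ) < 1 + t ^ 2 := by positivity
  have h2 : min 1 (lam * (1 + t ^ 2)) ≤ lam * (1 + t ^ 2) := min_le_right _ _
  have h3 : 0 ≤ min 1 (lam * (1 + t ^ 2)) := le_min zero_le_one (by positivity)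
  have h4 : t ^ 2 ≤ T ^ 2 := by
    rw [← sq_abs t]; exact pow_le_pow_left₀ (abs_nonneg t) ht 2
  rw [div_le_iff₀ h1]
  calc (min 1 (lam * (1 + t ^ 2))) ^ 2 ≤ (lam * (1 + t ^ 2)) ^ 2 := pow_le_pow_left₀ h3 h2 2
    _ = lam ^ 2 * (1 + t ^ 2) * (1 + t ^ 2) := by ring
    _ ≤ lam ^ 2 * (1 + T ^ 2) * (1 + t ^ 2) := by gcongr

private lemma fm3w_high {lam t T : ℝ} (hl : 0 < lam) (hT : 0 < T) (ht : T ≤ |t|) :
    fm3w lam t ≤ 1 / T ^ 2 := by
  unfold fm3w
  have h2 : min 1 (lam * (1 + t ^ 2)) ≤ 1 := min_le_left _ _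
  have h3 : 0 ≤ min 1 (lam * (1 + t ^ 2)) := le_min zero_le_one (by positivity)
  have h4 : T ^ 2 ≤ t ^ 2 := by
    rw [← sq_abs t]; exact pow_le_pow_left₀ hT.le ht 2
  apply div_le_div₀ zero_le_one _ (by positivity) (by linarith)
  exact pow_le_one₀ h3 h2

/-- one doubling step -/
private lemma fm3_step {F : ℝ → ℝ} (hF : Continuous F) (hF0 : ∀ t, 0 ≤ F t) {lam T : ℝ}
    (hl : 0 < lam) (hT : 0 < T) :
    ∫ t in (-(2 * T))..(2 * T), F t * fm3w lam t ≤ (∫ t in (-T)..T, F t * fm3w lam t) +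
      1 / T ^ 2 * ∫ t in (-(2 * T))..(2 * T), F t := by
  have hc : Continuous (fun t => F t * fm3w lam t) := hF.mul (fm3w_cont lam)
  have hi : ∀ a b : ℝ, IntervalIntegrable (fun t => F t * fm3w lam t) volume a b :=
    fun a b => hc.intervalIntegrable a b
  have hj : ∀ a b : ℝ, IntervalIntegrable F volume a b := fun a b => hF.intervalIntegrable a b
  have e1 : ∫ t in (-(2 * T))..(2 * T), F t * fm3w lam t =
      (∫ t in (-(2 * T))..(-T), F t * fm3w lam t) + (∫ t in (-T)..T, F t * fm3w lam t) +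
        ∫ t in T..(2 * T), F t * fm3w lam t := by
    rw [intervalIntegral.integral_add_adjacent_intervals (hi _ _) (hi _ _),
      intervalIntegral.integral_add_adjacent_intervals (hi _ _) (hi _ _)]
  have e2 : ∫ t in (-(2 * T))..(2 * T), F t =
      (∫ t in (-(2 * T))..(-T), F t) + (∫ t in (-T)..T, F t) + ∫ t in T..(2 * T), F t := by
    rw [intervalIntegral.integral_add_adjacent_intervals (hj _ _) (hj _ _),
      intervalIntegral.integral_add_adjacent_intervals (hj _ _) (hj _ _)]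
  have b1 : ∫ t in (-(2 * T))..(-T), F t * fm3w lam t ≤
      ∫ t in (-(2 * T))..(-T), F t * (1 / T ^ 2) := by
    apply intervalIntegral.integral_mono_on (by linarith) (hi _ _)
      ((hF.mul continuous_const).intervalIntegrable _ _)
    intro t ht
    refine mul_le_mul_of_nonneg_left (fm3w_high hl hT ?_) (hF0 t)
    rw [abs_of_nonpos (by linarith [ht.2])]
    linarith [ht.2]
  have b3 : ∫ t in T..(2 * T), F t * fm3w lam t ≤ ∫ t in T..(2 * T), F t * (1 / T ^ 2) := by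
    apply intervalIntegral.integral_mono_on (by linarith) (hi _ _)
      ((hF.mul continuous_const).intervalIntegrable _ _)
    intro t ht
    refine mul_le_mul_of_nonneg_left (fm3w_high hl hT ?_) (hF0 t)
    rw [abs_of_nonneg (by linarith [ht.1])]
    linarith [ht.1]
  rw [intervalIntegral.integral_mul_const] at b1 b3
  have b2 : 0 ≤ ∫ t in (-T)..T, F t :=
    intervalIntegral.integral_nonneg (by linarith) (fun t _ => hF0 t)
  have hT2 : 0 ≤ 1 / T ^ 2 := by positivity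
  rw [e1, e2]
  nlinarith [mul_nonneg hT2 b2]

/-- all doublings -/
private lemma fm3_all {ε : ℝ} (hε : 0 < ε) (hε1 : ε ≤ 1 / 4) {F : ℝ → ℝ} (hF : Continuous F)
    (hF0 : ∀ t, 0 ≤ F t) {M : ℝ}
    (hb : ∀ T : ℝ, 1 ≤ T → ∫ t in (-T)..T, F t ≤ M * T ^ (1 + ε)) {lam : ℝ}
    (hl : 0 < lam) (hl1 : lam ≤ 1) (n : ℕ) :
    ∫ t in (-(2 ^ n * lam ^ (-(1 / 2) : ℝ)))..(2 ^ n * lam ^ (-(1 / 2) : ℝ)), F t * fm3w lam t ≤
      (2 + 2 ^ (1 + ε) / (1 - 2 ^ (-(1 - ε)))) * M * lam ^ ((1 - ε) / 2) -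
        2 ^ (1 + ε) / (1 - 2 ^ (-(1 - ε))) * M *
          (2 ^ n * lam ^ (-(1 / 2) : ℝ)) ^ (-(1 - ε)) := by
  set T0 : ℝ := lam ^ (-(1 / 2) : ℝ) with hT0
  have hT0p : 0 < T0 := Real.rpow_pos_of_pos hl _
  have hT01 : 1 ≤ T0 := Real.one_le_rpow_of_pos_of_le_one_of_nonpos hl hl1 (by norm_num)
  have ha : (2 : ℝ) ^ (-(1 - ε)) < 1 := Real.rpow_lt_one_of_one_lt_of_neg (by norm_num)
    (by linarith)
  have hD : 0 < 1 - (2 : ℝ) ^ (-(1 - ε)) := by linarith
  set D : ℝ := 2 ^ (1 + ε) / (1 - 2 ^ (-(1 - ε))) with hDdef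
  have hDe : D * (1 - 2 ^ (-(1 - ε))) = 2 ^ (1 + ε) := by
    rw [hDdef]; field_simp
  induction n with
  | zero =>
    simp only [pow_zero, one_mul]
    have e1 : T0 ^ (-(1 - ε)) = lam ^ ((1 - ε) / 2) := by
      rw [hT0, ← Real.rpow_mul hl.le]; congr 1; ring
    have e2 : lam ^ 2 * (1 + T0 ^ 2) ≤ 2 * lam := by
      have : T0 ^ 2 = lam⁻¹ := by
        rw [hT0, ← Real.rpow_natCast, ← Real.rpow_mul hl.le, ← Real.rpow_neg_one]
        congr 1; norm_num
      rw [this]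
      have : lam ^ 2 * (1 + lam⁻¹) = lam ^ 2 + lam := by field_simp
      rw [this]; nlinarith
    have hc : Continuous (fun t => F t * fm3w lam t) := hF.mul (fm3w_cont lam)
    have b1 : ∫ t in (-T0)..T0, F t * fm3w lam t ≤ ∫ t in (-T0)..T0, F t * (2 * lam) := by
      apply intervalIntegral.integral_mono_on (by linarith) (hc.intervalIntegrable _ _)
        ((hF.mul continuous_const).intervalIntegrable _ _)
      intro t ht
      refine mul_le_mul_of_nonneg_left ((fm3w_low hl (abs_le.mpr ⟨ht.1, ht.2⟩)).trans e2) (hF0 t)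
    rw [intervalIntegral.integral_mul_const] at b1
    have b2 := hb T0 hT01
    have e3 : lam * T0 ^ (1 + ε) = lam ^ ((1 - ε) / 2) := by
      rw [hT0, ← Real.rpow_mul hl.le]
      nth_rewrite 1 [← Real.rpow_one lam]
      rw [← Real.rpow_add hl]; congr 1; ring
    rw [e1]
    calc ∫ t in (-T0)..T0, F t * fm3w lam t ≤ (∫ t in (-T0)..T0, F t) * (2 * lam) := b1
      _ ≤ M * T0 ^ (1 + ε) * (2 * lam) := by gcongr
      _ = 2 * M * (lam * T0 ^ (1 + ε)) := by ring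
      _ = 2 * M * lam ^ ((1 - ε) / 2) := by rw [e3]
      _ ≤ _ := le_of_eq (by ring)
  | succ n ih =>
    set T : ℝ := 2 ^ n * T0 with hTdef
    have hT1 : 1 ≤ T := by
      rw [hTdef]; exact one_le_mul_of_one_le_of_one_le (one_le_pow₀ (by norm_num)) hT01
    have hTp : 0 < T := by linarith
    have e0 : 2 ^ (n + 1) * T0 = 2 * T := by rw [hTdef, pow_succ]; ring
    rw [e0]
    have s1 := fm3_step hF hF0 hl hTp
    have s2 := hb (2 * T) (by linarith)
    have e4 : (2 * T) ^ (-(1 - ε)) = 2 ^ (-(1 - ε)) * T ^ (-(1 - ε)) :=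
      Real.mul_rpow (by norm_num) hTp.le
    have e5 : 1 / T ^ 2 * (M * (2 * T) ^ (1 + ε)) = 2 ^ (1 + ε) * M * T ^ (-(1 - ε)) := by
      rw [Real.mul_rpow (by norm_num) hTp.le]
      have : T ^ (-(1 - ε)) = T ^ (1 + ε) / T ^ 2 := by
        rw [← Real.rpow_natCast T 2, ← Real.rpow_sub hTp]; congr 1; norm_num; ring
      rw [this]; ring
    have s3 : 1 / T ^ 2 * ∫ t in (-(2 * T))..(2 * T), F t ≤ 2 ^ (1 + ε) * M * T ^ (-(1 - ε)) := by
      rw [← e5]; exact mul_le_mul_of_nonneg_left s2 (by positivity)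
    rw [e4]
    have e6 : 2 ^ (1 + ε) * M * T ^ (-(1 - ε)) =
        D * M * T ^ (-(1 - ε)) - D * M * (2 ^ (-(1 - ε)) * T ^ (-(1 - ε))) := by
      rw [← hDe]; ring
    linarith [s1, s3, ih, e6]

theorem fam_three_pr {ε : ℝ} (hε : 0 < ε) (hε1 : ε ≤ 1 / 4) : ∃ C : ℝ, 1 ≤ C ∧ ∀ (ι : Type)
    (S : Finset ι) (h : ι → ℝ → ℝ), (∀ i ∈ S, Continuous (h i)) → ∀ M : ℝ, 0 ≤ M →
    (∀ T : ℝ, 1 ≤ T → ∑ i ∈ S, ∫ t in (-T)..T, h i t ^ 2 ≤ M * T ^ (1 + ε)) →
    ∀ lam : ℝ, 0 < lam → lam ≤ 1 →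
    ∑ i ∈ S, Q3 lam (h i) ≤ C * M * lam ^ ((1 - ε) / 2) := by
  have ha : (2 : ℝ) ^ (-(1 - ε)) < 1 := Real.rpow_lt_one_of_one_lt_of_neg (by norm_num)
    (by linarith)
  have hD : 0 < 1 - (2 : ℝ) ^ (-(1 - ε)) := by linarith
  have hD2 : 0 ≤ (2 : ℝ) ^ (1 + ε) / (1 - 2 ^ (-(1 - ε))) := by positivity
  refine ⟨2 + 2 ^ (1 + ε) / (1 - 2 ^ (-(1 - ε))), by linarith, ?_⟩
  intro ι S h hc M hM hb lam hl hl1
  -- integrability of each
  have hint : ∀ i ∈ S, Integrable (fun t => h i t ^ 2 * fm3w lam t) := by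
    intro i hi
    have h1 : Integrable (fun t => h i t ^ 2 / (1 + t ^ 2)) := by
      apply fam_int hε hε1 (h i) (hc i hi) (M := M)
      intro T hT
      refine le_trans ?_ (hb T hT)
      apply Finset.single_le_sum (f := fun i => ∫ t in (-T)..T, h i t ^ 2) _ hi
      intro j _
      exact intervalIntegral.integral_nonneg (by linarith) (fun t _ => sq_nonneg _)
    refine h1.mono' (((hc i hi).pow 2).mul (fm3w_cont lam)).aestronglyMeasurable ?_
    refine Filter.Eventually.of_forall (fun t => ?_)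
    rw [Real.norm_of_nonneg (mul_nonneg (sq_nonneg _) (fm3w_nonneg lam t))]
    unfold fm3w
    have h2 : min 1 (lam * (1 + t ^ 2)) ≤ 1 := min_le_left _ _
    have h3 : 0 ≤ min 1 (lam * (1 + t ^ 2)) := le_min zero_le_one (by positivity)
    have h4 : (min 1 (lam * (1 + t ^ 2))) ^ 2 ≤ 1 := pow_le_one₀ h3 h2
    rw [div_eq_mul_one_div (h i t ^ 2)]
    refine mul_le_mul_of_nonneg_left ?_ (sq_nonneg _)
    gcongr
  have hQ : ∀ i ∈ S, Q3 lam (h i) = ∫ t : ℝ, h i t ^ 2 * fm3w lam t := by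
    intro i _
    unfold Q3 fm3w
    congr 1; ext t; ring
  rw [Finset.sum_congr rfl hQ, ← integral_finsetSum S hint]
  set F : ℝ → ℝ := fun t => ∑ i ∈ S, h i t ^ 2 with hF
  have hFc : Continuous F := continuous_finsetSum S (fun i hi => (hc i hi).pow 2)
  have hF0 : ∀ t, 0 ≤ F t := fun t => Finset.sum_nonneg (fun i _ => sq_nonneg _)
  have hFb : ∀ T : ℝ, 1 ≤ T → ∫ t in (-T)..T, F t ≤ M * T ^ (1 + ε) := by
    intro T hT
    have e : ∫ t in (-T)..T, F t = ∑ i ∈ S, ∫ t in (-T)..T, h i t ^ 2 :=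
      intervalIntegral.integral_finsetSum (f := fun i t => h i t ^ 2)
        (fun i hi => ((hc i hi).pow 2).intervalIntegrable _ _)
    rw [e]
    exact hb T hT
  have eF : (fun t : ℝ => ∑ i ∈ S, h i t ^ 2 * fm3w lam t) = fun t => F t * fm3w lam t := by
    ext t; rw [hF, Finset.sum_mul]
  have hFi : Integrable (fun t => F t * fm3w lam t) := by
    rw [← eF]; exact integrable_finsetSum S hint
  rw [eF]
  have hT0p : 0 < lam ^ (-(1 / 2) : ℝ) := Real.rpow_pos_of_pos hl _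
  have hlim : Filter.Tendsto (fun n : ℕ => (2 : ℝ) ^ n * lam ^ (-(1 / 2) : ℝ)) Filter.atTop
      Filter.atTop :=
    (tendsto_pow_atTop_atTop_of_one_lt (by norm_num)).atTop_mul_const hT0p
  have htend : Filter.Tendsto (fun n : ℕ =>
      ∫ t in (-(2 ^ n * lam ^ (-(1 / 2) : ℝ)))..(2 ^ n * lam ^ (-(1 / 2) : ℝ)),
        F t * fm3w lam t) Filter.atTop (nhds (∫ t, F t * fm3w lam t)) :=
    intervalIntegral_tendsto_integral hFi (Filter.tendsto_neg_atTop_atBot.comp hlim) hlim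
  refine le_of_tendsto htend (Filter.Eventually.of_forall (fun n => ?_))
  refine (fm3_all hε hε1 hFc hF0 hFb hl hl1 n).trans ?_
  have : 0 ≤ 2 ^ (1 + ε) / (1 - 2 ^ (-(1 - ε))) * M *
      (2 ^ n * lam ^ (-(1 / 2) : ℝ)) ^ (-(1 - ε)) := by positivity
  linarith

end Pool.Agent.XS

namespace Pool.Agent.XS

/-- alias -/
theorem fam_three : type_of% @fam_three_pr := @fam_three_pr

end Pool.Agent.XS
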