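import Pool.Agent.Lib_helper26.XS.Defs
import Pool.Agent.Lib_helper58.Planch

/-!
# Project XS, block BES (helper50)
-/

set_option autoImplicit false

namespace Pool.Agent.XS

open Finset Complex MeasureTheory Pool.Agent.Var35 Pool.Agent.Var73 Pool.Agent.HC Pool.Agent.MF
open scoped FourierTransform

/-- BES: Bessel's inequality for the Fourier transform -/
theorem bes_pr (f : ℝ → ℂ) {X Δ : ℝ} (hX : 0 ≤ X) (hΔ : 0 ≤ Δ)
    (hm : AEStronglyMeasurable f (volume.restrict (Set.Ioc 0 X)))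
    (h2 : IntervalIntegrable (fun x => ‖f x‖ ^ 2) volume 0 X) :
    ∫ β in (-Δ)..Δ, ‖∫ x in (0 : ℝ)..X, f x * e (x * β)‖ ^ 2 ≤
      ∫ x in (0 : ℝ)..X, ‖f x‖ ^ 2 := by
  have h2' : IntegrableOn (fun x => ‖f x‖ ^ 2) (Set.Ioc 0 X) volume := by
    rwa [intervalIntegrable_iff_integrableOn_Ioc_of_le hX] at h2
  have hL2 : MemLp f 2 (volume.restrict (Set.Ioc 0 X)) :=
    (memLp_two_iff_integrable_sq_norm hm).2 h2'
  have hL1 : Integrable f (volume.restrict (Set.Ioc 0 X)) := by
    have : IsFiniteMeasure (volume.restrict (Set.Ioc 0 X)) :=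
      ⟨by simp⟩
    exact hL2.integrable (by norm_num)
  set g : ℝ → ℂ := Set.indicator (Set.Ioc 0 X) f with hg
  have g1 : Integrable g := (integrable_indicator_iff measurableSet_Ioc).2 hL1
  have g2 : MemLp g 2 := (memLp_indicator_iff_restrict measurableSet_Ioc).2 hL2
  have hF : ∀ β : ℝ, ∫ x in (0 : ℝ)..X, f x * e (x * β) = 𝓕 g (-β) := by
    intro β
    rw [intervalIntegral.integral_of_le hX, Real.fourier_eq', ← integral_indicator measurableSet_Ioc]
    refine integral_congr_ae (Filter.Eventually.of_forall fun x => ?_)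
    simp only [hg]
    by_cases hx : x ∈ Set.Ioc 0 X
    · rw [Set.indicator_of_mem hx, Set.indicator_of_mem hx, smul_eq_mul, mul_comm]
      unfold e
      congr 2
      simp
      ring_nf
    · rw [Set.indicator_of_notMem hx, Set.indicator_of_notMem hx, smul_zero]
  have hP := Pool.Agent.H58.plancherel g g1 g2
  have hc : Continuous (𝓕 g) := by
    exact VectorFourier.fourierIntegral_continuous Real.continuous_fourierChar
      (by exact (innerSL ℝ (E := ℝ)).continuous₂) g1
  have hfin : ∫⁻ x, ‖g x‖ₑ ^ 2 ≠ ⊤ := by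
    have h := eLpNorm_nnreal_pow_eq_lintegral (f := g) (μ := (volume : Measure ℝ)) (p := 2)
      (by norm_num)
    have h' : ∫⁻ x, ‖g x‖ₑ ^ 2 = (eLpNorm g 2 volume) ^ 2 := by simpa using h.symm
    rw [h']
    exact ENNReal.pow_ne_top g2.2.ne
  have e1 : ∫ β in (-Δ)..Δ, ‖∫ x in (0 : ℝ)..X, f x * e (x * β)‖ ^ 2 =
      ∫ β in (-Δ)..Δ, ‖𝓕 g β‖ ^ 2 := by
    have := intervalIntegral.integral_comp_neg (a := -Δ) (b := Δ) (fun x => ‖𝓕 g x‖ ^ 2)
    rw [neg_neg] at this
    rw [← this]
    refine intervalIntegral.integral_congr fun β _ => ?_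
    simp only [hF β]
  have e2 : ∫ x in (0 : ℝ)..X, ‖f x‖ ^ 2 = ∫ x, ‖g x‖ ^ 2 := by
    rw [intervalIntegral.integral_of_le hX, ← integral_indicator measurableSet_Ioc]
    refine integral_congr_ae (Filter.Eventually.of_forall fun x => ?_)
    simp only [hg]
    by_cases hx : x ∈ Set.Ioc 0 X
    · rw [Set.indicator_of_mem hx, Set.indicator_of_mem hx]
    · rw [Set.indicator_of_notMem hx, Set.indicator_of_notMem hx]; simp
  have conv : ∀ (h : ℝ → ℂ) (μ : Measure ℝ), AEStronglyMeasurable h μ →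
      ∫ x, ‖h x‖ ^ 2 ∂μ = (∫⁻ x, ‖h x‖ₑ ^ 2 ∂μ).toReal := by
    intro h μ hh
    rw [integral_eq_lintegral_of_nonneg_ae (Filter.Eventually.of_forall fun x => by positivity)
      (by fun_prop)]
    congr 1
    refine lintegral_congr fun x => ?_
    rw [← ofReal_norm, ENNReal.ofReal_pow (norm_nonneg _)]
  rw [e1, e2, intervalIntegral.integral_of_le (by linarith),
    conv _ _ hc.aestronglyMeasurable, conv _ _ g1.aestronglyMeasurable, ← hP]
  apply ENNReal.toReal_mono
  · rw [hP]; exact hfin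
  · exact setLIntegral_le_lintegral _ _

end Pool.Agent.XS

namespace Pool.Agent.XS

/-- alias -/
theorem bes : type_of% @bes_pr := @bes_pr

end Pool.Agent.XS
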