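import Pool.Agent.Lib_helper26.XS.Defs

/-! XS, block PVI: the Polya-Vinogradov inequality for primitive characters. -/

set_option autoImplicit false

namespace Pool.Agent.XS

open Finset Complex MeasureTheory Pool.Agent.Var35 Pool.Agent.Var73 Pool.Agent.HC Pool.Agent.MF
open scoped ArithmeticFunction ArithmeticFunction.Moebius

/-- the geometric sum, starting at `1` -/
lemma pvi_geom0 {θ : ℝ} (h0 : 0 < |θ|) (h1 : |θ| ≤ 1 / 2) (y : ℕ) :
    ‖∑ k ∈ Icc 1 y, e ((k : ℝ) * θ)‖ ≤ 1 / (2 * |θ|) := by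
  have h : ∑ k ∈ Icc 1 y, e ((k : ℝ) * θ) = e θ * ∑ j ∈ range y, e ((j : ℝ) * θ) := by
    rw [mul_sum, show Icc 1 y = Ico 1 (y + 1) from by ext k; simp,
      sum_Ico_eq_sum_range]
    refine sum_congr (by simp) fun j _ => ?_
    rw [← e_add]; congr 1; push_cast; ring
  rw [h, norm_mul, norm_e, one_mul]
  exact geom_bound h0 h1 y

/-- the geometric sum at a fraction -/
lemma pvi_geom {r a : ℕ} (ha : 1 ≤ a) (har : a < r) (y : ℕ) :
    ‖∑ k ∈ Icc 1 y, e ((k : ℝ) * ((a : ℝ) / r))‖ ≤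
      (r : ℝ) / 2 * (1 / (a : ℝ) + 1 / ((r : ℝ) - a)) := by
  have hr : (0 : ℝ) < r := by exact_mod_cast (by omega : 0 < r)
  have ha0 : (0 : ℝ) < a := by exact_mod_cast (by omega : 0 < a)
  have hra : (0 : ℝ) < (r : ℝ) - a := by
    have : (a : ℝ) < r := by exact_mod_cast har
    linarith
  rcases le_or_gt (2 * a) r with h | h
  · have h2 : (2 : ℝ) * a ≤ r := by exact_mod_cast h
    have habs : |(a : ℝ) / r| = (a : ℝ) / r := abs_of_pos (by positivity)
    have h3 := pvi_geom0 (θ := (a : ℝ) / r) (by rw [habs]; positivity)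
      (by rw [habs, div_le_div_iff₀ hr (by norm_num)]; linarith) y
    refine h3.trans ?_
    rw [habs]
    have h4 : 1 / (2 * ((a : ℝ) / r)) = (r : ℝ) / 2 * (1 / (a : ℝ)) := by
      field_simp
    rw [h4]
    refine mul_le_mul_of_nonneg_left ?_ (by positivity)
    have : 0 ≤ 1 / ((r : ℝ) - a) := by positivity
    linarith
  · have h2 : (r : ℝ) < 2 * a := by exact_mod_cast h
    set θ : ℝ := (a : ℝ) / r - 1 with hθ
    have habs : |θ| = ((r : ℝ) - a) / r := by
      rw [hθ, show (a : ℝ) / r - 1 = -(((r : ℝ) - a) / r) from by field_simp; ring, abs_neg,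
        abs_of_pos (by positivity)]
    have h3 := pvi_geom0 (θ := θ) (by rw [habs]; positivity)
      (by rw [habs, div_le_div_iff₀ hr (by norm_num)]; linarith) y
    have h5 : ∑ k ∈ Icc 1 y, e ((k : ℝ) * ((a : ℝ) / r)) = ∑ k ∈ Icc 1 y, e ((k : ℝ) * θ) := by
      refine sum_congr rfl fun k _ => ?_
      have h6 := e_add_int ((k : ℝ) * θ) (k : ℤ)
      rw [← h6]
      congr 1
      rw [hθ]; push_cast; ring
    rw [h5]
    refine h3.trans ?_
    rw [habs]
    have h4 : 1 / (2 * (((r : ℝ) - a) / r)) = (r : ℝ) / 2 * (1 / ((r : ℝ) - a)) := by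
      have := hra.ne'
      field_simp
    rw [h4]
    refine mul_le_mul_of_nonneg_left ?_ (by positivity)
    have : 0 ≤ 1 / (a : ℝ) := by positivity
    linarith

/-- the sum over the nonzero residues -/
lemma pvi_harm {r : ℕ} (hr : 2 ≤ r) :
    ∑ a ∈ Ico 1 r, (r : ℝ) / 2 * (1 / (a : ℝ) + 1 / ((r : ℝ) - a)) ≤ r * (3 * Real.log r) := by
  have hr0 : (0 : ℝ) < r := by exact_mod_cast (by omega : 0 < r)
  have h1 : ∑ a ∈ Ico 1 r, 1 / ((r : ℝ) - a) = ∑ a ∈ Ico 1 r, 1 / (a : ℝ) := by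
    refine Finset.sum_nbij' (fun a => r - a) (fun a => r - a) ?_ ?_ ?_ ?_ ?_
    · intro a ha; simp only [mem_Ico] at ha ⊢; omega
    · intro a ha; simp only [mem_Ico] at ha ⊢; omega
    · intro a ha; simp only [mem_Ico] at ha; omega
    · intro a ha; simp only [mem_Ico] at ha; omega
    · intro a ha
      simp only [mem_Ico] at ha
      rw [Nat.cast_sub ha.2.le]
  rw [← mul_sum, sum_add_distrib, h1]
  have h2 : ∑ a ∈ Ico 1 r, 1 / (a : ℝ) ≤ 1 + Real.log r := by
    have h3 := harmonic_le_one_add_log r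
    rw [harmonic_eq_sum_Icc] at h3
    push_cast at h3
    refine le_trans ?_ h3
    refine (sum_le_sum_of_subset_of_nonneg ?_ ?_).trans (le_of_eq (sum_congr rfl fun a _ => one_div _))
    · intro a ha; simp only [mem_Ico] at ha; simp only [mem_Icc]; omega
    · intro a _ _; positivity
  have h4 : (1 : ℝ) ≤ 2 * Real.log r := by
    have h5 : Real.log 2 ≤ Real.log r := Real.log_le_log (by norm_num) (by exact_mod_cast hr)
    have := Real.log_two_gt_d9
    linarith
  nlinarith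

theorem pv_pr : ∃ C : ℝ, 1 ≤ C ∧ ∀ (r : ℕ) (χ : DirichletCharacter ℂ r), 1 ≤ r → χ ∈ Pr r → χ ≠ 1 →
    ∀ y : ℕ, ‖∑ k ∈ Icc 1 y, χ (k : ZMod r)‖ ≤ C * Real.sqrt r * Real.log r := by
  refine ⟨3, by norm_num, ?_⟩
  intro r χ hr1 hχ hχ1 y
  have : NeZero r := ⟨by omega⟩
  have hr2 : 2 ≤ r := by
    rcases Nat.lt_or_ge r 2 with h | h
    · exfalso
      have : r = 1 := by omega
      subst this
      exact hχ1 (DirichletCharacter.level_one χ)
    · exact h
  have hr0 : (0 : ℝ) < r := by exact_mod_cast (by omega : 0 < r)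
  rw [mem_Pr] at hχ
  set ψ := χ⁻¹ with hψ
  have hψp : ψ.IsPrimitive := inv_primitive hχ
  have hψi : ψ⁻¹ = χ := by rw [hψ, inv_inv]
  set G := gaussSum ψ (ZMod.stdAddChar (N := r)) with hG
  have hGn : ‖G‖ ^ 2 = r := gauss_norm_prim ψ hψp
  have hGs : ‖G‖ = Real.sqrt r := by
    rw [← hGn, Real.sqrt_sq (norm_nonneg _)]
  have h1 : (∑ k ∈ Icc 1 y, χ (k : ZMod r)) * G =
      ∑ c : ZMod r, ψ c * ∑ k ∈ Icc 1 y, ZMod.stdAddChar (N := r) ((k : ZMod r) * c) := by
    rw [sum_mul]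
    simp_rw [mul_sum]
    rw [sum_comm]
    refine sum_congr rfl fun k _ => ?_
    rw [gauss_shift_eq ψ hψp (k : ZMod r), hψi]
  have h2 : ‖∑ c : ZMod r, ψ c * ∑ k ∈ Icc 1 y, ZMod.stdAddChar (N := r) ((k : ZMod r) * c)‖ ≤
      ∑ a ∈ Ico 1 r, (r : ℝ) / 2 * (1 / (a : ℝ) + 1 / ((r : ℝ) - a)) := by
    have h3 : ∑ c : ZMod r, ψ c * ∑ k ∈ Icc 1 y, ZMod.stdAddChar (N := r) ((k : ZMod r) * c) =
        ∑ a ∈ range r, ψ (a : ZMod r) * ∑ k ∈ Icc 1 y, e ((k : ℝ) * ((a : ℝ) / r)) := by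
      symm
      refine Finset.sum_nbij' (fun a => (a : ZMod r)) (fun x => x.val) ?_ ?_ ?_ ?_ ?_
      · intro a _; exact mem_univ _
      · intro x _; exact mem_range.mpr (ZMod.val_lt x)
      · intro a ha; exact ZMod.val_cast_of_lt (mem_range.mp ha)
      · intro x _; exact ZMod.natCast_zmod_val x
      · intro a _
        congr 1
        refine sum_congr rfl fun k _ => ?_
        rw [← Nat.cast_mul, std_eq_nat]
        congr 1
        push_cast; ring
    rw [h3]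
    have h4 : ∑ a ∈ range r, ψ (a : ZMod r) * ∑ k ∈ Icc 1 y, e ((k : ℝ) * ((a : ℝ) / r)) =
        ∑ a ∈ Ico 1 r, ψ (a : ZMod r) * ∑ k ∈ Icc 1 y, e ((k : ℝ) * ((a : ℝ) / r)) := by
      symm
      refine sum_subset ?_ ?_
      · intro a ha; simp only [mem_Ico] at ha; simp only [mem_range]; omega
      · intro a ha hb
        simp only [mem_range] at ha
        simp only [mem_Ico, not_and, not_lt] at hb
        have : a = 0 := by omega
        subst this
        have h0 : ψ ((0 : ℕ) : ZMod r) = 0 := by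
          have : Nontrivial (ZMod r) := ZMod.nontrivial_iff.mpr (by omega)
          rw [Nat.cast_zero]
          exact MulChar.map_zero ψ
        rw [h0, zero_mul]
    rw [h4]
    refine (norm_sum_le _ _).trans (sum_le_sum fun a ha => ?_)
    simp only [mem_Ico] at ha
    rw [norm_mul]
    calc ‖ψ (a : ZMod r)‖ * ‖∑ k ∈ Icc 1 y, e ((k : ℝ) * ((a : ℝ) / r))‖
        ≤ 1 * ‖∑ k ∈ Icc 1 y, e ((k : ℝ) * ((a : ℝ) / r))‖ :=
          mul_le_mul_of_nonneg_right (DirichletCharacter.norm_le_one ψ _) (norm_nonneg _)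
      _ = ‖∑ k ∈ Icc 1 y, e ((k : ℝ) * ((a : ℝ) / r))‖ := one_mul _
      _ ≤ _ := pvi_geom ha.1 ha.2 y
  have h5 : ‖∑ k ∈ Icc 1 y, χ (k : ZMod r)‖ * Real.sqrt r ≤ r * (3 * Real.log r) := by
    rw [← hGs, ← norm_mul, h1]
    exact h2.trans (pvi_harm hr2)
  have hs : 0 < Real.sqrt r := Real.sqrt_pos.mpr hr0
  have h6 : (r : ℝ) = Real.sqrt r * Real.sqrt r := (Real.mul_self_sqrt hr0.le).symm
  have h7 : (r : ℝ) * (3 * Real.log r) = (3 * Real.sqrt r * Real.log r) * Real.sqrt r := by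
    calc (r : ℝ) * (3 * Real.log r) = (Real.sqrt r * Real.sqrt r) * (3 * Real.log r) := by rw [← h6]
      _ = _ := by ring
  rw [h7] at h5
  exact le_of_mul_le_mul_right h5 hs


end Pool.Agent.XS

namespace Pool.Agent.XS

/-- alias -/
theorem pv : type_of% @pv_pr := @pv_pr

end Pool.Agent.XS
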