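import Pool.Agent.Lib_helper26.XS.Defs
import Pool.Agent.Lib_helper26.XSF.PVI

/-!
# XS, block EIB: type I sums
-/

set_option autoImplicit false

namespace Pool.Agent.XS

open Finset Complex MeasureTheory Pool.Agent.Var35 Pool.Agent.Var73 Pool.Agent.HC Pool.Agent.MF
open scoped ArithmeticFunction ArithmeticFunction.Moebius

/-- partial summation with the logarithm -/
theorem eib_abel (f : ℕ → ℂ) {P : ℝ} (hP : ∀ y : ℕ, ‖∑ k ∈ Icc 1 y, f k‖ ≤ P) (M : ℕ) :
    ∑ m ∈ Icc 1 M, f m * (Real.log m : ℂ) =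
      (∑ m ∈ Icc 1 M, f m) * (Real.log M : ℂ) -
        ∑ m ∈ Ico 1 M, (∑ k ∈ Icc 1 m, f k) * ((Real.log (m + 1) - Real.log m : ℝ) : ℂ) := by
  induction M with
  | zero => simp
  | succ M ih =>
    rcases Nat.eq_zero_or_pos M with rfl | hM
    · simp
    rw [Finset.sum_Icc_succ_top (by omega), Finset.sum_Icc_succ_top (by omega), ih,
      Finset.sum_Ico_succ_top (by omega)]
    push_cast
    ring

theorem eib_sum (f : ℕ → ℂ) {P : ℝ} (hP : ∀ y : ℕ, ‖∑ k ∈ Icc 1 y, f k‖ ≤ P) {M N : ℕ}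
    (hMN : M ≤ N) (hN : 1 ≤ N) :
    ‖∑ m ∈ Icc 1 M, f m * (Real.log m : ℂ)‖ ≤ 2 * P * Real.log N := by
  have hP0 : 0 ≤ P := (norm_nonneg _).trans (hP 0)
  have hlN : 0 ≤ Real.log N := Real.log_natCast_nonneg N
  rcases Nat.eq_zero_or_pos M with rfl | hM
  · simp
    positivity
  have hlM : 0 ≤ Real.log M := Real.log_natCast_nonneg M
  have hlMN : Real.log M ≤ Real.log N :=
    Real.log_le_log (by exact_mod_cast hM) (by exact_mod_cast hMN)
  have htel : ∀ K : ℕ, 1 ≤ K → ∑ m ∈ Ico 1 K, (Real.log ((m : ℝ) + 1) - Real.log m) = Real.log K := by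
    intro K hK
    induction K, hK using Nat.le_induction with
    | base => simp
    | succ K hK ih =>
      rw [Finset.sum_Ico_succ_top (by omega), ih]
      push_cast
      ring
  rw [eib_abel f hP M]
  have h1 : ‖(∑ m ∈ Icc 1 M, f m) * (Real.log M : ℂ)‖ ≤ P * Real.log M := by
    rw [norm_mul, Complex.norm_real, Real.norm_of_nonneg hlM]
    exact mul_le_mul_of_nonneg_right (hP M) hlM
  have h2 : ‖∑ m ∈ Ico 1 M, (∑ k ∈ Icc 1 m, f k) * ((Real.log (m + 1) - Real.log m : ℝ) : ℂ)‖ ≤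
      P * Real.log M := by
    rw [← htel M hM, Finset.mul_sum]
    refine (norm_sum_le _ _).trans (Finset.sum_le_sum fun m hm => ?_)
    rw [Finset.mem_Ico] at hm
    have h3 : 0 ≤ Real.log ((m : ℝ) + 1) - Real.log m := by
      have : Real.log m ≤ Real.log ((m : ℝ) + 1) :=
        Real.log_le_log (by exact_mod_cast hm.1) (by linarith)
      linarith
    rw [norm_mul, Complex.norm_real, Real.norm_of_nonneg h3]
    exact mul_le_mul_of_nonneg_right (hP m) h3
  refine (norm_sub_le _ _).trans ?_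
  have h4 : P * Real.log M ≤ P * Real.log N := mul_le_mul_of_nonneg_left hlMN hP0
  linarith

/-- the interchange -/
theorem eib_swap (z N : ℕ) {r : ℕ} (χ : DirichletCharacter ℂ r) :
    ∑ n ∈ Icc 1 N, (cI z n : ℂ) * χ (n : ZMod r) =
      ∑ d ∈ Icc 1 z, ((μ d : ℝ) : ℂ) * χ (d : ZMod r) *
        ∑ m ∈ Icc 1 (N / d), χ (m : ZMod r) * (Real.log m : ℂ) := by
  have h1 : ∀ n ∈ Icc 1 N, (cI z n : ℂ) * χ (n : ZMod r) =
      ∑ d ∈ n.divisors.filter (fun d => d ≤ z), ((μ d : ℝ) : ℂ) * χ (d : ZMod r) *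
        (χ ((n / d : ℕ) : ZMod r) * (Real.log ((n / d : ℕ) : ℝ) : ℂ)) := by
    intro n hn
    rw [cI]
    push_cast
    rw [Finset.sum_mul]
    refine Finset.sum_congr rfl fun d hd => ?_
    rw [Finset.mem_filter, Nat.mem_divisors] at hd
    have h2 : (n : ZMod r) = (d : ZMod r) * ((n / d : ℕ) : ZMod r) := by
      rw [← Nat.cast_mul, Nat.mul_div_cancel' hd.1.1]
    rw [h2, map_mul]
    ring
  rw [Finset.sum_congr rfl h1]
  rw [Finset.sum_comm' (s := Icc 1 N) (t := fun n => n.divisors.filter (fun d => d ≤ z))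
    (t' := Icc 1 z) (s' := fun d => (Icc 1 N).filter (fun n => d ∣ n))]
  · refine Finset.sum_congr rfl fun d hd => ?_
    rw [Finset.mem_Icc] at hd
    rw [Finset.mul_sum]
    refine Finset.sum_nbij' (fun n => n / d) (fun m => d * m) ?_ ?_ ?_ ?_ ?_
    · intro n hn
      rw [Finset.mem_filter, Finset.mem_Icc] at hn
      rw [Finset.mem_Icc]
      exact ⟨Nat.div_pos (Nat.le_of_dvd (by omega) hn.2) hd.1, Nat.div_le_div_right hn.1.2⟩
    · intro m hm
      rw [Finset.mem_Icc] at hm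
      rw [Finset.mem_filter, Finset.mem_Icc]
      refine ⟨⟨Nat.mul_pos hd.1 hm.1, ?_⟩, dvd_mul_right d m⟩
      calc d * m ≤ d * (N / d) := Nat.mul_le_mul_left d hm.2
        _ ≤ N := Nat.mul_div_le N d
    · intro n hn
      rw [Finset.mem_filter] at hn
      exact Nat.mul_div_cancel' hn.2
    · intro m hm
      exact Nat.mul_div_cancel_left m hd.1
    · intro n hn
      rfl
  · intro n d
    simp only [Finset.mem_Icc, Finset.mem_filter, Nat.mem_divisors]
    constructor
    · rintro ⟨⟨h1, h2⟩, ⟨h3, h4⟩, h5⟩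
      exact ⟨⟨⟨h1, h2⟩, h3⟩, Nat.pos_of_dvd_of_pos h3 h1, h5⟩
    · rintro ⟨⟨⟨h1, h2⟩, h3⟩, h4, h5⟩
      exact ⟨⟨h1, h2⟩, ⟨h3, by omega⟩, h5⟩

/-- EIB: type I sums -/
theorem ei_bound_pr : ∃ C : ℝ, 1 ≤ C ∧ ∀ (r z : ℕ) (χ : DirichletCharacter ℂ r), 1 ≤ r → χ ∈ Pr r →
    ∀ x : ℝ, ‖EI z χ x‖ ≤
      C * z * Real.sqrt r * Real.log (r + 1) * Real.log (|x| + 2) := by
  obtain ⟨C, hC1, hC⟩ := pv
  refine ⟨2 * C, by linarith, fun r z χ hr hχ x => ?_⟩
  have hr0 : (0 : ℝ) < r := by exact_mod_cast hr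
  have hlr : 0 ≤ Real.log ((r : ℝ) + 1) := Real.log_nonneg (by linarith)
  have hlx : 0 ≤ Real.log (|x| + 2) := Real.log_nonneg (by linarith [abs_nonneg x])
  have hRHS : 0 ≤ 2 * C * z * Real.sqrt r * Real.log (r + 1) * Real.log (|x| + 2) := by positivity
  unfold EI
  split_ifs with h1
  · rw [norm_zero]
    exact hRHS
  · set N := ⌊x⌋₊ with hN
    rcases Nat.eq_zero_or_pos N with h0 | hNpos
    · rw [h0]
      simpa using hRHS
    · set P : ℝ := C * Real.sqrt r * Real.log r with hPdef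
      have hP : ∀ y : ℕ, ‖∑ k ∈ Icc 1 y, χ (k : ZMod r)‖ ≤ P := hC r χ hr hχ h1
      have hx : (N : ℝ) ≤ |x| + 2 := by
        have h2 : 0 ≤ x := by
          by_contra hneg
          have := Nat.floor_of_nonpos (not_le.1 hneg).le
          omega
        have h3 := Nat.floor_le h2
        rw [abs_of_nonneg h2]
        linarith
      have hlN : Real.log N ≤ Real.log (|x| + 2) :=
        Real.log_le_log (by exact_mod_cast hNpos) hx
      have hlN0 : 0 ≤ Real.log N := Real.log_natCast_nonneg N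
      have hP0 : 0 ≤ P := (norm_nonneg _).trans (hP 0)
      have hPle : P ≤ C * Real.sqrt r * Real.log (r + 1) := by
        rw [hPdef]
        have : Real.log r ≤ Real.log ((r : ℝ) + 1) := Real.log_le_log hr0 (by linarith)
        exact mul_le_mul_of_nonneg_left this (by positivity)
      rw [eib_swap]
      calc ‖∑ d ∈ Icc 1 z, ((μ d : ℝ) : ℂ) * χ (d : ZMod r) *
            ∑ m ∈ Icc 1 (N / d), χ (m : ZMod r) * (Real.log m : ℂ)‖
          ≤ ∑ d ∈ Icc 1 z, 2 * P * Real.log N := by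
            refine (norm_sum_le _ _).trans (Finset.sum_le_sum fun d _ => ?_)
            rw [norm_mul, norm_mul]
            have h3 : ‖((μ d : ℝ) : ℂ)‖ ≤ 1 := by
              rw [Complex.norm_real, Real.norm_eq_abs]
              have := ArithmeticFunction.abs_moebius_le_one (n := d)
              exact_mod_cast this
            have h4 : ‖χ (d : ZMod r)‖ ≤ 1 := χ.norm_le_one _
            have h5 := eib_sum (fun m => χ (m : ZMod r)) hP (Nat.div_le_self N d) hNpos
            have h6 : ‖((μ d : ℝ) : ℂ)‖ * ‖χ (d : ZMod r)‖ ≤ 1 :=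
              mul_le_one₀ h3 (norm_nonneg _) h4
            calc _ ≤ 1 * (2 * P * Real.log N) :=
                  mul_le_mul h6 h5 (norm_nonneg _) zero_le_one
              _ = _ := one_mul _
        _ = z * (2 * P * Real.log N) := by
            rw [Finset.sum_const, Nat.card_Icc, nsmul_eq_mul]
            simp
        _ ≤ z * (2 * (C * Real.sqrt r * Real.log (r + 1)) * Real.log (|x| + 2)) := by
            apply mul_le_mul_of_nonneg_left _ (by positivity)
            apply mul_le_mul _ hlN hlN0 (by positivity)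
            linarith
        _ = _ := by ring


end Pool.Agent.XS

namespace Pool.Agent.XS

/-- alias -/
theorem ei_bound : type_of% @ei_bound_pr := @ei_bound_pr

end Pool.Agent.XS
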