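import Pool.Agent.Lib_helper26.XS.Defs
import Pool.Agent.Lib_helper26.XSF.EIB

set_option autoImplicit false

namespace Pool.Agent.XS

open Finset Complex MeasureTheory Pool.Agent.Var35 Pool.Agent.Var73 Pool.Agent.HC Pool.Agent.MF
open scoped ArithmeticFunction ArithmeticFunction.Moebius

theorem ke1_card (r : ℕ) (hr : 1 ≤ r) : ((Pr r).card : ℝ) ≤ r := by
  classical
  have : NeZero r := ⟨by omega⟩
  have h1 : (Pr r).card ≤ Fintype.card (DirichletCharacter ℂ r) := Finset.card_le_univ _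
  have h2 : Fintype.card (DirichletCharacter ℂ r) = r.totient := by
    rw [← Nat.card_eq_fintype_card]
    exact DirichletCharacter.card_eq_totient_of_hasEnoughRootsOfUnity ℂ r
  have h3 := Nat.totient_le r
  exact_mod_cast h1.trans (h2.le.trans h3)

theorem ke1_log (R : ℕ) (_hR : 1 ≤ R) (r : ℕ) (hr : r < 2 * R) :
    Real.log (r + 1) ≤ 2 * Real.log (R + 1) := by
  have h0 : (0 : ℝ) < (r : ℝ) + 1 := by positivity
  have h1 : (r : ℝ) + 1 ≤ ((R : ℝ) + 1) ^ 2 := by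
    have : ((r + 1 : ℕ) : ℝ) ≤ ((2 * R : ℕ) : ℝ) := by exact_mod_cast hr
    push_cast at this
    nlinarith [sq_nonneg (R : ℝ)]
  calc Real.log (r + 1) ≤ Real.log (((R : ℝ) + 1) ^ 2) := Real.log_le_log h0 h1
    _ = 2 * Real.log (R + 1) := by rw [Real.log_pow]; push_cast; ring

/-- the sum over the family of a bound for the individual terms -/
theorem ke1_sum (C : ℝ) (_hC : 0 ≤ C) (R : ℕ) (hR : 1 ≤ R) (L : ℝ) (_hL : 0 ≤ L)
    (f : (r : ℕ) → DirichletCharacter ℂ r → ℝ) (hf0 : ∀ r χ, 0 ≤ f r χ)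
    (hf : ∀ r χ, 1 ≤ r → χ ∈ Pr r →
      f r χ ≤ C * (zR R : ℕ) * Real.sqrt r * Real.log (r + 1) * L) :
    SP R (fun r χ => f r χ ^ 2) ≤ 16 * C ^ 2 * (R : ℝ) ^ 6 * Real.log (R + 1) ^ 2 * L ^ 2 := by
  have hR0 : (1 : ℝ) ≤ R := by exact_mod_cast hR
  have hz : ((zR R : ℕ) : ℝ) ^ 2 ≤ (R : ℝ) ^ 3 := by
    have h1 := Nat.sqrt_le' (R ^ 3)
    unfold zR
    exact_mod_cast h1
  have hlog : 0 ≤ Real.log ((R : ℝ) + 1) := Real.log_nonneg (by linarith)
  have key : ∀ r ∈ Ico R (2 * R), ∀ χ ∈ Pr r,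
      f r χ ^ 2 ≤ C ^ 2 * (R : ℝ) ^ 3 * (2 * R) * (2 * Real.log (R + 1)) ^ 2 * L ^ 2 := by
    intro r hr χ hχ
    rw [Finset.mem_Ico] at hr
    have h1r : 1 ≤ r := hR.trans hr.1
    have h2 := hf r χ h1r hχ
    have h3 : f r χ ^ 2 ≤
        (C * (zR R : ℕ) * Real.sqrt r * Real.log (r + 1) * L) ^ 2 :=
      pow_le_pow_left₀ (hf0 r χ) h2 2
    refine h3.trans ?_
    have h4 : (C * (zR R : ℕ) * Real.sqrt r * Real.log (r + 1) * L) ^ 2 =
        C ^ 2 * ((zR R : ℕ) : ℝ) ^ 2 * (Real.sqrt r) ^ 2 * Real.log (r + 1) ^ 2 * L ^ 2 := by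
      ring
    rw [h4, Real.sq_sqrt (by positivity)]
    have h5 : (r : ℝ) ≤ 2 * R := by exact_mod_cast hr.2.le
    have h6 : Real.log ((r : ℝ) + 1) ^ 2 ≤ (2 * Real.log ((R : ℝ) + 1)) ^ 2 :=
      pow_le_pow_left₀ (Real.log_nonneg (by linarith [Nat.cast_nonneg (α := ℝ) r]))
        (ke1_log R hR r hr.2) 2
    gcongr
  unfold SP
  calc ∑ r ∈ Ico R (2 * R), ∑ χ ∈ Pr r, f r χ ^ 2
      ≤ ∑ r ∈ Ico R (2 * R), ∑ _χ ∈ Pr r,
          C ^ 2 * (R : ℝ) ^ 3 * (2 * R) * (2 * Real.log (R + 1)) ^ 2 * L ^ 2 :=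
        Finset.sum_le_sum fun r hr => Finset.sum_le_sum fun χ hχ => key r hr χ hχ
    _ = ∑ r ∈ Ico R (2 * R), ((Pr r).card : ℝ) *
          (C ^ 2 * (R : ℝ) ^ 3 * (2 * R) * (2 * Real.log (R + 1)) ^ 2 * L ^ 2) := by
        refine Finset.sum_congr rfl fun r _ => ?_
        rw [Finset.sum_const, nsmul_eq_mul]
    _ ≤ ∑ _r ∈ Ico R (2 * R), (2 * (R : ℝ)) *
          (C ^ 2 * (R : ℝ) ^ 3 * (2 * R) * (2 * Real.log (R + 1)) ^ 2 * L ^ 2) := by
        refine Finset.sum_le_sum fun r hr => ?_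
        rw [Finset.mem_Ico] at hr
        have h1 := ke1_card r (hR.trans hr.1)
        have h2 : (r : ℝ) ≤ 2 * R := by exact_mod_cast hr.2.le
        exact mul_le_mul_of_nonneg_right (h1.trans h2) (by positivity)
    _ = 16 * C ^ 2 * (R : ℝ) ^ 6 * Real.log (R + 1) ^ 2 * L ^ 2 := by
        rw [Finset.sum_const, Nat.card_Ico, nsmul_eq_mul]
        have : 2 * R - R = R := by omega
        rw [this]
        ring

theorem ei_sum_pr : ∃ C : ℝ, 1 ≤ C ∧ ∀ (R : ℕ) (x : ℝ), 1 ≤ R →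
    SP R (fun r χ => ‖EI (zR R) χ x‖ ^ 2) ≤
      C * (R : ℝ) ^ 6 * Real.log (R + 1) ^ 2 * Real.log (|x| + 2) ^ 2 := by
  obtain ⟨C, hC, h⟩ := ei_bound
  refine ⟨16 * C ^ 2, by nlinarith, fun R x hR => ?_⟩
  refine ke1_sum C (by linarith) R hR (Real.log (|x| + 2))
    (Real.log_nonneg (by linarith [abs_nonneg x])) (fun r χ => ‖EI (zR R) χ x‖)
    (fun _ _ => norm_nonneg _) fun r χ hr hχ => h r (zR R) χ hr hχ x

/-- the Gaussian average of a function of logarithmic growth -/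
theorem ke1_sm (E : ℝ → ℂ) (K : ℝ) (hK : 0 ≤ K) (hE : ∀ x, ‖E x‖ ≤ K * Real.log (|x| + 2))
    (X lam : ℝ) (hX : 1 ≤ X) (hl : 0 < lam) (hl1 : lam ≤ 1) :
    ‖sm lam E X‖ ≤ 4 * K * Real.log (X + 2) := by
  set b : ℝ := 1 / (4 * lam) with hb
  have hb0 : 0 < b := by positivity
  have hlog1 : 1 ≤ Real.log (X + 2) := by
    rw [Real.le_log_iff_exp_le (by linarith)]
    have := Real.exp_one_lt_d9
    linarith
  have hexp : ∀ v : ℝ, Real.exp (-(v ^ 2 / (4 * lam))) = Real.exp (-b * v ^ 2) := by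
    intro v
    rw [hb]
    congr 1
    ring
  have hlog : ∀ v : ℝ, Real.log (|X * Real.exp (-v)| + 2) ≤ Real.log (X + 2) + |v| := by
    intro v
    have h1 : |X * Real.exp (-v)| = X * Real.exp (-v) :=
      abs_of_nonneg (by positivity)
    rw [h1]
    have h2 : X * Real.exp (-v) + 2 ≤ (X + 2) * Real.exp |v| := by
      have h3 : Real.exp (-v) ≤ Real.exp |v| := Real.exp_le_exp.2 (neg_le_abs v)
      have h4 : 1 ≤ Real.exp |v| := Real.one_le_exp (abs_nonneg v)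
      nlinarith
    calc Real.log (X * Real.exp (-v) + 2) ≤ Real.log ((X + 2) * Real.exp |v|) :=
          Real.log_le_log (by positivity) h2
      _ = Real.log (X + 2) + |v| := by
          rw [Real.log_mul (by linarith) (Real.exp_ne_zero _), Real.log_exp]
  have hsq : 0 < Real.sqrt b := Real.sqrt_pos.2 hb0
  have hv : ∀ v : ℝ, |v| * Real.exp (-b * v ^ 2) ≤
      (Real.sqrt b)⁻¹ * Real.exp (-(b / 2) * v ^ 2) := by
    intro v
    have h1 : Real.sqrt b * |v| ≤ Real.exp (b / 2 * v ^ 2) := by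
      have h2 := Real.add_one_le_exp (b / 2 * v ^ 2)
      have h3 : (Real.sqrt b * |v|) ^ 2 = b * v ^ 2 := by
        rw [mul_pow, Real.sq_sqrt hb0.le, sq_abs]
      nlinarith [sq_nonneg (Real.sqrt b * |v| - 1)]
    have h4 : Real.exp (-b * v ^ 2) =
        Real.exp (-(b / 2) * v ^ 2) * (Real.exp (b / 2 * v ^ 2))⁻¹ := by
      rw [← Real.exp_neg, ← Real.exp_add]
      congr 1
      ring
    rw [h4]
    have h5 : 0 < Real.exp (b / 2 * v ^ 2) := Real.exp_pos _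
    have h6 : |v| * (Real.exp (b / 2 * v ^ 2))⁻¹ ≤ (Real.sqrt b)⁻¹ := by
      rw [← div_eq_mul_inv, div_le_iff₀ h5, ← div_eq_inv_mul, le_div_iff₀ hsq]
      linarith
    calc |v| * (Real.exp (-(b / 2) * v ^ 2) * (Real.exp (b / 2 * v ^ 2))⁻¹)
        = (|v| * (Real.exp (b / 2 * v ^ 2))⁻¹) * Real.exp (-(b / 2) * v ^ 2) := by ring
      _ ≤ (Real.sqrt b)⁻¹ * Real.exp (-(b / 2) * v ^ 2) :=
          mul_le_mul_of_nonneg_right h6 (Real.exp_pos _).le
  have hpt : ∀ v : ℝ, ‖E (X * Real.exp (-v)) * (Real.exp (-(v ^ 2 / (4 * lam))) : ℂ)‖ ≤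
      K * Real.log (X + 2) * Real.exp (-b * v ^ 2) +
        K * (Real.sqrt b)⁻¹ * Real.exp (-(b / 2) * v ^ 2) := by
    intro v
    rw [norm_mul, Complex.norm_real, Real.norm_of_nonneg (Real.exp_pos _).le, hexp]
    have h1 := (hE (X * Real.exp (-v))).trans (mul_le_mul_of_nonneg_left (hlog v) hK)
    calc ‖E (X * Real.exp (-v))‖ * Real.exp (-b * v ^ 2)
        ≤ (K * (Real.log (X + 2) + |v|)) * Real.exp (-b * v ^ 2) :=
          mul_le_mul_of_nonneg_right h1 (Real.exp_pos _).le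
      _ = K * Real.log (X + 2) * Real.exp (-b * v ^ 2) +
          K * (|v| * Real.exp (-b * v ^ 2)) := by ring
      _ ≤ K * Real.log (X + 2) * Real.exp (-b * v ^ 2) +
          K * ((Real.sqrt b)⁻¹ * Real.exp (-(b / 2) * v ^ 2)) := by
          have := mul_le_mul_of_nonneg_left (hv v) hK
          linarith
      _ = _ := by ring
  have hb2 : 0 < b / 2 := by positivity
  have hi1 := (integrable_exp_neg_mul_sq hb0).const_mul (K * Real.log (X + 2))
  have hi2 := (integrable_exp_neg_mul_sq hb2).const_mul (K * (Real.sqrt b)⁻¹)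
  have hint : ‖∫ v : ℝ, E (X * Real.exp (-v)) * (Real.exp (-(v ^ 2 / (4 * lam))) : ℂ)‖ ≤
      K * Real.log (X + 2) * Real.sqrt (Real.pi / b) +
        K * (Real.sqrt b)⁻¹ * Real.sqrt (Real.pi / (b / 2)) := by
    refine (norm_integral_le_of_norm_le (hi1.add hi2) (Filter.Eventually.of_forall hpt)).trans ?_
    have h1 := integral_add hi1 hi2
    simp only [Pi.add_apply] at h1 ⊢
    rw [h1, integral_const_mul, integral_const_mul, integral_gaussian, integral_gaussian]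
  have hs0 : 0 < Real.sqrt (Real.pi / b) := Real.sqrt_pos.2 (by positivity)
  have hs1 : Real.sqrt (4 * Real.pi * lam) = Real.sqrt (Real.pi / b) := by
    congr 1
    rw [hb]
    field_simp
  have hs2 : (Real.sqrt b)⁻¹ * Real.sqrt (Real.pi / (b / 2)) ≤ 3 * Real.sqrt (Real.pi / b) := by
    have h1 : Real.pi / (b / 2) = 2 * (Real.pi / b) := by field_simp
    have h2 : (Real.sqrt b)⁻¹ ≤ 2 := by
      rw [inv_le_comm₀ hsq (by norm_num)]
      refine Real.le_sqrt_of_sq_le ?_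
      rw [hb, le_div_iff₀ (by positivity)]
      norm_num
      linarith
    have h3 : Real.sqrt 2 ≤ 3 / 2 := by
      rw [Real.sqrt_le_left (by norm_num)]
      norm_num
    rw [h1, Real.sqrt_mul (by norm_num)]
    have h4 : (Real.sqrt b)⁻¹ * Real.sqrt 2 ≤ 2 * (3 / 2) :=
      mul_le_mul h2 h3 (Real.sqrt_nonneg _) (by norm_num)
    calc (Real.sqrt b)⁻¹ * (Real.sqrt 2 * Real.sqrt (Real.pi / b))
        = ((Real.sqrt b)⁻¹ * Real.sqrt 2) * Real.sqrt (Real.pi / b) := by ring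
      _ ≤ (2 * (3 / 2)) * Real.sqrt (Real.pi / b) := mul_le_mul_of_nonneg_right h4 hs0.le
      _ = 3 * Real.sqrt (Real.pi / b) := by ring
  unfold sm
  rw [norm_mul, Complex.norm_real, Real.norm_of_nonneg (inv_nonneg.2 (Real.sqrt_nonneg _)), hs1]
  rw [← div_eq_inv_mul, div_le_iff₀ hs0]
  refine hint.trans ?_
  have h5 := mul_le_mul_of_nonneg_left hs2 hK
  have h6 : K * (3 * Real.sqrt (Real.pi / b)) ≤
      K * (3 * Real.sqrt (Real.pi / b)) * Real.log (X + 2) :=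
    le_mul_of_one_le_right (by positivity) hlog1
  nlinarith [h5, h6]

theorem ei_sm_pr : ∃ C : ℝ, 1 ≤ C ∧ ∀ (R : ℕ) (X lam : ℝ), 1 ≤ R → 1 ≤ X → 0 < lam → lam ≤ 1 →
    SP R (fun r χ => ‖sm lam (EI (zR R) χ) X‖ ^ 2) ≤
      C * (R : ℝ) ^ 6 * Real.log (R + 1) ^ 2 * Real.log (X + 2) ^ 2 := by
  obtain ⟨C, hC, h⟩ := ei_bound
  refine ⟨16 * (4 * C) ^ 2, by nlinarith, fun R X lam hR hX hl hl1 => ?_⟩
  refine ke1_sum (4 * C) (by linarith) R hR (Real.log (X + 2))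
    (Real.log_nonneg (by linarith)) (fun r χ => ‖sm lam (EI (zR R) χ) X‖)
    (fun _ _ => norm_nonneg _) fun r χ hr hχ => ?_
  have h1 := ke1_sm (EI (zR R) χ) (C * (zR R : ℕ) * Real.sqrt r * Real.log (r + 1))
    (by
      have := Real.log_nonneg (x := (r : ℝ) + 1) (by linarith [Nat.cast_nonneg (α := ℝ) r])
      positivity) (fun x => h r (zR R) χ hr hχ x) X lam hX hl hl1
  refine h1.trans (le_of_eq ?_)
  ring

end Pool.Agent.XS

namespace Pool.Agent.XS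

/-- alias -/
theorem ei_sum : type_of% @ei_sum_pr := @ei_sum_pr

/-- alias -/
theorem ei_sm : type_of% @ei_sm_pr := @ei_sm_pr

end Pool.Agent.XS
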