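import Pool.Agent.Lib_helper26.XS.Defs
import Pool.Agent.Lib_helper26.XSF.BES
import Pool.Agent.Lib_helper26.XSF.KE1

/-!
# XS, block KDI: the type I part on the arcs
-/

set_option autoImplicit false

namespace Pool.Agent.XS

open Finset Complex MeasureTheory Pool.Agent.Var35 Pool.Agent.Var73 Pool.Agent.HC Pool.Agent.MF
open scoped ArithmeticFunction

theorem kdi_norm_e (t : ℝ) : ‖e t‖ = 1 := by
  unfold e
  rw [Complex.norm_exp]
  simp

theorem kdi_cont_e : Continuous e := by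
  unfold e
  fun_prop

theorem kdi_meas_EI (z : ℕ) {r : ℕ} (χ : DirichletCharacter ℂ r) : Measurable (EI z χ) := by
  classical
  by_cases h : χ = 1
  · have : EI z χ = fun _ => 0 := by
      funext x
      unfold EI
      rw [if_pos h]
    rw [this]
    exact measurable_const
  · have : EI z χ = (fun m : ℕ => ∑ n ∈ Icc 1 m, (cI z n : ℂ) * χ (n : ZMod r)) ∘
        (fun x : ℝ => ⌊x⌋₊) := by
      funext x
      unfold EI
      rw [if_neg h]
      rfl
    rw [this]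
    exact (measurable_from_top).comp Nat.measurable_floor

theorem kdi_bound_EI (z : ℕ) {r : ℕ} (χ : DirichletCharacter ℂ r) (X : ℝ) :
    ∃ M : ℝ, ∀ x : ℝ, x ≤ X → ‖EI z χ x‖ ≤ M := by
  classical
  refine ⟨∑ n ∈ Icc 1 ⌊X⌋₊, ‖(cI z n : ℂ) * χ (n : ZMod r)‖, fun x hx => ?_⟩
  unfold EI
  split_ifs with h
  · rw [norm_zero]
    exact Finset.sum_nonneg fun _ _ => norm_nonneg _
  · refine (norm_sum_le _ _).trans (Finset.sum_le_sum_of_subset_of_nonneg ?_ ?_)
    · exact Finset.Icc_subset_Icc_right (Nat.floor_le_floor hx)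
    · exact fun _ _ _ => norm_nonneg _

theorem kdi_int_EI (z : ℕ) {r : ℕ} (χ : DirichletCharacter ℂ r) {X : ℝ} (hX : 0 ≤ X) :
    IntervalIntegrable (fun x => ‖EI z χ x‖ ^ 2) volume 0 X := by
  obtain ⟨M, hM⟩ := kdi_bound_EI z χ X
  rw [intervalIntegrable_iff_integrableOn_Ioc_of_le hX]
  refine Measure.integrableOn_of_bounded (M := M ^ 2) (by simp) ?_ ?_
  · exact ((kdi_meas_EI z χ).norm.pow_const 2).aestronglyMeasurable
  · rw [ae_restrict_iff' measurableSet_Ioc]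
    refine Filter.Eventually.of_forall fun x hx => ?_
    rw [Real.norm_eq_abs, abs_of_nonneg (by positivity)]
    exact pow_le_pow_left₀ (norm_nonneg _) (hM x hx.2) 2

theorem kdi_cont (z : ℕ) {r : ℕ} (χ : DirichletCharacter ℂ r) {X : ℝ} (hX : 0 ≤ X) :
    Continuous fun β : ℝ => ∫ x in (0 : ℝ)..X, EI z χ x * e (x * β) := by
  obtain ⟨M, hM⟩ := kdi_bound_EI z χ X
  refine intervalIntegral.continuous_of_dominated_interval (bound := fun _ => M) ?_ ?_ ?_ ?_
  · intro β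
    exact ((kdi_meas_EI z χ).mul (kdi_cont_e.measurable.comp
      (measurable_id.mul_const β))).aestronglyMeasurable
  · intro β
    refine Filter.Eventually.of_forall fun x hx => ?_
    rw [Set.uIoc_of_le hX] at hx
    rw [norm_mul, kdi_norm_e, mul_one]
    exact hM x hx.2
  · exact intervalIntegrable_const
  · refine Filter.Eventually.of_forall fun x _ => ?_
    exact continuous_const.mul (kdi_cont_e.comp (continuous_const.mul continuous_id))

theorem kdi_one (z : ℕ) {r : ℕ} (χ : DirichletCharacter ℂ r) {X Δ : ℝ} (hX : 0 ≤ X)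
    (hΔ : 0 ≤ Δ) :
    ∫ β in (-Δ)..Δ, ‖Bf (EI z χ) X β‖ ^ 2 ≤
      4 * Δ * ‖EI z χ X‖ ^ 2 + 8 * Real.pi ^ 2 * Δ ^ 2 * ∫ x in (0 : ℝ)..X, ‖EI z χ x‖ ^ 2 := by
  have hcont := kdi_cont z χ hX
  have hb := bes (EI z χ) hX hΔ (kdi_meas_EI z χ).aestronglyMeasurable (kdi_int_EI z χ hX)
  set F : ℝ → ℂ := fun β : ℝ => ∫ x in (0 : ℝ)..X, EI z χ x * e (x * β) with hF
  have hBf : ∀ β : ℝ, Bf (EI z χ) X β =
      e (X * β) * EI z χ X - ((2 * Real.pi * β : ℝ) : ℂ) * I * F β := fun β => rfl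
  have hcB : Continuous fun β : ℝ => ‖Bf (EI z χ) X β‖ ^ 2 := by
    have : (fun β : ℝ => ‖Bf (EI z χ) X β‖ ^ 2) = fun β : ℝ =>
        ‖e (X * β) * EI z χ X - ((2 * Real.pi * β : ℝ) : ℂ) * I * F β‖ ^ 2 := by
      funext β
      rw [hBf]
    rw [this]
    have h1 : Continuous fun β : ℝ => e (X * β) :=
      kdi_cont_e.comp (continuous_const.mul continuous_id)
    have h2 : Continuous fun β : ℝ => ((2 * Real.pi * β : ℝ) : ℂ) :=
      Complex.continuous_ofReal.comp (continuous_const.mul continuous_id)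
    exact (((h1.mul continuous_const).sub ((h2.mul continuous_const).mul hcont)).norm).pow 2
  have hle : -Δ ≤ Δ := by linarith
  calc ∫ β in (-Δ)..Δ, ‖Bf (EI z χ) X β‖ ^ 2
      ≤ ∫ β in (-Δ)..Δ, (2 * ‖EI z χ X‖ ^ 2 + 8 * Real.pi ^ 2 * Δ ^ 2 * ‖F β‖ ^ 2) := by
        refine intervalIntegral.integral_mono_on hle (hcB.intervalIntegrable _ _) ?_ ?_
        · exact (continuous_const.add (continuous_const.mul
            (hcont.norm.pow 2))).intervalIntegrable _ _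
        · intro β hβ
          rw [hBf]
          have h1 : ‖e (X * β) * EI z χ X - ((2 * Real.pi * β : ℝ) : ℂ) * I * F β‖ ≤
              ‖EI z χ X‖ + 2 * Real.pi * |β| * ‖F β‖ := by
            refine (norm_sub_le _ _).trans ?_
            rw [norm_mul, kdi_norm_e, one_mul, norm_mul, norm_mul, Complex.norm_I, mul_one,
              Complex.norm_real, Real.norm_eq_abs, abs_mul, abs_of_pos Real.two_pi_pos]
          have hβ2 : β ^ 2 ≤ Δ ^ 2 := by
            rw [sq_le_sq, abs_of_nonneg hΔ]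
            exact abs_le.2 hβ
          have h2 := pow_le_pow_left₀ (norm_nonneg _) h1 2
          refine h2.trans ?_
          have h3 : (2 * Real.pi * |β| * ‖F β‖) ^ 2 = 4 * Real.pi ^ 2 * β ^ 2 * ‖F β‖ ^ 2 := by
            rw [mul_pow, mul_pow, sq_abs]; ring
          have h4 : 4 * Real.pi ^ 2 * β ^ 2 * ‖F β‖ ^ 2 ≤ 4 * Real.pi ^ 2 * Δ ^ 2 * ‖F β‖ ^ 2 := by
            gcongr
          nlinarith [sq_nonneg (‖EI z χ X‖ - 2 * Real.pi * |β| * ‖F β‖)]
    _ = 4 * Δ * ‖EI z χ X‖ ^ 2 + 8 * Real.pi ^ 2 * Δ ^ 2 * ∫ β in (-Δ)..Δ, ‖F β‖ ^ 2 := by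
        have hi : IntervalIntegrable (fun β : ℝ => 8 * Real.pi ^ 2 * Δ ^ 2 * ‖F β‖ ^ 2) volume
            (-Δ) Δ := (continuous_const.mul (hcont.norm.pow 2)).intervalIntegrable _ _
        rw [intervalIntegral.integral_add (intervalIntegrable_const) hi,
          intervalIntegral.integral_const, intervalIntegral.integral_const_mul, smul_eq_mul]
        ring
    _ ≤ _ := by
        gcongr

theorem kdi_SP_le (R : ℕ) {f g : (r : ℕ) → DirichletCharacter ℂ r → ℝ}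
    (h : ∀ r χ, f r χ ≤ g r χ) : SP R f ≤ SP R g := by
  unfold SP
  exact Finset.sum_le_sum fun r _ => Finset.sum_le_sum fun χ _ => h r χ

theorem kdi_SP_add (R : ℕ) (f g : (r : ℕ) → DirichletCharacter ℂ r → ℝ) (a b : ℝ) :
    SP R (fun r χ => a * f r χ + b * g r χ) = a * SP R f + b * SP R g := by
  unfold SP
  rw [Finset.mul_sum, Finset.mul_sum, ← Finset.sum_add_distrib]
  refine Finset.sum_congr rfl fun r _ => ?_
  rw [Finset.mul_sum, Finset.mul_sum, ← Finset.sum_add_distrib]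

theorem kdi_SP_int (R : ℕ) {X : ℝ} (hX : 0 ≤ X) (z : ℕ) :
    SP R (fun r χ => ∫ x in (0 : ℝ)..X, ‖EI z χ x‖ ^ 2) =
      ∫ x in (0 : ℝ)..X, SP R (fun r χ => ‖EI z χ x‖ ^ 2) := by
  unfold SP
  rw [intervalIntegral.integral_finsetSum]
  · refine Finset.sum_congr rfl fun r _ => ?_
    rw [intervalIntegral.integral_finsetSum]
    intro χ _
    exact kdi_int_EI z χ hX
  · intro r _
    have : (fun x => ∑ χ ∈ Pr r, ‖EI z χ x‖ ^ 2) =
        ∑ χ ∈ Pr r, fun x => ‖EI z χ x‖ ^ 2 := by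
      funext x
      rw [Finset.sum_apply]
    rw [this]
    exact IntervalIntegrable.sum _ fun χ _ => kdi_int_EI z χ hX

theorem kd_one_pr {c : ℝ} (hc : 5 / 6 ≤ c) (hc1 : c < 1) {ε : ℝ} (hε : 0 < ε) :
    ∃ C : ℝ, 1 ≤ C ∧ ∀ (R : ℕ) (X Δ : ℝ), 1 ≤ R → (R : ℝ) ^ 3 ≤ X → 1 / X ≤ Δ → Δ ≤ 1 →
    (R : ℝ) ^ 5 * Δ ≤ X ^ (2 * c - 1) →
    SP R (fun r χ => ∫ β in (-Δ)..Δ, ‖Bf (EI (zR R) χ) X β‖ ^ 2) ≤
      C * R * Δ * X ^ (2 * c + ε) := by
  obtain ⟨C, hC, hsum⟩ := ei_sum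
  have hlog : ∃ D : ℝ, 1 ≤ D ∧ ∀ X : ℝ, 1 ≤ X → Real.log (X + 2) ^ 4 ≤ D * X ^ ε := by
    have h1 := isLittleO_log_rpow_atTop (r := ε / 4) (by positivity)
    have h2 := h1.bound (show (0 : ℝ) < 1 by norm_num)
    rw [Filter.eventually_atTop] at h2
    obtain ⟨B, hB⟩ := h2
    let M : ℝ := max B 1 + 2
    have hM : 1 ≤ M := by
      have := le_max_right B 1
      show 1 ≤ max B 1 + 2
      linarith
    refine ⟨3 ^ ε * (Real.log (M + 2) ^ 4 + 1), ?_, fun X hX => ?_⟩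
    · have h3 : (1 : ℝ) ≤ 3 ^ ε := Real.one_le_rpow (by norm_num) hε.le
      have h4 : (1 : ℝ) ≤ Real.log (M + 2) ^ 4 + 1 := by
        have : 0 ≤ Real.log (M + 2) ^ 4 := by positivity
        linarith
      nlinarith
    · have hX0 : 0 < X := by linarith
      have hXε : 1 ≤ X ^ ε := Real.one_le_rpow hX hε.le
      have h3 : (1 : ℝ) ≤ 3 ^ ε := Real.one_le_rpow (by norm_num) hε.le
      rcases le_total X M with h | h
      · have h5 : Real.log (X + 2) ^ 4 ≤ Real.log (M + 2) ^ 4 :=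
          pow_le_pow_left₀ (Real.log_nonneg (by linarith))
            (Real.log_le_log (by linarith) (by linarith)) 4
        have h6 : 0 ≤ Real.log (M + 2) ^ 4 := by positivity
        calc Real.log (X + 2) ^ 4 ≤ Real.log (M + 2) ^ 4 + 1 := by linarith
          _ = 1 * (Real.log (M + 2) ^ 4 + 1) * 1 := by ring
          _ ≤ 3 ^ ε * (Real.log (M + 2) ^ 4 + 1) * X ^ ε := by gcongr
      · have hBX : B ≤ X + 2 := by
          have := le_max_left B 1
          have h' : max B 1 + 2 ≤ X := h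
          linarith
        have h4 := hB (X + 2) hBX
        rw [one_mul, Real.norm_eq_abs, Real.norm_eq_abs,
          abs_of_nonneg (Real.log_nonneg (by linarith)), abs_of_nonneg (by positivity)] at h4
        have h5 : Real.log (X + 2) ^ 4 ≤ ((X + 2) ^ (ε / 4)) ^ 4 :=
          pow_le_pow_left₀ (Real.log_nonneg (by linarith)) h4 4
        have h6 : ((X + 2) ^ (ε / 4)) ^ 4 = (X + 2) ^ ε := by
          rw [← Real.rpow_natCast, ← Real.rpow_mul (by linarith)]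
          congr 1
          push_cast
          ring
        have h7 : (X + 2) ^ ε ≤ (3 * X) ^ ε :=
          Real.rpow_le_rpow (by linarith) (by linarith) hε.le
        rw [Real.mul_rpow (by norm_num) hX0.le] at h7
        have h8 : 0 ≤ Real.log (M + 2) ^ 4 := by positivity
        calc Real.log (X + 2) ^ 4 ≤ 3 ^ ε * X ^ ε := by rw [← h6] at h7; exact h5.trans h7
          _ = 3 ^ ε * (0 + 1) * X ^ ε := by ring
          _ ≤ 3 ^ ε * (Real.log (M + 2) ^ 4 + 1) * X ^ ε := by gcongr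
  obtain ⟨D, hD, hDlog⟩ := hlog
  have hpi : 0 < Real.pi ^ 2 := by positivity
  refine ⟨(4 + 8 * Real.pi ^ 2) * C * D, ?_, ?_⟩
  · have h1 : 1 ≤ C * D := by nlinarith
    nlinarith
  intro R X Δ hR hRX hΔX hΔ1 hRΔ
  have hR1 : (1 : ℝ) ≤ R := by exact_mod_cast hR
  have hX1 : 1 ≤ X := by
    have : (1 : ℝ) ≤ (R : ℝ) ^ 3 := one_le_pow₀ hR1
    linarith
  have hX0 : 0 < X := by linarith
  have hΔ0 : 0 < Δ := lt_of_lt_of_le (by positivity) hΔX
  have hXΔ : 1 ≤ Δ * X := by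
    rw [div_le_iff₀ hX0] at hΔX
    exact hΔX
  have hRX' : (R : ℝ) ≤ X := by
    calc (R : ℝ) = (R : ℝ) ^ 1 := (pow_one _).symm
      _ ≤ (R : ℝ) ^ 3 := pow_le_pow_right₀ hR1 (by norm_num)
      _ ≤ X := hRX
  let L : ℝ := C * (R : ℝ) ^ 6 * Real.log (X + 2) ^ 4
  have hL0 : 0 ≤ L := by positivity
  have hpt : ∀ x : ℝ, 0 ≤ x → x ≤ X → SP R (fun r χ => ‖EI (zR R) χ x‖ ^ 2) ≤ L := by
    intro x hx0 hx
    refine (hsum R x hR).trans ?_
    have h1 : Real.log (R + 1) ^ 2 ≤ Real.log (X + 2) ^ 2 :=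
      pow_le_pow_left₀ (Real.log_nonneg (by linarith))
        (Real.log_le_log (by linarith) (by linarith)) 2
    have h2 : Real.log (|x| + 2) ^ 2 ≤ Real.log (X + 2) ^ 2 := by
      rw [abs_of_nonneg hx0]
      exact pow_le_pow_left₀ (Real.log_nonneg (by linarith))
        (Real.log_le_log (by linarith) (by linarith)) 2
    calc C * (R : ℝ) ^ 6 * Real.log (R + 1) ^ 2 * Real.log (|x| + 2) ^ 2
        ≤ C * (R : ℝ) ^ 6 * Real.log (X + 2) ^ 2 * Real.log (X + 2) ^ 2 := by gcongr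
      _ = L := by show _ = C * (R : ℝ) ^ 6 * Real.log (X + 2) ^ 4; ring
  have h1 : SP R (fun r χ => ∫ β in (-Δ)..Δ, ‖Bf (EI (zR R) χ) X β‖ ^ 2) ≤
      4 * Δ * SP R (fun r χ => ‖EI (zR R) χ X‖ ^ 2) +
        8 * Real.pi ^ 2 * Δ ^ 2 * SP R (fun r χ => ∫ x in (0 : ℝ)..X, ‖EI (zR R) χ x‖ ^ 2) := by
    rw [← kdi_SP_add]
    exact kdi_SP_le R fun r χ => kdi_one (zR R) χ hX0.le hΔ0.le
  have h2 : SP R (fun r χ => ∫ x in (0 : ℝ)..X, ‖EI (zR R) χ x‖ ^ 2) ≤ X * L := by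
    rw [kdi_SP_int R hX0.le]
    have h3 : ∫ x in (0 : ℝ)..X, SP R (fun r χ => ‖EI (zR R) χ x‖ ^ 2) ≤
        ∫ x in (0 : ℝ)..X, L := by
      refine intervalIntegral.integral_mono_on hX0.le ?_ intervalIntegrable_const ?_
      · have : (fun x => SP R (fun r χ => ‖EI (zR R) χ x‖ ^ 2)) =
            ∑ r ∈ Ico R (2 * R), ∑ χ ∈ Pr r, fun x => ‖EI (zR R) χ x‖ ^ 2 := by
          funext x
          unfold SP
          rw [Finset.sum_apply]
          refine Finset.sum_congr rfl fun r _ => ?_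
          rw [Finset.sum_apply]
        rw [this]
        exact IntervalIntegrable.sum _ fun r _ => IntervalIntegrable.sum _ fun χ _ =>
          kdi_int_EI _ χ hX0.le
      · intro x hx
        exact hpt x hx.1 hx.2
    rw [intervalIntegral.integral_const, sub_zero, smul_eq_mul] at h3
    exact h3
  have h3 := hpt X hX0.le le_rfl
  have h4 : SP R (fun r χ => ∫ β in (-Δ)..Δ, ‖Bf (EI (zR R) χ) X β‖ ^ 2) ≤
      (4 + 8 * Real.pi ^ 2) * (Δ ^ 2 * X * L) := by
    calc SP R (fun r χ => ∫ β in (-Δ)..Δ, ‖Bf (EI (zR R) χ) X β‖ ^ 2)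
        ≤ 4 * Δ * L + 8 * Real.pi ^ 2 * Δ ^ 2 * (X * L) := by
          refine h1.trans (add_le_add ?_ ?_)
          · exact mul_le_mul_of_nonneg_left h3 (by positivity)
          · exact mul_le_mul_of_nonneg_left h2 (by positivity)
      _ ≤ 4 * Δ * (Δ * X) * L + 8 * Real.pi ^ 2 * Δ ^ 2 * (X * L) := by
          have : 4 * Δ * L * 1 ≤ 4 * Δ * L * (Δ * X) :=
            mul_le_mul_of_nonneg_left hXΔ (by positivity)
          linarith
      _ = (4 + 8 * Real.pi ^ 2) * (Δ ^ 2 * X * L) := by ring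
  refine h4.trans ?_
  have h5 : X ^ (2 * c + ε) = X ^ (2 * c - 1) * X * X ^ ε := by
    have hX1' : X ^ (2 * c - 1) * X = X ^ (2 * c) := by
      conv_lhs => rw [← Real.rpow_one X, ← Real.rpow_mul hX0.le, one_mul,
        ← Real.rpow_add hX0]
      congr 1
      ring
    rw [hX1', ← Real.rpow_add hX0]
  have h6 : Δ ^ 2 * X * L ≤ C * D * R * Δ * X ^ (2 * c + ε) := by
    have h7 : Δ ^ 2 * X * L = C * R * Δ * ((R : ℝ) ^ 5 * Δ) * X * Real.log (X + 2) ^ 4 := by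
      show Δ ^ 2 * X * (C * (R : ℝ) ^ 6 * Real.log (X + 2) ^ 4) = _
      ring
    rw [h7, h5]
    have h8 : C * R * Δ * ((R : ℝ) ^ 5 * Δ) * X * Real.log (X + 2) ^ 4 ≤
        C * R * Δ * (X ^ (2 * c - 1)) * X * (D * X ^ ε) := by
      have h9 := hDlog X hX1
      gcongr
    refine h8.trans (le_of_eq ?_)
    ring
  calc (4 + 8 * Real.pi ^ 2) * (Δ ^ 2 * X * L)
      ≤ (4 + 8 * Real.pi ^ 2) * (C * D * R * Δ * X ^ (2 * c + ε)) :=
        mul_le_mul_of_nonneg_left h6 (by positivity)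
    _ = (4 + 8 * Real.pi ^ 2) * C * D * R * Δ * X ^ (2 * c + ε) := by ring


end Pool.Agent.XS

namespace Pool.Agent.XS

/-- alias -/
theorem kd_one : type_of% @kd_one_pr := @kd_one_pr

end Pool.Agent.XS
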