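import Pool.Agent.Lib_helper26.XS.Defs

set_option autoImplicit false

namespace Pool.Agent.XS

open Finset Complex MeasureTheory Pool.Agent.Var35 Pool.Agent.Var73 Pool.Agent.HC Pool.Agent.MF
open scoped ArithmeticFunction ArithmeticFunction.Moebius

/-! ## step functions -/

theorem ke2_meas_sum (f : ℕ → ℂ) : Measurable (fun x : ℝ => ∑ n ∈ Icc 1 ⌊x⌋₊, f n) :=
  (measurable_from_nat (f := fun N : ℕ => ∑ n ∈ Icc 1 N, f n)).comp Nat.measurable_floor

theorem ke2_meas_EE {q : ℕ} (χ : DirichletCharacter ℂ q) : Measurable (EE χ) := by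
  unfold EE
  refine (ke2_meas_sum _).sub ?_
  by_cases h : χ = 1
  · simp only [h, if_true]
    exact Complex.measurable_ofReal
  · simp only [h, if_false]
    exact measurable_const

theorem ke2_meas_E0 {q : ℕ} (χ : DirichletCharacter ℂ q) : Measurable (E0 χ) := by
  unfold E0
  exact Measurable.ite measurableSet_Iio measurable_const (ke2_meas_EE χ)

theorem ke2_meas_EI (z : ℕ) {q : ℕ} (χ : DirichletCharacter ℂ q) : Measurable (EI z χ) := by
  unfold EI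
  by_cases h : χ = 1
  · simp only [h, if_true]
    exact measurable_const
  · simp only [h, if_false]
    exact ke2_meas_sum _

theorem ke2_cI (z n : ℕ) : |cI z n| ≤ (n : ℝ) ^ 2 := by
  unfold cI
  rcases Nat.eq_zero_or_pos n with hn | hn
  · subst hn
    simp
  have h1 : ∀ d ∈ n.divisors.filter (fun d => d ≤ z),
      |(μ d : ℝ) * Real.log ((n / d : ℕ) : ℝ)| ≤ n := by
    intro d hd
    have hdn : d ∣ n := Nat.dvd_of_mem_divisors (Finset.mem_filter.mp hd).1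
    have hpos : 0 < n / d := Nat.div_pos (Nat.le_of_dvd hn hdn) (Nat.pos_of_dvd_of_pos hdn hn)
    rw [abs_mul]
    have h2 : |(μ d : ℝ)| ≤ 1 := by
      have := ArithmeticFunction.abs_moebius_le_one (n := d)
      exact_mod_cast this
    have h3 : 0 ≤ Real.log ((n / d : ℕ) : ℝ) := Real.log_nonneg (by exact_mod_cast hpos)
    have h4 : Real.log ((n / d : ℕ) : ℝ) ≤ n := by
      have h5 : Real.log ((n / d : ℕ) : ℝ) ≤ ((n / d : ℕ) : ℝ) := by
        have := Real.log_le_sub_one_of_pos (show (0 : ℝ) < ((n / d : ℕ) : ℝ) by exact_mod_cast hpos)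
        linarith
      have h6 : ((n / d : ℕ) : ℝ) ≤ n := by exact_mod_cast Nat.div_le_self n d
      linarith
    rw [abs_of_nonneg h3]
    calc |(μ d : ℝ)| * Real.log ((n / d : ℕ) : ℝ) ≤ 1 * Real.log ((n / d : ℕ) : ℝ) :=
          mul_le_mul_of_nonneg_right h2 h3
      _ ≤ n := by rw [one_mul]; exact h4
  calc |∑ d ∈ n.divisors.filter (fun d => d ≤ z), (μ d : ℝ) * Real.log ((n / d : ℕ) : ℝ)|
      ≤ ∑ d ∈ n.divisors.filter (fun d => d ≤ z), |(μ d : ℝ) * Real.log ((n / d : ℕ) : ℝ)| :=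
        Finset.abs_sum_le_sum_abs _ _
    _ ≤ ∑ _d ∈ n.divisors.filter (fun d => d ≤ z), (n : ℝ) := Finset.sum_le_sum h1
    _ = ((n.divisors.filter (fun d => d ≤ z)).card : ℝ) * n := by
        rw [Finset.sum_const, nsmul_eq_mul]
    _ ≤ (n : ℝ) * n := by
        refine mul_le_mul_of_nonneg_right ?_ (Nat.cast_nonneg n)
        have h7 : (n.divisors.filter (fun d => d ≤ z)).card ≤ n :=
          (Finset.card_filter_le _ _).trans (Nat.card_divisors_le_self n)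
        exact_mod_cast h7
    _ = (n : ℝ) ^ 2 := by ring

theorem ke2_sum_le {f : ℕ → ℂ} (hf : ∀ n : ℕ, ‖f n‖ ≤ (n : ℝ) ^ 2) {y : ℝ} (hy : 0 ≤ y) :
    ‖∑ n ∈ Icc 1 ⌊y⌋₊, f n‖ ≤ y ^ 3 := by
  have hN := Nat.floor_le hy
  calc ‖∑ n ∈ Icc 1 ⌊y⌋₊, f n‖ ≤ ∑ n ∈ Icc 1 ⌊y⌋₊, ‖f n‖ := norm_sum_le _ _
    _ ≤ ∑ _n ∈ Icc 1 ⌊y⌋₊, y ^ 2 := by
        refine Finset.sum_le_sum fun n hn => (hf n).trans ?_
        have h1 : (n : ℝ) ≤ y := (Nat.cast_le.mpr (Finset.mem_Icc.mp hn).2).trans hN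
        exact pow_le_pow_left₀ (Nat.cast_nonneg n) h1 2
    _ = (⌊y⌋₊ : ℝ) * y ^ 2 := by
        rw [Finset.sum_const, nsmul_eq_mul, Nat.card_Icc, Nat.add_sub_cancel]
    _ ≤ y * y ^ 2 := mul_le_mul_of_nonneg_right hN (by positivity)
    _ = y ^ 3 := by ring

theorem ke2_Lam {q : ℕ} (χ : DirichletCharacter ℂ q) (n : ℕ) :
    ‖(Lam n : ℂ) * χ (n : ZMod q)‖ ≤ (n : ℝ) ^ 2 := by
  rw [norm_mul]
  have h1 : ‖χ (n : ZMod q)‖ ≤ 1 := χ.norm_le_one _
  have h2 : ‖(Lam n : ℂ)‖ ≤ (n : ℝ) ^ 2 := by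
    rw [Complex.norm_real, Real.norm_eq_abs, abs_of_nonneg ArithmeticFunction.vonMangoldt_nonneg]
    rcases Nat.eq_zero_or_pos n with hn | hn
    · subst hn
      simp
    have h3 : Lam n ≤ Real.log n := ArithmeticFunction.vonMangoldt_le_log
    have hn1 : (1 : ℝ) ≤ n := by exact_mod_cast hn
    have h4 : Real.log n ≤ n := by
      have := Real.log_le_sub_one_of_pos (show (0 : ℝ) < n by linarith)
      linarith
    nlinarith
  calc ‖(Lam n : ℂ)‖ * ‖χ (n : ZMod q)‖ ≤ ‖(Lam n : ℂ)‖ * 1 :=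
        mul_le_mul_of_nonneg_left h1 (norm_nonneg _)
    _ ≤ (n : ℝ) ^ 2 := by rw [mul_one]; exact h2

theorem ke2_EI_le (z : ℕ) {q : ℕ} (χ : DirichletCharacter ℂ q) {y : ℝ} (hy : 0 ≤ y) :
    ‖EI z χ y‖ ≤ 2 * y ^ 3 := by
  unfold EI
  by_cases h : χ = 1
  · simp only [h, if_true, norm_zero]
    positivity
  · simp only [h, if_false]
    have h1 : ∀ n : ℕ, ‖(cI z n : ℂ) * χ (n : ZMod q)‖ ≤ (n : ℝ) ^ 2 := by
      intro n
      rw [norm_mul, Complex.norm_real, Real.norm_eq_abs]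
      calc |cI z n| * ‖χ (n : ZMod q)‖ ≤ |cI z n| * 1 :=
            mul_le_mul_of_nonneg_left (χ.norm_le_one _) (abs_nonneg _)
        _ ≤ (n : ℝ) ^ 2 := by rw [mul_one]; exact ke2_cI z n
    have h2 := ke2_sum_le h1 hy
    have h3 : 0 ≤ y ^ 3 := by positivity
    linarith

theorem ke2_EE_le {q : ℕ} (χ : DirichletCharacter ℂ q) {y : ℝ} (hy : 0 ≤ y) :
    ‖EE χ y‖ ≤ y ^ 3 + y := by
  unfold EE
  refine (norm_sub_le _ _).trans (add_le_add (ke2_sum_le (ke2_Lam χ) hy) ?_)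
  split_ifs
  · rw [Complex.norm_real, Real.norm_eq_abs, abs_of_nonneg hy]
  · rw [norm_zero]
    exact hy

theorem ke2_E0_le {q : ℕ} (χ : DirichletCharacter ℂ q) {y : ℝ} (hy : 0 ≤ y) :
    ‖E0 χ y‖ ≤ 2 * y ^ 3 := by
  unfold E0
  split_ifs with h
  · rw [norm_zero]
    positivity
  · have h1 := ke2_EE_le χ hy
    push Not at h
    have h2 : y ≤ y ^ 3 := by
      have : 1 ≤ y ^ 2 := one_le_pow₀ h
      nlinarith
    linarith

/-! ## the Gaussian smoothing -/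

theorem ke2_gauss {E : ℝ → ℂ} (hm : Measurable E) (hb : ∀ y : ℝ, 0 ≤ y → ‖E y‖ ≤ 2 * y ^ 3)
    {lam X : ℝ} (hl : 0 < lam) (hX : 0 ≤ X) :
    Integrable (fun v : ℝ => E (X * Real.exp (-v)) * (Real.exp (-(v ^ 2 / (4 * lam))) : ℂ)) := by
  have h1 : Integrable (fun v : ℝ => 2 * X ^ 3 * Real.exp (18 * lam) *
      Real.exp (-(1 / (8 * lam)) * v ^ 2)) :=
    (integrable_exp_neg_mul_sq (by positivity)).const_mul _
  refine h1.mono' ?_ (Filter.Eventually.of_forall fun v => ?_)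
  · refine ((hm.comp ?_).mul ?_).aestronglyMeasurable
    · exact measurable_const.mul (Real.measurable_exp.comp measurable_neg)
    · exact Complex.measurable_ofReal.comp (Real.measurable_exp.comp
        ((measurable_id.pow_const 2).div_const _).neg)
  · rw [norm_mul, Complex.norm_real, Real.norm_eq_abs, abs_of_pos (Real.exp_pos _)]
    have h2 := hb (X * Real.exp (-v)) (mul_nonneg hX (Real.exp_pos _).le)
    have h3 : (X * Real.exp (-v)) ^ 3 = X ^ 3 * Real.exp (-(3 * v)) := by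
      rw [mul_pow, ← Real.exp_nat_mul]
      congr 2
      push_cast
      ring
    rw [h3] at h2
    have h4 : Real.exp (-(3 * v)) * Real.exp (-(v ^ 2 / (4 * lam))) ≤
        Real.exp (18 * lam) * Real.exp (-(1 / (8 * lam)) * v ^ 2) := by
      rw [← Real.exp_add, ← Real.exp_add]
      apply Real.exp_le_exp.mpr
      have h5 : 0 ≤ (v + 12 * lam) ^ 2 / (8 * lam) := by positivity
      have h6 : (v + 12 * lam) ^ 2 / (8 * lam) = v ^ 2 / (8 * lam) + 3 * v + 18 * lam := by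
        field_simp
        ring
      have h7 : v ^ 2 / (4 * lam) = 2 * (v ^ 2 / (8 * lam)) := by
        field_simp
        ring
      have h8 : -(1 / (8 * lam)) * v ^ 2 = -(v ^ 2 / (8 * lam)) := by ring
      rw [h7, h8]
      linarith
    calc ‖E (X * Real.exp (-v))‖ * Real.exp (-(v ^ 2 / (4 * lam)))
        ≤ (2 * (X ^ 3 * Real.exp (-(3 * v)))) * Real.exp (-(v ^ 2 / (4 * lam))) :=
          mul_le_mul_of_nonneg_right h2 (Real.exp_pos _).le
      _ = 2 * X ^ 3 * (Real.exp (-(3 * v)) * Real.exp (-(v ^ 2 / (4 * lam)))) := by ring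
      _ ≤ 2 * X ^ 3 * (Real.exp (18 * lam) * Real.exp (-(1 / (8 * lam)) * v ^ 2)) :=
          mul_le_mul_of_nonneg_left h4 (by positivity)
      _ = _ := by ring

theorem sm_split_pr (z r : ℕ) (χ : DirichletCharacter ℂ r) {lam X : ℝ} (hl : 0 < lam)
    (hX : 1 ≤ X) : sm lam (E0 χ) X = sm lam (E2 z χ) X + sm lam (EI z χ) X := by
  have hX0 : 0 ≤ X := by linarith
  have h1 := ke2_gauss (ke2_meas_E0 χ) (fun y hy => ke2_E0_le χ hy) hl hX0
  have h2 := ke2_gauss (ke2_meas_EI z χ) (fun y hy => ke2_EI_le z χ hy) hl hX0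
  unfold sm
  rw [← mul_add]
  congr 1
  have h3 : (fun v : ℝ => E2 z χ (X * Real.exp (-v)) * (Real.exp (-(v ^ 2 / (4 * lam))) : ℂ)) =
      fun v : ℝ => E0 χ (X * Real.exp (-v)) * (Real.exp (-(v ^ 2 / (4 * lam))) : ℂ) -
        EI z χ (X * Real.exp (-v)) * (Real.exp (-(v ^ 2 / (4 * lam))) : ℂ) := by
    funext v
    unfold E2
    ring
  rw [h3, integral_sub h1 h2]
  ring

/-! ## partial summation -/

theorem ke2_e_cont (β : ℝ) : Continuous (fun x : ℝ => e (x * β)) := by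
  unfold e
  fun_prop

theorem ke2_ii {E : ℝ → ℂ} (hm : Measurable E) {X B : ℝ} (hX : 0 ≤ X)
    (hB : ∀ x : ℝ, 0 ≤ x → x ≤ X → ‖E x‖ ≤ B) (β : ℝ) :
    IntervalIntegrable (fun x => E x * e (x * β)) volume 0 X := by
  rw [intervalIntegrable_iff_integrableOn_Ioc_of_le hX]
  refine Measure.integrableOn_of_bounded (M := B) ?_ ?_ ?_
  · rw [Real.volume_Ioc]
    exact ENNReal.ofReal_ne_top
  · exact (hm.mul (ke2_e_cont β).measurable).aestronglyMeasurable
  · rw [ae_restrict_iff' measurableSet_Ioc]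
    refine Filter.Eventually.of_forall fun x hx => ?_
    rw [norm_mul, norm_e, mul_one]
    exact hB x hx.1.le hx.2

theorem ke2_deriv (β t : ℝ) :
    HasDerivAt (fun x : ℝ => e (x * β)) (((2 * Real.pi * β : ℝ) : ℂ) * I * e (t * β)) t := by
  unfold e
  have h1 : HasDerivAt (fun x : ℝ => ((2 * Real.pi * (x * β) : ℝ) : ℂ) * I)
      (((2 * Real.pi * β : ℝ) : ℂ) * I) t := by
    have h2 : HasDerivAt (fun x : ℝ => 2 * Real.pi * (x * β)) (2 * Real.pi * β) t := by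
      have := ((hasDerivAt_id t).mul_const β).const_mul (2 * Real.pi)
      simpa using this
    exact h2.ofReal_comp.mul_const I
  have h3 := h1.cexp
  rwa [mul_comm (cexp _)] at h3

theorem ke2_abel (c : ℕ → ℂ) (hc : c 0 = 0) {X : ℝ} (hX : 0 ≤ X) (β : ℝ) :
    ∑ n ∈ Icc 1 ⌊X⌋₊, c n * e (n * β) = e (X * β) * ∑ n ∈ Icc 1 ⌊X⌋₊, c n -
      ((2 * Real.pi * β : ℝ) : ℂ) * I *
        ∫ x in (0 : ℝ)..X, (∑ n ∈ Icc 1 ⌊x⌋₊, c n) * e (x * β) := by
  have hs : ∀ (g : ℕ → ℂ) (N : ℕ), g 0 = 0 → ∑ n ∈ Icc 0 N, g n = ∑ n ∈ Icc 1 N, g n := by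
    intro g N hg
    rw [← Finset.insert_Icc_add_one_left_eq_Icc (Nat.zero_le N), Finset.sum_insert, hg, zero_add]
    · rfl
    · simp
  have hd : deriv (fun x : ℝ => e (x * β)) = fun t => ((2 * Real.pi * β : ℝ) : ℂ) * I * e (t * β) :=
    funext fun t => (ke2_deriv β t).deriv
  have h := sum_mul_eq_sub_integral_mul c (f := fun x : ℝ => e (x * β)) (b := X) hX
    (fun t _ => (ke2_deriv β t).differentiableAt) (by
      rw [hd]
      exact ((ke2_e_cont β).const_mul _).continuousOn.integrableOn_Icc)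
  rw [hs _ _ (by rw [hc, mul_zero]), hs _ _ hc, hd] at h
  have h1 : ∑ n ∈ Icc 1 ⌊X⌋₊, c n * e (n * β) = ∑ n ∈ Icc 1 ⌊X⌋₊, e (n * β) * c n :=
    Finset.sum_congr rfl fun n _ => mul_comm _ _
  rw [h1, h, intervalIntegral.integral_of_le hX, ← integral_const_mul]
  congr 1
  refine integral_congr_ae (Filter.Eventually.of_forall fun t => ?_)
  show ((2 * Real.pi * β : ℝ) : ℂ) * I * e (t * β) * ∑ n ∈ Icc 0 ⌊t⌋₊, c n =
    ((2 * Real.pi * β : ℝ) : ℂ) * I * ((∑ n ∈ Icc 1 ⌊t⌋₊, c n) * e (t * β))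
  rw [hs _ _ hc]
  ring

theorem ke2_Ic {X : ℝ} (β : ℝ) : Ic X β = e (X * β) * X -
    ((2 * Real.pi * β : ℝ) : ℂ) * I * ∫ x in (0 : ℝ)..X, (x : ℂ) * e (x * β) := by
  have h1 : ∀ t : ℝ, HasDerivAt (fun x : ℝ => e (x * β) * (x : ℂ))
      (((2 * Real.pi * β : ℝ) : ℂ) * I * e (t * β) * t + e (t * β) * 1) t := fun t =>
    (ke2_deriv β t).mul Complex.ofRealCLM.hasDerivAt
  have hc1 : Continuous (fun t : ℝ => ((2 * Real.pi * β : ℝ) : ℂ) * I * e (t * β) * t) :=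
    ((continuous_const.mul (ke2_e_cont β)).mul Complex.continuous_ofReal)
  have hc2 : Continuous (fun t : ℝ => e (t * β) * 1) := (ke2_e_cont β).mul continuous_const
  have h2 := intervalIntegral.integral_eq_sub_of_hasDerivAt (a := 0) (b := X)
    (fun t _ => h1 t) ((hc1.add hc2).intervalIntegrable _ _)
  rw [intervalIntegral.integral_add (hc1.intervalIntegrable _ _) (hc2.intervalIntegrable _ _)] at h2
  simp only [mul_one, ofReal_zero, mul_zero, sub_zero] at h2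
  unfold Ic
  have h3 : ∫ t in (0 : ℝ)..X, ((2 * Real.pi * β : ℝ) : ℂ) * I * e (t * β) * t =
      ((2 * Real.pi * β : ℝ) : ℂ) * I * ∫ x in (0 : ℝ)..X, (x : ℂ) * e (x * β) := by
    rw [← intervalIntegral.integral_const_mul]
    refine intervalIntegral.integral_congr fun t _ => ?_
    show ((2 * Real.pi * β : ℝ) : ℂ) * I * e (t * β) * t =
      ((2 * Real.pi * β : ℝ) : ℂ) * I * ((t : ℂ) * e (t * β))
    ring
  rw [h3] at h2
  rw [← h2]
  ring

theorem ke2_sum_mono (f : ℕ → ℂ) {x X : ℝ} (hxX : x ≤ X) :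
    ‖∑ n ∈ Icc 1 ⌊x⌋₊, f n‖ ≤ ∑ n ∈ Icc 1 ⌊X⌋₊, ‖f n‖ :=
  (norm_sum_le _ _).trans (Finset.sum_le_sum_of_subset_of_nonneg
    (Finset.Icc_subset_Icc le_rfl (Nat.floor_le_floor hxX)) (fun _ _ _ => norm_nonneg _))

theorem eb_bf_pr {r : ℕ} (χ : DirichletCharacter ℂ r) {X : ℝ} (hX : 1 ≤ X) (β : ℝ) :
    EB χ X β = Bf (EE χ) X β := by
  have hX0 : 0 ≤ X := by linarith
  have h1 := ke2_abel (fun n => (Lam n : ℂ) * χ (n : ZMod r)) (by simp) hX0 β
  have hi1 : IntervalIntegrable (fun x : ℝ => (∑ n ∈ Icc 1 ⌊x⌋₊, (Lam n : ℂ) * χ (n : ZMod r)) *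
      e (x * β)) volume 0 X :=
    ke2_ii (E := fun x : ℝ => ∑ n ∈ Icc 1 ⌊x⌋₊, (Lam n : ℂ) * χ (n : ZMod r))
      (ke2_meas_sum _) hX0 (fun x _ hx => ke2_sum_mono _ hx) β
  unfold EB Bf EE
  by_cases h : χ = 1
  · have hi2 : IntervalIntegrable (fun x : ℝ => (x : ℂ) * e (x * β)) volume 0 X :=
      (Complex.continuous_ofReal.mul (ke2_e_cont β)).intervalIntegrable _ _
    have h2 : ∫ x in (0 : ℝ)..X, (∑ n ∈ Icc 1 ⌊x⌋₊, (Lam n : ℂ) * χ (n : ZMod r) - (x : ℂ)) *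
        e (x * β) = (∫ x in (0 : ℝ)..X, (∑ n ∈ Icc 1 ⌊x⌋₊, (Lam n : ℂ) * χ (n : ZMod r)) *
        e (x * β)) - ∫ x in (0 : ℝ)..X, (x : ℂ) * e (x * β) := by
      rw [← intervalIntegral.integral_sub hi1 hi2]
      refine intervalIntegral.integral_congr fun x _ => ?_
      exact sub_mul _ _ _
    rw [h1]
    simp only [if_pos h]
    rw [h2, ke2_Ic]
    ring
  · rw [h1]
    simp only [if_neg h, sub_zero]

theorem ke2_Bf_add {E F G : ℝ → ℂ} {X β : ℝ} (hX : 0 ≤ X)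
    (h : ∀ x, 0 ≤ x → x ≤ X → E x = F x + G x)
    (h1 : IntervalIntegrable (fun x => F x * e (x * β)) volume 0 X)
    (h2 : IntervalIntegrable (fun x => G x * e (x * β)) volume 0 X) :
    Bf E X β = Bf F X β + Bf G X β := by
  unfold Bf
  have h3 : ∫ x in (0 : ℝ)..X, E x * e (x * β) =
      (∫ x in (0 : ℝ)..X, F x * e (x * β)) + ∫ x in (0 : ℝ)..X, G x * e (x * β) := by
    rw [← intervalIntegral.integral_add h1 h2]
    refine intervalIntegral.integral_congr fun x hx => ?_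
    rw [Set.uIcc_of_le hX] at hx
    show E x * e (x * β) = F x * e (x * β) + G x * e (x * β)
    rw [h x hx.1 hx.2]
    ring
  rw [h3, h X hX le_rfl]
  ring

/-- the cut -/
noncomputable def ke2_cut {q : ℕ} (χ : DirichletCharacter ℂ q) (x : ℝ) : ℂ := EE χ x - E0 χ x

open scoped Classical in
theorem ke2_cut_eq {q : ℕ} (χ : DirichletCharacter ℂ q) (x : ℝ) :
    ke2_cut χ x = if x < 1 then (if χ = 1 then -(x : ℂ) else 0) else 0 := by
  unfold ke2_cut E0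
  by_cases h : x < 1
  · have h1 : ⌊x⌋₊ = 0 := Nat.floor_eq_zero.mpr h
    simp only [if_pos h, sub_zero]
    unfold EE
    rw [h1]
    by_cases hχ : χ = 1
    · simp [hχ]
    · simp [hχ]
  · simp only [if_neg h, sub_self]

theorem ke2_meas_cut {q : ℕ} (χ : DirichletCharacter ℂ q) : Measurable (ke2_cut χ) :=
  (ke2_meas_EE χ).sub (ke2_meas_E0 χ)

theorem ke2_cut_le {q : ℕ} (χ : DirichletCharacter ℂ q) {x : ℝ} (hx : 0 ≤ x) :
    ‖ke2_cut χ x‖ ≤ 1 := by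
  classical
  rw [ke2_cut_eq]
  split_ifs with h1 h2
  · rw [norm_neg, Complex.norm_real, Real.norm_eq_abs, abs_of_nonneg hx]
    exact h1.le
  · simp
  · simp

open scoped Classical in
theorem ke2_Bf_cut {q : ℕ} (χ : DirichletCharacter ℂ q) {X : ℝ} (hX : 1 ≤ X) (β : ℝ) :
    3 * ‖Bf (ke2_cut χ) X β‖ ^ 2 ≤ (if χ = 1 then 100 * β ^ 2 else 0) := by
  have hX0 : (0 : ℝ) ≤ X := by linarith
  unfold Bf
  have h0 : ke2_cut χ X = 0 := by
    rw [ke2_cut_eq, if_neg (not_lt.mpr hX)]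
  rw [h0, mul_zero, zero_sub, norm_neg]
  by_cases hχ : χ = 1
  · rw [if_pos hχ]
    have hi := ke2_ii (ke2_meas_cut χ) (X := X) (B := 1) hX0 (fun x hx _ => ke2_cut_le χ hx) β
    have hi1 : IntervalIntegrable (fun x => ke2_cut χ x * e (x * β)) volume 0 1 :=
      ke2_ii (ke2_meas_cut χ) (X := 1) (B := 1) zero_le_one (fun x hx _ => ke2_cut_le χ hx) β
    have hi2 : IntervalIntegrable (fun x => ke2_cut χ x * e (x * β)) volume 1 X :=
      hi1.symm.trans hi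
    have h1 : ∫ x in (0 : ℝ)..X, ke2_cut χ x * e (x * β) =
        ∫ x in (0 : ℝ)..1, ke2_cut χ x * e (x * β) := by
      rw [← intervalIntegral.integral_add_adjacent_intervals hi1 hi2]
      have h2 : ∫ x in (1 : ℝ)..X, ke2_cut χ x * e (x * β) = 0 := by
        rw [intervalIntegral.integral_congr (g := fun _ => (0 : ℂ))]
        · simp
        · intro x hx
          rw [Set.uIcc_of_le hX] at hx
          simp only
          rw [ke2_cut_eq, if_neg (not_lt.mpr hx.1), zero_mul]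
      rw [h2, add_zero]
    have h2 : ‖∫ x in (0 : ℝ)..1, ke2_cut χ x * e (x * β)‖ ≤ ∫ x in (0 : ℝ)..1, x := by
      refine intervalIntegral.norm_integral_le_of_norm_le zero_le_one
        (Filter.Eventually.of_forall fun x hx => ?_) (continuous_id.intervalIntegrable _ _)
      rw [norm_mul, norm_e, mul_one, ke2_cut_eq]
      split_ifs
      · rw [norm_neg, Complex.norm_real, Real.norm_eq_abs, abs_of_pos hx.1]
      · rw [norm_zero]
        exact hx.1.le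
    rw [integral_id] at h2
    rw [h1, norm_mul, norm_mul, Complex.norm_I, mul_one, Complex.norm_real, Real.norm_eq_abs]
    have h3 : |2 * Real.pi * β| * ‖∫ x in (0 : ℝ)..1, ke2_cut χ x * e (x * β)‖ ≤
        |2 * Real.pi * β| * (1 / 2) := by
      refine mul_le_mul_of_nonneg_left (h2.trans (by norm_num)) (abs_nonneg _)
    have h4 : (|2 * Real.pi * β| * ‖∫ x in (0 : ℝ)..1, ke2_cut χ x * e (x * β)‖) ^ 2 ≤
        (|2 * Real.pi * β| * (1 / 2)) ^ 2 := pow_le_pow_left₀ (by positivity) h3 2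
    have h5 : (|2 * Real.pi * β| * (1 / 2)) ^ 2 = Real.pi ^ 2 * β ^ 2 := by
      rw [mul_pow, sq_abs]
      ring
    rw [h5] at h4
    have h6 : Real.pi ^ 2 ≤ 16 := by
      have := Real.pi_le_four
      have := Real.pi_pos
      nlinarith
    have h7 : Real.pi ^ 2 * β ^ 2 ≤ 16 * β ^ 2 := mul_le_mul_of_nonneg_right h6 (sq_nonneg β)
    nlinarith [sq_nonneg β]
  · rw [if_neg hχ]
    have h1 : ∀ x : ℝ, ke2_cut χ x = 0 := by
      intro x
      rw [ke2_cut_eq]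
      simp [hχ]
    simp [h1]

theorem ke2_sq (a b c : ℂ) : ‖a + b + c‖ ^ 2 ≤ 3 * ‖a‖ ^ 2 + 3 * ‖b‖ ^ 2 + 3 * ‖c‖ ^ 2 := by
  have h1 : ‖a + b + c‖ ≤ ‖a‖ + ‖b‖ + ‖c‖ := norm_add₃_le
  have h2 : ‖a + b + c‖ ^ 2 ≤ (‖a‖ + ‖b‖ + ‖c‖) ^ 2 := pow_le_pow_left₀ (norm_nonneg _) h1 2
  nlinarith [sq_nonneg (‖a‖ - ‖b‖), sq_nonneg (‖a‖ - ‖c‖), sq_nonneg (‖b‖ - ‖c‖)]

open scoped Classical in
theorem eb_split_pr (z : ℕ) {r : ℕ} (χ : DirichletCharacter ℂ r) {X : ℝ} (hX : 1 ≤ X) (β : ℝ) :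
    ‖EB χ X β‖ ^ 2 ≤ 3 * ‖Bf (E2 z χ) X β‖ ^ 2 + 3 * ‖Bf (EI z χ) X β‖ ^ 2 +
      (if χ = 1 then 100 * β ^ 2 else 0) := by
  have hX0 : (0 : ℝ) ≤ X := by linarith
  have hc := ke2_Bf_cut χ hX β
  have hiI : IntervalIntegrable (fun x => EI z χ x * e (x * β)) volume 0 X :=
    ke2_ii (ke2_meas_EI z χ) (B := 2 * X ^ 3) hX0 (fun x hx hx' =>
      (ke2_EI_le z χ hx).trans (by gcongr)) β
  have hi0 : IntervalIntegrable (fun x => E0 χ x * e (x * β)) volume 0 X :=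
    ke2_ii (ke2_meas_E0 χ) (B := 2 * X ^ 3) hX0 (fun x hx hx' =>
      (ke2_E0_le χ hx).trans (by gcongr)) β
  have hi2 : IntervalIntegrable (fun x => E2 z χ x * e (x * β)) volume 0 X := by
    have h1 := hi0.sub hiI
    refine h1.congr (fun x _ => ?_)
    show E0 χ x * e (x * β) - EI z χ x * e (x * β) = (E0 χ x - EI z χ x) * e (x * β)
    exact (sub_mul _ _ _).symm
  have hic : IntervalIntegrable (fun x => ke2_cut χ x * e (x * β)) volume 0 X :=
    ke2_ii (ke2_meas_cut χ) (B := 1) hX0 (fun x hx _ => ke2_cut_le χ hx) β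
  have h1 : Bf (EE χ) X β = Bf (fun x => E2 z χ x + EI z χ x) X β + Bf (ke2_cut χ) X β := by
    refine ke2_Bf_add hX0 (fun x _ _ => ?_) ?_ hic
    · unfold ke2_cut E2
      ring
    · refine (hi2.add hiI).congr (fun x _ => ?_)
      exact (add_mul _ _ _).symm
  have h2 : Bf (fun x => E2 z χ x + EI z χ x) X β = Bf (E2 z χ) X β + Bf (EI z χ) X β :=
    ke2_Bf_add hX0 (fun x _ _ => rfl) hi2 hiI
  rw [eb_bf_pr χ hX β, h1, h2]
  have h3 := ke2_sq (Bf (E2 z χ) X β) (Bf (EI z χ) X β) (Bf (ke2_cut χ) X β)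
  linarith


end Pool.Agent.XS

namespace Pool.Agent.XS

/-- alias -/
theorem sm_split : type_of% @sm_split_pr := @sm_split_pr

/-- alias -/
theorem eb_bf : type_of% @eb_bf_pr := @eb_bf_pr

/-- alias -/
theorem eb_split : type_of% @eb_split_pr := @eb_split_pr

end Pool.Agent.XS
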