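import Pool.Agent.Lib_helper26.XS.Defs
import Pool.Agent.Lib_helper61.FG.DivB

set_option autoImplicit false

namespace Pool.Agent.XS

open Finset Complex MeasureTheory Pool.Agent.Var35 Pool.Agent.Var73 Pool.Agent.HC Pool.Agent.MF
open scoped ArithmeticFunction ArithmeticFunction.Moebius

theorem coe_moebius {n : ℕ} (hn : 1 < n) : ∑ d ∈ n.divisors, (μ d : ℝ) = 0 := by
  have h : ∑ d ∈ n.divisors, (μ d : ℤ) = 0 := by
    rw [← ArithmeticFunction.coe_zeta_mul_apply, ArithmeticFunction.coe_zeta_mul_moebius,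
      ArithmeticFunction.one_apply_ne hn.ne']
  exact_mod_cast h

/-- COE -/
theorem clm_mul_pr {q : ℕ} (χ : DirichletCharacter ℂ q) (z N : ℕ) (s : ℂ) :
    (∑ n ∈ Icc 1 N, χ (n : ZMod q) * (n : ℂ) ^ (-s)) * MM z χ s =
      ∑ n ∈ Icc 1 (z * N), (cLM z N n : ℂ) * χ (n : ZMod q) * (n : ℂ) ^ (-s) := by
  classical
  unfold MM cLM
  rw [Finset.sum_mul_sum, ← Finset.sum_product']
  have hmaps : ∀ x ∈ Icc 1 N ×ˢ Icc 1 z, x.1 * x.2 ∈ Icc 1 (z * N) := by
    intro x hx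
    simp only [mem_product, mem_Icc] at hx ⊢
    constructor
    · exact Nat.mul_pos hx.1.1 hx.2.1
    · calc x.1 * x.2 ≤ N * z := Nat.mul_le_mul hx.1.2 hx.2.2
        _ = z * N := mul_comm _ _
  rw [← Finset.sum_fiberwise_of_maps_to hmaps]
  refine Finset.sum_congr rfl fun m hm => ?_
  have hm0 : 0 < m := (mem_Icc.1 hm).1
  rw [Complex.ofReal_sum, Finset.sum_mul, Finset.sum_mul]
  refine Finset.sum_bij' (fun x _ => x.2) (fun d _ => (m / d, d)) ?_ ?_ ?_ ?_ ?_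
  · intro x hx
    simp only [mem_filter, mem_product, mem_Icc, Nat.mem_divisors] at hx ⊢
    obtain ⟨⟨⟨h1, h2⟩, h3, h4⟩, h5⟩ := hx
    have h6 : m / x.2 = x.1 := by
      rw [← h5]
      exact Nat.mul_div_cancel _ h3
    refine ⟨⟨⟨x.1, by rw [← h5]; ring⟩, hm0.ne'⟩, h4, ?_⟩
    rw [h6]
    exact h2
  · intro d hd
    simp only [mem_filter, mem_product, mem_Icc, Nat.mem_divisors] at hd ⊢
    obtain ⟨⟨h1, _⟩, h3, h4⟩ := hd
    have hd0 : 0 < d := Nat.pos_of_dvd_of_pos h1 hm0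
    refine ⟨⟨⟨Nat.div_pos (Nat.le_of_dvd hm0 h1) hd0, h4⟩, hd0, h3⟩, Nat.div_mul_cancel h1⟩
  · intro x hx
    simp only [mem_filter, mem_product, mem_Icc] at hx
    obtain ⟨⟨⟨h1, h2⟩, h3, h4⟩, h5⟩ := hx
    have h6 : m / x.2 = x.1 := by
      rw [← h5]
      exact Nat.mul_div_cancel _ h3
    ext
    · exact h6
    · rfl
  · intro d _
    rfl
  · intro x hx
    simp only [mem_filter, mem_product, mem_Icc] at hx
    obtain ⟨_, h5⟩ := hx
    rw [← h5]
    push_cast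
    rw [map_mul, Complex.natCast_mul_natCast_cpow]
    ring

/-- COE -/
theorem clm_one_pr {z N : ℕ} (hz : 1 ≤ z) (hN : 1 ≤ N) : cLM z N 1 = 1 := by
  unfold cLM
  rw [Nat.divisors_one, Finset.filter_true_of_mem]
  · simp
  · intro d hd
    rw [mem_singleton] at hd
    subst hd
    exact ⟨hz, by simpa using hN⟩

/-- COE -/
theorem clm_zero_pr {z N n : ℕ} (h1 : 1 < n) (hz : n ≤ z) (hN : n ≤ N) : cLM z N n = 0 := by
  unfold cLM
  rw [Finset.filter_true_of_mem, coe_moebius h1]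
  intro d hd
  have hdn : d ≤ n := Nat.divisor_le hd
  exact ⟨hdn.trans hz, (Nat.div_le_self n d).trans hN⟩

/-- COE -/
theorem clm_bound_pr {ε : ℝ} (hε : 0 < ε) : ∃ C : ℝ, 1 ≤ C ∧ ∀ z N n : ℕ, 1 ≤ n →
    |cLM z N n| ≤ C * (n : ℝ) ^ ε := by
  obtain ⟨C, hC, h⟩ := Pool.Agent.FG61.divisor_bound hε
  refine ⟨max C 1, le_max_right _ _, fun z N n hn => ?_⟩
  have h1 : |cLM z N n| ≤ (n.divisors.card : ℝ) := by
    unfold cLM
    calc |∑ d ∈ n.divisors.filter (fun d => d ≤ z ∧ n / d ≤ N), (μ d : ℝ)|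
        ≤ ∑ d ∈ n.divisors.filter (fun d => d ≤ z ∧ n / d ≤ N), |(μ d : ℝ)| :=
          Finset.abs_sum_le_sum_abs _ _
      _ ≤ ∑ d ∈ n.divisors.filter (fun d => d ≤ z ∧ n / d ≤ N), (1 : ℝ) := by
          refine Finset.sum_le_sum fun d _ => ?_
          have := ArithmeticFunction.abs_moebius_le_one (n := d)
          exact_mod_cast this
      _ ≤ ∑ d ∈ n.divisors, (1 : ℝ) :=
          Finset.sum_le_sum_of_subset_of_nonneg (Finset.filter_subset _ _)
            (fun _ _ _ => zero_le_one)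
      _ = (n.divisors.card : ℝ) := by simp
  calc |cLM z N n| ≤ (n.divisors.card : ℝ) := h1
    _ ≤ C * (n : ℝ) ^ ε := h n hn
    _ ≤ max C 1 * (n : ℝ) ^ ε := by
        refine mul_le_mul_of_nonneg_right (le_max_left _ _) ?_
        positivity

end Pool.Agent.XS

namespace Pool.Agent.XS

/-- alias -/
theorem clm_mul : type_of% @clm_mul_pr := @clm_mul_pr

/-- alias -/
theorem clm_one : type_of% @clm_one_pr := @clm_one_pr

/-- alias -/
theorem clm_zero : type_of% @clm_zero_pr := @clm_zero_pr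

/-- alias -/
theorem clm_bound : type_of% @clm_bound_pr := @clm_bound_pr

end Pool.Agent.XS
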