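import Pool.Agent.Lib_helper26.XS.Defs
import Pool.Agent.Lib_helper26.XSF.COE
import Pool.Agent.Lib_helper26.XSF.HLS

set_option autoImplicit false

namespace Pool.Agent.XS

open Finset Complex MeasureTheory Pool.Agent.Var35 Pool.Agent.Var73 Pool.Agent.HC Pool.Agent.MF
open scoped ArithmeticFunction ArithmeticFunction.Moebius

theorem kmx_id {q : ℕ} (χ : DirichletCharacter ℂ q) {z N : ℕ} (hz : 1 ≤ z) (hzN : z ≤ N) (s : ℂ) :
    1 - (∑ n ∈ Icc 1 N, χ (n : ZMod q) * (n : ℂ) ^ (-s)) * MM z χ s =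
      - ∑ n ∈ Ioc z (z * N), (cLM z N n : ℂ) * χ (n : ZMod q) * (n : ℂ) ^ (-s) := by
  have hN : 1 ≤ N := hz.trans hzN
  rw [clm_mul]
  have hle : z ≤ z * N := Nat.le_mul_of_pos_right z hN
  have h1 : Icc 1 (z * N) = Icc 1 z ∪ Ioc z (z * N) := by
    ext n
    simp only [mem_Icc, mem_union, mem_Ioc]
    omega
  have hd : Disjoint (Icc 1 z) (Ioc z (z * N)) := by
    rw [Finset.disjoint_left]
    intro n hn hn'
    simp only [mem_Icc] at hn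
    simp only [mem_Ioc] at hn'
    omega
  have h2 : ∑ n ∈ Icc 1 z, (cLM z N n : ℂ) * χ (n : ZMod q) * (n : ℂ) ^ (-s) = 1 := by
    rw [Finset.sum_eq_single 1]
    · rw [clm_one hz hN]
      simp
    · intro n hn hn1
      simp only [mem_Icc] at hn
      rw [clm_zero (by omega) hn.2 (hn.2.trans hzN)]
      simp
    · intro hn
      exact absurd (mem_Icc.2 ⟨le_rfl, hz⟩) hn
  rw [h1, Finset.sum_union hd, h2]
  ring

theorem kmx_cpow {n : ℕ} (hn : 1 ≤ n) (c t : ℝ) :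
    (n : ℂ) ^ (-((c : ℂ) + t * I)) = (((n : ℝ) ^ (-c) : ℝ) : ℂ) * (n : ℂ) ^ (-(t * I) : ℂ) := by
  have hn0 : (n : ℂ) ≠ 0 := by
    exact_mod_cast (show n ≠ 0 by omega)
  rw [Complex.ofReal_cpow (Nat.cast_nonneg n), ← Complex.ofReal_natCast,
    ← Complex.cpow_add _ _ (by simpa using hn0)]
  congr 1
  push_cast
  ring

/-- the sum over `z < n ≤ M` of `n^(b-1)`, `b ≥ 0` -/
theorem kmx_sum_pos {b : ℝ} (hb : 0 ≤ b) (z M : ℕ) (hM : 1 ≤ M) :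
    ∑ n ∈ Ioc z M, (n : ℝ) ^ (b - 1) ≤ (M : ℝ) ^ b * (1 + Real.log M) := by
  have h1 : ∀ n ∈ Ioc z M, (n : ℝ) ^ (b - 1) ≤ (M : ℝ) ^ b * ((n : ℝ)⁻¹) := by
    intro n hn
    have hn' := mem_Ioc.1 hn
    have hn0 : (0 : ℝ) < n := by
      exact_mod_cast (show 0 < n by omega)
    rw [Real.rpow_sub_one hn0.ne', div_eq_mul_inv]
    refine mul_le_mul_of_nonneg_right ?_ (by positivity)
    exact Real.rpow_le_rpow hn0.le (by exact_mod_cast hn'.2) hb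
  calc ∑ n ∈ Ioc z M, (n : ℝ) ^ (b - 1) ≤ ∑ n ∈ Ioc z M, (M : ℝ) ^ b * ((n : ℝ)⁻¹) :=
        Finset.sum_le_sum h1
    _ = (M : ℝ) ^ b * ∑ n ∈ Ioc z M, ((n : ℝ)⁻¹) := by rw [Finset.mul_sum]
    _ ≤ (M : ℝ) ^ b * ∑ n ∈ Icc 1 M, ((n : ℝ)⁻¹) := by
        refine mul_le_mul_of_nonneg_left ?_ (by positivity)
        refine Finset.sum_le_sum_of_subset_of_nonneg ?_ (fun _ _ _ => by positivity)
        intro n hn
        have hn' := mem_Ioc.1 hn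
        exact mem_Icc.2 ⟨by omega, hn'.2⟩
    _ ≤ (M : ℝ) ^ b * (1 + Real.log M) := by
        refine mul_le_mul_of_nonneg_left ?_ (by positivity)
        have h := harmonic_le_one_add_log M
        rw [harmonic_eq_sum_Icc] at h
        push_cast at h
        exact h

/-- the sum over `z < n ≤ M` of `n^(-b-1)`, `b ≥ 0`, `B ≤ n` -/
theorem kmx_sum_neg {b : ℝ} (hb : 0 ≤ b) (z M : ℕ) (hM : 1 ≤ M) {B : ℝ} (hB : 0 < B)
    (hBz : ∀ n : ℕ, z < n → B ≤ n) :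
    ∑ n ∈ Ioc z M, (n : ℝ) ^ (-b - 1) ≤ B ^ (-b) * (1 + Real.log M) := by
  have h1 : ∀ n ∈ Ioc z M, (n : ℝ) ^ (-b - 1) ≤ B ^ (-b) * ((n : ℝ)⁻¹) := by
    intro n hn
    have hn' := mem_Ioc.1 hn
    have hn0 : (0 : ℝ) < n := by
      exact_mod_cast (show 0 < n by omega)
    rw [Real.rpow_sub_one hn0.ne', div_eq_mul_inv]
    refine mul_le_mul_of_nonneg_right ?_ (by positivity)
    exact Real.rpow_le_rpow_of_nonpos hB (hBz n hn'.1) (by linarith)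
  calc ∑ n ∈ Ioc z M, (n : ℝ) ^ (-b - 1) ≤ ∑ n ∈ Ioc z M, B ^ (-b) * ((n : ℝ)⁻¹) :=
        Finset.sum_le_sum h1
    _ = B ^ (-b) * ∑ n ∈ Ioc z M, ((n : ℝ)⁻¹) := by rw [Finset.mul_sum]
    _ ≤ B ^ (-b) * ∑ n ∈ Icc 1 M, ((n : ℝ)⁻¹) := by
        refine mul_le_mul_of_nonneg_left ?_ (by positivity)
        refine Finset.sum_le_sum_of_subset_of_nonneg ?_ (fun _ _ _ => by positivity)
        intro n hn
        have hn' := mem_Ioc.1 hn
        exact mem_Icc.2 ⟨by omega, hn'.2⟩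
    _ ≤ B ^ (-b) * (1 + Real.log M) := by
        refine mul_le_mul_of_nonneg_left ?_ (by positivity)
        have h := harmonic_le_one_add_log M
        rw [harmonic_eq_sum_Icc] at h
        push_cast at h
        exact h

theorem kmx_zR {R : ℕ} (hR : 2 ≤ R) : 1 ≤ zR R ∧ (zR R : ℝ) ≤ (R : ℝ) ^ (3 / 2 : ℝ) ∧
    ∀ n : ℕ, zR R < n → (R : ℝ) ^ (3 / 2 : ℝ) ≤ n := by
  unfold zR
  have hR0 : (0 : ℝ) ≤ R := Nat.cast_nonneg R
  have hsq : ((R : ℝ) ^ (3 / 2 : ℝ)) ^ 2 = (R : ℝ) ^ 3 := by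
    rw [← Real.rpow_natCast, ← Real.rpow_mul hR0, ← Real.rpow_natCast]
    norm_num
  have hpos : 0 ≤ (R : ℝ) ^ (3 / 2 : ℝ) := by positivity
  refine ⟨?_, ?_, ?_⟩
  · rw [Nat.le_sqrt]
    nlinarith [Nat.pow_pos (n := 3) (show 0 < R by omega)]
  · have h := Nat.sqrt_le' (R ^ 3)
    have h' : ((Nat.sqrt (R ^ 3) : ℕ) : ℝ) ^ 2 ≤ ((R : ℝ) ^ (3 / 2 : ℝ)) ^ 2 := by
      rw [hsq]
      exact_mod_cast h
    exact le_of_sq_le_sq h' hpos
  · intro n hn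
    have h : R ^ 3 < n ^ 2 := by
      have := Nat.sqrt_lt'.1 hn
      exact this
    have h' : ((R : ℝ) ^ (3 / 2 : ℝ)) ^ 2 ≤ (n : ℝ) ^ 2 := by
      rw [hsq]
      exact_mod_cast h.le
    exact le_of_sq_le_sq h' (Nat.cast_nonneg n)

/-- the main numerical estimate -/
theorem kmx_num {c : ℝ} (hc : 5 / 6 ≤ c) (hc1 : c < 1) {d : ℝ} (hd : 0 < d) (hd1 : d ≤ 1 / 6)
    {R : ℕ} (hR : 2 ≤ R) {T : ℝ} (hT : 1 ≤ T) {z M : ℕ} (hz : ∀ n : ℕ, z < n →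
    (R : ℝ) ^ (3 / 2 : ℝ) ≤ n) (hM1 : 1 ≤ M) (hM : (M : ℝ) ≤ 2 * ((R : ℝ) * T) ^ 3) :
    ∑ n ∈ Ioc z M, ((n : ℝ) + ((2 * R : ℕ) : ℝ) ^ 2 * T) * (n : ℝ) ^ (2 * d - 2 * c) ≤
      6 * (2 + 3 / d) * ((R : ℝ) * T) ^ (1 + 7 * d) := by
  have hR' : (2 : ℝ) ≤ R := by exact_mod_cast hR
  have hR0 : (0 : ℝ) < R := by linarith
  set W : ℝ := (R : ℝ) * T with hW
  have hRW : (R : ℝ) ≤ W := by
    rw [hW]
    nlinarith
  have hW2 : (2 : ℝ) ≤ W := hR'.trans hRW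
  have hW1 : (1 : ℝ) ≤ W := by linarith
  have hW0 : (0 : ℝ) < W := by linarith
  have hM0 : (0 : ℝ) < M := by exact_mod_cast hM1
  -- log
  have hlog : 1 + Real.log M ≤ (2 + 3 / d) * W ^ d := by
    have h1 : Real.log M ≤ Real.log 2 + 3 * Real.log W := by
      calc Real.log M ≤ Real.log (2 * W ^ 3) := Real.log_le_log hM0 hM
        _ = Real.log 2 + 3 * Real.log W := by
            rw [Real.log_mul (by norm_num) (by positivity), Real.log_pow]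
            push_cast
            ring
    have h2 : Real.log W ≤ W ^ d / d := Real.log_le_rpow_div hW0.le hd
    have h3 : Real.log 2 ≤ 1 := by
      have := Real.log_two_lt_d9
      linarith
    have h4 : 1 ≤ W ^ d := Real.one_le_rpow hW1 hd.le
    have h5 : (2 + 3 / d) * W ^ d = 2 * W ^ d + 3 * (W ^ d / d) := by ring
    rw [h5]
    linarith
  have hlog0 : 0 ≤ 1 + Real.log M := by
    have : 0 ≤ Real.log M := Real.log_natCast_nonneg M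
    linarith
  -- first part
  have hA : ∑ n ∈ Ioc z M, (n : ℝ) * (n : ℝ) ^ (2 * d - 2 * c) ≤
      2 * W ^ (1 + 6 * d) * ((2 + 3 / d) * W ^ d) := by
    have hb : 0 ≤ 2 - 2 * c + 2 * d := by linarith
    have h1 : ∑ n ∈ Ioc z M, (n : ℝ) * (n : ℝ) ^ (2 * d - 2 * c) =
        ∑ n ∈ Ioc z M, (n : ℝ) ^ ((2 - 2 * c + 2 * d) - 1) := by
      refine Finset.sum_congr rfl fun n hn => ?_
      have hn0 : (0 : ℝ) < n := by
        have := mem_Ioc.1 hn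
        exact_mod_cast (show 0 < n by omega)
      rw [show (2 - 2 * c + 2 * d) - 1 = 1 + (2 * d - 2 * c) by ring,
        Real.rpow_add hn0, Real.rpow_one]
    rw [h1]
    refine (kmx_sum_pos hb z M hM1).trans ?_
    refine mul_le_mul ?_ hlog hlog0 (by positivity)
    have h2 : (1 : ℝ) ≤ 2 * W ^ 3 := by
      have : (1 : ℝ) ≤ W ^ 3 := one_le_pow₀ hW1
      linarith
    calc (M : ℝ) ^ (2 - 2 * c + 2 * d) ≤ (2 * W ^ 3) ^ (2 - 2 * c + 2 * d) :=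
          Real.rpow_le_rpow hM0.le hM hb
      _ ≤ (2 * W ^ 3) ^ (1 / 3 + 2 * d) :=
          Real.rpow_le_rpow_of_exponent_le h2 (by linarith)
      _ = (2 : ℝ) ^ (1 / 3 + 2 * d) * W ^ (1 + 6 * d) := by
          rw [Real.mul_rpow (by norm_num) (by positivity), ← Real.rpow_natCast W 3,
            ← Real.rpow_mul hW0.le]
          congr 2
          push_cast
          ring
      _ ≤ 2 * W ^ (1 + 6 * d) := by
          refine mul_le_mul_of_nonneg_right ?_ (by positivity)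
          calc (2 : ℝ) ^ (1 / 3 + 2 * d) ≤ (2 : ℝ) ^ (1 : ℝ) :=
                Real.rpow_le_rpow_of_exponent_le (by norm_num) (by linarith)
            _ = 2 := Real.rpow_one 2
  -- second part
  have hB : ∑ n ∈ Ioc z M, (((2 * R : ℕ) : ℝ) ^ 2 * T) * (n : ℝ) ^ (2 * d - 2 * c) ≤
      4 * W ^ (1 + 6 * d) * ((2 + 3 / d) * W ^ d) := by
    have hb : 0 ≤ 2 * c - 1 - 2 * d := by linarith
    have h1 : ∑ n ∈ Ioc z M, (n : ℝ) ^ (2 * d - 2 * c) =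
        ∑ n ∈ Ioc z M, (n : ℝ) ^ (-(2 * c - 1 - 2 * d) - 1) := by
      refine Finset.sum_congr rfl fun n _ => ?_
      congr 1
      ring
    rw [← Finset.mul_sum, h1]
    have h2 := kmx_sum_neg hb z M hM1 (B := (R : ℝ) ^ (3 / 2 : ℝ)) (by positivity) hz
    have h3 : ((R : ℝ) ^ (3 / 2 : ℝ)) ^ (-(2 * c - 1 - 2 * d)) ≤ (R : ℝ) ^ (-1 + 3 * d) := by
      rw [← Real.rpow_mul hR0.le]
      refine Real.rpow_le_rpow_of_exponent_le (by linarith) ?_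
      linarith
    have h4 : 0 ≤ ((2 * R : ℕ) : ℝ) ^ 2 * T := by positivity
    calc ((2 * R : ℕ) : ℝ) ^ 2 * T * ∑ n ∈ Ioc z M, (n : ℝ) ^ (-(2 * c - 1 - 2 * d) - 1)
        ≤ ((2 * R : ℕ) : ℝ) ^ 2 * T * ((R : ℝ) ^ (-1 + 3 * d) * ((2 + 3 / d) * W ^ d)) := by
          refine mul_le_mul_of_nonneg_left (h2.trans ?_) h4
          exact mul_le_mul h3 hlog hlog0 (by positivity)
      _ = 4 * (T * ((R : ℝ) ^ (2 : ℝ) * (R : ℝ) ^ (-1 + 3 * d))) * ((2 + 3 / d) * W ^ d) := by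
          rw [Real.rpow_two]
          push_cast
          ring
      _ = 4 * (W * (R : ℝ) ^ (3 * d)) * ((2 + 3 / d) * W ^ d) := by
          rw [← Real.rpow_add hR0, show (2 : ℝ) + (-1 + 3 * d) = 1 + 3 * d by ring,
            Real.rpow_add hR0, Real.rpow_one, hW]
          ring
      _ ≤ 4 * W ^ (1 + 6 * d) * ((2 + 3 / d) * W ^ d) := by
          refine mul_le_mul_of_nonneg_right ?_ (by positivity)
          refine mul_le_mul_of_nonneg_left ?_ (by norm_num)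
          rw [Real.rpow_add hW0, Real.rpow_one]
          refine mul_le_mul_of_nonneg_left ?_ hW0.le
          calc (R : ℝ) ^ (3 * d) ≤ W ^ (3 * d) := Real.rpow_le_rpow hR0.le hRW (by positivity)
            _ ≤ W ^ (6 * d) := Real.rpow_le_rpow_of_exponent_le hW1 (by linarith)
  calc ∑ n ∈ Ioc z M, ((n : ℝ) + ((2 * R : ℕ) : ℝ) ^ 2 * T) * (n : ℝ) ^ (2 * d - 2 * c)
      = ∑ n ∈ Ioc z M, (n : ℝ) * (n : ℝ) ^ (2 * d - 2 * c) +
        ∑ n ∈ Ioc z M, (((2 * R : ℕ) : ℝ) ^ 2 * T) * (n : ℝ) ^ (2 * d - 2 * c) := by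
        rw [← Finset.sum_add_distrib]
        refine Finset.sum_congr rfl fun n _ => ?_
        ring
    _ ≤ 2 * W ^ (1 + 6 * d) * ((2 + 3 / d) * W ^ d) +
        4 * W ^ (1 + 6 * d) * ((2 + 3 / d) * W ^ d) := add_le_add hA hB
    _ = 6 * (2 + 3 / d) * W ^ (1 + 7 * d) := by
        rw [show 1 + 7 * d = (1 + 6 * d) + d by ring, Real.rpow_add hW0 (1 + 6 * d) d]
        ring

/-- KMA: main term of the mean value -/
theorem kma_main_pr {c : ℝ} (hc : 5 / 6 ≤ c) (hc1 : c < 1) {ε : ℝ} (hε : 0 < ε) :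
    ∃ C : ℝ, 1 ≤ C ∧ ∀ R : ℕ, 2 ≤ R → ∀ T : ℝ, 1 ≤ T → ∀ N : ℕ,
    ((R : ℝ) * T) ^ (3 / 2 : ℝ) ≤ N → (N : ℝ) ≤ 2 * ((R : ℝ) * T) ^ (3 / 2 : ℝ) →
    SP R (fun r χ => ∫ t in (-T)..T, ‖1 - (∑ n ∈ Icc 1 N, χ (n : ZMod r) *
      (n : ℂ) ^ (-((c : ℂ) + t * I))) * MM (zR R) χ (c + t * I)‖ ^ 2) ≤
      C * ((R : ℝ) * T) ^ (1 + ε) := by
  obtain ⟨C₁, hC₁, hls1⟩ := hls
  set d : ℝ := min (ε / 7) (1 / 6) with hd_def
  have hd : 0 < d := by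
    rw [hd_def]
    exact lt_min (by positivity) (by norm_num)
  have hd1 : d ≤ 1 / 6 := min_le_right _ _
  have hd2 : 7 * d ≤ ε := by
    have : d ≤ ε / 7 := min_le_left _ _
    linarith
  obtain ⟨C₂, hC₂, hcl⟩ := clm_bound hd
  have hC₂0 : 0 ≤ C₂ := by linarith
  have hC₁0 : 0 ≤ C₁ := by linarith
  refine ⟨max 1 (C₁ * (C₂ ^ 2 * (6 * (2 + 3 / d)))), le_max_left _ _,
    fun R hR T hT N hN1 hN2 => ?_⟩
  obtain ⟨hz1, hz2, hz3⟩ := kmx_zR hR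
  have hR' : (2 : ℝ) ≤ R := by exact_mod_cast hR
  have hR0 : (0 : ℝ) < R := by linarith
  have hRW : (R : ℝ) ≤ (R : ℝ) * T := by nlinarith
  have hW1 : (1 : ℝ) ≤ (R : ℝ) * T := by linarith
  have hW0 : (0 : ℝ) < (R : ℝ) * T := by linarith
  have hzN : zR R ≤ N := by
    have : ((zR R : ℕ) : ℝ) ≤ N := by
      refine hz2.trans (le_trans ?_ hN1)
      exact Real.rpow_le_rpow hR0.le hRW (by norm_num)
    exact_mod_cast this
  have hN0 : 1 ≤ N := hz1.trans hzN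
  set z := zR R with hz_def
  have hM1 : 1 ≤ z * N := Nat.mul_pos hz1 hN0
  have hM : ((z * N : ℕ) : ℝ) ≤ 2 * ((R : ℝ) * T) ^ 3 := by
    push_cast
    have h1 : (z : ℝ) ≤ ((R : ℝ) * T) ^ (3 / 2 : ℝ) :=
      hz2.trans (Real.rpow_le_rpow hR0.le hRW (by norm_num))
    have h2 : ((R : ℝ) * T) ^ (3 / 2 : ℝ) * ((R : ℝ) * T) ^ (3 / 2 : ℝ) = ((R : ℝ) * T) ^ 3 := by
      rw [← Real.rpow_add hW0, ← Real.rpow_natCast]
      norm_num
    have h3 : 0 ≤ ((R : ℝ) * T) ^ (3 / 2 : ℝ) := by positivity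
    calc (z : ℝ) * N ≤ ((R : ℝ) * T) ^ (3 / 2 : ℝ) * (2 * ((R : ℝ) * T) ^ (3 / 2 : ℝ)) :=
          mul_le_mul h1 hN2 (Nat.cast_nonneg N) h3
      _ = 2 * ((R : ℝ) * T) ^ 3 := by rw [← h2]; ring
  set a : ℕ → ℂ := fun n => ((cLM z N n * (n : ℝ) ^ (-c) : ℝ) : ℂ) with ha
  -- the integrand
  have hint : ∀ (r : ℕ) (χ : DirichletCharacter ℂ r) (t : ℝ),
      ‖1 - (∑ n ∈ Icc 1 N, χ (n : ZMod r) * (n : ℂ) ^ (-((c : ℂ) + t * I))) *
        MM z χ (c + t * I)‖ ^ 2 =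
      ‖∑ n ∈ Ioc z (z * N), a n * χ (n : ZMod r) * (n : ℂ) ^ (-(t * I) : ℂ)‖ ^ 2 := by
    intro r χ t
    rw [kmx_id χ hz1 hzN, norm_neg]
    congr 2
    refine Finset.sum_congr rfl fun n hn => ?_
    have hn1 : 1 ≤ n := by
      have := mem_Ioc.1 hn
      omega
    rw [kmx_cpow hn1, ha]
    push_cast
    ring
  have hSP : SP R (fun r χ => ∫ t in (-T)..T, ‖1 - (∑ n ∈ Icc 1 N, χ (n : ZMod r) *
      (n : ℂ) ^ (-((c : ℂ) + t * I))) * MM z χ (c + t * I)‖ ^ 2) =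
      ∑ r ∈ Ico R (2 * R), ∑ χ ∈ Pr r, ∫ t in (-T)..T,
        ‖∑ n ∈ Ioc z (z * N), a n * χ (n : ZMod r) * (n : ℂ) ^ (-(t * I) : ℂ)‖ ^ 2 := by
    unfold SP
    refine Finset.sum_congr rfl fun r _ => Finset.sum_congr rfl fun χ _ => ?_
    refine intervalIntegral.integral_congr fun t _ => ?_
    exact hint r χ t
  rw [hSP]
  have hT0 : -T ≤ T := by linarith
  have hstep1 : ∑ r ∈ Ico R (2 * R), ∑ χ ∈ Pr r, ∫ t in (-T)..T,
        ‖∑ n ∈ Ioc z (z * N), a n * χ (n : ZMod r) * (n : ℂ) ^ (-(t * I) : ℂ)‖ ^ 2 ≤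
      ∑ r ∈ Icc 1 (2 * R), ∑ χ ∈ Pr r, ∫ t in (-T)..T,
        ‖∑ n ∈ Ioc z (z * N), a n * χ (n : ZMod r) * (n : ℂ) ^ (-(t * I) : ℂ)‖ ^ 2 := by
    refine Finset.sum_le_sum_of_subset_of_nonneg ?_ ?_
    · intro r hr
      have := mem_Ico.1 hr
      exact mem_Icc.2 ⟨by omega, by omega⟩
    · intro r _ _
      refine Finset.sum_nonneg fun χ _ => ?_
      refine intervalIntegral.integral_nonneg hT0 fun t _ => ?_
      positivity
  refine hstep1.trans ?_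
  refine (hls1 (2 * R) (by omega) T hT (Ioc z (z * N)) (fun n hn => by
    have := mem_Ioc.1 hn
    omega) a).trans ?_
  have hterm : ∀ n ∈ Ioc z (z * N), ((n : ℝ) + ((2 * R : ℕ) : ℝ) ^ 2 * T) * ‖a n‖ ^ 2 ≤
      C₂ ^ 2 * (((n : ℝ) + ((2 * R : ℕ) : ℝ) ^ 2 * T) * (n : ℝ) ^ (2 * d - 2 * c)) := by
    intro n hn
    have hn1 : 1 ≤ n := by
      have := mem_Ioc.1 hn
      omega
    have hn0 : (0 : ℝ) < n := by exact_mod_cast hn1
    have h1 : ‖a n‖ ≤ C₂ * (n : ℝ) ^ (d - c) := by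
      rw [ha]
      simp only
      rw [Complex.norm_real, Real.norm_eq_abs, abs_mul,
        abs_of_nonneg (show 0 ≤ (n : ℝ) ^ (-c) by positivity), sub_eq_add_neg,
        Real.rpow_add hn0, ← mul_assoc]
      exact mul_le_mul_of_nonneg_right (hcl z N n hn1) (by positivity)
    have h2 : ‖a n‖ ^ 2 ≤ C₂ ^ 2 * (n : ℝ) ^ (2 * d - 2 * c) := by
      calc ‖a n‖ ^ 2 ≤ (C₂ * (n : ℝ) ^ (d - c)) ^ 2 :=
            pow_le_pow_left₀ (norm_nonneg _) h1 2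
        _ = C₂ ^ 2 * (n : ℝ) ^ (2 * d - 2 * c) := by
            rw [mul_pow, ← Real.rpow_natCast ((n : ℝ) ^ (d - c)) 2, ← Real.rpow_mul hn0.le]
            congr 2
            push_cast
            ring
    have h3 : 0 ≤ (n : ℝ) + ((2 * R : ℕ) : ℝ) ^ 2 * T := by positivity
    calc ((n : ℝ) + ((2 * R : ℕ) : ℝ) ^ 2 * T) * ‖a n‖ ^ 2
        ≤ ((n : ℝ) + ((2 * R : ℕ) : ℝ) ^ 2 * T) * (C₂ ^ 2 * (n : ℝ) ^ (2 * d - 2 * c)) :=
          mul_le_mul_of_nonneg_left h2 h3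
      _ = _ := by ring
  calc C₁ * ∑ n ∈ Ioc z (z * N), ((n : ℝ) + ((2 * R : ℕ) : ℝ) ^ 2 * T) * ‖a n‖ ^ 2
      ≤ C₁ * ∑ n ∈ Ioc z (z * N),
        C₂ ^ 2 * (((n : ℝ) + ((2 * R : ℕ) : ℝ) ^ 2 * T) * (n : ℝ) ^ (2 * d - 2 * c)) :=
        mul_le_mul_of_nonneg_left (Finset.sum_le_sum hterm) hC₁0
    _ = C₁ * (C₂ ^ 2 * ∑ n ∈ Ioc z (z * N),
        (((n : ℝ) + ((2 * R : ℕ) : ℝ) ^ 2 * T) * (n : ℝ) ^ (2 * d - 2 * c))) := by
        rw [← Finset.mul_sum]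
    _ ≤ C₁ * (C₂ ^ 2 * (6 * (2 + 3 / d) * ((R : ℝ) * T) ^ (1 + 7 * d))) := by
        refine mul_le_mul_of_nonneg_left ?_ hC₁0
        refine mul_le_mul_of_nonneg_left ?_ (by positivity)
        exact kmx_num hc hc1 hd hd1 hR hT hz3 hM1 hM
    _ = C₁ * (C₂ ^ 2 * (6 * (2 + 3 / d))) * ((R : ℝ) * T) ^ (1 + 7 * d) := by ring
    _ ≤ max 1 (C₁ * (C₂ ^ 2 * (6 * (2 + 3 / d)))) * ((R : ℝ) * T) ^ (1 + ε) := by
        refine mul_le_mul (le_max_right _ _) ?_ (by positivity) (by positivity)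
        exact Real.rpow_le_rpow_of_exponent_le hW1 (by linarith)

end Pool.Agent.XS

namespace Pool.Agent.XS

/-- alias -/
theorem kma_main : type_of% @kma_main_pr := @kma_main_pr

end Pool.Agent.XS
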