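import Pool.Agent.Lib_helper26.XS.Defs
import Pool.Agent.Lib_helper98.GAF.Lgr

/-! # XS, block LAP: L by a finite sum -/

set_option autoImplicit false

namespace Pool.Agent.XS

open Finset Complex MeasureTheory Pool.Agent.Var35 Pool.Agent.Var73 Pool.Agent.HC Pool.Agent.MF
open scoped ArithmeticFunction ArithmeticFunction.Moebius

theorem lap_deriv {s : ℂ} (hs : s ≠ 0) {t : ℝ} (ht : 0 < t) :
    HasDerivAt (fun u : ℝ => (u : ℂ) ^ (-s)) (-s * (t : ℂ) ^ (-(s + 1))) t := by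
  have h := hasDerivAt_ofReal_cpow_const ht.ne' (neg_ne_zero.mpr hs)
  have h3 : -s - 1 = -(s + 1) := by ring
  rw [h3] at h
  exact h

theorem lap_sum {q : ℕ} (χ : DirichletCharacter ℂ q) {s : ℂ} (hs : s ≠ 0) (N : ℕ) :
    ∑ n ∈ Icc 1 N, χ (n : ZMod q) * (n : ℂ) ^ (-s) =
      (N : ℂ) ^ (-s) * (∑ k ∈ Icc 1 N, χ (k : ZMod q)) +
        s * ∫ t in Set.Ioc (1 : ℝ) N, (∑ k ∈ Icc 1 ⌊t⌋₊, χ (k : ZMod q)) *
          (t : ℂ) ^ (-(s + 1)) := by
  set c : ℕ → ℂ := fun k => if k = 0 then 0 else χ (k : ZMod q) with hc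
  have hc0 : c 0 = 0 := by simp [hc]
  have hsum : ∀ n : ℕ, ∑ k ∈ Icc 0 n, c k = ∑ k ∈ Icc 1 n, χ (k : ZMod q) := by
    intro n
    rw [← Finset.sum_subset (s₁ := Icc 1 n) (s₂ := Icc 0 n)]
    · refine sum_congr rfl fun k hk => ?_
      rw [mem_Icc] at hk
      simp only [hc]
      rw [if_neg (by omega)]
    · intro k hk
      rw [mem_Icc] at hk ⊢
      omega
    · intro k hk hk2
      rw [mem_Icc] at hk hk2
      have : k = 0 := by omega
      rw [this, hc0]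
  have hd : ∀ t ∈ Set.Icc (1 : ℝ) N, DifferentiableAt ℝ (fun u : ℝ => (u : ℂ) ^ (-s)) t :=
    fun t ht => (lap_deriv hs (by linarith [ht.1])).differentiableAt
  have hcont : ContinuousOn (fun t : ℝ => -s * (t : ℂ) ^ (-(s + 1))) (Set.Icc (1 : ℝ) N) := by
    refine ContinuousOn.mul continuousOn_const ?_
    refine ContinuousOn.cpow_const ?_ ?_
    · exact Complex.continuous_ofReal.continuousOn
    · intro t ht
      left
      rw [ofReal_re]
      linarith [ht.1]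
  have hint : IntegrableOn (deriv fun u : ℝ => (u : ℂ) ^ (-s)) (Set.Icc (1 : ℝ) N) := by
    refine (hcont.integrableOn_compact isCompact_Icc).congr_fun ?_ measurableSet_Icc
    intro t ht
    exact ((lap_deriv hs (by linarith [ht.1])).deriv).symm
  have h := sum_mul_eq_sub_integral_mul₀' (f := fun u : ℝ => (u : ℂ) ^ (-s)) c hc0 N hd hint
  rw [hsum] at h
  have hl : ∑ k ∈ Icc 0 N, ((k : ℝ) : ℂ) ^ (-s) * c k =
      ∑ n ∈ Icc 1 N, χ (n : ZMod q) * (n : ℂ) ^ (-s) := by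
    rw [← Finset.sum_subset (s₁ := Icc 1 N) (s₂ := Icc 0 N)]
    · refine sum_congr rfl fun k hk => ?_
      rw [mem_Icc] at hk
      simp only [hc]
      rw [if_neg (by omega), mul_comm, ofReal_natCast]
    · intro k hk
      rw [mem_Icc] at hk ⊢
      omega
    · intro k hk hk2
      rw [mem_Icc] at hk hk2
      have : k = 0 := by omega
      rw [this, hc0, mul_zero]
  have hi : ∫ t in Set.Ioc (1 : ℝ) N, deriv (fun u : ℝ => (u : ℂ) ^ (-s)) t *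
      ∑ k ∈ Icc 0 ⌊t⌋₊, c k = -s * ∫ t in Set.Ioc (1 : ℝ) N,
        (∑ k ∈ Icc 1 ⌊t⌋₊, χ (k : ZMod q)) * (t : ℂ) ^ (-(s + 1)) := by
    rw [← integral_const_mul]
    refine setIntegral_congr_fun measurableSet_Ioc fun t ht => ?_
    have ht0 : (0 : ℝ) < t := by linarith [ht.1]
    show deriv (fun u : ℝ => (u : ℂ) ^ (-s)) t * ∑ k ∈ Icc 0 ⌊t⌋₊, c k =
      -s * ((∑ k ∈ Icc 1 ⌊t⌋₊, χ (k : ZMod q)) * (t : ℂ) ^ (-(s + 1)))
    rw [(lap_deriv hs ht0).deriv, hsum]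
    ring
  rw [hi] at h
  have h' : ∑ k ∈ Icc 0 N, ((k : ℝ) : ℂ) ^ (-s) * c k =
      ((N : ℝ) : ℂ) ^ (-s) * (∑ k ∈ Icc 1 N, χ (k : ZMod q)) -
        -s * ∫ t in Set.Ioc (1 : ℝ) N, (∑ k ∈ Icc 1 ⌊t⌋₊, χ (k : ZMod q)) *
          (t : ℂ) ^ (-(s + 1)) := h
  rw [← hl, h', ofReal_natCast]
  ring

theorem lap_pr {q : ℕ} [NeZero q] (χ : DirichletCharacter ℂ q) (hχ : χ ≠ 1) {P : ℝ}
    (hP : ∀ y : ℕ, ‖∑ k ∈ Icc 1 y, χ (k : ZMod q)‖ ≤ P) {s : ℂ} (hs : 1 / 2 ≤ s.re) {N : ℕ}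
    (hN : 1 ≤ N) :
    ‖GA.LF χ s - ∑ n ∈ Icc 1 N, χ (n : ZMod q) * (n : ℂ) ^ (-s)‖ ≤
      4 * P * ‖s‖ * (N : ℝ) ^ (-s.re) := by
  have hs0 : 0 < s.re := by linarith
  have hsne : s ≠ 0 := by
    intro h
    rw [h, zero_re] at hs0
    exact lt_irrefl _ hs0
  have hP0 : 0 ≤ P := (norm_nonneg _).trans (hP 0)
  have hN1 : (1 : ℝ) ≤ N := by exact_mod_cast hN
  have hN0 : (0 : ℝ) < N := by linarith
  set F : ℝ → ℂ := fun t => (∑ k ∈ Icc 1 ⌊t⌋₊, χ (k : ZMod q)) * (t : ℂ) ^ (-(s + 1)) with hF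
  have hmeas : Measurable fun t : ℝ => ∑ k ∈ Icc 1 ⌊t⌋₊, χ (k : ZMod q) :=
    (measurable_from_nat (f := fun n : ℕ => ∑ k ∈ Icc 1 n, χ (k : ZMod q))).comp
      Nat.measurable_floor
  have hbd : ∀ t : ℝ, 0 < t → ‖F t‖ ≤ P * t ^ (-(s.re + 1)) := by
    intro t ht
    simp only [hF]
    rw [norm_mul, Complex.norm_cpow_eq_rpow_re_of_pos ht]
    simp only [neg_re, add_re, one_re]
    exact mul_le_mul_of_nonneg_right (hP _) (Real.rpow_nonneg ht.le _)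
  have hdom : ∀ a : ℝ, 0 < a →
      IntegrableOn (fun t : ℝ => P * t ^ (-(s.re + 1))) (Set.Ioi a) := fun a ha =>
    (integrableOn_Ioi_rpow_of_lt (by linarith) ha).const_mul _
  have hFm : AEStronglyMeasurable F (volume.restrict (Set.Ioi (1 : ℝ))) := by
    refine AEStronglyMeasurable.mul hmeas.aestronglyMeasurable ?_
    refine ContinuousOn.aestronglyMeasurable ?_ measurableSet_Ioi
    refine ContinuousOn.cpow_const Complex.continuous_ofReal.continuousOn ?_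
    intro t ht
    left
    rw [ofReal_re]
    exact lt_trans zero_lt_one ht
  have hFi : IntegrableOn F (Set.Ioi (1 : ℝ)) := by
    refine Integrable.mono' (hdom 1 one_pos) hFm ?_
    refine (ae_restrict_mem measurableSet_Ioi).mono fun t ht => ?_
    exact hbd t (lt_trans zero_lt_one ht)
  have hsplit : ∫ t in Set.Ioi (1 : ℝ), F t =
      (∫ t in Set.Ioc (1 : ℝ) N, F t) + ∫ t in Set.Ioi (N : ℝ), F t := by
    rw [← Set.Ioc_union_Ioi_eq_Ioi hN1]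
    refine setIntegral_union ?_ measurableSet_Ioi ?_ ?_
    · exact Set.Ioc_disjoint_Ioi le_rfl
    · exact hFi.mono_set Set.Ioc_subset_Ioi_self
    · exact hFi.mono_set (Set.Ioi_subset_Ioi hN1)
  have hL : GA.LF χ s = s * ∫ t in Set.Ioi (1 : ℝ), F t := by
    rw [GA.LF_eq_mellin hχ hs0, GA.lgrS_mellin]
  have hS := lap_sum χ hsne N
  have hdiff : GA.LF χ s - ∑ n ∈ Icc 1 N, χ (n : ZMod q) * (n : ℂ) ^ (-s) =
      s * (∫ t in Set.Ioi (N : ℝ), F t) -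
        (N : ℂ) ^ (-s) * (∑ k ∈ Icc 1 N, χ (k : ZMod q)) := by
    rw [hL, hS, hsplit]
    ring
  have h1 : ‖∫ t in Set.Ioi (N : ℝ), F t‖ ≤ P * ((N : ℝ) ^ (-s.re) / s.re) := by
    refine (norm_integral_le_integral_norm _).trans ?_
    have h2 : ∫ t in Set.Ioi (N : ℝ), P * t ^ (-(s.re + 1)) =
        P * ((N : ℝ) ^ (-s.re) / s.re) := by
      rw [integral_const_mul, integral_Ioi_rpow_of_lt (by linarith) hN0]
      have h3 : -(s.re + 1) + 1 = -s.re := by ring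
      rw [h3, div_neg, neg_div, neg_neg]
    rw [← h2]
    refine integral_mono_of_nonneg (Filter.Eventually.of_forall fun t => norm_nonneg _)
      (hdom N hN0) ?_
    refine (ae_restrict_mem measurableSet_Ioi).mono fun t ht => ?_
    exact hbd t (lt_trans hN0 ht)
  have h4 : ‖(N : ℂ) ^ (-s) * (∑ k ∈ Icc 1 N, χ (k : ZMod q))‖ ≤ P * (N : ℝ) ^ (-s.re) := by
    have h5 : ‖(N : ℂ) ^ (-s)‖ = (N : ℝ) ^ (-s.re) := by
      have := Complex.norm_cpow_eq_rpow_re_of_pos hN0 (-s)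
      rw [ofReal_natCast, neg_re] at this
      exact this
    rw [norm_mul, h5, mul_comm]
    exact mul_le_mul_of_nonneg_right (hP N) (Real.rpow_nonneg hN0.le _)
  set A : ℝ := (N : ℝ) ^ (-s.re) with hA
  have hA0 : 0 ≤ A := Real.rpow_nonneg hN0.le _
  have hss : s.re ≤ ‖s‖ := Complex.re_le_norm s
  have hs1 : 1 ≤ 2 * ‖s‖ := by linarith
  have hinv : A / s.re ≤ 2 * A := by
    rw [div_le_iff₀ hs0]
    nlinarith
  rw [hdiff]
  calc ‖s * (∫ t in Set.Ioi (N : ℝ), F t) - (N : ℂ) ^ (-s) * (∑ k ∈ Icc 1 N, χ (k : ZMod q))‖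
      ≤ ‖s * (∫ t in Set.Ioi (N : ℝ), F t)‖ +
        ‖(N : ℂ) ^ (-s) * (∑ k ∈ Icc 1 N, χ (k : ZMod q))‖ := norm_sub_le _ _
    _ ≤ ‖s‖ * (P * (2 * A)) + P * A := by
        refine add_le_add ?_ h4
        rw [norm_mul]
        refine mul_le_mul_of_nonneg_left (h1.trans ?_) (norm_nonneg _)
        exact mul_le_mul_of_nonneg_left hinv hP0
    _ ≤ 4 * P * ‖s‖ * A := by
        have h6 : P * A ≤ P * A * (2 * ‖s‖) := le_mul_of_one_le_right (mul_nonneg hP0 hA0) hs1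
        nlinarith


end Pool.Agent.XS

namespace Pool.Agent.XS

/-- alias -/
theorem lap : type_of% @lap_pr := @lap_pr

end Pool.Agent.XS
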