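import Pool.Agent.Lib_helper26.XS.Defs
import Pool.Agent.Lib_helper26.XSF.HLS
import Pool.Agent.Lib_helper26.XSF.KMA
import Pool.Agent.Lib_helper26.XSF.LAP
import Pool.Agent.Lib_helper26.XSF.PVI

/-! XS, block KMB: the mean value of `1 - LM`. -/

set_option autoImplicit false

namespace Pool.Agent.XS

open Finset Complex MeasureTheory Pool.Agent.Var35 Pool.Agent.Var73 Pool.Agent.HC Pool.Agent.MF
open scoped ArithmeticFunction ArithmeticFunction.Moebius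

lemma kmb_cont_sum (S : Finset ℕ) (hS : ∀ n ∈ S, 1 ≤ n) (b : ℕ → ℂ) (c : ℝ) :
    Continuous (fun t : ℝ => ∑ n ∈ S, b n * (n : ℂ) ^ (-((c : ℂ) + t * I))) := by
  refine continuous_finsetSum _ fun n hn => ?_
  refine continuous_const.mul ?_
  refine Continuous.const_cpow (by fun_prop) (Or.inl ?_)
  have := hS n hn
  exact_mod_cast (by omega : n ≠ 0)

lemma kmb_cont_MM {q : ℕ} (z : ℕ) (χ : DirichletCharacter ℂ q) (c : ℝ) :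
    Continuous (fun t : ℝ => MM z χ (c + t * I)) := by
  unfold MM
  exact kmb_cont_sum (Icc 1 z) (fun n hn => (mem_Icc.mp hn).1)
    (fun n => (μ n : ℂ) * χ (n : ZMod q)) c

lemma kmb_cont_LN {q : ℕ} (N : ℕ) (χ : DirichletCharacter ℂ q) (c : ℝ) :
    Continuous (fun t : ℝ => ∑ n ∈ Icc 1 N, χ (n : ZMod q) * (n : ℂ) ^ (-((c : ℂ) + t * I))) :=
  kmb_cont_sum (Icc 1 N) (fun n hn => (mem_Icc.mp hn).1) (fun n => χ (n : ZMod q)) c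

lemma kmb_cont_LF {q : ℕ} (hq : 1 ≤ q) (χ : DirichletCharacter ℂ q) (hχ : χ ≠ 1) (c : ℝ) :
    Continuous (fun t : ℝ => GA.LF χ (c + t * I)) := by
  have : NeZero q := ⟨by omega⟩
  have h : ∀ s, GA.LF χ s = χ.LFunction s := by
    intro s
    unfold GA.LF
    rw [dif_neg (by omega)]
  simp_rw [h]
  exact (DirichletCharacter.differentiable_LFunction hχ).continuous.comp (by fun_prop)

lemma kmb_pt (L LN M : ℂ) {E : ℝ} (hE : ‖L - LN‖ ^ 2 ≤ E) :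
    ‖1 - L * M‖ ^ 2 ≤ 2 * ‖1 - LN * M‖ ^ 2 + 2 * E * ‖M‖ ^ 2 := by
  have h1 : 1 - L * M = (1 - LN * M) - (L - LN) * M := by ring
  have h2 : ‖1 - L * M‖ ≤ ‖1 - LN * M‖ + ‖L - LN‖ * ‖M‖ := by
    rw [h1]
    exact (norm_sub_le _ _).trans (by rw [norm_mul])
  have h3 : ‖1 - L * M‖ ^ 2 ≤ (‖1 - LN * M‖ + ‖L - LN‖ * ‖M‖) ^ 2 :=
    pow_le_pow_left₀ (norm_nonneg _) h2 2
  have h4 : ‖L - LN‖ ^ 2 * ‖M‖ ^ 2 ≤ E * ‖M‖ ^ 2 := mul_le_mul_of_nonneg_right hE (by positivity)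
  nlinarith [sq_nonneg (‖1 - LN * M‖ - ‖L - LN‖ * ‖M‖)]

/-- one character -/
lemma kmb_one {r : ℕ} (hr : 1 ≤ r) (χ : DirichletCharacter ℂ r) (hχ : χ ≠ 1) {c T P : ℝ}
    (hc : 5 / 6 ≤ c) (hc1 : c < 1) (hT : 1 ≤ T)
    (hP : ∀ y : ℕ, ‖∑ k ∈ Icc 1 y, χ (k : ZMod r)‖ ≤ P) {N : ℕ} (hN : 1 ≤ N) (z : ℕ) :
    ∫ t in (-T)..T, ‖1 - GA.LF χ (c + t * I) * MM z χ (c + t * I)‖ ^ 2 ≤
      2 * (∫ t in (-T)..T, ‖1 - (∑ n ∈ Icc 1 N, χ (n : ZMod r) *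
        (n : ℂ) ^ (-((c : ℂ) + t * I))) * MM z χ (c + t * I)‖ ^ 2) +
      2 * (8 * P * T * (N : ℝ) ^ (-c)) ^ 2 * ∫ t in (-T)..T, ‖MM z χ (c + t * I)‖ ^ 2 := by
  have : NeZero r := ⟨by omega⟩
  have hP0 : 0 ≤ P := (norm_nonneg _).trans (hP 0)
  have c1 := kmb_cont_MM z χ c
  have c2 := kmb_cont_LN N χ c
  have c3 := kmb_cont_LF hr χ hχ c
  have i1 : IntervalIntegrable (fun t : ℝ => ‖1 - GA.LF χ (c + t * I) * MM z χ (c + t * I)‖ ^ 2)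
      volume (-T) T := by
    refine Continuous.intervalIntegrable ?_ _ _
    exact ((continuous_const.sub (c3.mul c1)).norm).pow 2
  have i2 : IntervalIntegrable (fun t : ℝ => ‖1 - (∑ n ∈ Icc 1 N, χ (n : ZMod r) *
        (n : ℂ) ^ (-((c : ℂ) + t * I))) * MM z χ (c + t * I)‖ ^ 2) volume (-T) T := by
    refine Continuous.intervalIntegrable ?_ _ _
    exact ((continuous_const.sub (c2.mul c1)).norm).pow 2
  have i3 : IntervalIntegrable (fun t : ℝ => ‖MM z χ (c + t * I)‖ ^ 2) volume (-T) T := by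
    refine Continuous.intervalIntegrable ?_ _ _
    exact (c1.norm).pow 2
  rw [← intervalIntegral.integral_const_mul, ← intervalIntegral.integral_const_mul,
    ← intervalIntegral.integral_add (i2.const_mul _) (i3.const_mul _)]
  refine intervalIntegral.integral_mono_on (by linarith) i1 ((i2.const_mul _).add (i3.const_mul _))
    fun t ht => ?_
  refine kmb_pt _ _ _ ?_
  have hre : ((c : ℂ) + t * I).re = c := by simp
  have h1 := lap χ hχ hP (s := (c : ℂ) + t * I) (by rw [hre]; linarith) hN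
  rw [hre] at h1
  have h2 : ‖(c : ℂ) + t * I‖ ≤ 2 * T := by
    refine (norm_add_le _ _).trans ?_
    rw [norm_mul, norm_I, mul_one, Complex.norm_real, Complex.norm_real, Real.norm_eq_abs,
      Real.norm_eq_abs, abs_of_nonneg (by linarith : (0:ℝ) ≤ c)]
    have : |t| ≤ T := abs_le.mpr ⟨ht.1, ht.2⟩
    linarith
  have hNc : 0 ≤ (N : ℝ) ^ (-c) := by positivity
  have h3 : 4 * P * ‖(c : ℂ) + t * I‖ * (N : ℝ) ^ (-c) ≤ 8 * P * T * (N : ℝ) ^ (-c) := by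
    refine mul_le_mul_of_nonneg_right ?_ hNc
    nlinarith
  exact pow_le_pow_left₀ (norm_nonneg _) (h1.trans h3) 2

lemma kmb_zR {R : ℕ} : zR R ≤ R ^ 2 := by
  unfold zR
  have : Nat.sqrt (R ^ 3) < R ^ 2 + 1 := by
    rw [Nat.sqrt_lt']
    rcases Nat.eq_zero_or_pos R with h | h
    · subst h; norm_num
    · have : R ^ 3 ≤ R ^ 4 := Nat.pow_le_pow_right h (by norm_num)
      nlinarith
  omega

lemma kmb_coef {c : ℝ} (hc : 5 / 6 ≤ c) {n : ℕ} (hn : 1 ≤ n) :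
    ‖(μ n : ℂ) * (n : ℂ) ^ (-(c : ℂ))‖ ^ 2 ≤ (n : ℝ) ^ (-(5 / 3) : ℝ) := by
  have hn0 : (0 : ℝ) < n := by exact_mod_cast hn
  have hn1 : (1 : ℝ) ≤ n := by exact_mod_cast hn
  have h1 : ‖(n : ℂ) ^ (-(c : ℂ))‖ = (n : ℝ) ^ (-c) := by
    rw [Complex.norm_natCast_cpow_of_pos hn]
    simp
  have h2 : ‖(μ n : ℂ)‖ ≤ 1 := by
    rw [show ((μ n : ℤ) : ℂ) = ((μ n : ℝ) : ℂ) from by push_cast; rfl, Complex.norm_real,
      Real.norm_eq_abs]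
    have := ArithmeticFunction.abs_moebius_le_one (n := n)
    exact_mod_cast this
  have h3 : ‖(μ n : ℂ) * (n : ℂ) ^ (-(c : ℂ))‖ ≤ (n : ℝ) ^ (-(5 / 6) : ℝ) := by
    rw [norm_mul, h1]
    calc ‖(μ n : ℂ)‖ * (n : ℝ) ^ (-c) ≤ 1 * (n : ℝ) ^ (-c) :=
          mul_le_mul_of_nonneg_right h2 (by positivity)
      _ = (n : ℝ) ^ (-c) := one_mul _
      _ ≤ (n : ℝ) ^ (-(5 / 6) : ℝ) := Real.rpow_le_rpow_of_exponent_le hn1 (by linarith)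
  refine (pow_le_pow_left₀ (norm_nonneg _) h3 2).trans (le_of_eq ?_)
  rw [← Real.rpow_natCast, ← Real.rpow_mul hn0.le]
  norm_num

/-- the mean square of the mollifier -/
lemma kmb_moll : ∃ C : ℝ, 1 ≤ C ∧ ∀ c : ℝ, 5 / 6 ≤ c → ∀ R : ℕ, 2 ≤ R → ∀ T : ℝ, 1 ≤ T →
    SP R (fun r χ => ∫ t in (-T)..T, ‖MM (zR R) χ (c + t * I)‖ ^ 2) ≤ C * ((R : ℝ) ^ 2 * T) := by
  obtain ⟨C, hC1, hC⟩ := hls
  set K : ℝ := ∑' n : ℕ, (n : ℝ) ^ (-(5 / 3) : ℝ) with hK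
  have hsum : Summable (fun n : ℕ => (n : ℝ) ^ (-(5 / 3) : ℝ)) :=
    Real.summable_nat_rpow.mpr (by norm_num)
  have hK1 : 1 ≤ K := by
    have h := hsum.sum_le_tsum {1} (fun i _ => by positivity)
    simpa using h
  refine ⟨C * 5 * K, by nlinarith, ?_⟩
  intro c hc R hR T hT
  have hR0 : (2 : ℝ) ≤ R := by exact_mod_cast hR
  have hRT : (0 : ℝ) ≤ (R : ℝ) ^ 2 * T := by positivity
  have hb := hC (2 * R) (by omega) T hT (Icc 1 (zR R)) (fun n hn => (mem_Icc.mp hn).1)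
    (fun n => (μ n : ℂ) * (n : ℂ) ^ (-(c : ℂ)))
  have h1 : SP R (fun r χ => ∫ t in (-T)..T, ‖MM (zR R) χ (c + t * I)‖ ^ 2) ≤
      ∑ r ∈ Icc 1 (2 * R), ∑ χ ∈ Pr r, ∫ t in (-T)..T,
        ‖∑ n ∈ Icc 1 (zR R), ((μ n : ℂ) * (n : ℂ) ^ (-(c : ℂ))) * χ (n : ZMod r) *
          (n : ℂ) ^ (-(t * I) : ℂ)‖ ^ 2 := by
    unfold SP
    have h2 : ∀ r : ℕ, ∀ χ : DirichletCharacter ℂ r, ∀ t : ℝ,
        MM (zR R) χ (c + t * I) = ∑ n ∈ Icc 1 (zR R), ((μ n : ℂ) * (n : ℂ) ^ (-(c : ℂ))) *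
          χ (n : ZMod r) * (n : ℂ) ^ (-(t * I) : ℂ) := by
      intro r χ t
      unfold MM
      refine sum_congr rfl fun n hn => ?_
      have hn0 : (n : ℂ) ≠ 0 := by
        have := (mem_Icc.mp hn).1
        exact_mod_cast (by omega : n ≠ 0)
      rw [neg_add, Complex.cpow_add _ _ hn0]
      ring
    simp_rw [h2]
    refine sum_le_sum_of_subset_of_nonneg ?_ ?_
    · intro r hr
      simp only [mem_Ico] at hr
      simp only [mem_Icc]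
      omega
    · intro r _ _
      refine sum_nonneg fun χ _ => ?_
      exact intervalIntegral.integral_nonneg (by linarith) fun t _ => by positivity
  refine (h1.trans hb).trans ?_
  have h3 : ∑ n ∈ Icc 1 (zR R), ((n : ℝ) + ((2 * R : ℕ) : ℝ) ^ 2 * T) *
      ‖(μ n : ℂ) * (n : ℂ) ^ (-(c : ℂ))‖ ^ 2 ≤ 5 * ((R : ℝ) ^ 2 * T) * K := by
    calc ∑ n ∈ Icc 1 (zR R), ((n : ℝ) + ((2 * R : ℕ) : ℝ) ^ 2 * T) *
          ‖(μ n : ℂ) * (n : ℂ) ^ (-(c : ℂ))‖ ^ 2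
        ≤ ∑ n ∈ Icc 1 (zR R), (5 * ((R : ℝ) ^ 2 * T)) * (n : ℝ) ^ (-(5 / 3) : ℝ) := by
          refine sum_le_sum fun n hn => ?_
          have hn' := mem_Icc.mp hn
          have hnR : (n : ℝ) ≤ (R : ℝ) ^ 2 := by
            have : n ≤ R ^ 2 := hn'.2.trans kmb_zR
            exact_mod_cast this
          refine mul_le_mul ?_ (kmb_coef hc hn'.1) (by positivity) (by positivity)
          push_cast
          nlinarith [sq_nonneg (R : ℝ)]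
      _ = (5 * ((R : ℝ) ^ 2 * T)) * ∑ n ∈ Icc 1 (zR R), (n : ℝ) ^ (-(5 / 3) : ℝ) := by
          rw [mul_sum]
      _ ≤ (5 * ((R : ℝ) ^ 2 * T)) * K := by
          refine mul_le_mul_of_nonneg_left ?_ (by positivity)
          exact hsum.sum_le_tsum _ (fun i _ => by positivity)
  calc C * ∑ n ∈ Icc 1 (zR R), ((n : ℝ) + ((2 * R : ℕ) : ℝ) ^ 2 * T) *
      ‖(μ n : ℂ) * (n : ℂ) ^ (-(c : ℂ))‖ ^ 2 ≤ C * (5 * ((R : ℝ) ^ 2 * T) * K) :=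
        mul_le_mul_of_nonneg_left h3 (by linarith)
    _ = C * 5 * K * ((R : ℝ) ^ 2 * T) := by ring

/-- the length -/
lemma kmb_N {V : ℝ} (hV : 2 ≤ V) : ∃ N : ℕ, 1 ≤ N ∧ V ^ (3 / 2 : ℝ) ≤ N ∧
    (N : ℝ) ≤ 2 * V ^ (3 / 2 : ℝ) := by
  have h1 : (1 : ℝ) ≤ V ^ (3 / 2 : ℝ) := Real.one_le_rpow (by linarith) (by norm_num)
  refine ⟨⌈V ^ (3 / 2 : ℝ)⌉₊, ?_, Nat.le_ceil _, ?_⟩
  · exact Nat.one_le_iff_ne_zero.mpr (by
      intro h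
      have := Nat.le_ceil (V ^ (3 / 2 : ℝ))
      rw [h] at this
      push_cast at this
      linarith)
  · have := Nat.ceil_lt_add_one (by linarith : (0 : ℝ) ≤ V ^ (3 / 2 : ℝ))
    linarith

lemma kmb_log {R : ℕ} (hR : 2 ≤ R) {T : ℝ} (hT : 1 ≤ T) :
    Real.log (2 * R) ^ 2 ≤ 32 * ((R : ℝ) * T) ^ (1 / 2 : ℝ) := by
  have hR0 : (2 : ℝ) ≤ R := by exact_mod_cast hR
  have h1 : Real.log (2 * R) ≤ (2 * R : ℝ) ^ (1 / 4 : ℝ) / (1 / 4) :=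
    Real.log_le_rpow_div (by positivity) (by norm_num)
  have h0 : 0 ≤ Real.log (2 * R) := Real.log_nonneg (by linarith)
  have h2 : Real.log (2 * R) ^ 2 ≤ ((2 * R : ℝ) ^ (1 / 4 : ℝ) / (1 / 4)) ^ 2 :=
    pow_le_pow_left₀ h0 h1 2
  refine h2.trans ?_
  have h3 : ((2 * R : ℝ) ^ (1 / 4 : ℝ) / (1 / 4)) ^ 2 = 16 * (2 * R : ℝ) ^ (1 / 2 : ℝ) := by
    rw [div_pow, ← Real.rpow_natCast ((2 * R : ℝ) ^ (1 / 4 : ℝ)), ← Real.rpow_mul (by positivity)]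
    norm_num
    ring
  rw [h3, Real.mul_rpow (by norm_num) (by positivity)]
  have h4 : (2 : ℝ) ^ (1 / 2 : ℝ) ≤ 2 := by
    calc (2 : ℝ) ^ (1 / 2 : ℝ) ≤ 2 ^ (1 : ℝ) :=
          Real.rpow_le_rpow_of_exponent_le (by norm_num) (by norm_num)
      _ = 2 := Real.rpow_one _
  have h5 : (R : ℝ) ^ (1 / 2 : ℝ) ≤ ((R : ℝ) * T) ^ (1 / 2 : ℝ) :=
    Real.rpow_le_rpow (by positivity) (by nlinarith) (by norm_num)
  have h6 : (0 : ℝ) ≤ (R : ℝ) ^ (1 / 2 : ℝ) := by positivity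
  calc 16 * ((2 : ℝ) ^ (1 / 2 : ℝ) * (R : ℝ) ^ (1 / 2 : ℝ))
      ≤ 16 * (2 * (R : ℝ) ^ (1 / 2 : ℝ)) := by
        refine mul_le_mul_of_nonneg_left (mul_le_mul_of_nonneg_right h4 h6) (by norm_num)
    _ ≤ 32 * ((R : ℝ) * T) ^ (1 / 2 : ℝ) := by linarith

/-- the numbers -/
lemma kmb_num {c : ℝ} (hc : 5 / 6 ≤ c) {R : ℕ} (hR : 2 ≤ R) {T : ℝ} (hT : 1 ≤ T) {N : ℕ}
    (hN1 : 1 ≤ N) (hN : ((R : ℝ) * T) ^ (3 / 2 : ℝ) ≤ N) (C₁ : ℝ) :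
    (8 * (C₁ * Real.sqrt (2 * R) * Real.log (2 * R)) * T * (N : ℝ) ^ (-c)) ^ 2 *
      ((R : ℝ) ^ 2 * T) ≤ 4096 * C₁ ^ 2 * ((R : ℝ) * T) := by
  have hR0 : (2 : ℝ) ≤ R := by exact_mod_cast hR
  set V : ℝ := (R : ℝ) * T with hV
  have hV0 : 0 < V := by positivity
  have hN0 : (1 : ℝ) ≤ N := by exact_mod_cast hN1
  have h1 : (N : ℝ) ^ (-c) ≤ V ^ (-(5 / 4) : ℝ) := by
    calc (N : ℝ) ^ (-c) ≤ (N : ℝ) ^ (-(5 / 6) : ℝ) :=
          Real.rpow_le_rpow_of_exponent_le hN0 (by linarith)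
      _ ≤ (V ^ (3 / 2 : ℝ)) ^ (-(5 / 6) : ℝ) :=
          Real.rpow_le_rpow_of_nonpos (by positivity) hN (by norm_num)
      _ = V ^ (-(5 / 4) : ℝ) := by
          rw [← Real.rpow_mul hV0.le]; norm_num
  have h2 : ((N : ℝ) ^ (-c)) ^ 2 ≤ V ^ (-(5 / 2) : ℝ) := by
    refine (pow_le_pow_left₀ (by positivity) h1 2).trans (le_of_eq ?_)
    rw [← Real.rpow_natCast, ← Real.rpow_mul hV0.le]
    norm_num
  have h3 := kmb_log hR hT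
  have h4 : Real.sqrt (2 * R) ^ 2 = 2 * R := Real.sq_sqrt (by positivity)
  calc (8 * (C₁ * Real.sqrt (2 * R) * Real.log (2 * R)) * T * (N : ℝ) ^ (-c)) ^ 2 *
      ((R : ℝ) ^ 2 * T)
      = 64 * C₁ ^ 2 * (Real.sqrt (2 * R) ^ 2) * (Real.log (2 * R)) ^ 2 * T ^ 2 *
        ((N : ℝ) ^ (-c)) ^ 2 * ((R : ℝ) ^ 2 * T) := by ring
    _ = 128 * C₁ ^ 2 * V ^ 3 * ((Real.log (2 * R)) ^ 2 * ((N : ℝ) ^ (-c)) ^ 2) := by
        rw [h4, hV]; ring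
    _ ≤ 128 * C₁ ^ 2 * V ^ 3 * ((32 * V ^ (1 / 2 : ℝ)) * V ^ (-(5 / 2) : ℝ)) := by
        refine mul_le_mul_of_nonneg_left ?_ (by positivity)
        exact mul_le_mul h3 h2 (by positivity) (by positivity)
    _ = 4096 * C₁ ^ 2 * (V ^ 3 * (V ^ (1 / 2 : ℝ) * V ^ (-(5 / 2) : ℝ))) := by ring
    _ = 4096 * C₁ ^ 2 * V := by
        congr 1
        rw [← Real.rpow_add hV0, ← Real.rpow_natCast V 3, ← Real.rpow_add hV0]
        norm_num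

theorem kma_pr {c : ℝ} (hc : 5 / 6 ≤ c) (hc1 : c < 1) {ε : ℝ} (hε : 0 < ε) :
    ∃ C : ℝ, 1 ≤ C ∧ ∀ R : ℕ, 2 ≤ R → ∀ T : ℝ, 1 ≤ T →
    SP R (fun r χ => ∫ t in (-T)..T, ‖1 - GA.LF χ (c + t * I) * MM (zR R) χ (c + t * I)‖ ^ 2) ≤
      C * ((R : ℝ) * T) ^ (1 + ε) := by
  obtain ⟨C₀, hC₀, h0⟩ := kma_main hc hc1 hε
  obtain ⟨C₁, hC₁, h1⟩ := pv
  obtain ⟨C₂, hC₂, h2⟩ := kmb_moll
  refine ⟨2 * C₀ + 8192 * C₁ ^ 2 * C₂, by nlinarith [sq_nonneg C₁], ?_⟩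
  intro R hR T hT
  have hR0 : (2 : ℝ) ≤ R := by exact_mod_cast hR
  have hV : 2 ≤ (R : ℝ) * T := by nlinarith
  obtain ⟨N, hN1, hN, hN2⟩ := kmb_N hV
  set P : ℝ := C₁ * Real.sqrt (2 * R) * Real.log (2 * R) with hP
  have hone : ∀ r ∈ Ico R (2 * R), ∀ χ ∈ Pr r,
      ∫ t in (-T)..T, ‖1 - GA.LF χ (c + t * I) * MM (zR R) χ (c + t * I)‖ ^ 2 ≤
      2 * (∫ t in (-T)..T, ‖1 - (∑ n ∈ Icc 1 N, χ (n : ZMod r) *
        (n : ℂ) ^ (-((c : ℂ) + t * I))) * MM (zR R) χ (c + t * I)‖ ^ 2) +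
      2 * (8 * P * T * (N : ℝ) ^ (-c)) ^ 2 * ∫ t in (-T)..T, ‖MM (zR R) χ (c + t * I)‖ ^ 2 := by
    intro r hr χ hχ
    simp only [mem_Ico] at hr
    have hχ1 : χ ≠ 1 := by
      intro h
      rw [mem_Pr, DirichletCharacter.isPrimitive_def, h] at hχ
      have : NeZero r := ⟨by omega⟩
      rw [DirichletCharacter.conductor_one] at hχ
      omega
    refine kmb_one (by omega) χ hχ1 hc hc1 hT ?_ hN1 _
    intro y
    refine (h1 r χ (by omega) hχ hχ1 y).trans ?_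
    have hr1 : (r : ℝ) ≤ 2 * R := by exact_mod_cast hr.2.le
    have hr2 : (1 : ℝ) ≤ r := by exact_mod_cast (by omega : 1 ≤ r)
    rw [hP]
    refine mul_le_mul ?_ (Real.log_le_log (by linarith) hr1) (Real.log_nonneg hr2) (by positivity)
    exact mul_le_mul_of_nonneg_left (Real.sqrt_le_sqrt hr1) (by linarith)
  have hsum : SP R (fun r χ => ∫ t in (-T)..T,
      ‖1 - GA.LF χ (c + t * I) * MM (zR R) χ (c + t * I)‖ ^ 2) ≤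
      2 * SP R (fun r χ => ∫ t in (-T)..T, ‖1 - (∑ n ∈ Icc 1 N, χ (n : ZMod r) *
        (n : ℂ) ^ (-((c : ℂ) + t * I))) * MM (zR R) χ (c + t * I)‖ ^ 2) +
      2 * (8 * P * T * (N : ℝ) ^ (-c)) ^ 2 *
        SP R (fun r χ => ∫ t in (-T)..T, ‖MM (zR R) χ (c + t * I)‖ ^ 2) := by
    unfold SP
    rw [mul_sum, mul_sum, ← sum_add_distrib]
    refine sum_le_sum fun r hr => ?_
    rw [mul_sum, mul_sum, ← sum_add_distrib]
    exact sum_le_sum fun χ hχ => hone r hr χ hχ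
  have hm := h0 R hR T hT N hN hN2
  have h3 := h2 c hc R hR T hT
  have h4 := kmb_num hc hR hT hN1 hN C₁
  have h5 : (R : ℝ) * T ≤ ((R : ℝ) * T) ^ (1 + ε) := by
    calc (R : ℝ) * T = ((R : ℝ) * T) ^ (1 : ℝ) := (Real.rpow_one _).symm
      _ ≤ _ := Real.rpow_le_rpow_of_exponent_le (by linarith) (by linarith)
  have h6 : 2 * (8 * P * T * (N : ℝ) ^ (-c)) ^ 2 *
        SP R (fun r χ => ∫ t in (-T)..T, ‖MM (zR R) χ (c + t * I)‖ ^ 2) ≤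
      8192 * C₁ ^ 2 * C₂ * ((R : ℝ) * T) ^ (1 + ε) := by
    calc 2 * (8 * P * T * (N : ℝ) ^ (-c)) ^ 2 *
        SP R (fun r χ => ∫ t in (-T)..T, ‖MM (zR R) χ (c + t * I)‖ ^ 2)
        ≤ 2 * (8 * P * T * (N : ℝ) ^ (-c)) ^ 2 * (C₂ * ((R : ℝ) ^ 2 * T)) :=
          mul_le_mul_of_nonneg_left h3 (by positivity)
      _ = 2 * C₂ * ((8 * P * T * (N : ℝ) ^ (-c)) ^ 2 * ((R : ℝ) ^ 2 * T)) := by ring
      _ ≤ 2 * C₂ * (4096 * C₁ ^ 2 * ((R : ℝ) * T)) :=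
          mul_le_mul_of_nonneg_left h4 (by linarith)
      _ = 8192 * C₁ ^ 2 * C₂ * ((R : ℝ) * T) := by ring
      _ ≤ _ := mul_le_mul_of_nonneg_left h5 (by positivity)
  calc _ ≤ _ := hsum
    _ ≤ 2 * (C₀ * ((R : ℝ) * T) ^ (1 + ε)) +
        8192 * C₁ ^ 2 * C₂ * ((R : ℝ) * T) ^ (1 + ε) := by
        refine add_le_add ?_ h6
        exact mul_le_mul_of_nonneg_left hm (by norm_num)
    _ = _ := by ring


end Pool.Agent.XS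

namespace Pool.Agent.XS

/-- alias -/
theorem kma : type_of% @kma_pr := @kma_pr

end Pool.Agent.XS
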