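import Pool.Agent.Lib_helper26.XS.Defs
import Pool.Agent.Lib_helper98.GAF.Lbd
import Pool.Agent.Lib_helper98.GAF.Lgr
import Pool.Agent.Lib_helper98.GAF.Lcs

/-! # XS, block LLB: `L'/L` in a zero-free half-plane -/

set_option autoImplicit false

namespace Pool.Agent.XS

open Finset Complex MeasureTheory Pool.Agent.Var35 Pool.Agent.Var73 Pool.Agent.HC Pool.Agent.MF

theorem ldlog_pr {θ : ℝ} (h0 : 1 / 2 ≤ θ) (h : ZF θ) {c : ℝ} (hc : θ < c) :
    ∃ C : ℝ, 1 ≤ C ∧ ∀ (q : ℕ) [NeZero q] (χ : DirichletCharacter ℂ q), χ ≠ 1 → ∀ s : ℂ,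
      c ≤ s.re → s.re ≤ 2 → ‖logDeriv (GA.LF χ) s‖ ≤ C * Real.log (q * (|s.im| + 2)) := by
  obtain ⟨C₀, hC₀, hgr⟩ := GA.LF_growth
  set δ : ℝ := (c - θ) / 2 with hδ
  have hδ0 : 0 < δ := by rw [hδ]; linarith
  have hlog0 : 0 ≤ Real.log (6 * C₀) := Real.log_nonneg (by linarith)
  refine ⟨max 1 (16 * (Real.log (6 * C₀) + 1) / δ ^ 2), le_max_left _ _, ?_⟩
  intro q _ χ hχ s hcs hs2
  set t : ℝ := s.im with ht
  have hq3 : 3 ≤ q := GA.three_le hχ
  have hlt : 1 ≤ Real.log (q * (|t| + 2)) := GA.one_le_lt hq3 t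
  have hq0 : (0 : ℝ) < q := by
    have : 0 < q := by omega
    exact_mod_cast this
  set R : ℝ := 2 - (θ + δ) with hR
  have hR0 : 0 < R := by rw [hR, hδ]; linarith
  have hR2 : R ≤ 2 := by rw [hR]; linarith
  set c₀ : ℂ := ⟨2, t⟩ with hc₀
  have hre : ∀ z ∈ Metric.ball c₀ R, θ + δ < z.re := by
    intro z hz
    rw [Metric.mem_ball, dist_eq_norm] at hz
    have h1 : |(z - c₀).re| ≤ ‖z - c₀‖ := Complex.abs_re_le_norm _
    rw [Complex.sub_re] at h1
    have h2 : c₀.re = 2 := rfl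
    rw [h2] at h1
    have h3 := (abs_le.1 h1).1
    linarith
  have him : ∀ z ∈ Metric.ball c₀ R, |z.im| ≤ |t| + 2 := by
    intro z hz
    rw [Metric.mem_ball, dist_eq_norm] at hz
    have h1 : |(z - c₀).im| ≤ ‖z - c₀‖ := Complex.abs_im_le_norm _
    rw [Complex.sub_im] at h1
    have h2 : c₀.im = t := rfl
    rw [h2] at h1
    have h3 : |z.im| ≤ |z.im - t| + |t| := by
      have := abs_add_le (z.im - t) t
      rwa [sub_add_cancel] at this
    linarith
  have hne : ∀ z ∈ Metric.ball c₀ R, GA.LF χ z ≠ 0 := by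
    intro z hz
    by_cases hz1 : z = 1
    · rw [hz1]
      exact GA.LF_ne_zero hχ (by simp)
    · rw [GA.LF_eq]
      exact h q χ z (by have := hre z hz; linarith) hz1
  have hlow : 1 / 3 ≤ ‖GA.LF χ c₀‖ := by
    have h1 := GA.LF_lower χ (s := c₀) (by show (1 : ℝ) < 2; norm_num)
    have h2 : c₀.re = 2 := rfl
    rw [h2] at h1
    norm_num at h1
    linarith
  obtain ⟨g, hgd, hg0, hgder, hgexp⟩ := GA.exists_log hR0 (GA.LF_diff hχ).differentiableOn hne
  set M : ℝ := Real.log (6 * C₀) + Real.log (q * (|t| + 2)) with hM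
  have hM0 : 0 < M := by rw [hM]; linarith
  have hgre : ∀ z ∈ Metric.ball c₀ R, (g z).re ≤ M := by
    intro z hz
    have h1 : ‖GA.LF χ z‖ = ‖GA.LF χ c₀‖ * Real.exp (g z).re := by
      rw [hgexp z hz, norm_mul, Complex.norm_exp]
    have h2 : ‖GA.LF χ z‖ ≤ C₀ * q * (|z.im| + 2) :=
      hgr q χ hχ z (by have := hre z hz; linarith)
    have h3 := him z hz
    have h4 : Real.exp (g z).re ≤ 6 * C₀ * (q * (|t| + 2)) := by
      have h5 : 1 / 3 * Real.exp (g z).re ≤ ‖GA.LF χ c₀‖ * Real.exp (g z).re :=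
        mul_le_mul_of_nonneg_right hlow (Real.exp_pos _).le
      have h6 : C₀ * q * (|z.im| + 2) ≤ C₀ * q * (2 * (|t| + 2)) := by
        apply mul_le_mul_of_nonneg_left _ (by positivity)
        have := abs_nonneg t
        linarith
      nlinarith
    have h7 : 0 < q * (|t| + 2) := by positivity
    have h8 : M = Real.log (6 * C₀ * (q * (|t| + 2))) := by
      rw [hM, ← Real.log_mul (by linarith) h7.ne']
    rw [h8, Real.le_log_iff_exp_le (by positivity)]
    exact h4
  have hBC : ∀ z ∈ Metric.ball c₀ R, ‖g z‖ ≤ 2 * M * ‖z - c₀‖ / (R - ‖z - c₀‖) := by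
    intro z hz
    have hmaps : ∀ w ∈ Metric.ball (0 : ℂ) R, w + c₀ ∈ Metric.ball c₀ R := by
      intro w hw
      rw [mem_ball_zero_iff] at hw
      rw [Metric.mem_ball, dist_eq_norm]
      simpa using hw
    have hmem : z - c₀ ∈ Metric.ball (0 : ℂ) R := by
      rw [mem_ball_zero_iff]
      rwa [Metric.mem_ball, dist_eq_norm] at hz
    have h4 := Complex.borelCaratheodory_zero (f := fun w => g (w + c₀)) hM0
      (by
        refine hgd.comp ?_ hmaps
        exact (differentiable_id.add_const c₀).differentiableOn)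
      (by
        intro w hw
        exact hgre _ (hmaps w hw)) hR0 hmem (by simp [hg0])
    simpa using h4
  have hsc : ‖s - c₀‖ = 2 - s.re := by
    have h1 : s - c₀ = ((s.re - 2 : ℝ) : ℂ) := by
      apply Complex.ext
      · simp [hc₀]
      · simp [hc₀, ht]
    rw [h1, Complex.norm_real, Real.norm_eq_abs, abs_of_nonpos (by linarith)]
    ring
  have hsub : Metric.closedBall s (δ / 2) ⊆ Metric.ball c₀ R := by
    intro z hz
    rw [Metric.mem_closedBall, dist_eq_norm] at hz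
    rw [Metric.mem_ball, dist_eq_norm]
    have h1 : ‖z - c₀‖ ≤ ‖z - s‖ + ‖s - c₀‖ := by
      have := norm_add_le (z - s) (s - c₀)
      rwa [sub_add_sub_cancel] at this
    rw [hsc] at h1
    rw [hR]
    linarith
  have hsb : s ∈ Metric.ball c₀ R := hsub (Metric.mem_closedBall_self (by linarith))
  have hder : HasDerivAt g (logDeriv (GA.LF χ) s) s := hgder s hsb
  have hcau : ‖deriv g s‖ ≤ (8 * M / δ) / (δ / 2) := by
    refine Complex.norm_deriv_le_of_forall_mem_sphere_norm_le (by linarith) ?_ ?_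
    · refine DifferentiableOn.diffContOnCl ?_
      rw [closure_ball s (by linarith : δ / 2 ≠ 0)]
      exact hgd.mono hsub
    · intro z hz
      have hzc : z ∈ Metric.closedBall s (δ / 2) := Metric.sphere_subset_closedBall hz
      have h1 := hBC z (hsub hzc)
      rw [Metric.mem_closedBall, dist_eq_norm] at hzc
      have h2 : ‖z - c₀‖ ≤ ‖z - s‖ + ‖s - c₀‖ := by
        have := norm_add_le (z - s) (s - c₀)
        rwa [sub_add_sub_cancel] at this
      rw [hsc] at h2
      have h3 : δ / 2 ≤ R - ‖z - c₀‖ := by rw [hR]; linarith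
      have h4 : ‖z - c₀‖ ≤ 2 := by linarith
      refine h1.trans ?_
      rw [div_le_div_iff₀ (by linarith) hδ0]
      have h5 : 2 * M * ‖z - c₀‖ ≤ 4 * M := by nlinarith
      have h6 : 2 * M * ‖z - c₀‖ * δ ≤ 4 * M * δ := mul_le_mul_of_nonneg_right h5 hδ0.le
      nlinarith
  rw [hder.deriv] at hcau
  refine hcau.trans ?_
  have h9 : 8 * M / δ / (δ / 2) = 16 * M / δ ^ 2 := by
    field_simp
    ring
  rw [h9]
  have h10 : M ≤ (Real.log (6 * C₀) + 1) * Real.log (q * (|t| + 2)) := by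
    rw [hM]
    nlinarith
  calc 16 * M / δ ^ 2 ≤ 16 * ((Real.log (6 * C₀) + 1) * Real.log (q * (|t| + 2))) / δ ^ 2 := by
        gcongr
    _ = 16 * (Real.log (6 * C₀) + 1) / δ ^ 2 * Real.log (q * (|t| + 2)) := by ring
    _ ≤ _ := mul_le_mul_of_nonneg_right (le_max_right _ _) (by linarith)


end Pool.Agent.XS

namespace Pool.Agent.XS

/-- alias -/
theorem ldlog : type_of% @ldlog_pr := @ldlog_pr

end Pool.Agent.XS
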