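import Pool.Agent.Lib_helper26.XS.Defs
import Pool.Agent.Lib_helper98.GAF.Z2
import Pool.Agent.Lib_helper98.GAF.Ldz
import Pool.Agent.Lib_helper98.GAF.Lbd
import Pool.Agent.Lib_helper98.GAF.Lcs

/-! # XS, block ZLB: the logarithmic derivative of zeta to the right of the zeros -/

set_option autoImplicit false

namespace Pool.Agent.XS

open Finset Complex MeasureTheory Pool.Agent.Var35 Pool.Agent.Var73 Pool.Agent.HC Pool.Agent.MF

/-- a bound for the logarithmic derivative without zeros (Borel-Caratheodory) -/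
theorem zlb_ball {f : ℂ → ℂ} {c : ℂ} {R r M : ℝ} (hr : 0 ≤ r) (hrR : r < R) (hM : 0 < M)
    (hf : DifferentiableOn ℂ f (Metric.ball c R)) (h0 : ∀ z ∈ Metric.ball c R, f z ≠ 0)
    (hB : ∀ z ∈ Metric.ball c R, ‖f z‖ ≤ Real.exp M * ‖f c‖) {z : ℂ} (hz : ‖z - c‖ ≤ r) :
    ‖logDeriv f z‖ ≤ 8 * R / (R - r) ^ 2 * M := by
  have hR : 0 < R := lt_of_le_of_lt hr hrR
  obtain ⟨h, hd, hc, hder, hexp⟩ := GA.exists_log hR hf h0
  have hfc : 0 < ‖f c‖ := norm_pos_iff.2 (h0 c (Metric.mem_ball_self hR))
  have hre : ∀ w ∈ Metric.ball c R, (h w).re ≤ M := by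
    intro w hw
    have h4 := hB w hw
    rw [hexp w hw, norm_mul, Complex.norm_exp, mul_comm] at h4
    exact Real.exp_le_exp.1 (le_of_mul_le_mul_right h4 hfc)
  have hD : 0 < R - r := by linarith
  have hBC : ∀ w : ℂ, ‖w - c‖ ≤ (R + r) / 2 → ‖h w‖ ≤ 4 * M * R / (R - r) := by
    intro w hw
    have hmem : w - c ∈ Metric.ball (0 : ℂ) R := by
      rw [mem_ball_zero_iff]; linarith
    have hmaps : ∀ v ∈ Metric.ball (0 : ℂ) R, v + c ∈ Metric.ball c R := by
      intro v hv
      rw [mem_ball_zero_iff] at hv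
      rw [Metric.mem_ball, dist_eq_norm]
      simpa using hv
    have h4 := Complex.borelCaratheodory_zero (f := fun v => h (v + c)) hM
      (by
        refine hd.comp ?_ hmaps
        exact (differentiable_id.add_const c).differentiableOn)
      (by
        intro v hv
        exact hre _ (hmaps v hv)) hR hmem (by simp [hc])
    simp only [sub_add_cancel] at h4
    refine h4.trans ?_
    have h5 : (R - r) / 2 ≤ R - ‖w - c‖ := by linarith
    have h6 : ‖w - c‖ ≤ R := by linarith
    calc 2 * M * ‖w - c‖ / (R - ‖w - c‖) ≤ 2 * M * R / ((R - r) / 2) := by gcongr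
      _ = 4 * M * R / (R - r) := by field_simp; ring
  have hzb : z ∈ Metric.ball c R := by
    rw [Metric.mem_ball, dist_eq_norm]; linarith
  have hρ : 0 < (R - r) / 2 := by linarith
  have h7 := Complex.norm_deriv_le_of_forall_mem_sphere_norm_le (f := h) (c := z)
    (C := 4 * M * R / (R - r)) hρ (by
      refine DifferentiableOn.diffContOnCl ?_
      rw [closure_ball z hρ.ne']
      refine hd.mono ?_
      intro w hw
      rw [Metric.mem_closedBall, dist_eq_norm] at hw
      rw [Metric.mem_ball, dist_eq_norm]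
      have : ‖w - c‖ ≤ ‖w - z‖ + ‖z - c‖ := by
        have := norm_add_le (w - z) (z - c)
        simpa using this
      linarith) (by
      intro w hw
      rw [Metric.mem_sphere, dist_eq_norm] at hw
      refine hBC w ?_
      have : ‖w - c‖ ≤ ‖w - z‖ + ‖z - c‖ := by
        have := norm_add_le (w - z) (z - c)
        simpa using this
      linarith)
  rw [(hder z hzb).deriv] at h7
  refine h7.trans (le_of_eq ?_)
  field_simp
  ring

theorem zlb_ne {θ : ℝ} (h : ZF θ) {s : ℂ} (hs : θ < s.re) : riemannZeta₁ s ≠ 0 := by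
  by_cases h1 : s = 1
  · rw [h1, riemannZeta₁_one]; exact one_ne_zero
  · rw [GA.Z1_eq h1]
    refine mul_ne_zero (sub_ne_zero.2 h1) ?_
    have h2 := h 1 (1 : DirichletCharacter ℂ 1) s hs h1
    rwa [DirichletCharacter.LFunction_modOne_eq] at h2

theorem ldlog_zeta_pr {θ : ℝ} (h0 : 1 / 2 ≤ θ) (h : ZF θ) {c : ℝ} (hc : θ < c) :
    ∃ C : ℝ, 1 ≤ C ∧ ∀ s : ℂ, c ≤ s.re → s.re ≤ 2 →
      ‖logDeriv riemannZeta₁ s‖ ≤ C * Real.log (|s.im| + 2) := by
  by_cases hc2 : 2 < c
  · exact ⟨1, le_refl _, fun s h1 h2 => by linarith⟩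
  push Not at hc2
  obtain ⟨K, hK, hg⟩ := GA.Z1_growth
  set R : ℝ := 2 - (θ + c) / 2 with hR
  set r : ℝ := 2 - c with hr
  have hl2 : 0 < Real.log 2 := Real.log_pos (by norm_num)
  set A : ℝ := Real.log (12 * K) / Real.log 2 + 2 with hA
  have hlK : 0 ≤ Real.log (12 * K) := Real.log_nonneg (by linarith)
  have hA0 : 2 ≤ A := by
    have : 0 ≤ Real.log (12 * K) / Real.log 2 := div_nonneg hlK hl2.le
    linarith
  refine ⟨max 1 (8 * R / (R - r) ^ 2 * A), le_max_left _ _, fun s h1 h2 => ?_⟩
  set t : ℝ := s.im with ht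
  have hLt : Real.log 2 ≤ Real.log (|t| + 2) :=
    Real.log_le_log (by norm_num) (by linarith [abs_nonneg t])
  have hLt0 : 0 < Real.log (|t| + 2) := lt_of_lt_of_le hl2 hLt
  set c0 : ℂ := 2 + t * I with hc0
  have hc0re : c0.re = 2 := by simp [hc0]
  have hc0im : c0.im = t := by simp [hc0]
  have hc01 : c0 ≠ 1 := by
    intro h4
    have := congrArg Complex.re h4
    rw [hc0re, Complex.one_re] at this
    norm_num at this
  have hlow : 1 / 3 ≤ ‖riemannZeta₁ c0‖ := by
    have h4 := GA.LF_lower (1 : DirichletCharacter ℂ 1) (s := c0) (by rw [hc0re]; norm_num)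
    rw [GA.LF_one, hc0re] at h4
    norm_num at h4
    rw [GA.Z1_eq hc01, norm_mul]
    have h5 : 1 ≤ ‖c0 - 1‖ := by
      have := abs_re_le_norm (c0 - 1)
      rw [sub_re, hc0re, Complex.one_re] at this
      norm_num at this
      exact this
    calc (1 : ℝ) / 3 = 1 * (1 / 3) := (one_mul _).symm
      _ ≤ _ := mul_le_mul h5 (by simpa using h4) (by norm_num) (norm_nonneg _)
  have hball : ∀ z ∈ Metric.ball c0 R, (θ + c) / 2 < z.re ∧ z.re < 4 ∧ |z.im| ≤ |t| + 2 := by
    intro z hz
    rw [Metric.mem_ball, dist_eq_norm] at hz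
    have h3 : |z.re - 2| ≤ ‖z - c0‖ := by
      have := abs_re_le_norm (z - c0)
      rwa [sub_re, hc0re] at this
    have h4 : |z.im - t| ≤ ‖z - c0‖ := by
      have := abs_im_le_norm (z - c0)
      rwa [sub_im, hc0im] at this
    have h5 := abs_le.1 h3
    refine ⟨by linarith [h5.1], by linarith [h5.2], ?_⟩
    have : |z.im| ≤ |z.im - t| + |t| := by
      calc |z.im| = |(z.im - t) + t| := by ring_nf
        _ ≤ _ := abs_add_le _ _
    linarith
  have hM : 0 < A * Real.log (|t| + 2) := by positivity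
  have key := zlb_ball (f := riemannZeta₁) (c := c0) (R := R) (r := r)
    (M := A * Real.log (|t| + 2)) (by linarith) (by linarith) hM
    (by exact differentiable_riemannZeta₁.differentiableOn)
    (fun z hz => zlb_ne h (by linarith [(hball z hz).1]))
    (fun z hz => by
      obtain ⟨e1, e2, e3⟩ := hball z hz
      have e4 := hg z (by linarith) e2.le
      have e5 : ‖riemannZeta₁ z‖ ≤ 12 * K * (|t| + 2) ^ 2 * (1 / 3) := by
        have e6 : |z.im| + 2 ≤ 2 * (|t| + 2) := by linarith [abs_nonneg t]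
        calc ‖riemannZeta₁ z‖ ≤ K * (|z.im| + 2) ^ 2 := e4
          _ ≤ K * (2 * (|t| + 2)) ^ 2 := by gcongr
          _ = _ := by ring
      have e7 : Real.exp (A * Real.log (|t| + 2)) ≥ 12 * K * (|t| + 2) ^ 2 := by
        have e8 : Real.log (12 * K) + 2 * Real.log (|t| + 2) ≤ A * Real.log (|t| + 2) := by
          have e9 : Real.log (12 * K) ≤ Real.log (12 * K) / Real.log 2 * Real.log (|t| + 2) := by
            rw [div_mul_eq_mul_div, le_div_iff₀ hl2]
            exact mul_le_mul_of_nonneg_left hLt hlK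
          rw [hA, add_mul]
          linarith
        have hpos : 0 < |t| + 2 := by linarith [abs_nonneg t]
        calc 12 * K * (|t| + 2) ^ 2
            = Real.exp (Real.log (12 * K) + 2 * Real.log (|t| + 2)) := by
              rw [Real.exp_add, Real.exp_log (by linarith), two_mul, Real.exp_add,
                Real.exp_log hpos, ← pow_two]
          _ ≤ _ := Real.exp_le_exp.2 e8
      calc ‖riemannZeta₁ z‖ ≤ 12 * K * (|t| + 2) ^ 2 * (1 / 3) := e5
        _ ≤ Real.exp (A * Real.log (|t| + 2)) * ‖riemannZeta₁ c0‖ := by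
          refine mul_le_mul e7 hlow (by norm_num) (Real.exp_pos _).le) (z := s) (by
      have e1 : s - c0 = ((s.re - 2 : ℝ) : ℂ) := by
        apply Complex.ext
        · rw [sub_re, hc0re, Complex.ofReal_re]
        · rw [sub_im, hc0im, Complex.ofReal_im, ht, sub_self]
      rw [e1, Complex.norm_real, Real.norm_eq_abs, abs_le]
      constructor <;> linarith)
  refine key.trans ?_
  rw [← mul_assoc]
  exact mul_le_mul_of_nonneg_right (le_max_right _ _) hLt0.le


end Pool.Agent.XS

namespace Pool.Agent.XS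

/-- alias -/
theorem ldlog_zeta : type_of% @ldlog_zeta_pr := @ldlog_zeta_pr

end Pool.Agent.XS
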