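import Pool.Agent.Lib_helper26.XS.Defs
import Pool.Agent.Lib_helper26.XSF.KMB
import Pool.Agent.Lib_helper26.XSF.LLB
import Pool.Agent.Lib_helper26.XSF.ZLB

set_option autoImplicit false

namespace Pool.Agent.XS

open Finset Complex MeasureTheory Pool.Agent.Var35 Pool.Agent.Var73 Pool.Agent.HC Pool.Agent.MF
open scoped ArithmeticFunction ArithmeticFunction.Moebius

theorem kmc_log {ε : ℝ} (hε : 0 < ε) : ∃ C : ℝ, 1 ≤ C ∧ ∀ x : ℝ, 1 ≤ x →
    Real.log (6 * x) ^ 2 ≤ C * x ^ (ε / 2) := by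
  refine ⟨max 1 ((6 : ℝ) ^ (ε / 2) * (16 / ε ^ 2)), le_max_left _ _, fun x hx => ?_⟩
  have h0 : 0 ≤ Real.log (6 * x) := Real.log_nonneg (by linarith)
  have h1 : Real.log (6 * x) ≤ (6 * x) ^ (ε / 4) / (ε / 4) :=
    Real.log_le_rpow_div (by linarith) (by positivity)
  have h2 : Real.log (6 * x) ^ 2 ≤ ((6 * x) ^ (ε / 4) / (ε / 4)) ^ 2 :=
    pow_le_pow_left₀ h0 h1 2
  have h3 : ((6 * x) ^ (ε / 4) / (ε / 4)) ^ 2 = (6 : ℝ) ^ (ε / 2) * (16 / ε ^ 2) * x ^ (ε / 2) := by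
    have h4 : ((6 * x) ^ (ε / 4)) ^ 2 = (6 * x) ^ (ε / 2) := by
      rw [← Real.rpow_natCast, ← Real.rpow_mul (by linarith)]
      congr 1
      push_cast; ring
    rw [div_pow, h4, Real.mul_rpow (by norm_num) (by linarith)]
    field_simp
    ring
  rw [h3] at h2
  exact h2.trans (mul_le_mul_of_nonneg_right (le_max_right _ _) (by positivity))

theorem kmc_ne_one {r : ℕ} (hr : 2 ≤ r) {χ : DirichletCharacter ℂ r} (hχ : χ ∈ Pr r) : χ ≠ 1 := by
  intro h
  have h1 : χ.IsPrimitive := by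
    have := hχ
    simp only [Pr, Finset.mem_filter] at this
    exact this.2
  rw [DirichletCharacter.isPrimitive_def, h] at h1
  have : NeZero r := ⟨by omega⟩
  rw [DirichletCharacter.conductor_one] at h1
  omega

theorem kmc_cont {r : ℕ} (hr : 1 ≤ r) {χ : DirichletCharacter ℂ r} (hχ : χ ≠ 1) (z : ℕ) (c : ℝ) :
    Continuous fun t : ℝ => ‖1 - GA.LF χ (c + t * I) * MM z χ (c + t * I)‖ ^ 2 := by
  have : NeZero r := ⟨by omega⟩
  have hL : Continuous (GA.LF χ) := by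
    have : GA.LF χ = DirichletCharacter.LFunction χ := by
      funext s
      simp [GA.LF, NeZero.ne r]
    rw [this]
    exact (DirichletCharacter.differentiable_LFunction hχ).continuous
  have hM : Continuous (MM z χ) := by
    unfold MM
    refine continuous_finsetSum _ fun n hn => ?_
    have hn1 : (n : ℂ) ≠ 0 := by
      have := (Finset.mem_Icc.mp hn).1
      exact_mod_cast (by omega : n ≠ 0)
    exact continuous_const.mul (continuous_neg.const_cpow (Or.inl hn1))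
  have hs : Continuous fun t : ℝ => (c : ℂ) + t * I := by fun_prop
  exact ((continuous_const.sub ((hL.comp hs).mul (hM.comp hs))).norm).pow 2

theorem kmc_int {c : ℝ} {C1 : ℝ} (hC1 : 1 ≤ C1) (hc1 : c < 1)
    (hL : ∀ (q : ℕ) [NeZero q] (χ : DirichletCharacter ℂ q), χ ≠ 1 → ∀ s : ℂ,
      c ≤ s.re → s.re ≤ 2 → ‖logDeriv (GA.LF χ) s‖ ≤ C1 * Real.log (q * (|s.im| + 2)))
    {R : ℕ} (hR : 2 ≤ R) {T : ℝ} (hT : 1 ≤ T) {r : ℕ} (hr : r ∈ Ico R (2 * R))
    {χ : DirichletCharacter ℂ r} (hχ : χ ∈ Pr r) :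
    ∫ t in (-T)..T, nH (KK (zR R) χ) c t ^ 2 ≤ C1 ^ 2 * Real.log (6 * ((R : ℝ) * T)) ^ 2 *
      ∫ t in (-T)..T, ‖1 - GA.LF χ (c + t * I) * MM (zR R) χ (c + t * I)‖ ^ 2 := by
  obtain ⟨hr1, hr2⟩ := Finset.mem_Ico.mp hr
  have hχ1 : χ ≠ 1 := kmc_ne_one (by omega) hχ
  have : NeZero r := ⟨by omega⟩
  have hTT : -T ≤ T := by linarith
  have hRT : (2 : ℝ) ≤ R := by exact_mod_cast hR
  rw [← intervalIntegral.integral_const_mul, intervalIntegral.integral_of_le hTT,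
    intervalIntegral.integral_of_le hTT]
  apply MeasureTheory.integral_mono_of_nonneg
  · exact Filter.Eventually.of_forall fun t => sq_nonneg _
  · exact ((continuous_const.mul (kmc_cont (by omega) hχ1 (zR R) c)).intervalIntegrable
      (-T) T).1
  · refine (ae_restrict_iff' measurableSet_Ioc).mpr (Filter.Eventually.of_forall fun t ht => ?_)
    have ht' : |t| ≤ T := abs_le.mpr ⟨ht.1.le, ht.2⟩
    have hre : ((c : ℂ) + t * I).re = c := by simp
    have him : ((c : ℂ) + t * I).im = t := by simp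
    have hb := hL r χ hχ1 ((c : ℂ) + t * I) (by rw [hre]) (by rw [hre]; linarith)
    rw [him] at hb
    have hr0 : (1 : ℝ) ≤ r := by exact_mod_cast (by omega : 1 ≤ r)
    have hrR : (r : ℝ) ≤ 2 * R := by exact_mod_cast hr2.le
    have hlog : Real.log (r * (|t| + 2)) ≤ Real.log (6 * ((R : ℝ) * T)) := by
      apply Real.log_le_log (by positivity)
      nlinarith [abs_nonneg t, mul_nonneg (by linarith : (0 : ℝ) ≤ R) (by linarith : (0:ℝ) ≤ T - 1),
        mul_le_mul hrR (by linarith : |t| + 2 ≤ T + 2) (by positivity) (by positivity)]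
    have hlog0 : 0 ≤ Real.log (r * (|t| + 2)) := by
      apply Real.log_nonneg
      nlinarith [abs_nonneg t]
    have hb2 : ‖logDeriv (GA.LF χ) ((c : ℂ) + t * I)‖ ^ 2 ≤
        C1 ^ 2 * Real.log (6 * ((R : ℝ) * T)) ^ 2 := by
      rw [← mul_pow]
      exact pow_le_pow_left₀ (norm_nonneg _)
        (hb.trans (mul_le_mul_of_nonneg_left hlog (by linarith))) 2
    simp only [nH, KK, if_neg hχ1]
    rw [norm_mul, norm_neg, mul_pow]
    exact mul_le_mul_of_nonneg_right hb2 (sq_nonneg _)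

theorem kmc_one {c : ℝ} {C2 : ℝ} (hC2 : 1 ≤ C2) (hc1 : c < 1)
    (hZ : ∀ s : ℂ, c ≤ s.re → s.re ≤ 2 → ‖logDeriv riemannZeta₁ s‖ ≤ C2 * Real.log (|s.im| + 2))
    {T : ℝ} (hT : 1 ≤ T) (χ : DirichletCharacter ℂ 1) (z : ℕ) :
    ∫ t in (-T)..T, nH (KK z χ) c t ^ 2 ≤ 4 * C2 ^ 2 * Real.log (6 * T) ^ 2 * (2 * T) := by
  have hχ1 : χ = 1 := DirichletCharacter.level_one χ
  have h6 : 1 ≤ Real.log (6 * T) := by
    rw [Real.le_log_iff_exp_le (by linarith)]
    have := Real.exp_one_lt_d9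
    linarith
  have hM : ∀ t ∈ Set.uIoc (-T) T, ‖nH (KK z χ) c t ^ 2‖ ≤ 4 * C2 ^ 2 * Real.log (6 * T) ^ 2 := by
    intro t ht
    rw [Set.uIoc_of_le (by linarith)] at ht
    have ht' : |t| ≤ T := abs_le.mpr ⟨ht.1.le, ht.2⟩
    have hre : ((c : ℂ) + t * I).re = c := by simp
    have him : ((c : ℂ) + t * I).im = t := by simp
    have hb := hZ ((c : ℂ) + t * I) (by rw [hre]) (by rw [hre]; linarith)
    rw [him] at hb
    have hlog : Real.log (|t| + 2) ≤ Real.log (6 * T) := by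
      apply Real.log_le_log (by positivity)
      linarith
    have hb2 : ‖logDeriv riemannZeta₁ ((c : ℂ) + t * I)‖ ≤ C2 * Real.log (6 * T) :=
      hb.trans (mul_le_mul_of_nonneg_left hlog (by linarith))
    have hb3 : ‖-logDeriv riemannZeta₁ ((c : ℂ) + t * I) - 1‖ ≤ 2 * (C2 * Real.log (6 * T)) := by
      refine (norm_sub_le _ _).trans ?_
      rw [norm_neg, norm_one]
      nlinarith
    have h4 : (4 : ℝ) * C2 ^ 2 * Real.log (6 * T) ^ 2 = (2 * (C2 * Real.log (6 * T))) ^ 2 := by ring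
    rw [Real.norm_of_nonneg (sq_nonneg _), h4]
    simp only [nH, KK, if_pos hχ1]
    exact pow_le_pow_left₀ (norm_nonneg _) hb3 2
  have := intervalIntegral.norm_integral_le_of_norm_le_const hM
  have h2 : |T - -T| = 2 * T := by rw [abs_of_nonneg (by linarith)]; ring
  rw [h2] at this
  exact (le_abs_self _).trans this

theorem km_pr {θ c : ℝ} (hθ : 5 / 6 ≤ θ) (h : ZF θ) (hc : θ < c) (hc1 : c < 1) {ε : ℝ}
    (hε : 0 < ε) : ∃ C : ℝ, 1 ≤ C ∧ ∀ R : ℕ, 1 ≤ R → ∀ T : ℝ, 1 ≤ T →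
    SP R (fun r χ => ∫ t in (-T)..T, nH (KK (zR R) χ) c t ^ 2) ≤
      C * ((R : ℝ) * T) ^ (1 + ε) := by
  obtain ⟨C1, hC1, hL⟩ := ldlog (by linarith : 1 / 2 ≤ θ) h hc
  obtain ⟨C2, hC2, hZ⟩ := ldlog_zeta (by linarith : 1 / 2 ≤ θ) h hc
  obtain ⟨C3, hC3, hK⟩ := kma (c := c) (by linarith) hc1 (half_pos hε)
  obtain ⟨C4, hC4, hlog⟩ := kmc_log hε
  refine ⟨C1 ^ 2 * C4 * C3 + 8 * C2 ^ 2 * C4, ?_, ?_⟩
  · have h1 : 1 ≤ C1 ^ 2 * C4 * C3 :=
      one_le_mul_of_one_le_of_one_le (one_le_mul_of_one_le_of_one_le (one_le_pow₀ hC1) hC4) hC3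
    have h2 : 0 ≤ 8 * C2 ^ 2 * C4 := by positivity
    linarith
  · intro R hR T hT
    have hR1 : (1 : ℝ) ≤ R := by exact_mod_cast hR
    have hRT : 1 ≤ (R : ℝ) * T := one_le_mul_of_one_le_of_one_le hR1 hT
    have hRT0 : 0 < (R : ℝ) * T := by linarith
    have hl := hlog _ hRT
    rcases Nat.lt_or_ge R 2 with hR2 | hR2
    · have hRe : R = 1 := by omega
      subst hRe
      have hsub : Subsingleton (DirichletCharacter ℂ 1) :=
        ⟨fun a b => by rw [DirichletCharacter.level_one a, DirichletCharacter.level_one b]⟩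
      have hcard : (Pr 1).card ≤ 1 := Finset.card_le_one_of_subsingleton _
      have hB0 : 0 ≤ 4 * C2 ^ 2 * Real.log (6 * T) ^ 2 * (2 * T) := by positivity
      have hIco : Ico 1 (2 * 1) = {1} := by decide
      have h1 : SP 1 (fun r χ => ∫ t in (-T)..T, nH (KK (zR 1) χ) c t ^ 2) ≤
          4 * C2 ^ 2 * Real.log (6 * T) ^ 2 * (2 * T) := by
        unfold SP
        rw [hIco, Finset.sum_singleton]
        calc ∑ χ ∈ Pr 1, ∫ t in (-T)..T, nH (KK (zR 1) χ) c t ^ 2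
            ≤ (Pr 1).card • (4 * C2 ^ 2 * Real.log (6 * T) ^ 2 * (2 * T)) :=
              Finset.sum_le_card_nsmul _ _ _ fun χ _ => kmc_one hC2 hc1 hZ hT χ _
          _ ≤ 1 * (4 * C2 ^ 2 * Real.log (6 * T) ^ 2 * (2 * T)) := by
              rw [nsmul_eq_mul]
              exact mul_le_mul_of_nonneg_right (by exact_mod_cast hcard) hB0
          _ = _ := one_mul _
      refine h1.trans ?_
      simp only [Nat.cast_one, one_mul] at hl hRT0 ⊢
      have h3 : T ^ (1 + ε) = T * T ^ (ε / 2) * T ^ (ε / 2) := by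
        rw [mul_assoc, ← Real.rpow_add hRT0, ← Real.rpow_one_add' hRT0.le (by positivity)]
        congr 1; ring
      have h4 : 1 ≤ T ^ (ε / 2) := Real.one_le_rpow hT (by positivity)
      have h5 : 4 * C2 ^ 2 * Real.log (6 * T) ^ 2 * (2 * T) ≤
          8 * C2 ^ 2 * C4 * (T * T ^ (ε / 2)) := by
        nlinarith [mul_le_mul_of_nonneg_left hl (by positivity : 0 ≤ 8 * C2 ^ 2 * T)]
      have h6 : T * T ^ (ε / 2) ≤ T ^ (1 + ε) := by
        rw [h3]
        exact le_mul_of_one_le_right (by positivity) h4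
      have h7 : 0 ≤ C1 ^ 2 * C4 * C3 * T ^ (1 + ε) := by positivity
      have h8 : 8 * C2 ^ 2 * C4 * (T * T ^ (ε / 2)) ≤ 8 * C2 ^ 2 * C4 * T ^ (1 + ε) :=
        mul_le_mul_of_nonneg_left h6 (by positivity)
      linarith [add_mul (C1 ^ 2 * C4 * C3) (8 * C2 ^ 2 * C4) (T ^ (1 + ε))]
    · have h1 : SP R (fun r χ => ∫ t in (-T)..T, nH (KK (zR R) χ) c t ^ 2) ≤
          C1 ^ 2 * Real.log (6 * ((R : ℝ) * T)) ^ 2 *
          SP R (fun r χ => ∫ t in (-T)..T,
            ‖1 - GA.LF χ (c + t * I) * MM (zR R) χ (c + t * I)‖ ^ 2) := by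
        unfold SP
        rw [Finset.mul_sum]
        refine Finset.sum_le_sum fun r hr => ?_
        rw [Finset.mul_sum]
        exact Finset.sum_le_sum fun χ hχ => kmc_int hC1 hc1 hL hR2 hT hr hχ
      have h2 := hK R hR2 T hT
      have h3 : ((R : ℝ) * T) ^ (1 + ε) =
          ((R : ℝ) * T) ^ (ε / 2) * ((R : ℝ) * T) ^ (1 + ε / 2) := by
        rw [← Real.rpow_add hRT0]
        congr 1; ring
      have h4 : C1 ^ 2 * Real.log (6 * ((R : ℝ) * T)) ^ 2 ≤
          C1 ^ 2 * (C4 * ((R : ℝ) * T) ^ (ε / 2)) :=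
        mul_le_mul_of_nonneg_left hl (by positivity)
      have h5 : 0 ≤ C3 * ((R : ℝ) * T) ^ (1 + ε / 2) := by positivity
      have h6 : 0 ≤ 8 * C2 ^ 2 * C4 * ((R : ℝ) * T) ^ (1 + ε) := by positivity
      calc SP R (fun r χ => ∫ t in (-T)..T, nH (KK (zR R) χ) c t ^ 2)
          ≤ _ := h1
        _ ≤ C1 ^ 2 * Real.log (6 * ((R : ℝ) * T)) ^ 2 *
            (C3 * ((R : ℝ) * T) ^ (1 + ε / 2)) := mul_le_mul_of_nonneg_left h2 (by positivity)
        _ ≤ C1 ^ 2 * (C4 * ((R : ℝ) * T) ^ (ε / 2)) *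
            (C3 * ((R : ℝ) * T) ^ (1 + ε / 2)) := mul_le_mul_of_nonneg_right h4 h5
        _ = C1 ^ 2 * C4 * C3 * ((R : ℝ) * T) ^ (1 + ε) := by rw [h3]; ring
        _ ≤ (C1 ^ 2 * C4 * C3 + 8 * C2 ^ 2 * C4) * ((R : ℝ) * T) ^ (1 + ε) := by
            rw [add_mul]; linarith

end Pool.Agent.XS

namespace Pool.Agent.XS

/-- alias -/
theorem km : type_of% @km_pr := @km_pr

end Pool.Agent.XS
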