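import Pool.Agent.Lib_helper26.XS.Defs

set_option autoImplicit false

namespace Pool.Agent.XS

open Finset Complex MeasureTheory Pool.Agent.Var35 Pool.Agent.Var73 Pool.Agent.HC Pool.Agent.MF
open scoped ArithmeticFunction ArithmeticFunction.Moebius

/-- a Gaussian integral over a vertical line -/
theorem gau_line {lam : ℝ} (hl : 0 < lam) (c u : ℝ) :
    ∫ t : ℝ, cexp (lam * ((c : ℂ) + t * I) ^ 2) * cexp (((c : ℂ) + t * I) * u) =
      ((Real.sqrt (Real.pi / lam) : ℝ) : ℂ) * (Real.exp (-(u ^ 2 / (4 * lam))) : ℂ) := by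
  have hl' : (lam : ℂ) ≠ 0 := by exact_mod_cast hl.ne'
  have h := fourierIntegral_gaussian (b := (lam : ℂ)) (by simpa using hl)
    ((2 * lam * c + u : ℝ) : ℂ)
  have e : ∀ t : ℝ, cexp (lam * ((c : ℂ) + t * I) ^ 2) * cexp (((c : ℂ) + t * I) * u) =
      cexp ((lam * c ^ 2 + c * u : ℝ) : ℂ) *
        (cexp (I * ((2 * lam * c + u : ℝ) : ℂ) * t) * cexp (-(lam : ℂ) * (t : ℂ) ^ 2)) := by
    intro t
    rw [← Complex.exp_add, ← Complex.exp_add, ← Complex.exp_add]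
    congr 1
    push_cast
    linear_combination (lam * (t : ℂ) ^ 2 : ℂ) * I_sq
  simp_rw [e]
  rw [integral_const_mul, h]
  have h1 : ((Real.pi : ℂ) / (lam : ℂ)) ^ (1 / 2 : ℂ) = ((Real.sqrt (Real.pi / lam) : ℝ) : ℂ) := by
    rw [Real.sqrt_eq_rpow, Complex.ofReal_cpow (by positivity)]
    push_cast
    rfl
  rw [h1, mul_left_comm, ← Complex.exp_add, Complex.ofReal_exp]
  congr 2
  push_cast
  field_simp
  ring

theorem gau_pow {y x : ℝ} (hy : 0 < y) (hx : 0 < x) (t : ℝ) :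
    (y : ℂ) ^ (-(3 + t * I) : ℂ) * (x : ℂ) ^ ((2 : ℂ) + t * I) =
      (y : ℂ)⁻¹ * cexp (((2 : ℂ) + t * I) * (Real.log (x / y) : ℂ)) := by
  have hy' : (y : ℂ) ≠ 0 := by exact_mod_cast hy.ne'
  have hx' : (x : ℂ) ≠ 0 := by exact_mod_cast hx.ne'
  rw [Complex.cpow_def_of_ne_zero hy', Complex.cpow_def_of_ne_zero hx',
    Real.log_div hx.ne' hy.ne', ← Complex.ofReal_log hy.le, ← Complex.ofReal_log hx.le,
    ← Complex.exp_add]
  have h1 : (y : ℂ)⁻¹ = cexp (-(Real.log y : ℂ)) := by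
    rw [Complex.exp_neg, ← Complex.ofReal_exp, Real.exp_log hy]
  rw [h1, ← Complex.exp_add]
  congr 1
  push_cast
  ring

theorem gau_norm_gs (lam t : ℝ) : ‖gs lam 2 t‖ = Real.exp (4 * lam) * Real.exp (-lam * t ^ 2) := by
  unfold gs
  rw [Complex.norm_exp, ← Real.exp_add]
  congr 1
  have : ((lam : ℂ) * (((2 : ℝ) : ℂ) + t * I) ^ 2) =
      ((4 * lam + -lam * t ^ 2 : ℝ) : ℂ) + ((4 * lam * t : ℝ) : ℂ) * I := by
    push_cast
    linear_combination (lam * (t : ℂ) ^ 2 : ℂ) * I_sq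
  rw [this, Complex.add_re, Complex.ofReal_re, Complex.re_ofReal_mul, Complex.I_re, mul_zero,
    add_zero]

theorem gau_subst (G : ℝ → ℂ) {x : ℝ} (hx : 0 < x) :
    ∫ y in Set.Ioi (0 : ℝ), (y : ℂ)⁻¹ * G y = ∫ v : ℝ, G (x * Real.exp (-v)) := by
  have himg : (fun v : ℝ => x * Real.exp (-v)) '' Set.univ = Set.Ioi 0 := by
    ext y
    constructor
    · rintro ⟨v, -, rfl⟩
      exact mul_pos hx (Real.exp_pos _)
    · intro hy
      refine ⟨-Real.log (y / x), Set.mem_univ _, ?_⟩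
      show x * Real.exp (- -Real.log (y / x)) = y
      rw [neg_neg, Real.exp_log (div_pos hy hx), mul_div_cancel₀ _ hx.ne']
  have hd : ∀ v ∈ (Set.univ : Set ℝ), HasDerivWithinAt (fun v : ℝ => x * Real.exp (-v))
      (-(x * Real.exp (-v))) Set.univ v := by
    intro v _
    apply HasDerivAt.hasDerivWithinAt
    have h1 := ((hasDerivAt_neg v).exp).const_mul x
    simpa using h1
  have hinj : Set.InjOn (fun v : ℝ => x * Real.exp (-v)) Set.univ := by
    intro a _ b _ hab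
    have h1 : Real.exp (-a) = Real.exp (-b) := mul_left_cancel₀ hx.ne' hab
    have h2 := Real.exp_injective h1
    linarith
  have h := integral_image_eq_integral_abs_deriv_smul MeasurableSet.univ hd hinj
    (fun y : ℝ => (y : ℂ)⁻¹ * G y)
  rw [himg, Measure.restrict_univ] at h
  rw [h]
  refine integral_congr_ae (Filter.Eventually.of_forall fun v => ?_)
  have hpos : 0 < x * Real.exp (-v) := mul_pos hx (Real.exp_pos _)
  show |(-(x * Real.exp (-v)))| • (((x * Real.exp (-v) : ℝ) : ℂ)⁻¹ * G (x * Real.exp (-v))) = _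
  rw [abs_neg, abs_of_pos hpos, Complex.real_smul, ← mul_assoc, mul_inv_cancel₀, one_mul]
  exact_mod_cast hpos.ne'

/-- GAU: inversion on the line `Re s = 2` -/
theorem sm_two_pr {E : ℝ → ℂ} {H : ℂ → ℂ} {c : ℝ} (h : Rep E H c) {lam x : ℝ} (hl : 0 < lam)
    (hx : 0 < x) :
    sm lam E x = ((1 / (2 * Real.pi) : ℝ) : ℂ) *
      ∫ t : ℝ, H (2 + t * I) / (2 + t * I) * gs lam 2 t * (x : ℂ) ^ ((2 : ℂ) + t * I) := by
  obtain ⟨A, hA⟩ := h.bound
  -- the double integral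
  let F : ℝ → ℝ → ℂ := fun t y =>
    E y * (y : ℂ) ^ (-(3 + t * I) : ℂ) * (gs lam 2 t * (x : ℂ) ^ ((2 : ℂ) + t * I))
  have hx' : (x : ℂ) ≠ 0 := by exact_mod_cast hx.ne'
  have hnx : ∀ t : ℝ, ‖(x : ℂ) ^ ((2 : ℂ) + t * I)‖ = x ^ (2 : ℝ) := by
    intro t
    rw [Complex.norm_cpow_eq_rpow_re_of_pos hx]
    simp
  have hny : ∀ (t : ℝ) {y : ℝ}, 0 < y → ‖(y : ℂ) ^ (-(3 + t * I) : ℂ)‖ = y ^ (-3 : ℝ) := by
    intro t y hy
    rw [Complex.norm_cpow_eq_rpow_re_of_pos hy]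
    simp
  have hgs : Continuous (fun t : ℝ => gs lam 2 t) := by
    unfold gs
    fun_prop
  have hFint : Integrable (Function.uncurry F) (volume.prod (volume.restrict (Set.Ioi (1 : ℝ)))) := by
    have h1 : Integrable (fun t : ℝ => x ^ (2 : ℝ) * (Real.exp (4 * lam) * Real.exp (-lam * t ^ 2))) := by
      exact ((integrable_exp_neg_mul_sq hl).const_mul _).const_mul _
    have h2 : Integrable (fun y : ℝ => A * y ^ (-(3 / 2) : ℝ)) (volume.restrict (Set.Ioi (1 : ℝ))) := by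
      apply Integrable.const_mul
      exact integrableOn_Ioi_rpow_of_lt (by norm_num) (by norm_num)
    refine (h1.mul_prod h2).mono' ?_ ?_
    · apply Measurable.aestronglyMeasurable
      refine Measurable.mul (Measurable.mul (h.meas.comp measurable_snd) ?_) (Measurable.mul ?_ ?_)
      · refine Measurable.pow (Complex.measurable_ofReal.comp measurable_snd) ?_
        fun_prop
      · exact hgs.measurable.comp measurable_fst
      · refine Measurable.pow measurable_const ?_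
        fun_prop
    · have hae : ∀ᵐ p : ℝ × ℝ ∂(volume.prod (volume.restrict (Set.Ioi (1 : ℝ)))), 1 < p.2 := by
        have h3 : ∀ᵐ y : ℝ ∂(volume.restrict (Set.Ioi (1 : ℝ))), 1 < y :=
          ae_restrict_mem measurableSet_Ioi
        exact Measure.quasiMeasurePreserving_snd.ae h3
      filter_upwards [hae] with p hp
      have hp0 : 0 < p.2 := by linarith
      show ‖E p.2 * (p.2 : ℂ) ^ (-(3 + p.1 * I) : ℂ) *
        (gs lam 2 p.1 * (x : ℂ) ^ ((2 : ℂ) + p.1 * I))‖ ≤ _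
      rw [norm_mul, norm_mul, norm_mul, hny p.1 hp0, hnx, gau_norm_gs]
      have h4 := hA p.2 hp.le
      have h5 : A * p.2 ^ (3 / 2 : ℝ) * p.2 ^ (-3 : ℝ) = A * p.2 ^ (-(3 / 2) : ℝ) := by
        rw [mul_assoc, ← Real.rpow_add hp0]
        norm_num
      have h6 : ‖E p.2‖ * p.2 ^ (-3 : ℝ) ≤ A * p.2 ^ (-(3 / 2) : ℝ) := by
        rw [← h5]
        exact mul_le_mul_of_nonneg_right h4 (Real.rpow_nonneg hp0.le _)
      have h7 : 0 ≤ Real.exp (4 * lam) * Real.exp (-lam * p.1 ^ 2) * x ^ (2 : ℝ) := by positivity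
      calc ‖E p.2‖ * p.2 ^ (-3 : ℝ) *
            (Real.exp (4 * lam) * Real.exp (-lam * p.1 ^ 2) * x ^ (2 : ℝ))
          ≤ A * p.2 ^ (-(3 / 2) : ℝ) *
            (Real.exp (4 * lam) * Real.exp (-lam * p.1 ^ 2) * x ^ (2 : ℝ)) :=
            mul_le_mul_of_nonneg_right h6 h7
        _ = _ := by ring
  -- the right side
  have e1 : ∫ t : ℝ, H (2 + t * I) / (2 + t * I) * gs lam 2 t * (x : ℂ) ^ ((2 : ℂ) + t * I) =
      ∫ t : ℝ, ∫ y in Set.Ioi (1 : ℝ), F t y := by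
    refine integral_congr_ae (Filter.Eventually.of_forall fun t => ?_)
    show _ = ∫ y in Set.Ioi (1 : ℝ), E y * (y : ℂ) ^ (-(3 + t * I) : ℂ) *
      (gs lam 2 t * (x : ℂ) ^ ((2 : ℂ) + t * I))
    rw [integral_mul_const, h.mellin t]
    exact mul_assoc _ _ _
  have e2 : ∫ t : ℝ, ∫ y in Set.Ioi (1 : ℝ), F t y = ∫ y in Set.Ioi (1 : ℝ), ∫ t : ℝ, F t y :=
    integral_integral_swap hFint
  have e3 : ∀ y ∈ Set.Ioi (1 : ℝ), ∫ t : ℝ, F t y =
      (y : ℂ)⁻¹ * (((Real.sqrt (Real.pi / lam) : ℝ) : ℂ) *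
        (E y * (Real.exp (-(Real.log (x / y) ^ 2 / (4 * lam))) : ℂ))) := by
    intro y hy
    have hy0 : 0 < y := lt_trans zero_lt_one hy
    have h1 : ∀ t : ℝ, F t y = E y * (y : ℂ)⁻¹ * (cexp (lam * (((2 : ℝ) : ℂ) + t * I) ^ 2) *
        cexp ((((2 : ℝ) : ℂ) + t * I) * (Real.log (x / y) : ℝ))) := by
      intro t
      have h2 := gau_pow hy0 hx t
      show E y * (y : ℂ) ^ (-(3 + t * I) : ℂ) * (gs lam 2 t * (x : ℂ) ^ ((2 : ℂ) + t * I)) = _
      calc E y * (y : ℂ) ^ (-(3 + t * I) : ℂ) * (gs lam 2 t * (x : ℂ) ^ ((2 : ℂ) + t * I))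
          = E y * gs lam 2 t * ((y : ℂ) ^ (-(3 + t * I) : ℂ) * (x : ℂ) ^ ((2 : ℂ) + t * I)) := by
            ring
        _ = _ := by
            rw [h2]
            unfold gs
            push_cast
            ring
    simp_rw [h1]
    rw [integral_const_mul, gau_line hl 2 (Real.log (x / y))]
    ring
  rw [e1, e2, setIntegral_congr_fun measurableSet_Ioi e3]
  -- from `1` to `0`
  let G : ℝ → ℂ := fun y => ((Real.sqrt (Real.pi / lam) : ℝ) : ℂ) *
        (E y * (Real.exp (-(Real.log (x / y) ^ 2 / (4 * lam))) : ℂ))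
  have e4 : ∫ y in Set.Ioi (1 : ℝ), (y : ℂ)⁻¹ * G y = ∫ y in Set.Ioi (0 : ℝ), (y : ℂ)⁻¹ * G y := by
    rw [← integral_Ici_eq_integral_Ioi]
    symm
    refine setIntegral_eq_of_subset_of_forall_sdiff_eq_zero measurableSet_Ioi ?_ ?_
    · intro y hy
      have h1 : (1 : ℝ) ≤ y := hy
      exact lt_of_lt_of_le zero_lt_one h1
    · intro y hy
      have h1 : y < 1 := lt_of_not_ge hy.2
      show (y : ℂ)⁻¹ * (((Real.sqrt (Real.pi / lam) : ℝ) : ℂ) *
        (E y * (Real.exp (-(Real.log (x / y) ^ 2 / (4 * lam))) : ℂ))) = 0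
      rw [h.zero y h1]
      ring
  have e5 : (∫ y in Set.Ioi (1 : ℝ), (y : ℂ)⁻¹ * (((Real.sqrt (Real.pi / lam) : ℝ) : ℂ) *
        (E y * (Real.exp (-(Real.log (x / y) ^ 2 / (4 * lam))) : ℂ)))) =
      ∫ v : ℝ, G (x * Real.exp (-v)) := by
    rw [← gau_subst G hx, ← e4]
  rw [e5]
  have e6 : ∀ v : ℝ, G (x * Real.exp (-v)) = ((Real.sqrt (Real.pi / lam) : ℝ) : ℂ) *
      (E (x * Real.exp (-v)) * (Real.exp (-(v ^ 2 / (4 * lam))) : ℂ)) := by
    intro v
    have h1 : x / (x * Real.exp (-v)) = Real.exp v := by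
      rw [Real.exp_neg]
      field_simp
    show ((Real.sqrt (Real.pi / lam) : ℝ) : ℂ) * (E (x * Real.exp (-v)) *
      (Real.exp (-(Real.log (x / (x * Real.exp (-v))) ^ 2 / (4 * lam))) : ℂ)) = _
    rw [h1, Real.log_exp]
  simp_rw [e6]
  rw [integral_const_mul, ← mul_assoc]
  unfold sm
  congr 1
  rw [← Complex.ofReal_mul]
  congr 1
  rw [Real.sqrt_mul (by positivity), Real.sqrt_div Real.pi_pos.le]
  have hp : Real.sqrt Real.pi ≠ 0 := (Real.sqrt_pos.2 Real.pi_pos).ne'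
  have hl2 : Real.sqrt lam ≠ 0 := (Real.sqrt_pos.2 hl).ne'
  rw [Real.sqrt_mul (by norm_num) Real.pi]
  have h4 : Real.sqrt 4 = 2 := by
    rw [show (4 : ℝ) = 2 ^ 2 by norm_num]
    exact Real.sqrt_sq (by norm_num)
  rw [h4]
  have hpi : Real.pi = Real.sqrt Real.pi * Real.sqrt Real.pi := (Real.mul_self_sqrt Real.pi_pos.le).symm
  field_simp
  nlinarith [Real.sq_sqrt Real.pi_pos.le]

end Pool.Agent.XS

namespace Pool.Agent.XS

/-- alias -/
theorem sm_two : type_of% @sm_two_pr := @sm_two_pr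

end Pool.Agent.XS
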