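import Pool.Agent.Lib_helper26.XS.Defs
import Pool.Agent.Lib_helper26.XSF.GAU
import Pool.Agent.Lib_helper50.ZP.Shift

/-!
# XS, block SHF: inversion on the line `Re s = c`
-/

set_option autoImplicit false

namespace Pool.Agent.XS

open Finset Complex MeasureTheory Pool.Agent.Var35 Pool.Agent.Var73 Pool.Agent.HC Pool.Agent.MF
open scoped ArithmeticFunction ArithmeticFunction.Moebius

/-- the integrand -/
noncomputable def shf_f (H : ℂ → ℂ) (lam x : ℝ) (s : ℂ) : ℂ :=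
  H s / s * cexp (lam * s ^ 2) * (x : ℂ) ^ s

theorem shf_pow {lam : ℝ} (hl : 0 < lam) (m : ℕ) (T : ℝ) (hT : 0 ≤ T) :
    (1 + T) ^ m ≤ (m.factorial : ℝ) * Real.exp (1 + 1 / (2 * lam)) * Real.exp (lam / 2 * T ^ 2) := by
  have h1 := Real.pow_div_factorial_le_exp (1 + T) (by linarith) m
  have h2 : (0 : ℝ) < (m.factorial : ℝ) := by exact_mod_cast m.factorial_pos
  rw [div_le_iff₀ h2] at h1
  have h3 : T ≤ 1 / (2 * lam) + lam / 2 * T ^ 2 := by
    have h4 : 0 ≤ (lam * T - 1) ^ 2 / (2 * lam) := by positivity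
    have h5 : (lam * T - 1) ^ 2 / (2 * lam) = 1 / (2 * lam) + lam / 2 * T ^ 2 - T := by
      field_simp
      ring
    linarith
  calc (1 + T) ^ m ≤ Real.exp (1 + T) * m.factorial := h1
    _ ≤ Real.exp (1 + 1 / (2 * lam) + lam / 2 * T ^ 2) * m.factorial :=
        mul_le_mul_of_nonneg_right (Real.exp_le_exp.mpr (by linarith)) h2.le
    _ = (m.factorial : ℝ) * Real.exp (1 + 1 / (2 * lam)) * Real.exp (lam / 2 * T ^ 2) := by
        rw [Real.exp_add]
        ring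

theorem shf_bound {E : ℝ → ℂ} {H : ℂ → ℂ} {c : ℝ} (h : Rep E H c) (hc : 3 / 4 ≤ c)
    {lam x : ℝ} (hl : 0 < lam) (hx : 0 < x) :
    ∃ B : ℝ, ∀ s : ℂ, c ≤ s.re → s.re ≤ 2 →
      ‖shf_f H lam x s‖ ≤ B * Real.exp (-(lam / 2) * |s.im| ^ 2) := by
  obtain ⟨A, m, hA⟩ := h.growth
  refine ⟨|A| * ((m.factorial : ℝ) * Real.exp (1 + 1 / (2 * lam))) * 2 * Real.exp (4 * lam) *
    (1 + x) ^ 2, ?_⟩
  intro s h1 h2
  have hre : 3 / 4 ≤ s.re := le_trans hc h1
  have e1 : ‖H s‖ ≤ |A| * (((m.factorial : ℝ) * Real.exp (1 + 1 / (2 * lam))) *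
      Real.exp (lam / 2 * |s.im| ^ 2)) := by
    refine (hA s h1 h2).trans ?_
    have h3 := shf_pow hl m |s.im| (abs_nonneg _)
    calc A * (1 + |s.im|) ^ m ≤ |A| * (1 + |s.im|) ^ m := by
          gcongr
          exact le_abs_self A
      _ ≤ _ := by gcongr
  have e2 : ‖s‖⁻¹ ≤ 2 := by
    have h3 : (1 / 2 : ℝ) ≤ ‖s‖ := by
      have := Complex.re_le_norm s
      linarith
    calc ‖s‖⁻¹ ≤ (1 / 2 : ℝ)⁻¹ := inv_anti₀ (by norm_num) h3
      _ = 2 := by norm_num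
  have e3 : ‖cexp (lam * s ^ 2)‖ ≤ Real.exp (4 * lam) * Real.exp (-(lam * |s.im| ^ 2)) := by
    rw [Complex.norm_exp, ← Real.exp_add]
    apply Real.exp_le_exp.mpr
    have h3 : ((lam : ℂ) * s ^ 2).re = lam * (s.re ^ 2 - s.im ^ 2) := by
      rw [Complex.re_ofReal_mul, pow_two, Complex.mul_re]
      ring
    rw [h3, sq_abs]
    have h4 : s.re ^ 2 ≤ 4 := by nlinarith
    nlinarith
  have e4 : ‖(x : ℂ) ^ s‖ ≤ (1 + x) ^ 2 := by
    rw [Complex.norm_cpow_eq_rpow_re_of_pos hx]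
    calc x ^ s.re ≤ (1 + x) ^ s.re := Real.rpow_le_rpow hx.le (by linarith) (by linarith)
      _ ≤ (1 + x) ^ (2 : ℝ) := Real.rpow_le_rpow_of_exponent_le (by linarith) h2
      _ = (1 + x) ^ 2 := by norm_cast
  rw [shf_f, norm_mul, norm_mul, norm_div, div_eq_mul_inv]
  calc ‖H s‖ * ‖s‖⁻¹ * ‖cexp (lam * s ^ 2)‖ * ‖(x : ℂ) ^ s‖
      ≤ (|A| * (((m.factorial : ℝ) * Real.exp (1 + 1 / (2 * lam))) *
        Real.exp (lam / 2 * |s.im| ^ 2))) * 2 *
        (Real.exp (4 * lam) * Real.exp (-(lam * |s.im| ^ 2))) * (1 + x) ^ 2 := by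
        gcongr
    _ = |A| * ((m.factorial : ℝ) * Real.exp (1 + 1 / (2 * lam))) * 2 * Real.exp (4 * lam) *
        (1 + x) ^ 2 * (Real.exp (lam / 2 * |s.im| ^ 2) * Real.exp (-(lam * |s.im| ^ 2))) := by
        ring
    _ = _ := by
        rw [← Real.exp_add]
        congr 2
        ring

theorem shf_diff {E : ℝ → ℂ} {H : ℂ → ℂ} {c : ℝ} (h : Rep E H c) (hc : 3 / 4 ≤ c)
    {lam x : ℝ} (hx : 0 < x) (s : ℂ) (h1 : c ≤ s.re) (h2 : s.re ≤ 2) :
    DifferentiableAt ℂ (shf_f H lam x) s := by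
  obtain ⟨c', hc', hd⟩ := h.diff
  have hop : IsOpen {s : ℂ | c' < s.re ∧ s.re < 3} :=
    (isOpen_lt continuous_const Complex.continuous_re).inter
      (isOpen_lt Complex.continuous_re continuous_const)
  have hH : DifferentiableAt ℂ H s :=
    hd.differentiableAt (hop.mem_nhds ⟨lt_of_lt_of_le hc' h1, by linarith⟩)
  have hs0 : s ≠ 0 := by
    intro h0
    rw [h0, Complex.zero_re] at h1
    linarith
  have hx0 : (x : ℂ) ≠ 0 := by exact_mod_cast hx.ne'
  unfold shf_f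
  refine ((hH.div differentiableAt_id hs0).mul ?_).mul ?_
  · exact ((differentiableAt_id.pow 2).const_mul _).cexp
  · exact differentiableAt_id.const_cpow (Or.inl hx0)

theorem shf_int {E : ℝ → ℂ} {H : ℂ → ℂ} {c : ℝ} (h : Rep E H c) (hc : 3 / 4 ≤ c)
    {lam x : ℝ} (hl : 0 < lam) (hx : 0 < x) (a : ℝ) (h1 : c ≤ a) (h2 : a ≤ 2) :
    Integrable (fun t : ℝ => shf_f H lam x (a + t * I)) := by
  obtain ⟨B, hB⟩ := shf_bound h hc hl hx
  have hi : Integrable (fun t : ℝ => B * Real.exp (-(lam / 2) * t ^ 2)) :=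
    (integrable_exp_neg_mul_sq (by linarith : 0 < lam / 2)).const_mul B
  have hcont : Continuous (fun t : ℝ => shf_f H lam x (a + t * I)) := by
    rw [continuous_iff_continuousAt]
    intro t
    have h3 : ContinuousAt (shf_f H lam x) (a + t * I) :=
      (shf_diff h hc hx _ (by simpa using h1) (by simpa using h2)).continuousAt
    exact ContinuousAt.comp (f := fun t : ℝ => ((a : ℂ) + t * I)) h3 (by fun_prop)
  refine hi.mono' hcont.aestronglyMeasurable (Filter.Eventually.of_forall ?_)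
  intro t
  have h3 := hB (a + t * I) (by simpa using h1) (by simpa using h2)
  simpa using h3

/-- SHF: inversion on the line `Re s = c` -/
theorem sm_line_pr {E : ℝ → ℂ} {H : ℂ → ℂ} {c : ℝ} (h : Rep E H c) (hc : 3 / 4 ≤ c) (hc1 : c ≤ 1)
    {lam x : ℝ} (hl : 0 < lam) (hx : 0 < x) :
    sm lam E x = ((1 / (2 * Real.pi) : ℝ) : ℂ) *
      ∫ t : ℝ, H (c + t * I) / (c + t * I) * gs lam c t * (x : ℂ) ^ ((c : ℂ) + t * I) := by
  obtain ⟨B, hB⟩ := shf_bound h hc hl hx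
  have hlim : Filter.Tendsto (fun T : ℝ => B * Real.exp (-(lam / 2) * T ^ 2)) Filter.atTop
      (nhds 0) := by
    have h3 : Filter.Tendsto (fun T : ℝ => Real.exp (-(lam / 2) * T ^ 2)) Filter.atTop
        (nhds 0) := by
      refine Real.tendsto_exp_atBot.comp ?_
      have h4 : Filter.Tendsto (fun T : ℝ => T ^ 2) Filter.atTop Filter.atTop :=
        Filter.tendsto_pow_atTop (by norm_num)
      exact h4.const_mul_atTop_of_neg (by linarith)
    simpa using h3.const_mul B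
  have key := ZP.shift_line (f := shf_f H lam x) (a := c) (b := 2) (by linarith)
    (fun z h1 h2 => shf_diff h hc hx z h1 h2) (fun T => B * Real.exp (-(lam / 2) * T ^ 2)) hlim
    (fun z h1 h2 _ => hB z h1 h2) (shf_int h hc hl hx c le_rfl (by linarith))
    (shf_int h hc hl hx 2 (by linarith) le_rfl)
  rw [sm_two h hl hx]
  congr 1
  have e1 : (fun t : ℝ => H (2 + t * I) / (2 + t * I) * gs lam 2 t * (x : ℂ) ^ ((2 : ℂ) + t * I)) =
      fun t : ℝ => shf_f H lam x ((2 : ℝ) + t * I) := by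
    funext t
    simp only [shf_f, gs, Complex.ofReal_ofNat]
  have e2 : (fun t : ℝ => H (c + t * I) / (c + t * I) * gs lam c t *
      (x : ℂ) ^ ((c : ℂ) + t * I)) = fun t : ℝ => shf_f H lam x (c + t * I) := by
    funext t
    simp only [shf_f, gs]
  rw [e1, e2]
  exact key.symm

end Pool.Agent.XS

namespace Pool.Agent.XS

/-- alias -/
theorem sm_line : type_of% @sm_line_pr := @sm_line_pr

end Pool.Agent.XS
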