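import Pool.Agent.Lib_helper26.XS.Defs
import Pool.Agent.Lib_helper26.XSF.SHF

/-! # XS, block PTW: pointwise bound for the smoothing -/

set_option autoImplicit false

namespace Pool.Agent.XS

open Finset Complex MeasureTheory Pool.Agent.Var35 Pool.Agent.Var73 Pool.Agent.HC Pool.Agent.MF

theorem ptw_pow (lam : ℝ) (hl : 0 < lam) (m : ℕ) (t : ℝ) :
    (1 + |t|) ^ m * Real.exp (-(lam * t ^ 2)) ≤
      Real.exp ((m : ℝ) ^ 2 / (2 * lam)) * Real.exp (-(lam / 2) * t ^ 2) := by
  have h1 : (1 + |t|) ^ m ≤ Real.exp (m * |t|) := by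
    rw [Real.exp_nat_mul]
    refine pow_le_pow_left₀ (by positivity) ?_ m
    have := Real.add_one_le_exp |t|
    linarith
  calc (1 + |t|) ^ m * Real.exp (-(lam * t ^ 2))
      ≤ Real.exp (m * |t|) * Real.exp (-(lam * t ^ 2)) := by gcongr
    _ = Real.exp (m * |t| - lam * t ^ 2) := by rw [← Real.exp_add]; ring_nf
    _ ≤ Real.exp ((m : ℝ) ^ 2 / (2 * lam) + -(lam / 2) * t ^ 2) := by
        apply Real.exp_le_exp.2
        have h2 : 0 ≤ ((m : ℝ) - lam * |t|) ^ 2 / (2 * lam) := by positivity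
        have h3 : ((m : ℝ) - lam * |t|) ^ 2 / (2 * lam) =
            (m : ℝ) ^ 2 / (2 * lam) - m * |t| + lam / 2 * t ^ 2 := by
          rw [← sq_abs t]
          field_simp
          ring
        rw [h3] at h2
        nlinarith
    _ = _ := Real.exp_add _ _

theorem ptw_cont {E : ℝ → ℂ} {H : ℂ → ℂ} {c : ℝ} (h : Rep E H c) (hc1 : c ≤ 1) :
    Continuous (nH H c) := by
  obtain ⟨c', hc', hd⟩ := h.diff
  have h1 : Continuous fun t : ℝ => H (c + t * I) := by
    rw [← continuousOn_univ]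
    refine hd.continuousOn.comp (by fun_prop) fun t _ => ?_
    show c' < ((c : ℂ) + t * I).re ∧ ((c : ℂ) + t * I).re < 3
    simp only [add_re, ofReal_re, mul_re, I_re, mul_zero, ofReal_im, I_im, mul_one, sub_self,
      add_zero]
    exact ⟨hc', by linarith⟩
  exact h1.norm

theorem ptw_int {E : ℝ → ℂ} {H : ℂ → ℂ} {c : ℝ} (h : Rep E H c) (hc1 : c ≤ 1)
    {lam : ℝ} (hl : 0 < lam) :
    Integrable fun t : ℝ => nH H c t / (1 + |t|) * Real.exp (-(lam * t ^ 2)) := by
  obtain ⟨A, m, hA⟩ := h.growth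
  have hcont := ptw_cont h hc1
  refine Integrable.mono' (g := fun t : ℝ => |A| * (Real.exp ((m : ℝ) ^ 2 / (2 * lam)) *
    Real.exp (-(lam / 2) * t ^ 2))) ?_ ?_ ?_
  · exact ((integrable_exp_neg_mul_sq (half_pos hl)).const_mul _).const_mul _
  · refine Continuous.aestronglyMeasurable ?_
    refine (hcont.div (by fun_prop) fun t => ?_).mul (by fun_prop)
    positivity
  · refine Filter.Eventually.of_forall fun t => ?_
    have h0 : 0 ≤ nH H c t := norm_nonneg _
    have h1 : nH H c t ≤ |A| * (1 + |t|) ^ m := by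
      have h2 := hA (c + t * I) (by simp) (by simp; linarith)
      have h3 : ((c : ℂ) + t * I).im = t := by simp
      rw [h3] at h2
      refine h2.trans ?_
      gcongr
      exact le_abs_self A
    have ht : 1 ≤ 1 + |t| := by
      have := abs_nonneg t
      linarith
    rw [Real.norm_of_nonneg (by positivity)]
    calc nH H c t / (1 + |t|) * Real.exp (-(lam * t ^ 2))
        ≤ nH H c t * Real.exp (-(lam * t ^ 2)) := by
          gcongr
          exact div_le_self h0 ht
      _ ≤ |A| * (1 + |t|) ^ m * Real.exp (-(lam * t ^ 2)) := by gcongr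
      _ = |A| * ((1 + |t|) ^ m * Real.exp (-(lam * t ^ 2))) := by ring
      _ ≤ _ := mul_le_mul_of_nonneg_left (ptw_pow lam hl m t) (abs_nonneg A)

/-- PTW: pointwise bound -/
theorem sm_ptw_pr {E : ℝ → ℂ} {H : ℂ → ℂ} {c : ℝ} (h : Rep E H c) (hc : 3 / 4 ≤ c) (hc1 : c ≤ 1)
    {lam x : ℝ} (hl : 0 < lam) (hl1 : lam ≤ 1) (hx : 0 < x) :
    ‖sm lam E x‖ ^ 2 ≤ 4 * x ^ (2 * c) * Q2 lam (nH H c) := by
  have hint := ptw_int h hc1 hl
  set J : ℝ := ∫ t : ℝ, nH H c t / (1 + |t|) * Real.exp (-(lam * t ^ 2)) with hJ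
  have hJ0 : 0 ≤ J := integral_nonneg fun t => by
    have h0 : 0 ≤ nH H c t := norm_nonneg _
    positivity
  have hxc : 0 < x ^ c := Real.rpow_pos_of_pos hx c
  have key : ‖∫ t : ℝ, H (c + t * I) / (c + t * I) * gs lam c t * (x : ℂ) ^ ((c : ℂ) + t * I)‖ ≤
      4 * Real.exp 1 * x ^ c * J := by
    rw [hJ, ← integral_const_mul]
    refine norm_integral_le_of_norm_le (hint.const_mul _) (Filter.Eventually.of_forall fun t => ?_)
    rw [norm_mul, norm_mul, norm_div]
    have e1 : ‖gs lam c t‖ = Real.exp (lam * (c ^ 2 - t ^ 2)) := by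
      unfold gs
      rw [Complex.norm_exp]
      congr 1
      simp only [mul_re, sq, add_re, ofReal_re, I_re, mul_zero, ofReal_im, I_im, mul_one,
        sub_self, add_zero, add_im, mul_im, zero_add, zero_mul, sub_zero]
    have e2 : ‖(x : ℂ) ^ ((c : ℂ) + t * I)‖ = x ^ c := by
      rw [Complex.norm_cpow_eq_rpow_re_of_pos hx]
      congr 1
      simp
    have e3 : (1 + |t|) / 4 ≤ ‖(c : ℂ) + t * I‖ := by
      have a1 : |c| ≤ ‖(c : ℂ) + t * I‖ := by
        have := Complex.abs_re_le_norm ((c : ℂ) + t * I)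
        simpa using this
      have a2 : |t| ≤ ‖(c : ℂ) + t * I‖ := by
        have := Complex.abs_im_le_norm ((c : ℂ) + t * I)
        simpa using this
      have a3 : c ≤ |c| := le_abs_self c
      have a4 := abs_nonneg t
      linarith
    have e4 : Real.exp (lam * (c ^ 2 - t ^ 2)) ≤ Real.exp 1 * Real.exp (-(lam * t ^ 2)) := by
      rw [← Real.exp_add]
      apply Real.exp_le_exp.2
      have : lam * c ^ 2 ≤ 1 * 1 := by
        refine mul_le_mul hl1 ?_ (by positivity) (by norm_num)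
        nlinarith
      nlinarith
    rw [e1, e2]
    have h0 : 0 ≤ nH H c t := norm_nonneg _
    have h4 := abs_nonneg t
    have e5 : ‖H (c + t * I)‖ / ‖(c : ℂ) + t * I‖ ≤ nH H c t / ((1 + |t|) / 4) := by
      show nH H c t / _ ≤ _
      exact div_le_div_of_nonneg_left h0 (by positivity) e3
    calc ‖H (c + t * I)‖ / ‖(c : ℂ) + t * I‖ * Real.exp (lam * (c ^ 2 - t ^ 2)) * x ^ c
        ≤ nH H c t / ((1 + |t|) / 4) * (Real.exp 1 * Real.exp (-(lam * t ^ 2))) * x ^ c := by
          gcongr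
      _ = 4 * Real.exp 1 * x ^ c * (nH H c t / (1 + |t|) * Real.exp (-(lam * t ^ 2))) := by
          field_simp
  have h1 : ‖sm lam E x‖ ≤ 2 * x ^ c * J := by
    rw [sm_line h hc hc1 hl hx, norm_mul, Complex.norm_real,
      Real.norm_of_nonneg (by positivity)]
    have hpi := Real.pi_gt_three
    have he := Real.exp_one_lt_d9
    calc 1 / (2 * Real.pi) * _ ≤ 1 / (2 * Real.pi) * (4 * Real.exp 1 * x ^ c * J) := by gcongr
      _ = (4 * Real.exp 1 / (2 * Real.pi)) * (x ^ c * J) := by ring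
      _ ≤ 2 * (x ^ c * J) := by
          gcongr
          rw [div_le_iff₀ (by positivity)]
          nlinarith
      _ = _ := by ring
  have h2 : Q2 lam (nH H c) = J ^ 2 := rfl
  have h3 : x ^ (2 * c) = (x ^ c) ^ 2 := by
    rw [mul_comm, Real.rpow_mul hx.le]
    norm_num
  rw [h2, h3]
  calc ‖sm lam E x‖ ^ 2 ≤ (2 * x ^ c * J) ^ 2 := by
        gcongr
    _ = _ := by ring

end Pool.Agent.XS

namespace Pool.Agent.XS

/-- alias -/
theorem sm_ptw : type_of% @sm_ptw_pr := @sm_ptw_pr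

end Pool.Agent.XS
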