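import Pool.Agent.Lib_helper26.XS.Defs
import Pool.Agent.Lib_helper26.XSF.LLB
import Pool.Agent.Lib_helper98.GAF.Lcs

set_option autoImplicit false

namespace Pool.Agent.XS

open Finset Complex MeasureTheory Pool.Agent.Var35 Pool.Agent.Var73 Pool.Agent.HC Pool.Agent.MF
open scoped ArithmeticFunction ArithmeticFunction.Moebius

/-- the coefficients -/
noncomputable def rpa_b (z : ℕ) {q : ℕ} (χ : DirichletCharacter ℂ q) (n : ℕ) : ℂ :=
  (Lam n : ℂ) * χ (n : ZMod q) - (cI z n : ℂ) * χ (n : ZMod q)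

theorem rpa_E2 (z : ℕ) {q : ℕ} {χ : DirichletCharacter ℂ q} (hχ : χ ≠ 1) (x : ℝ) :
    E2 z χ x = ∑ n ∈ Icc 1 ⌊x⌋₊, rpa_b z χ n := by
  unfold E2 E0 EI EE rpa_b
  rw [if_neg hχ, if_neg hχ, sum_sub_distrib, sub_zero]
  by_cases hx : x < 1
  · rw [if_pos hx, Nat.floor_eq_zero.mpr hx]
    simp
  · rw [if_neg hx]

/-! ### the Dirichlet series -/

theorem rpa_lam {q : ℕ} [NeZero q] (χ : DirichletCharacter ℂ q) {s : ℂ} (hs : 1 < s.re) :
    LSeriesSummable (fun n => (Lam n : ℂ) * χ (n : ZMod q)) s ∧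
      LSeries (fun n => (Lam n : ℂ) * χ (n : ZMod q)) s = -logDeriv (GA.LF χ) s := by
  have h1 := GA.Gj_summable χ 0 hs
  have h2 := GA.LF_deriv χ 0 hs
  rw [iteratedDeriv_zero] at h2
  unfold GA.Gj at h2
  simp only [pow_zero, Complex.ofReal_one, mul_one, one_mul] at h1 h2
  refine ⟨h1, ?_⟩
  rw [h2, neg_neg]

theorem rpa_deriv {q : ℕ} [NeZero q] (χ : DirichletCharacter ℂ q) {s : ℂ} (hs : 1 < s.re) :
    LSeriesSummable (LSeries.logMul (fun n => χ (n : ZMod q))) s ∧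
      LSeries (LSeries.logMul (fun n => χ (n : ZMod q))) s = -deriv (GA.LF χ) s := by
  have h1 : LSeries.abscissaOfAbsConv (fun n : ℕ => χ (n : ZMod q)) < s.re :=
    lt_of_le_of_lt (LSeries.abscissaOfAbsConv_le_of_forall_lt_LSeriesSummable fun y hy =>
      DirichletCharacter.LSeriesSummable_of_one_lt_re χ (by simpa using hy)) (by exact_mod_cast hs)
  refine ⟨LSeriesSummable_logMul_of_lt_re h1, ?_⟩
  have h2 := LSeries_deriv h1
  have h3 : GA.LF χ =ᶠ[nhds s] LSeries (fun n => χ (n : ZMod q)) := by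
    filter_upwards [(isOpen_lt continuous_const Complex.continuous_re).mem_nhds hs] with w hw
    exact GA.LF_eq_LS χ hw
  rw [h3.deriv_eq, h2, neg_neg]

/-- the coefficients of the mollifier -/
noncomputable def rpa_m (z : ℕ) {q : ℕ} (χ : DirichletCharacter ℂ q) (n : ℕ) : ℂ :=
  if n ≤ z then (μ n : ℂ) * χ (n : ZMod q) else 0

theorem rpa_moll (z : ℕ) {q : ℕ} (χ : DirichletCharacter ℂ q) (s : ℂ) :
    LSeriesSummable (rpa_m z χ) s ∧ LSeries (rpa_m z χ) s = MM z χ s := by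
  have h0 : ∀ n ∉ Icc 1 z, LSeries.term (rpa_m z χ) s n = 0 := by
    intro n hn
    rcases Nat.eq_zero_or_pos n with rfl | hpos
    · simp
    · rw [LSeries.term_of_ne_zero hpos.ne']
      have : ¬ n ≤ z := fun h => hn (mem_Icc.mpr ⟨hpos, h⟩)
      rw [rpa_m, if_neg this, zero_div]
  refine ⟨summable_of_ne_finset_zero h0, ?_⟩
  unfold LSeries MM
  rw [tsum_eq_sum h0]
  refine sum_congr rfl fun n hn => ?_
  obtain ⟨hn1, hn2⟩ := mem_Icc.mp hn
  rw [LSeries.term_of_ne_zero (by omega), rpa_m, if_pos hn2, Complex.cpow_neg]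
  rfl

theorem rpa_conv (z : ℕ) {q : ℕ} (χ : DirichletCharacter ℂ q) :
    LSeries.convolution (rpa_m z χ) (LSeries.logMul (fun n => χ (n : ZMod q))) =
      fun n => (cI z n : ℂ) * χ (n : ZMod q) := by
  funext n
  rw [LSeries.convolution_def]
  simp only
  have h1 : ∀ p ∈ n.divisorsAntidiagonal,
      rpa_m z χ p.1 * LSeries.logMul (fun n => χ (n : ZMod q)) p.2 =
        (if p.1 ≤ z then ((μ p.1 : ℝ) * Real.log ((n / p.1 : ℕ) : ℝ) : ℝ) else (0 : ℝ) : ℂ) *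
          χ (n : ZMod q) := by
    intro p hp
    obtain ⟨hp1, hp2⟩ := Nat.mem_divisorsAntidiagonal.mp hp
    have h2 : n / p.1 = p.2 := by
      rw [← hp1]
      exact Nat.mul_div_cancel_left _ (Nat.pos_of_ne_zero (by rintro h; simp [h] at hp1; omega))
    unfold rpa_m
    split_ifs with h
    · rw [h2, LSeries.logMul, ← hp1]
      push_cast
      rw [map_mul]
      ring
    · simp
  rw [sum_congr rfl h1, ← sum_mul]
  congr 1
  unfold cI
  rw [Nat.sum_divisorsAntidiagonal (fun i j => (if i ≤ z then ((μ i : ℝ) *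
    Real.log ((n / i : ℕ) : ℝ) : ℝ) else (0 : ℝ) : ℂ)), sum_filter]
  push_cast
  refine sum_congr rfl fun d _ => ?_
  split_ifs <;> simp

theorem rpa_series (z : ℕ) {q : ℕ} [NeZero q] {χ : DirichletCharacter ℂ q} (hχ : χ ≠ 1) {s : ℂ}
    (hs : 1 < s.re) : LSeriesSummable (rpa_b z χ) s ∧ LSeries (rpa_b z χ) s = KK z χ s := by
  obtain ⟨a1, a2⟩ := rpa_lam χ hs
  obtain ⟨b1, b2⟩ := rpa_deriv χ hs
  obtain ⟨c1, c2⟩ := rpa_moll z χ s
  have d1 := c1.convolution b1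
  have d2 := LSeries_convolution' c1 b1
  rw [rpa_conv] at d1 d2
  have e : rpa_b z χ = (fun n => (Lam n : ℂ) * χ (n : ZMod q)) -
      fun n => (cI z n : ℂ) * χ (n : ZMod q) := rfl
  rw [e]
  refine ⟨a1.sub d1, ?_⟩
  rw [LSeries_sub a1 d1, a2, d2, b2, c2]
  unfold KK
  rw [if_neg hχ]
  have h1 : GA.LF χ s ≠ 0 := GA.LF_ne_zero hχ hs.le
  rw [logDeriv_apply]
  field_simp
  ring

/-! ### estimates -/

theorem rpa_cI (z n : ℕ) (hn : 1 ≤ n) : |cI z n| ≤ z * Real.log n := by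
  unfold cI
  refine (abs_sum_le_sum_abs _ _).trans ?_
  have h1 : ∀ d ∈ n.divisors.filter (fun d => d ≤ z),
      |(μ d : ℝ) * Real.log ((n / d : ℕ) : ℝ)| ≤ Real.log n := by
    intro d hd
    obtain ⟨hd1, -⟩ := mem_filter.mp hd
    have hdn := Nat.dvd_of_mem_divisors hd1
    have hd0 : 0 < d := Nat.pos_of_mem_divisors hd1
    have h2 : 1 ≤ n / d := Nat.div_pos (Nat.le_of_dvd (by omega) hdn) hd0
    have h3 : n / d ≤ n := Nat.div_le_self n d
    have h4 : (1 : ℝ) ≤ ((n / d : ℕ) : ℝ) := by exact_mod_cast h2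
    have h5 : ((n / d : ℕ) : ℝ) ≤ n := by exact_mod_cast h3
    rw [abs_mul, abs_of_nonneg (Real.log_nonneg h4)]
    have h6 : |(μ d : ℝ)| ≤ 1 := by
      have := ArithmeticFunction.abs_moebius_le_one (n := d)
      exact_mod_cast this
    calc |(μ d : ℝ)| * Real.log ((n / d : ℕ) : ℝ) ≤ 1 * Real.log ((n / d : ℕ) : ℝ) :=
          mul_le_mul_of_nonneg_right h6 (Real.log_nonneg h4)
      _ ≤ Real.log n := by
          rw [one_mul]
          exact Real.log_le_log (by linarith) h5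
  refine (sum_le_card_nsmul _ _ _ h1).trans ?_
  rw [nsmul_eq_mul]
  refine mul_le_mul_of_nonneg_right ?_ (Real.log_nonneg (by exact_mod_cast hn))
  have h2 : n.divisors.filter (fun d => d ≤ z) ⊆ Icc 1 z := by
    intro d hd
    obtain ⟨hd1, hd2⟩ := mem_filter.mp hd
    exact mem_Icc.mpr ⟨Nat.pos_of_mem_divisors hd1, hd2⟩
  have h3 := card_le_card h2
  rw [Nat.card_Icc] at h3
  have h4 : #(n.divisors.filter (fun d => d ≤ z)) ≤ z := by omega
  exact_mod_cast h4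

theorem rpa_norm (z : ℕ) {q : ℕ} (χ : DirichletCharacter ℂ q) (n : ℕ) (hn : 1 ≤ n) :
    ‖rpa_b z χ n‖ ≤ (1 + z) * Real.log n := by
  unfold rpa_b
  have h1 : ‖χ (n : ZMod q)‖ ≤ 1 := DirichletCharacter.norm_le_one χ _
  have h2 : ‖(Lam n : ℂ)‖ ≤ Real.log n := by
    rw [Complex.norm_real, Real.norm_eq_abs, abs_of_nonneg ArithmeticFunction.vonMangoldt_nonneg]
    exact ArithmeticFunction.vonMangoldt_le_log
  have h3 : ‖(cI z n : ℂ)‖ ≤ z * Real.log n := by
    rw [Complex.norm_real, Real.norm_eq_abs]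
    exact rpa_cI z n hn
  refine (norm_sub_le _ _).trans ?_
  rw [norm_mul, norm_mul]
  have h4 : ‖(Lam n : ℂ)‖ * ‖χ (n : ZMod q)‖ ≤ Real.log n :=
    (mul_le_of_le_one_right (norm_nonneg _) h1).trans h2
  have h5 : ‖(cI z n : ℂ)‖ * ‖χ (n : ZMod q)‖ ≤ z * Real.log n :=
    (mul_le_of_le_one_right (norm_nonneg _) h1).trans h3
  linarith

theorem rpa_sum (z : ℕ) {q : ℕ} (χ : DirichletCharacter ℂ q) (x : ℝ) (hx : 1 ≤ x) :
    ‖∑ n ∈ Icc 1 ⌊x⌋₊, rpa_b z χ n‖ ≤ (2 * (1 + z)) * x ^ (3 / 2 : ℝ) := by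
  have hx0 : 0 < x := by linarith
  refine (norm_sum_le _ _).trans ?_
  have h1 : ∀ n ∈ Icc 1 ⌊x⌋₊, ‖rpa_b z χ n‖ ≤ (1 + z) * (2 * x ^ (1 / 2 : ℝ)) := by
    intro n hn
    obtain ⟨hn1, hn2⟩ := mem_Icc.mp hn
    refine (rpa_norm z χ n hn1).trans (mul_le_mul_of_nonneg_left ?_ (by positivity))
    have h2 : (n : ℝ) ≤ x := (Nat.cast_le.mpr hn2).trans (Nat.floor_le hx0.le)
    have h3 : (0 : ℝ) < n := by exact_mod_cast hn1
    refine (Real.log_le_log h3 h2).trans ?_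
    have h4 := Real.log_le_rpow_div hx0.le (show (0 : ℝ) < 1 / 2 by norm_num)
    linarith
  refine (sum_le_card_nsmul _ _ _ h1).trans ?_
  rw [nsmul_eq_mul, Nat.card_Icc, Nat.add_sub_cancel]
  have h5 : ((⌊x⌋₊ : ℕ) : ℝ) ≤ x := Nat.floor_le hx0.le
  have h6 : x ^ (3 / 2 : ℝ) = x * x ^ (1 / 2 : ℝ) := by
    rw [show (3 / 2 : ℝ) = 1 + 1 / 2 by norm_num, Real.rpow_add hx0, Real.rpow_one]
  rw [h6]
  have h7 : 0 ≤ x ^ (1 / 2 : ℝ) := by positivity
  calc ((⌊x⌋₊ : ℕ) : ℝ) * ((1 + z) * (2 * x ^ (1 / 2 : ℝ)))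
      ≤ x * ((1 + z) * (2 * x ^ (1 / 2 : ℝ))) := mul_le_mul_of_nonneg_right h5 (by positivity)
    _ = (2 * (1 + z)) * (x * x ^ (1 / 2 : ℝ)) := by ring

theorem rpa_loc {x : ℝ} (hx : ∀ n : ℕ, x ≠ n) : ∀ᶠ y in nhds x, ⌊y⌋₊ = ⌊x⌋₊ := by
  rcases lt_or_ge x 0 with h | h
  · filter_upwards [Iio_mem_nhds h] with y hy
    rw [Nat.floor_of_nonpos (le_of_lt hy), Nat.floor_of_nonpos h.le]
  · have h1 : ((⌊x⌋₊ : ℕ) : ℝ) < x := lt_of_le_of_ne (Nat.floor_le h) (hx _).symm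
    have h2 : x < (⌊x⌋₊ : ℕ) + 1 := Nat.lt_floor_add_one x
    filter_upwards [Ioo_mem_nhds h1 h2] with y hy
    exact (Nat.floor_eq_iff (le_trans (Nat.cast_nonneg _) hy.1.le)).mpr ⟨hy.1.le, hy.2⟩

theorem rpa_mollbound (z : ℕ) {q : ℕ} (χ : DirichletCharacter ℂ q) {s : ℂ} (hs : 0 ≤ s.re) :
    ‖MM z χ s‖ ≤ z := by
  unfold MM
  refine (norm_sum_le _ _).trans ?_
  have h1 : ∀ n ∈ Icc 1 z, ‖(μ n : ℂ) * χ (n : ZMod q) * (n : ℂ) ^ (-s)‖ ≤ 1 := by
    intro n hn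
    obtain ⟨hn1, -⟩ := mem_Icc.mp hn
    rw [norm_mul, norm_mul, Complex.norm_natCast_cpow_of_pos (by omega)]
    have h2 : ‖χ (n : ZMod q)‖ ≤ 1 := DirichletCharacter.norm_le_one χ _
    have h3 : ‖(μ n : ℂ)‖ ≤ 1 := by
      rw [Complex.norm_intCast]
      have := ArithmeticFunction.abs_moebius_le_one (n := n)
      exact_mod_cast this
    have h4 : (n : ℝ) ^ (-s).re ≤ 1 := by
      refine Real.rpow_le_one_of_one_le_of_nonpos (by exact_mod_cast hn1) ?_
      simpa using hs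
    have h5 : 0 ≤ (n : ℝ) ^ (-s).re := by positivity
    calc ‖(μ n : ℂ)‖ * ‖χ (n : ZMod q)‖ * (n : ℝ) ^ (-s).re ≤ 1 * 1 * 1 :=
          mul_le_mul (mul_le_mul h3 h2 (norm_nonneg _) zero_le_one) h4 h5 (by norm_num)
      _ = 1 := by norm_num
  refine (sum_le_card_nsmul _ _ _ h1).trans ?_
  rw [nsmul_eq_mul, Nat.card_Icc, Nat.add_sub_cancel, mul_one]

theorem rpa_molldiff (z : ℕ) {q : ℕ} (χ : DirichletCharacter ℂ q) : Differentiable ℂ (MM z χ) := by
  unfold MM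
  refine Differentiable.fun_sum fun n hn => ?_
  obtain ⟨hn1, -⟩ := mem_Icc.mp hn
  have h0 : (n : ℂ) ≠ 0 := by exact_mod_cast (by omega : n ≠ 0)
  exact (differentiable_const _).mul ((differentiable_id.neg).const_cpow (Or.inl h0))

/-- RPA: nontrivial characters -/
theorem rep_chi_pr {θ c : ℝ} (hθ : 1 / 2 ≤ θ) (h : ZF θ) (hc : θ < c) (hc1 : c < 1) (r z : ℕ)
    (hr : 2 ≤ r) (χ : DirichletCharacter ℂ r) (hχ : χ ∈ Pr r) : Rep (E2 z χ) (KK z χ) c := by
  have hr0 : NeZero r := ⟨by omega⟩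
  have hne : χ ≠ 1 := by
    rintro rfl
    classical
    have h1 : (1 : DirichletCharacter ℂ r).IsPrimitive := by
      unfold Pr at hχ
      exact (mem_filter.mp hχ).2
    rw [DirichletCharacter.isPrimitive_def, DirichletCharacter.conductor_one] at h1
    omega
  have hE : E2 z χ = fun x => ∑ n ∈ Icc 1 ⌊x⌋₊, rpa_b z χ n := funext (rpa_E2 z hne)
  refine ⟨?_, ?_, ?_, ?_, ?_, ?_, ?_⟩
  · rw [hE]
    exact (measurable_from_nat (f := fun N : ℕ => ∑ n ∈ Icc 1 N, rpa_b z χ n)).comp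
      Nat.measurable_floor
  · intro x hx
    rw [hE]
    refine ContinuousAt.congr (f := fun _ => ∑ n ∈ Icc 1 ⌊x⌋₊, rpa_b z χ n) continuousAt_const ?_
    filter_upwards [rpa_loc hx] with y hy
    rw [hy]
  · intro x hx
    rw [rpa_E2 z hne, Nat.floor_eq_zero.mpr hx]
    simp
  · refine ⟨2 * (1 + z), fun x hx => ?_⟩
    rw [rpa_E2 z hne]
    exact rpa_sum z χ x hx
  · intro t
    have hs : (1 : ℝ) < (2 + t * I : ℂ).re := by simp
    obtain ⟨h1, h2⟩ := rpa_series z hne hs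
    have h3 := LSeries_eq_mul_integral (rpa_b z χ) (r := 3 / 2) (by norm_num)
      (s := 2 + t * I) (by simp; norm_num) h1 ?_
    · rw [h2] at h3
      have h4 : (2 + t * I : ℂ) ≠ 0 := by
        intro h0
        have := congrArg Complex.re h0
        simp at this
      rw [h3, mul_div_cancel_left₀ _ h4]
      refine integral_congr_ae (Filter.Eventually.of_forall fun x => ?_)
      simp only
      rw [rpa_E2 z hne]
      congr 2
      ring
    · refine Asymptotics.IsBigO.of_bound (2 * (1 + z)) ?_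
      filter_upwards [Filter.eventually_ge_atTop 1] with n hn
      have h5 := rpa_sum z χ n (by exact_mod_cast hn)
      rw [Nat.floor_natCast] at h5
      refine h5.trans (le_of_eq ?_)
      rw [Real.norm_eq_abs, abs_of_nonneg (by positivity)]
  · refine ⟨θ, hc, ?_⟩
    intro s hs
    have hs1 : θ < s.re := hs.1
    have hL : GA.LF χ s ≠ 0 := by
      rcases eq_or_ne s 1 with rfl | h1
      · exact GA.LF_ne_zero hne (by simp)
      · rw [GA.LF_eq]
        exact h r χ s hs1 h1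
    have hd : Differentiable ℂ (GA.LF χ) := GA.LF_diff hne
    have hKK : KK z χ = fun s => -logDeriv (GA.LF χ) s * (1 - GA.LF χ s * MM z χ s) := by
      funext s
      unfold KK
      rw [if_neg hne]
    rw [hKK]
    have hdd : DifferentiableAt ℂ (logDeriv (GA.LF χ)) s := by
      have h2 : DifferentiableAt ℂ (deriv (GA.LF χ)) s :=
        ((hd.analyticAt s).deriv).differentiableAt
      exact h2.div (hd s) hL
    exact (hdd.neg.mul ((differentiableAt_const _).sub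
      ((hd s).mul (rpa_molldiff z χ s)))).differentiableWithinAt
  · obtain ⟨C1, hC1, h1⟩ := ldlog hθ h hc
    obtain ⟨C2, hC2, h2⟩ := GA.LF_growth
    refine ⟨C1 * (2 * r) * (1 + C2 * r * 2 * z), 2, fun s hs1 hs2 => ?_⟩
    have a1 := h1 r χ hne s hs1 hs2
    have a2 := h2 r χ hne s (by linarith)
    have a3 := rpa_mollbound z χ (s := s) (by linarith)
    unfold KK
    rw [if_neg hne, norm_mul, norm_neg]
    set T := |s.im| with hT
    have hT0 : 0 ≤ T := abs_nonneg _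
    have hr1 : (2 : ℝ) ≤ r := by exact_mod_cast hr
    have b1 : ‖logDeriv (GA.LF χ) s‖ ≤ C1 * (2 * r) * (1 + T) := by
      refine a1.trans ?_
      have h3 : Real.log (r * (T + 2)) ≤ r * (T + 2) := by
        have := Real.log_le_sub_one_of_pos (x := r * (T + 2)) (by positivity)
        linarith
      have h4 : (r : ℝ) * (T + 2) ≤ 2 * r * (1 + T) := by nlinarith
      calc C1 * Real.log (r * (T + 2)) ≤ C1 * (2 * r * (1 + T)) :=
            mul_le_mul_of_nonneg_left (h3.trans h4) (by linarith)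
        _ = C1 * (2 * r) * (1 + T) := by ring
    have b2 : ‖1 - GA.LF χ s * MM z χ s‖ ≤ (1 + C2 * r * 2 * z) * (1 + T) := by
      refine (norm_sub_le _ _).trans ?_
      rw [norm_one, norm_mul]
      have h5 : ‖GA.LF χ s‖ * ‖MM z χ s‖ ≤ (C2 * r * (T + 2)) * z :=
        mul_le_mul a2 a3 (norm_nonneg _) (by positivity)
      have h6 : (C2 * r * (T + 2)) * z ≤ (C2 * r * 2 * z) * (1 + T) := by
        have : 0 ≤ C2 * r * z * T := by positivity
        nlinarith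
      nlinarith
    have b3 : 0 ≤ C1 * (2 * r) * (1 + T) := by positivity
    calc ‖logDeriv (GA.LF χ) s‖ * ‖1 - GA.LF χ s * MM z χ s‖
        ≤ (C1 * (2 * r) * (1 + T)) * ((1 + C2 * r * 2 * z) * (1 + T)) :=
          mul_le_mul b1 b2 (norm_nonneg _) b3
      _ = C1 * (2 * r) * (1 + C2 * r * 2 * z) * (1 + T) ^ 2 := by ring

end Pool.Agent.XS

namespace Pool.Agent.XS

/-- alias -/
theorem rep_chi : type_of% @rep_chi_pr := @rep_chi_pr

end Pool.Agent.XS
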