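import Pool.Agent.Lib_helper26.XS.Defs
import Pool.Agent.Lib_helper26.XSF.ZLB

/-! # XS, block RPZ: the Mellin transform of `ψ(x) - x` -/

set_option autoImplicit false

namespace Pool.Agent.XS

open Finset Complex MeasureTheory Pool.Agent.Var35 Pool.Agent.Var73 Pool.Agent.HC Pool.Agent.MF
open scoped ArithmeticFunction ArithmeticFunction.Moebius

/-- `ψ(x)` as a complex number -/
noncomputable def RPZ_psi (x : ℝ) : ℂ := ∑ n ∈ Icc 1 ⌊x⌋₊, (Lam n : ℂ)

theorem RPZ_psi_eq (x : ℝ) : RPZ_psi x = ((Chebyshev.psi x : ℝ) : ℂ) := by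
  unfold RPZ_psi Chebyshev.psi
  push_cast
  rfl

theorem RPZ_E2 (z : ℕ) (χ : DirichletCharacter ℂ 1) (x : ℝ) :
    E2 z χ x = if x < 1 then 0 else RPZ_psi x - x := by
  have hχ : χ = 1 := Subsingleton.elim _ _
  subst hχ
  have h1 : ∀ n : ℕ, (1 : DirichletCharacter ℂ 1) (n : ZMod 1) = 1 := fun n =>
    MulChar.one_apply (isUnit_of_subsingleton _)
  unfold E2 E0 EE EI RPZ_psi
  simp only [if_true, sub_zero, h1, mul_one]

theorem RPZ_norm {x : ℝ} (hx : 0 ≤ x) : ‖RPZ_psi x‖ ≤ (Real.log 4 + 4) * x := by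
  rw [RPZ_psi_eq, Complex.norm_real, Real.norm_eq_abs, abs_of_nonneg (Chebyshev.psi_nonneg x)]
  exact Chebyshev.psi_le_const_mul_self hx

theorem RPZ_meas : Measurable RPZ_psi := by
  have h : Measurable (fun m : ℕ => ∑ n ∈ Icc 1 m, (Lam n : ℂ)) := measurable_from_top
  exact h.comp Nat.measurable_floor

theorem RPZ_ld {s : ℂ} (hs : 1 < s.re) :
    -deriv riemannZeta s / riemannZeta s = 1 / (s - 1) - logDeriv riemannZeta₁ s := by
  have hs1 : s ≠ 1 := fun h => by rw [h] at hs; simp at hs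
  have hs1' : s - 1 ≠ 0 := sub_ne_zero.2 hs1
  have hz : riemannZeta s ≠ 0 := riemannZeta_ne_zero_of_one_lt_re hs
  have e1 := riemannZeta_eq_inv_sub_mul hs1
  have e2 := deriv_riemannZeta_eq_neg_inv_sub_sq_mul_add hs1
  have hz1 : riemannZeta₁ s ≠ 0 := by
    intro h
    rw [h, mul_zero] at e1
    exact hz e1
  rw [e1, e2, logDeriv_apply]
  field_simp
  ring

theorem RPZ_mellin (t : ℝ) :
    ∫ x in Set.Ioi (1 : ℝ), (RPZ_psi x - x) * (x : ℂ) ^ (-(3 + t * I) : ℂ) =
      (-logDeriv riemannZeta₁ (2 + t * I) - 1) / (2 + t * I) := by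
  set s : ℂ := 2 + t * I with hs
  have hsre : s.re = 2 := by simp [hs]
  have e3 : (-(3 + t * I) : ℂ) = -(s + 1) := by rw [hs]; ring
  rw [e3]
  have hs0 : s ≠ 0 := fun h => by rw [h] at hsre; simp at hsre
  have hs1 : s ≠ 1 := fun h => by rw [h] at hsre; norm_num at hsre
  have hs1' : s - 1 ≠ 0 := sub_ne_zero.2 hs1
  have hnorm : ∀ x ∈ Set.Ioi (1 : ℝ), ‖(x : ℂ) ^ (-(s + 1))‖ = x ^ (-3 : ℝ) := by
    intro x hx
    have hx0 : 0 < x := lt_trans one_pos hx
    rw [Complex.norm_cpow_eq_rpow_re_of_pos hx0]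
    congr 1
    rw [neg_re, add_re, hsre, one_re]
    norm_num
  have hmeasp : AEStronglyMeasurable (fun x : ℝ => (x : ℂ) ^ (-(s + 1)))
      (volume.restrict (Set.Ioi 1)) := by
    refine ContinuousOn.aestronglyMeasurable ?_ measurableSet_Ioi
    intro x hx
    have hx0 : (0 : ℝ) < x := lt_trans one_pos hx
    exact (continuousAt_ofReal_cpow_const x _ (Or.inr hx0.ne')).continuousWithinAt
  have hint : IntegrableOn (fun x : ℝ => x ^ (-2 : ℝ)) (Set.Ioi 1) volume :=
    integrableOn_Ioi_rpow_of_lt (by norm_num) one_pos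
  have hi1 : IntegrableOn (fun x : ℝ => RPZ_psi x * (x : ℂ) ^ (-(s + 1))) (Set.Ioi 1) volume := by
    refine Integrable.mono' (hint.const_mul (Real.log 4 + 4))
      (RPZ_meas.aestronglyMeasurable.mul hmeasp) ?_
    refine (ae_restrict_iff' measurableSet_Ioi).2 (Filter.Eventually.of_forall fun x hx => ?_)
    have hx0 : (0 : ℝ) < x := lt_trans one_pos hx
    rw [norm_mul, hnorm x hx]
    have e : x ^ (-2 : ℝ) = x * x ^ (-3 : ℝ) := by
      nth_rewrite 2 [← Real.rpow_one x]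
      rw [← Real.rpow_add hx0]
      norm_num
    rw [e, ← mul_assoc]
    exact mul_le_mul_of_nonneg_right (RPZ_norm hx0.le) (Real.rpow_nonneg hx0.le _)
  have hpow : ∀ x ∈ Set.Ioi (1 : ℝ), (x : ℂ) * (x : ℂ) ^ (-(s + 1)) = (x : ℂ) ^ (-s) := by
    intro x hx
    have hx0 : (x : ℂ) ≠ 0 := by
      have : (0 : ℝ) < x := lt_trans one_pos hx
      exact_mod_cast this.ne'
    nth_rewrite 1 [← Complex.cpow_one (x : ℂ)]
    rw [← Complex.cpow_add _ _ hx0]
    congr 1
    ring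
  have hi2' : IntegrableOn (fun x : ℝ => (x : ℂ) ^ (-s)) (Set.Ioi 1) volume :=
    integrableOn_Ioi_cpow_of_lt (by rw [neg_re, hsre]; norm_num) one_pos
  have hi2 : IntegrableOn (fun x : ℝ => (x : ℂ) * (x : ℂ) ^ (-(s + 1))) (Set.Ioi 1) volume :=
    (integrableOn_congr_fun hpow measurableSet_Ioi).2 hi2'
  have h1 : ∫ x in Set.Ioi (1 : ℝ), RPZ_psi x * (x : ℂ) ^ (-(s + 1)) =
      (1 / (s - 1) - logDeriv riemannZeta₁ s) / s := by
    have hO : (fun n : ℕ => ∑ k ∈ Icc 1 n, Lam k) =O[Filter.atTop] fun n => (n : ℝ) ^ (1 : ℝ) := by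
      refine Asymptotics.IsBigO.of_bound (Real.log 4 + 4) (Filter.Eventually.of_forall fun n => ?_)
      have hn := RPZ_norm (x := n) (Nat.cast_nonneg n)
      have e : RPZ_psi n = ((∑ k ∈ Icc 1 n, Lam k : ℝ) : ℂ) := by
        unfold RPZ_psi
        rw [Nat.floor_natCast]
        push_cast
        rfl
      rw [e, Complex.norm_real] at hn
      rw [Real.rpow_one, Real.norm_of_nonneg (Nat.cast_nonneg n : (0 : ℝ) ≤ n)]
      exact hn
    have h := LSeries_eq_mul_integral_of_nonneg (fun n => Lam n) (r := 1) zero_le_one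
      (s := s) (by rw [hsre]; norm_num) hO (fun n => ArithmeticFunction.vonMangoldt_nonneg)
    have h2 := ArithmeticFunction.LSeries_vonMangoldt_eq_deriv_riemannZeta_div (s := s)
      (by rw [hsre]; norm_num)
    rw [RPZ_ld (by rw [hsre]; norm_num)] at h2
    have h3 : (1 / (s - 1) - logDeriv riemannZeta₁ s) =
        s * ∫ x in Set.Ioi (1 : ℝ), RPZ_psi x * (x : ℂ) ^ (-(s + 1)) := by
      rw [← h2]
      exact h
    rw [h3, mul_div_cancel_left₀ _ hs0]
  have h2 : ∫ x in Set.Ioi (1 : ℝ), (x : ℂ) * (x : ℂ) ^ (-(s + 1)) = 1 / (s - 1) := by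
    rw [setIntegral_congr_fun measurableSet_Ioi hpow,
      integral_Ioi_cpow_of_lt (by rw [neg_re, hsre]; norm_num) one_pos]
    rw [ofReal_one, one_cpow]
    have e : -s + 1 = -(s - 1) := by ring
    rw [e, neg_div_neg_eq]
  have h3 : ∀ x : ℝ, (RPZ_psi x - x) * (x : ℂ) ^ (-(s + 1)) =
      RPZ_psi x * (x : ℂ) ^ (-(s + 1)) - (x : ℂ) * (x : ℂ) ^ (-(s + 1)) := fun x => by ring
  simp_rw [h3]
  rw [integral_sub hi1 hi2, h1, h2]
  field_simp
  ring

theorem RPZ_ne {θ : ℝ} (h : ZF θ) {s : ℂ} (hs : θ < s.re) : riemannZeta₁ s ≠ 0 := by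
  by_cases hs1 : s = 1
  · rw [hs1, riemannZeta₁_one]
    exact one_ne_zero
  · have h1 := h 1 (1 : DirichletCharacter ℂ 1) s hs hs1
    rw [DirichletCharacter.LFunction_modOne_eq, riemannZeta_eq_inv_sub_mul hs1] at h1
    exact right_ne_zero_of_mul h1

/-- RPZ: the trivial character -/
theorem rep_one_pr {θ c : ℝ} (hθ : 1 / 2 ≤ θ) (h : ZF θ) (hc : θ < c) (hc1 : c < 1) (z : ℕ)
    (χ : DirichletCharacter ℂ 1) : Rep (E2 z χ) (KK z χ) c := by
  have hχ : χ = 1 := Subsingleton.elim _ _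
  have hE : E2 z χ = fun x => if x < 1 then 0 else RPZ_psi x - x := funext (RPZ_E2 z χ)
  have hK : KK z χ = fun s => -logDeriv riemannZeta₁ s - 1 := by
    funext s
    unfold KK
    rw [if_pos hχ]
  rw [hE, hK]
  constructor
  · exact Measurable.ite measurableSet_Iio measurable_const
      (RPZ_meas.sub Complex.measurable_ofReal)
  · intro x hx
    rcases lt_or_ge x 1 with h1 | h1
    · have he : (fun x : ℝ => if x < 1 then (0 : ℂ) else RPZ_psi x - x) =ᶠ[nhds x] fun _ => 0 := by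
        filter_upwards [isOpen_Iio.mem_nhds h1] with y hy
        exact if_pos hy
      exact continuousAt_const.congr he.symm
    · have h1' : 1 < x := lt_of_le_of_ne h1 (fun e => hx 1 (by rw [← e]; norm_num))
      have hx0 : 0 ≤ x := by linarith
      have hfl : (⌊x⌋₊ : ℝ) < x := lt_of_le_of_ne (Nat.floor_le hx0) (fun e => hx _ e.symm)
      have he : (fun x : ℝ => if x < 1 then (0 : ℂ) else RPZ_psi x - x) =ᶠ[nhds x]
          fun y => ∑ n ∈ Icc 1 ⌊x⌋₊, (Lam n : ℂ) - (y : ℂ) := by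
        filter_upwards [isOpen_Ioi.mem_nhds h1', isOpen_Ioi.mem_nhds hfl,
          isOpen_Iio.mem_nhds (Nat.lt_floor_add_one x)] with y hy1 hy2 hy3
        have hy1' : (1 : ℝ) < y := hy1
        have hy2' : (⌊x⌋₊ : ℝ) < y := hy2
        have hy3' : y < ⌊x⌋₊ + 1 := hy3
        rw [if_neg (not_lt.2 hy1'.le)]
        have : ⌊y⌋₊ = ⌊x⌋₊ := (Nat.floor_eq_iff (by linarith)).2 ⟨hy2'.le, hy3'⟩
        unfold RPZ_psi
        rw [this]
      refine ContinuousAt.congr ?_ he.symm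
      exact continuousAt_const.sub Complex.continuous_ofReal.continuousAt
  · intro x hx
    exact if_pos hx
  · refine ⟨Real.log 4 + 5, fun x hx => ?_⟩
    have hx0 : 0 < x := lt_of_lt_of_le one_pos hx
    show ‖(if x < 1 then (0 : ℂ) else RPZ_psi x - x)‖ ≤ _
    rw [if_neg (not_lt.2 hx)]
    have h4 : 0 ≤ Real.log 4 := Real.log_nonneg (by norm_num)
    have hxx : x ≤ x ^ (3 / 2 : ℝ) := by
      nth_rewrite 1 [← Real.rpow_one x]
      exact Real.rpow_le_rpow_of_exponent_le hx (by norm_num)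
    calc ‖RPZ_psi x - x‖ ≤ ‖RPZ_psi x‖ + ‖(x : ℂ)‖ := norm_sub_le _ _
      _ ≤ (Real.log 4 + 4) * x + x := by
          have := RPZ_norm hx0.le
          rw [Complex.norm_real, Real.norm_of_nonneg hx0.le]
          linarith
      _ = (Real.log 4 + 5) * x := by ring
      _ ≤ (Real.log 4 + 5) * x ^ (3 / 2 : ℝ) :=
          mul_le_mul_of_nonneg_left hxx (by linarith)
  · intro t
    rw [← RPZ_mellin t]
    refine setIntegral_congr_fun measurableSet_Ioi fun x hx => ?_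
    have hx1 : (1 : ℝ) < x := hx
    show (if x < 1 then (0 : ℂ) else RPZ_psi x - x) * _ = _
    rw [if_neg (not_lt.2 hx1.le)]
  · refine ⟨θ, hc, ?_⟩
    intro s hs
    have hne : riemannZeta₁ s ≠ 0 := RPZ_ne h hs.1
    have hd : DifferentiableAt ℂ (logDeriv riemannZeta₁) s := by
      have := (differentiable_riemannZeta₁.deriv s).div (differentiable_riemannZeta₁ s) hne
      exact this
    exact (hd.neg.sub_const 1).differentiableWithinAt
  · obtain ⟨C, hC1, hC⟩ := ldlog_zeta hθ h hc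
    refine ⟨C + 1, 1, fun s hs1 hs2 => ?_⟩
    have h1 := hC s hs1 hs2
    have hl : Real.log (|s.im| + 2) ≤ |s.im| + 1 := by
      have := Real.log_le_sub_one_of_pos (show 0 < |s.im| + 2 by positivity)
      linarith
    have h2 : ‖-logDeriv riemannZeta₁ s - 1‖ ≤ ‖logDeriv riemannZeta₁ s‖ + 1 := by
      calc ‖-logDeriv riemannZeta₁ s - 1‖ ≤ ‖-logDeriv riemannZeta₁ s‖ + ‖(1 : ℂ)‖ := norm_sub_le _ _
        _ = _ := by rw [norm_neg, norm_one]
    have h3 : C * Real.log (|s.im| + 2) ≤ C * (|s.im| + 1) :=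
      mul_le_mul_of_nonneg_left hl (by linarith)
    have h4 := abs_nonneg s.im
    rw [pow_one]
    show ‖-logDeriv riemannZeta₁ s - 1‖ ≤ _
    nlinarith


end Pool.Agent.XS

namespace Pool.Agent.XS

/-- alias -/
theorem rep_one : type_of% @rep_one_pr := @rep_one_pr

end Pool.Agent.XS
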