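import Pool.Agent.Lib_helper26.XS.Defs
import Pool.Agent.Lib_helper73.Var.LS

set_option autoImplicit false

namespace Pool.Agent.XS

open Finset Complex MeasureTheory Pool.Agent.Var35 Pool.Agent.Var73 Pool.Agent.HC Pool.Agent.MF
open scoped ArithmeticFunction ArithmeticFunction.Moebius

theorem sha_exp (v : ℝ) : |1 - Real.exp (-v)| ≤ |v| * Real.exp |v| := by
  rcases le_total 0 v with h | h
  · rw [abs_of_nonneg h, abs_of_nonneg]
    · have h1 := Real.add_one_le_exp (-v)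
      have h2 : v * 1 ≤ v * Real.exp v := mul_le_mul_of_nonneg_left (Real.one_le_exp h) h
      linarith
    · have : Real.exp (-v) ≤ 1 := Real.exp_le_one_iff.2 (by linarith)
      linarith
  · rw [abs_of_nonpos h, abs_of_nonpos]
    · have h1 := Real.add_one_le_exp v
      have h2 : Real.exp v * Real.exp (-v) = 1 := by rw [← Real.exp_add]; simp
      have h3 := mul_le_mul_of_nonneg_right h1 (Real.exp_pos (-v)).le
      rw [h2] at h3
      linarith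
    · have : 1 ≤ Real.exp (-v) := Real.one_le_exp (by linarith)
      linarith

theorem sha_sum (f : ℕ → ℂ) {a b : ℕ} (h : a ≤ b) :
    ∑ n ∈ Icc 1 b, f n = ∑ n ∈ Icc 1 a, f n + ∑ n ∈ Ioc a b, f n := by
  have e : ∀ c : ℕ, Icc 1 c = Ioc 0 c := fun c => by
    ext m
    simp only [Finset.mem_Icc, Finset.mem_Ioc]
    omega
  rw [e, e, Finset.sum_Ioc_consecutive f (Nat.zero_le a) h]

open scoped Classical in
/-- the difference of two values -/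
theorem sha_diff {r : ℕ} (χ : DirichletCharacter ℂ r) (X Y : ℝ) :
    ‖EE χ X - EE χ Y‖ ≤ ‖∑ n ∈ Ioc (min ⌊X⌋₊ ⌊Y⌋₊) (max ⌊X⌋₊ ⌊Y⌋₊), (Lam n : ℂ) * χ (n : ZMod r)‖ +
      (if χ = 1 then |X - Y| else 0) := by
  have key : ∀ X Y : ℝ, ⌊Y⌋₊ ≤ ⌊X⌋₊ → ‖EE χ X - EE χ Y‖ ≤
      ‖∑ n ∈ Ioc ⌊Y⌋₊ ⌊X⌋₊, (Lam n : ℂ) * χ (n : ZMod r)‖ + (if χ = 1 then |X - Y| else 0) := by
    intro X Y h
    unfold EE
    rw [sha_sum _ h]
    split_ifs with h1
    · have e : (∑ n ∈ Icc 1 ⌊Y⌋₊, (Lam n : ℂ) * χ (n : ZMod r) +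
          ∑ n ∈ Ioc ⌊Y⌋₊ ⌊X⌋₊, (Lam n : ℂ) * χ (n : ZMod r) - (X : ℂ)) -
          (∑ n ∈ Icc 1 ⌊Y⌋₊, (Lam n : ℂ) * χ (n : ZMod r) - (Y : ℂ)) =
          ∑ n ∈ Ioc ⌊Y⌋₊ ⌊X⌋₊, (Lam n : ℂ) * χ (n : ZMod r) - ((X - Y : ℝ) : ℂ) := by
        push_cast
        ring
      rw [e]
      refine (norm_sub_le _ _).trans ?_
      rw [Complex.norm_real, Real.norm_eq_abs]
    · have e : (∑ n ∈ Icc 1 ⌊Y⌋₊, (Lam n : ℂ) * χ (n : ZMod r) +
          ∑ n ∈ Ioc ⌊Y⌋₊ ⌊X⌋₊, (Lam n : ℂ) * χ (n : ZMod r) - 0) -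
          (∑ n ∈ Icc 1 ⌊Y⌋₊, (Lam n : ℂ) * χ (n : ZMod r) - 0) =
          ∑ n ∈ Ioc ⌊Y⌋₊ ⌊X⌋₊, (Lam n : ℂ) * χ (n : ZMod r) := by
        ring
      rw [e, add_zero]
  rcases le_total ⌊X⌋₊ ⌊Y⌋₊ with h | h
  · rw [min_eq_left h, max_eq_right h, norm_sub_rev, abs_sub_comm]
    exact key Y X h
  · rw [min_eq_right h, max_eq_left h]
    exact key X Y h

open scoped Classical in
theorem sha_zero {r : ℕ} (χ : DirichletCharacter ℂ r) {Y : ℝ} (hY : 0 ≤ Y) :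
    ‖EE χ Y - E0 χ Y‖ ≤ if χ = 1 then 1 else 0 := by
  unfold E0
  split_ifs with h1 h2 h2
  · unfold EE
    rw [Nat.floor_eq_zero.2 h1, if_pos h2]
    simp only [Finset.Icc_eq_empty_of_lt Nat.one_pos, sum_empty, sub_zero, zero_sub,
      norm_neg, Complex.norm_real, Real.norm_eq_abs, abs_of_nonneg hY]
    exact h1.le
  · unfold EE
    rw [Nat.floor_eq_zero.2 h1, if_neg h2]
    simp
  · simp
  · simp

open scoped Classical in
theorem sha_one {R : ℕ} (hR : 1 ≤ R) {c : ℝ} (hc : 0 ≤ c) :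
    SP R (fun _ χ => if χ = 1 then c else 0) ≤ c := by
  unfold SP
  have h1 : ∀ r ∈ Ico R (2 * R), ∑ χ ∈ Pr r, (if χ = 1 then c else 0) ≤ if r = 1 then c else 0 := by
    intro r hr
    have hr1 : 1 ≤ r := hR.trans (Finset.mem_Ico.1 hr).1
    split_ifs with h
    · rw [← Finset.sum_filter, sum_const, nsmul_eq_mul]
      have h2 : ((Pr r).filter (fun χ => χ = 1)).card ≤ 1 :=
        Finset.card_le_one.2 fun a ha b hb =>
          (Finset.mem_filter.1 ha).2.trans (Finset.mem_filter.1 hb).2.symm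
      have h3 : (((Pr r).filter (fun χ => χ = 1)).card : ℝ) ≤ 1 := by exact_mod_cast h2
      calc _ ≤ 1 * c := mul_le_mul_of_nonneg_right h3 hc
        _ = c := one_mul c
    · have : NeZero r := ⟨by omega⟩
      apply le_of_eq
      refine Finset.sum_eq_zero fun χ hχ => if_neg fun h1 => h ?_
      have h2 : χ.IsPrimitive := by
        have := hχ
        unfold Pr at this
        exact (Finset.mem_filter.1 this).2
      rw [h1] at h2
      have h3 : (1 : DirichletCharacter ℂ r).conductor = r := h2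
      rw [DirichletCharacter.conductor_one] at h3
      exact h3.symm
  refine (sum_le_sum h1).trans ?_
  rw [Finset.sum_ite_eq' (Ico R (2 * R)) 1]
  split_ifs
  · exact le_rfl
  · exact hc

theorem short_v_pr : ∃ C : ℝ, 1 ≤ C ∧ ∀ (R : ℕ) (X v : ℝ), 1 ≤ R → 1 ≤ X →
    SP R (fun r χ => ‖EE χ X - E0 χ (X * Real.exp (-v))‖ ^ 2) ≤
      C * (Real.log (X + 2) * (1 + |v|)) ^ 2 * ((R : ℝ) ^ 2 + X * |v| * Real.exp |v| + 1) *
        (X * |v| * Real.exp |v| + 1) := by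
  classical
  refine ⟨178, by norm_num, fun R X v hR hX => ?_⟩
  obtain ⟨Y, hYdef⟩ : ∃ Y, Y = X * Real.exp (-v) := ⟨_, rfl⟩
  obtain ⟨T, hTdef⟩ : ∃ T, T = X * |v| * Real.exp |v| := ⟨_, rfl⟩
  obtain ⟨L, hLdef⟩ : ∃ L, L = Real.log (X + 2) * (1 + |v|) := ⟨_, rfl⟩
  rw [← hYdef, ← hTdef, ← hLdef]
  have hX0 : 0 ≤ X := by linarith
  have hT0 : 0 ≤ T := by rw [hTdef]; positivity
  have hY0 : 0 ≤ Y := by rw [hYdef]; positivity
  have hXY : |X - Y| ≤ T := by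
    have e : X - Y = X * (1 - Real.exp (-v)) := by rw [hYdef]; ring
    rw [e, abs_mul, abs_of_nonneg hX0, hTdef, mul_assoc]
    exact mul_le_mul_of_nonneg_left (sha_exp v) hX0
  have hlog1 : 1 ≤ Real.log (X + 2) := by
    rw [Real.le_log_iff_exp_le (by linarith)]
    have := Real.exp_one_lt_d9
    linarith
  have hL1 : 1 ≤ L := by
    rw [hLdef]
    have : 0 ≤ |v| := abs_nonneg v
    nlinarith
  -- the large sieve
  obtain ⟨M, hM⟩ : ∃ M, M = min ⌊X⌋₊ ⌊Y⌋₊ := ⟨_, rfl⟩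
  obtain ⟨H, hH⟩ : ∃ H, max ⌊X⌋₊ ⌊Y⌋₊ = M + H :=
    ⟨max ⌊X⌋₊ ⌊Y⌋₊ - M, by rw [hM]; have := min_le_max (a := ⌊X⌋₊) (b := ⌊Y⌋₊); omega⟩
  have hHT : (H : ℝ) ≤ T + 1 := by
    have hfl : ∀ a b : ℝ, 0 ≤ a → 0 ≤ b → (⌊a⌋₊ : ℝ) - ⌊b⌋₊ ≤ |a - b| + 1 := by
      intro a b ha hb
      have h1 := Nat.floor_le ha
      have h2 := Nat.lt_floor_add_one b
      have h3 := le_abs_self (a - b)
      linarith
    have hcast : ((max ⌊X⌋₊ ⌊Y⌋₊ : ℕ) : ℝ) = ((min ⌊X⌋₊ ⌊Y⌋₊ : ℕ) : ℝ) + H := by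
      rw [hH, hM]; push_cast; ring
    rcases le_total ⌊X⌋₊ ⌊Y⌋₊ with h | h
    · rw [min_eq_left h, max_eq_right h] at hcast
      have := hfl Y X hY0 hX0
      rw [abs_sub_comm] at this
      linarith
    · rw [min_eq_right h, max_eq_left h] at hcast
      have := hfl X Y hX0 hY0
      linarith
  have hLam : ∀ m ∈ Ioc M (M + H), ‖(Lam m : ℂ)‖ ^ 2 ≤ L ^ 2 := by
    intro m hm
    rw [Finset.mem_Ioc] at hm
    have hm0 : 0 < m := by omega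
    have h1 : (0 : ℝ) ≤ Lam m := ArithmeticFunction.vonMangoldt_nonneg
    have h2 : Lam m ≤ Real.log m := ArithmeticFunction.vonMangoldt_le_log
    have h3 : (m : ℝ) ≤ (X + 2) * Real.exp |v| := by
      have h4 : m ≤ max ⌊X⌋₊ ⌊Y⌋₊ := by rw [hH]; exact hm.2
      have h5 : (1 : ℝ) ≤ Real.exp |v| := Real.one_le_exp (abs_nonneg v)
      rcases le_max_iff.1 h4 with h6 | h6
      · have h7 : (m : ℝ) ≤ X := (Nat.cast_le.2 h6).trans (Nat.floor_le hX0)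
        nlinarith
      · have h7 : (m : ℝ) ≤ Y := (Nat.cast_le.2 h6).trans (Nat.floor_le hY0)
        have h8 : Y ≤ X * Real.exp |v| := by
          rw [hYdef]
          exact mul_le_mul_of_nonneg_left (Real.exp_le_exp.2 (neg_le_abs v)) hX0
        nlinarith
    have h4 : Real.log m ≤ Real.log (X + 2) + |v| := by
      have h5 : Real.log m ≤ Real.log ((X + 2) * Real.exp |v|) :=
        Real.log_le_log (by exact_mod_cast hm0) h3
      rwa [Real.log_mul (by linarith) (Real.exp_pos _).ne', Real.log_exp] at h5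
    have h5 : Lam m ≤ L := by
      have h6 : Real.log (X + 2) + |v| ≤ L := by
        rw [hLdef]
        have : 0 ≤ |v| := abs_nonneg v
        nlinarith
      linarith
    rw [Complex.norm_real, Real.norm_eq_abs, abs_of_nonneg h1]
    exact pow_le_pow_left₀ h1 h5 2
  have hsq : ∑ m ∈ Ioc M (M + H), ‖(Lam m : ℂ)‖ ^ 2 ≤ (T + 1) * L ^ 2 := by
    refine (sum_le_sum hLam).trans ?_
    rw [sum_const, Nat.card_Ioc, nsmul_eq_mul, Nat.add_sub_cancel_left]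
    exact mul_le_mul_of_nonneg_right hHT (sq_nonneg L)
  have hls : SP R (fun r χ => ‖∑ n ∈ Ioc M (M + H), (Lam n : ℂ) * χ (n : ZMod r)‖ ^ 2) ≤
      22 * ((T + 1) + (2 * R : ℝ) ^ 2) * ((T + 1) * L ^ 2) := by
    have h1 := mlsP (Ico R (2 * R)) (2 * R)
      (fun d hd => ⟨hR.trans (Finset.mem_Ico.1 hd).1, (Finset.mem_Ico.1 hd).2.le⟩) (by omega)
      (fun n => (Lam n : ℂ)) M H
    unfold SP
    refine le_trans ?_ (h1.trans ?_)
    · refine sum_le_sum fun r hr => sum_le_sum fun χ _ => ?_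
      have hr1 : 1 ≤ r := hR.trans (Finset.mem_Ico.1 hr).1
      have hφ : (0 : ℝ) < Nat.totient r := by exact_mod_cast Nat.totient_pos.mpr hr1
      have h2 : (1 : ℝ) ≤ (r : ℝ) / Nat.totient r := by
        rw [one_le_div hφ]
        exact_mod_cast Nat.totient_le r
      exact le_mul_of_one_le_left (sq_nonneg _) h2
    · push_cast
      have h2 : (0 : ℝ) ≤ ∑ m ∈ Ioc M (M + H), ‖(Lam m : ℂ)‖ ^ 2 :=
        sum_nonneg fun _ _ => sq_nonneg _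
      have h3 : (22 : ℝ) * (H + (2 * R : ℝ) ^ 2) ≤ 22 * ((T + 1) + (2 * R : ℝ) ^ 2) := by linarith
      exact mul_le_mul h3 hsq h2 (by positivity)
  have hpt : ∀ (r : ℕ) (χ : DirichletCharacter ℂ r), ‖EE χ X - E0 χ Y‖ ^ 2 ≤
      2 * ‖∑ n ∈ Ioc M (M + H), (Lam n : ℂ) * χ (n : ZMod r)‖ ^ 2 +
        2 * (if χ = 1 then (T + 1) ^ 2 else 0) := by
    intro r χ
    have h1 := sha_diff χ X Y
    rw [← hM, hH] at h1
    have h2 := sha_zero χ hY0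
    have h3 : ‖EE χ X - E0 χ Y‖ ≤ ‖EE χ X - EE χ Y‖ + ‖EE χ Y - E0 χ Y‖ := norm_sub_le_norm_sub_add_norm_sub _ _ _
    have h0 := norm_nonneg (EE χ X - E0 χ Y)
    have h5 := norm_nonneg (∑ n ∈ Ioc M (M + H), (Lam n : ℂ) * χ (n : ZMod r))
    split_ifs at h1 h2 ⊢ with hχ
    · have h4 : ‖EE χ X - E0 χ Y‖ ≤
          ‖∑ n ∈ Ioc M (M + H), (Lam n : ℂ) * χ (n : ZMod r)‖ + (T + 1) := by linarith
      have h6 := pow_le_pow_left₀ h0 h4 2
      nlinarith [sq_nonneg (‖∑ n ∈ Ioc M (M + H), (Lam n : ℂ) * χ (n : ZMod r)‖ - (T + 1))]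
    · have h4 : ‖EE χ X - E0 χ Y‖ ≤
          ‖∑ n ∈ Ioc M (M + H), (Lam n : ℂ) * χ (n : ZMod r)‖ := by linarith
      have h6 := pow_le_pow_left₀ h0 h4 2
      nlinarith [sq_nonneg ‖∑ n ∈ Ioc M (M + H), (Lam n : ℂ) * χ (n : ZMod r)‖]
  have hsum : SP R (fun r χ => ‖EE χ X - E0 χ Y‖ ^ 2) ≤
      2 * SP R (fun r χ => ‖∑ n ∈ Ioc M (M + H), (Lam n : ℂ) * χ (n : ZMod r)‖ ^ 2) +
        2 * SP R (fun r χ => if χ = 1 then (T + 1) ^ 2 else 0) := by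
    unfold SP
    rw [mul_sum, mul_sum, ← sum_add_distrib]
    refine sum_le_sum fun r _ => ?_
    rw [mul_sum, mul_sum, ← sum_add_distrib]
    exact sum_le_sum fun χ _ => hpt r χ
  have h1 := sha_one hR (c := (T + 1) ^ 2) (sq_nonneg _)
  have hR0 : (0 : ℝ) ≤ (R : ℝ) ^ 2 := sq_nonneg _
  have hLL : 1 ≤ L ^ 2 := one_le_pow₀ hL1
  have h2 : 22 * ((T + 1) + (2 * R : ℝ) ^ 2) * ((T + 1) * L ^ 2) ≤
      88 * (L ^ 2 * ((R : ℝ) ^ 2 + T + 1) * (T + 1)) := by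
    have h3 : (T + 1) + (2 * R : ℝ) ^ 2 ≤ 4 * ((R : ℝ) ^ 2 + T + 1) := by nlinarith
    have h4 : 0 ≤ (T + 1) * L ^ 2 := by positivity
    nlinarith [mul_le_mul_of_nonneg_right h3 h4]
  have h3 : (T + 1) ^ 2 ≤ L ^ 2 * ((R : ℝ) ^ 2 + T + 1) * (T + 1) := by
    have h4 : (T + 1) * (T + 1) ≤ ((R : ℝ) ^ 2 + T + 1) * (T + 1) :=
      mul_le_mul_of_nonneg_right (by linarith) (by linarith)
    have h5 : 0 ≤ ((R : ℝ) ^ 2 + T + 1) * (T + 1) := by positivity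
    nlinarith [mul_le_mul_of_nonneg_right hLL h5]
  calc _ ≤ _ := hsum
    _ ≤ 2 * (88 * (L ^ 2 * ((R : ℝ) ^ 2 + T + 1) * (T + 1))) +
        2 * (L ^ 2 * ((R : ℝ) ^ 2 + T + 1) * (T + 1)) := by linarith
    _ = _ := by ring


end Pool.Agent.XS

namespace Pool.Agent.XS

/-- alias -/
theorem short_v : type_of% @short_v_pr := @short_v_pr

end Pool.Agent.XS
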