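import Pool.Agent.Lib_helper26.XS.Defs
import Pool.Agent.Lib_helper26.XSF.SHA

set_option autoImplicit false

namespace Pool.Agent.XS

open Finset Complex MeasureTheory Pool.Agent.Var35 Pool.Agent.Var73 Pool.Agent.HC Pool.Agent.MF
open scoped ArithmeticFunction ArithmeticFunction.Moebius

theorem shb_meas_sum (f : ℕ → ℂ) : Measurable (fun x : ℝ => ∑ n ∈ Icc 1 ⌊x⌋₊, f n) :=
  (measurable_from_nat (f := fun N : ℕ => ∑ n ∈ Icc 1 N, f n)).comp Nat.measurable_floor

theorem shb_meas_EE {q : ℕ} (χ : DirichletCharacter ℂ q) : Measurable (EE χ) := by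
  unfold EE
  refine (shb_meas_sum _).sub ?_
  by_cases h : χ = 1
  · simp only [h, if_true]
    exact Complex.measurable_ofReal
  · simp only [h, if_false]
    exact measurable_const

theorem shb_meas_E0 {q : ℕ} (χ : DirichletCharacter ℂ q) : Measurable (E0 χ) := by
  unfold E0
  exact Measurable.ite measurableSet_Iio measurable_const (shb_meas_EE χ)

theorem shb_sum_le {f : ℕ → ℂ} (hf : ∀ n : ℕ, ‖f n‖ ≤ (n : ℝ) ^ 2) {y : ℝ} (hy : 0 ≤ y) :
    ‖∑ n ∈ Icc 1 ⌊y⌋₊, f n‖ ≤ y ^ 3 := by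
  have hN := Nat.floor_le hy
  calc ‖∑ n ∈ Icc 1 ⌊y⌋₊, f n‖ ≤ ∑ n ∈ Icc 1 ⌊y⌋₊, ‖f n‖ := norm_sum_le _ _
    _ ≤ ∑ _n ∈ Icc 1 ⌊y⌋₊, y ^ 2 := by
        refine Finset.sum_le_sum fun n hn => (hf n).trans ?_
        have h1 : (n : ℝ) ≤ y := (Nat.cast_le.mpr (Finset.mem_Icc.mp hn).2).trans hN
        exact pow_le_pow_left₀ (Nat.cast_nonneg n) h1 2
    _ = (⌊y⌋₊ : ℝ) * y ^ 2 := by
        rw [Finset.sum_const, nsmul_eq_mul, Nat.card_Icc, Nat.add_sub_cancel]
    _ ≤ y * y ^ 2 := mul_le_mul_of_nonneg_right hN (by positivity)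
    _ = y ^ 3 := by ring

theorem shb_Lam {q : ℕ} (χ : DirichletCharacter ℂ q) (n : ℕ) :
    ‖(Lam n : ℂ) * χ (n : ZMod q)‖ ≤ (n : ℝ) ^ 2 := by
  rw [norm_mul]
  have h1 : ‖χ (n : ZMod q)‖ ≤ 1 := χ.norm_le_one _
  have h2 : ‖(Lam n : ℂ)‖ ≤ (n : ℝ) ^ 2 := by
    rw [Complex.norm_real, Real.norm_eq_abs, abs_of_nonneg ArithmeticFunction.vonMangoldt_nonneg]
    rcases Nat.eq_zero_or_pos n with hn | hn
    · subst hn
      simp
    have h3 : Lam n ≤ Real.log n := ArithmeticFunction.vonMangoldt_le_log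
    have hn1 : (1 : ℝ) ≤ n := by exact_mod_cast hn
    have h4 : Real.log n ≤ n := by
      have := Real.log_le_sub_one_of_pos (show (0 : ℝ) < n by linarith)
      linarith
    nlinarith
  calc ‖(Lam n : ℂ)‖ * ‖χ (n : ZMod q)‖ ≤ ‖(Lam n : ℂ)‖ * 1 :=
        mul_le_mul_of_nonneg_left h1 (norm_nonneg _)
    _ ≤ (n : ℝ) ^ 2 := by rw [mul_one]; exact h2

theorem shb_EE_le {q : ℕ} (χ : DirichletCharacter ℂ q) {y : ℝ} (hy : 0 ≤ y) :
    ‖EE χ y‖ ≤ y ^ 3 + y := by
  unfold EE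
  refine (norm_sub_le _ _).trans (add_le_add (shb_sum_le (shb_Lam χ) hy) ?_)
  split_ifs
  · rw [Complex.norm_real, Real.norm_eq_abs, abs_of_nonneg hy]
  · rw [norm_zero]
    exact hy

theorem shb_E0_le {q : ℕ} (χ : DirichletCharacter ℂ q) {y : ℝ} (hy : 0 ≤ y) :
    ‖E0 χ y‖ ≤ 2 * y ^ 3 := by
  unfold E0
  split_ifs with h
  · rw [norm_zero]
    positivity
  · have h1 := shb_EE_le χ hy
    push Not at h
    have h2 : y ≤ y ^ 3 := by
      have : 1 ≤ y ^ 2 := one_le_pow₀ h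
      nlinarith
    linarith

/-- the probability density -/
noncomputable def shb_p (u : ℝ) : ℝ := (Real.sqrt (4 * Real.pi))⁻¹ * Real.exp (-(u ^ 2 / 4))

theorem shb_p_nonneg (u : ℝ) : 0 ≤ shb_p u := by
  unfold shb_p
  positivity

theorem shb_p_cont : Continuous shb_p := by
  unfold shb_p
  fun_prop

theorem shb_K (k : ℝ) : Integrable (fun u : ℝ => Real.exp (k * |u|) * shb_p u) := by
  have h1 : Integrable (fun u : ℝ => (Real.sqrt (4 * Real.pi))⁻¹ * Real.exp (2 * k ^ 2) *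
      Real.exp (-(1 / 8) * u ^ 2)) :=
    (integrable_exp_neg_mul_sq (by norm_num)).const_mul _
  refine h1.mono' ?_ (Filter.Eventually.of_forall fun u => ?_)
  · refine Continuous.aestronglyMeasurable ?_
    exact (by fun_prop : Continuous fun u : ℝ => Real.exp (k * |u|)).mul shb_p_cont
  · rw [Real.norm_eq_abs, abs_of_nonneg (mul_nonneg (Real.exp_pos _).le (shb_p_nonneg u))]
    unfold shb_p
    have h4 : Real.exp (k * |u|) * Real.exp (-(u ^ 2 / 4)) ≤
        Real.exp (2 * k ^ 2) * Real.exp (-(1 / 8) * u ^ 2) := by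
      rw [← Real.exp_add, ← Real.exp_add]
      apply Real.exp_le_exp.mpr
      have h5 : 0 ≤ (|u| - 4 * k) ^ 2 := sq_nonneg _
      have h6 : |u| ^ 2 = u ^ 2 := sq_abs u
      nlinarith
    calc Real.exp (k * |u|) * ((Real.sqrt (4 * Real.pi))⁻¹ * Real.exp (-(u ^ 2 / 4)))
        = (Real.sqrt (4 * Real.pi))⁻¹ * (Real.exp (k * |u|) * Real.exp (-(u ^ 2 / 4))) := by ring
      _ ≤ (Real.sqrt (4 * Real.pi))⁻¹ * (Real.exp (2 * k ^ 2) * Real.exp (-(1 / 8) * u ^ 2)) :=
          mul_le_mul_of_nonneg_left h4 (by positivity)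
      _ = _ := by ring

theorem shb_p_int : Integrable shb_p := by
  have h := shb_K 0
  simpa using h

theorem shb_p_one : ∫ u, shb_p u = 1 := by
  unfold shb_p
  rw [integral_const_mul]
  have h1 : (fun u : ℝ => Real.exp (-(u ^ 2 / 4))) = fun u => Real.exp (-(1 / 4) * u ^ 2) := by
    funext u
    congr 1
    ring
  rw [h1, integral_gaussian]
  have h2 : Real.pi / (1 / 4) = 4 * Real.pi := by ring
  rw [h2]
  exact inv_mul_cancel₀ (Real.sqrt_ne_zero'.mpr (by positivity))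

/-- Jensen's inequality for the square -/
theorem shb_jensen {F : ℝ → ℂ} (hm : Measurable F) {A k : ℝ} (hk : 0 ≤ k) (hA : 0 ≤ A)
    (hF : ∀ u, ‖F u‖ ≤ A * Real.exp (k * |u|)) :
    Integrable (fun u => ‖F u‖ ^ 2 * shb_p u) ∧
      ‖∫ u, F u * (shb_p u : ℂ)‖ ^ 2 ≤ ∫ u, ‖F u‖ ^ 2 * shb_p u := by
  have h1 : Integrable (fun u => ‖F u‖ * shb_p u) := by
    refine ((shb_K k).const_mul A).mono' ?_ (Filter.Eventually.of_forall fun u => ?_)
    · exact (hm.norm.mul shb_p_cont.measurable).aestronglyMeasurable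
    · rw [Real.norm_eq_abs, abs_of_nonneg (mul_nonneg (norm_nonneg _) (shb_p_nonneg u)), ← mul_assoc]
      exact mul_le_mul_of_nonneg_right (hF u) (shb_p_nonneg u)
  have h2 : Integrable (fun u => ‖F u‖ ^ 2 * shb_p u) := by
    refine ((shb_K (2 * k)).const_mul (A ^ 2)).mono' ?_ (Filter.Eventually.of_forall fun u => ?_)
    · exact ((hm.norm.pow_const 2).mul shb_p_cont.measurable).aestronglyMeasurable
    · rw [Real.norm_eq_abs, abs_of_nonneg (mul_nonneg (by positivity) (shb_p_nonneg u)),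
        ← mul_assoc]
      refine mul_le_mul_of_nonneg_right ?_ (shb_p_nonneg u)
      have h3 := pow_le_pow_left₀ (norm_nonneg _) (hF u) 2
      have h4 : (A * Real.exp (k * |u|)) ^ 2 = A ^ 2 * Real.exp (2 * k * |u|) := by
        rw [mul_pow, ← Real.exp_nat_mul]
        congr 2
        push_cast
        ring
      rwa [h4] at h3
  refine ⟨h2, ?_⟩
  set m := ∫ u, ‖F u‖ * shb_p u with hmd
  have h3 : ‖∫ u, F u * (shb_p u : ℂ)‖ ≤ m := by
    refine (norm_integral_le_integral_norm _).trans (le_of_eq ?_)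
    refine integral_congr_ae (Filter.Eventually.of_forall fun u => ?_)
    show ‖F u * (shb_p u : ℂ)‖ = ‖F u‖ * shb_p u
    rw [norm_mul, Complex.norm_real, Real.norm_eq_abs, abs_of_nonneg (shb_p_nonneg u)]
  have h4 : 0 ≤ ∫ u, (‖F u‖ - m) ^ 2 * shb_p u :=
    integral_nonneg fun u => mul_nonneg (sq_nonneg _) (shb_p_nonneg u)
  have h5 : ∫ u, (‖F u‖ - m) ^ 2 * shb_p u = (∫ u, ‖F u‖ ^ 2 * shb_p u) - m ^ 2 := by
    have h6 : (fun u => (‖F u‖ - m) ^ 2 * shb_p u) = fun u =>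
        (‖F u‖ ^ 2 * shb_p u - 2 * m * (‖F u‖ * shb_p u)) + m ^ 2 * shb_p u := by
      funext u
      ring
    have h7 : Integrable (fun u => 2 * m * (‖F u‖ * shb_p u)) := h1.const_mul _
    have h8 : Integrable (fun u => m ^ 2 * shb_p u) := shb_p_int.const_mul _
    have h9 : Integrable (fun u => ‖F u‖ ^ 2 * shb_p u - 2 * m * (‖F u‖ * shb_p u)) := h2.sub h7
    rw [h6, integral_add h9 h8, integral_sub h2 h7, integral_const_mul, integral_const_mul,
      shb_p_one, ← hmd]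
    ring
  have h7 : ‖∫ u, F u * (shb_p u : ℂ)‖ ^ 2 ≤ m ^ 2 := pow_le_pow_left₀ (norm_nonneg _) h3 2
  linarith

/-- the scaled form of the smoothing -/
theorem shb_sm {lam : ℝ} (hl : 0 < lam) (E : ℝ → ℂ) (X : ℝ) :
    sm lam E X = ∫ u, E (X * Real.exp (-(Real.sqrt lam * u))) * (shb_p u : ℂ) := by
  unfold sm
  have hs : 0 < Real.sqrt lam := Real.sqrt_pos.mpr hl
  have h1 := Measure.integral_comp_mul_left (fun v : ℝ => E (X * Real.exp (-v)) *
    (Real.exp (-(v ^ 2 / (4 * lam))) : ℂ)) (Real.sqrt lam)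
  have h2 : ∀ u : ℝ, (Real.sqrt lam * u) ^ 2 / (4 * lam) = u ^ 2 / 4 := by
    intro u
    rw [mul_pow, Real.sq_sqrt hl.le]
    field_simp
  have h3 : ∫ v : ℝ, E (X * Real.exp (-v)) * (Real.exp (-(v ^ 2 / (4 * lam))) : ℂ) =
      (Real.sqrt lam : ℂ) * ∫ u : ℝ, E (X * Real.exp (-(Real.sqrt lam * u))) *
        (Real.exp (-(u ^ 2 / 4)) : ℂ) := by
    have h4 : ∫ u : ℝ, E (X * Real.exp (-(Real.sqrt lam * u))) * (Real.exp (-(u ^ 2 / 4)) : ℂ) =
        |(Real.sqrt lam)⁻¹| • ∫ v : ℝ, E (X * Real.exp (-v)) *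
          (Real.exp (-(v ^ 2 / (4 * lam))) : ℂ) := by
      rw [← h1]
      refine integral_congr_ae (Filter.Eventually.of_forall fun u => ?_)
      show E (X * Real.exp (-(Real.sqrt lam * u))) * (Real.exp (-(u ^ 2 / 4)) : ℂ) =
        E (X * Real.exp (-(Real.sqrt lam * u))) *
          (Real.exp (-((Real.sqrt lam * u) ^ 2 / (4 * lam))) : ℂ)
      rw [h2]
    rw [h4, abs_of_pos (inv_pos.mpr hs), Complex.real_smul, ← mul_assoc, Complex.ofReal_inv,
      mul_inv_cancel₀ (Complex.ofReal_ne_zero.mpr hs.ne'), one_mul]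
  rw [h3, ← mul_assoc, ← integral_const_mul]
  refine integral_congr_ae (Filter.Eventually.of_forall fun u => ?_)
  show ((Real.sqrt (4 * Real.pi * lam))⁻¹ : ℝ) * (Real.sqrt lam : ℂ) *
    (E (X * Real.exp (-(Real.sqrt lam * u))) * (Real.exp (-(u ^ 2 / 4)) : ℂ)) =
    E (X * Real.exp (-(Real.sqrt lam * u))) * (shb_p u : ℂ)
  have h5 : (Real.sqrt (4 * Real.pi * lam))⁻¹ * Real.sqrt lam = (Real.sqrt (4 * Real.pi))⁻¹ := by
    rw [Real.sqrt_mul (by positivity), mul_inv, mul_assoc, inv_mul_cancel₀ hs.ne', mul_one]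
  unfold shb_p
  rw [← Complex.ofReal_mul, h5]
  push_cast
  ring

theorem shb_SP {R : ℕ} {F : (r : ℕ) → DirichletCharacter ℂ r → ℝ → ℝ}
    (hF : ∀ r, ∀ χ, Integrable (F r χ)) :
    SP R (fun r χ => ∫ u, F r χ u) = ∫ u, SP R (fun r χ => F r χ u) ∧
      Integrable (fun u => SP R (fun r χ => F r χ u)) := by
  unfold SP
  constructor
  · rw [integral_finsetSum _ fun r _ => integrable_finsetSum _ fun χ _ => hF r χ]
    exact Finset.sum_congr rfl fun r _ => (integral_finsetSum _ fun χ _ => hF r χ).symm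
  · exact integrable_finsetSum _ fun r _ => integrable_finsetSum _ fun χ _ => hF r χ

theorem shb_SP_mono {R : ℕ} {f g : (r : ℕ) → DirichletCharacter ℂ r → ℝ}
    (h : ∀ r χ, f r χ ≤ g r χ) : SP R f ≤ SP R g :=
  Finset.sum_le_sum fun r _ => Finset.sum_le_sum fun χ _ => h r χ

theorem short_pr : ∃ C : ℝ, 1 ≤ C ∧ ∀ (R : ℕ) (X lam : ℝ), 1 ≤ R → 1 ≤ X → 0 < lam → lam ≤ 1 →
    SP R (fun r χ => ‖EE χ X - sm lam (E0 χ) X‖ ^ 2) ≤
      C * Real.log (X + 2) ^ 2 * ((R : ℝ) ^ 2 + X * Real.sqrt lam + 1) *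
        (X * Real.sqrt lam + 1) := by
  obtain ⟨C, hC, hv⟩ := short_v
  set M := ∫ u, Real.exp (6 * |u|) * shb_p u with hM
  have hM1 : 1 ≤ M := by
    rw [← shb_p_one]
    refine integral_mono shb_p_int (shb_K 6) fun u => ?_
    have : 1 ≤ Real.exp (6 * |u|) := Real.one_le_exp (by positivity)
    show shb_p u ≤ Real.exp (6 * |u|) * shb_p u
    nlinarith [shb_p_nonneg u]
  refine ⟨C * M, one_le_mul_of_one_le_of_one_le hC hM1, fun R X lam hR hX hl hl1 => ?_⟩
  have hX0 : 0 ≤ X := by linarith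
  have hs0 : 0 ≤ Real.sqrt lam := Real.sqrt_nonneg _
  have hs1 : Real.sqrt lam ≤ 1 := by
    rw [show (1 : ℝ) = Real.sqrt 1 from Real.sqrt_one.symm]
    exact Real.sqrt_le_sqrt hl1
  set s := X * Real.sqrt lam with hs
  have hs2 : 0 ≤ s := mul_nonneg hX0 hs0
  -- the functions
  have hmeas : ∀ (r : ℕ) (χ : DirichletCharacter ℂ r), Measurable (fun u : ℝ =>
      EE χ X - E0 χ (X * Real.exp (-(Real.sqrt lam * u)))) := by
    intro r χ
    refine measurable_const.sub ((shb_meas_E0 χ).comp ?_)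
    exact (by fun_prop : Continuous fun u : ℝ => X * Real.exp (-(Real.sqrt lam * u))).measurable
  have hbd : ∀ (r : ℕ) (χ : DirichletCharacter ℂ r) (u : ℝ),
      ‖EE χ X - E0 χ (X * Real.exp (-(Real.sqrt lam * u)))‖ ≤
        (X ^ 3 + X + 2 * X ^ 3) * Real.exp (3 * |u|) := by
    intro r χ u
    have h1 := shb_EE_le χ hX0
    have h2 := shb_E0_le χ (y := X * Real.exp (-(Real.sqrt lam * u)))
      (mul_nonneg hX0 (Real.exp_pos _).le)
    have h3 : Real.exp (-(Real.sqrt lam * u)) ≤ Real.exp |u| := by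
      apply Real.exp_le_exp.mpr
      have h4 : -(Real.sqrt lam * u) ≤ |Real.sqrt lam * u| := neg_le_abs _
      rw [abs_mul, abs_of_nonneg hs0] at h4
      nlinarith [abs_nonneg u]
    have h5 : (X * Real.exp (-(Real.sqrt lam * u))) ^ 3 ≤ X ^ 3 * Real.exp (3 * |u|) := by
      rw [mul_pow]
      refine mul_le_mul_of_nonneg_left ?_ (by positivity)
      have h6 := pow_le_pow_left₀ (Real.exp_pos _).le h3 3
      have h7 : Real.exp |u| ^ 3 = Real.exp (3 * |u|) := by
        rw [← Real.exp_nat_mul]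
        push_cast
        ring_nf
      rwa [h7] at h6
    have h8 : 1 ≤ Real.exp (3 * |u|) := Real.one_le_exp (by positivity)
    have h9 : 0 ≤ X ^ 3 + X := by positivity
    calc ‖EE χ X - E0 χ (X * Real.exp (-(Real.sqrt lam * u)))‖
        ≤ ‖EE χ X‖ + ‖E0 χ (X * Real.exp (-(Real.sqrt lam * u)))‖ := norm_sub_le _ _
      _ ≤ (X ^ 3 + X) * 1 + 2 * (X ^ 3 * Real.exp (3 * |u|)) := by linarith
      _ ≤ (X ^ 3 + X) * Real.exp (3 * |u|) + 2 * (X ^ 3 * Real.exp (3 * |u|)) := by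
          nlinarith
      _ = _ := by ring
  have hj : ∀ (r : ℕ) (χ : DirichletCharacter ℂ r), Integrable (fun u =>
        ‖EE χ X - E0 χ (X * Real.exp (-(Real.sqrt lam * u)))‖ ^ 2 * shb_p u) ∧
      ‖EE χ X - sm lam (E0 χ) X‖ ^ 2 ≤
        ∫ u, ‖EE χ X - E0 χ (X * Real.exp (-(Real.sqrt lam * u)))‖ ^ 2 * shb_p u := by
    intro r χ
    obtain ⟨h1, h2⟩ := shb_jensen (hmeas r χ) (A := X ^ 3 + X + 2 * X ^ 3) (k := 3)
      (by norm_num) (by positivity) (hbd r χ)
    refine ⟨h1, ?_⟩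
    have h3 : EE χ X - sm lam (E0 χ) X =
        ∫ u, (EE χ X - E0 χ (X * Real.exp (-(Real.sqrt lam * u)))) * (shb_p u : ℂ) := by
      have hi1 : Integrable (fun u : ℝ => EE χ X * (shb_p u : ℂ)) := shb_p_int.ofReal.const_mul _
      have hi2 : Integrable (fun u : ℝ => E0 χ (X * Real.exp (-(Real.sqrt lam * u))) *
          (shb_p u : ℂ)) := by
        refine ((shb_K 3).const_mul (2 * X ^ 3)).mono' ?_ (Filter.Eventually.of_forall fun u => ?_)
        · refine (((shb_meas_E0 χ).comp ?_).mul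
            (Complex.measurable_ofReal.comp shb_p_cont.measurable)).aestronglyMeasurable
          exact (by fun_prop : Continuous fun u : ℝ =>
            X * Real.exp (-(Real.sqrt lam * u))).measurable
        · have h4 := shb_E0_le χ (y := X * Real.exp (-(Real.sqrt lam * u)))
            (mul_nonneg hX0 (Real.exp_pos _).le)
          have h5 : Real.exp (-(Real.sqrt lam * u)) ≤ Real.exp |u| := by
            apply Real.exp_le_exp.mpr
            have h4 : -(Real.sqrt lam * u) ≤ |Real.sqrt lam * u| := neg_le_abs _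
            rw [abs_mul, abs_of_nonneg hs0] at h4
            nlinarith [abs_nonneg u]
          have h6 : (X * Real.exp (-(Real.sqrt lam * u))) ^ 3 ≤ X ^ 3 * Real.exp (3 * |u|) := by
            rw [mul_pow]
            refine mul_le_mul_of_nonneg_left ?_ (by positivity)
            have h6 := pow_le_pow_left₀ (Real.exp_pos _).le h5 3
            have h7 : Real.exp |u| ^ 3 = Real.exp (3 * |u|) := by
              rw [← Real.exp_nat_mul]
              push_cast
              ring_nf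
            rwa [h7] at h6
          rw [norm_mul, Complex.norm_real, Real.norm_eq_abs, abs_of_nonneg (shb_p_nonneg u)]
          have h7 : ‖E0 χ (X * Real.exp (-(Real.sqrt lam * u)))‖ ≤
              2 * X ^ 3 * Real.exp (3 * |u|) := by linarith
          have h8 := mul_le_mul_of_nonneg_right h7 (shb_p_nonneg u)
          linarith
      have h4 : (fun u : ℝ => (EE χ X - E0 χ (X * Real.exp (-(Real.sqrt lam * u)))) *
          (shb_p u : ℂ)) = fun u => EE χ X * (shb_p u : ℂ) -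
            E0 χ (X * Real.exp (-(Real.sqrt lam * u))) * (shb_p u : ℂ) := by
        funext u
        ring
      rw [h4, integral_sub hi1 hi2, integral_const_mul, integral_complex_ofReal, shb_p_one,
        shb_sm hl]
      simp
    rw [h3]
    exact h2
  have h1 := shb_SP_mono (R := R) fun r (χ : DirichletCharacter ℂ r) => (hj r χ).2
  obtain ⟨h2, h3⟩ := shb_SP (R := R) (F := fun r (χ : DirichletCharacter ℂ r) u =>
    ‖EE χ X - E0 χ (X * Real.exp (-(Real.sqrt lam * u)))‖ ^ 2 * shb_p u) fun r χ => (hj r χ).1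
  rw [h2] at h1
  refine h1.trans ?_
  set B := C * Real.log (X + 2) ^ 2 * ((R : ℝ) ^ 2 + s + 1) * (s + 1) with hB
  have hB0 : 0 ≤ B := by positivity
  have h4 : ∫ u, SP R (fun r χ => ‖EE χ X - E0 χ (X * Real.exp (-(Real.sqrt lam * u)))‖ ^ 2 *
      shb_p u) ≤ ∫ u, B * (Real.exp (6 * |u|) * shb_p u) := by
    refine integral_mono h3 ((shb_K 6).const_mul B) fun u => ?_
    show SP R (fun r χ => ‖EE χ X - E0 χ (X * Real.exp (-(Real.sqrt lam * u)))‖ ^ 2 *
      shb_p u) ≤ B * (Real.exp (6 * |u|) * shb_p u)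
    have h5 : SP R (fun r χ => ‖EE χ X - E0 χ (X * Real.exp (-(Real.sqrt lam * u)))‖ ^ 2 *
        shb_p u) = SP R (fun r χ => ‖EE χ X - E0 χ (X * Real.exp (-(Real.sqrt lam * u)))‖ ^ 2) *
          shb_p u := by
      unfold SP
      simp only [Finset.sum_mul]
    rw [h5, ← mul_assoc]
    refine mul_le_mul_of_nonneg_right ((hv R X (Real.sqrt lam * u) hR hX).trans ?_)
      (shb_p_nonneg u)
    have ha : |Real.sqrt lam * u| = Real.sqrt lam * |u| := by
      rw [abs_mul, abs_of_nonneg hs0]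
    rw [ha]
    set E := Real.exp |u| with hE
    have hE1 : 1 ≤ E := Real.one_le_exp (abs_nonneg u)
    have hu : Real.sqrt lam * |u| ≤ |u| := by nlinarith [abs_nonneg u]
    have hw1 : 1 + Real.sqrt lam * |u| ≤ E := by
      have := Real.add_one_le_exp |u|
      linarith
    have hu0 : 0 ≤ Real.sqrt lam * |u| := by positivity
    have hw2 : X * (Real.sqrt lam * |u|) * Real.exp (Real.sqrt lam * |u|) ≤ s * E ^ 2 := by
      have h6 : |u| ≤ E := by
        have := Real.add_one_le_exp |u|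
        linarith
      have h7 : Real.exp (Real.sqrt lam * |u|) ≤ E := Real.exp_le_exp.mpr hu
      calc X * (Real.sqrt lam * |u|) * Real.exp (Real.sqrt lam * |u|)
          = s * (|u| * Real.exp (Real.sqrt lam * |u|)) := by rw [hs]; ring
        _ ≤ s * (E * E) := by
            refine mul_le_mul_of_nonneg_left ?_ hs2
            exact mul_le_mul h6 h7 (Real.exp_pos _).le (by linarith)
        _ = s * E ^ 2 := by ring
    have hw0 : 0 ≤ X * (Real.sqrt lam * |u|) * Real.exp (Real.sqrt lam * |u|) := by positivity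
    have hE2 : 1 ≤ E ^ 2 := one_le_pow₀ hE1
    have h8 : (Real.log (X + 2) * (1 + Real.sqrt lam * |u|)) ^ 2 ≤
        Real.log (X + 2) ^ 2 * E ^ 2 := by
      rw [mul_pow]
      exact mul_le_mul_of_nonneg_left (pow_le_pow_left₀ (by positivity) hw1 2) (sq_nonneg _)
    have h9 : (R : ℝ) ^ 2 + X * (Real.sqrt lam * |u|) * Real.exp (Real.sqrt lam * |u|) + 1 ≤
        ((R : ℝ) ^ 2 + s + 1) * E ^ 2 := by
      nlinarith [sq_nonneg (R : ℝ)]
    have h10 : X * (Real.sqrt lam * |u|) * Real.exp (Real.sqrt lam * |u|) + 1 ≤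
        (s + 1) * E ^ 2 := by
      nlinarith
    have h11 : Real.exp (6 * |u|) = E ^ 2 * E ^ 2 * E ^ 2 := by
      rw [hE, ← Real.exp_nat_mul, ← Real.exp_add, ← Real.exp_add]
      congr 1
      push_cast
      ring
    rw [h11]
    calc C * (Real.log (X + 2) * (1 + Real.sqrt lam * |u|)) ^ 2 *
          ((R : ℝ) ^ 2 + X * (Real.sqrt lam * |u|) * Real.exp (Real.sqrt lam * |u|) + 1) *
          (X * (Real.sqrt lam * |u|) * Real.exp (Real.sqrt lam * |u|) + 1)
        ≤ C * (Real.log (X + 2) ^ 2 * E ^ 2) * (((R : ℝ) ^ 2 + s + 1) * E ^ 2) *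
          ((s + 1) * E ^ 2) := by gcongr
      _ = B * (E ^ 2 * E ^ 2 * E ^ 2) := by rw [hB]; ring
  refine h4.trans (le_of_eq ?_)
  rw [integral_const_mul, ← hM, hB]
  ring


end Pool.Agent.XS

namespace Pool.Agent.XS

/-- alias -/
theorem short : type_of% @short_pr := @short_pr

end Pool.Agent.XS
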