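import Pool.Agent.Lib_helper26.XS.Defs
import Pool.Agent.Lib_helper26.XSF.FM2
import Pool.Agent.Lib_helper26.XSF.KE1
import Pool.Agent.Lib_helper26.XSF.KE2
import Pool.Agent.Lib_helper26.XSF.KMC
import Pool.Agent.Lib_helper26.XSF.PTW
import Pool.Agent.Lib_helper26.XSF.RPA
import Pool.Agent.Lib_helper26.XSF.RPZ
import Pool.Agent.Lib_helper26.XSF.SHB

set_option autoImplicit false

namespace Pool.Agent.XS

open Finset Complex MeasureTheory Pool.Agent.Var35 Pool.Agent.Var73 Pool.Agent.HC Pool.Agent.MF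
open scoped ArithmeticFunction ArithmeticFunction.Moebius

private theorem kl_sp_le {R : ℕ} {f g : (r : ℕ) → DirichletCharacter ℂ r → ℝ}
    (h : ∀ r ∈ Ico R (2 * R), ∀ χ ∈ Pr r, f r χ ≤ g r χ) : SP R f ≤ SP R g :=
  sum_le_sum fun r hr => sum_le_sum fun χ hχ => h r hr χ hχ

private theorem kl_sp_three {R : ℕ} (f g k : (r : ℕ) → DirichletCharacter ℂ r → ℝ) :
    SP R (fun r χ => 3 * (f r χ + g r χ + k r χ)) = 3 * (SP R f + SP R g + SP R k) := by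
  unfold SP
  simp only [← mul_sum, sum_add_distrib]

private theorem kl_three {u a b d : ℂ} (h : u = a + b + d) :
    ‖u‖ ^ 2 ≤ 3 * (‖a‖ ^ 2 + ‖b‖ ^ 2 + ‖d‖ ^ 2) := by
  have e3 : ‖u‖ ≤ ‖a‖ + ‖b‖ + ‖d‖ := by
    rw [h]
    exact norm_add₃_le
  have e4 : ‖u‖ ^ 2 ≤ (‖a‖ + ‖b‖ + ‖d‖) ^ 2 := pow_le_pow_left₀ (norm_nonneg _) e3 2
  nlinarith [sq_nonneg (‖a‖ - ‖b‖), sq_nonneg (‖a‖ - ‖d‖), sq_nonneg (‖b‖ - ‖d‖)]

private theorem kl_rep {θ c : ℝ} (hθ : 1 / 2 ≤ θ) (h : ZF θ) (hc : θ < c) (hc1 : c < 1) (r z : ℕ)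
    (hr : 1 ≤ r) (χ : DirichletCharacter ℂ r) (hχ : χ ∈ Pr r) : Rep (E2 z χ) (KK z χ) c := by
  rcases Nat.lt_or_eq_of_le hr with h1 | h1
  · exact rep_chi hθ h hc hc1 r z h1 χ hχ
  · subst h1
    exact rep_one hθ h hc hc1 z χ

private theorem kl_cont {E : ℝ → ℂ} {H : ℂ → ℂ} {c : ℝ} (h : Rep E H c) (hc1 : c < 3) :
    Continuous (nH H c) := by
  obtain ⟨c', hc', hd⟩ := h.diff
  rw [continuous_iff_continuousAt]
  intro t
  have hopen : IsOpen {s : ℂ | c' < s.re ∧ s.re < 3} :=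
    (isOpen_lt continuous_const Complex.continuous_re).inter
      (isOpen_lt Complex.continuous_re continuous_const)
  have hmem : ((c : ℂ) + t * I) ∈ {s : ℂ | c' < s.re ∧ s.re < 3} := by
    have e : ((c : ℂ) + t * I).re = c := by simp
    rw [Set.mem_ofPred_eq, e]
    exact ⟨hc', hc1⟩
  have h1 : ContinuousAt H ((c : ℂ) + t * I) :=
    ((hd _ hmem).differentiableAt (hopen.mem_nhds hmem)).continuousAt
  have h2 : ContinuousAt (fun t : ℝ => (c : ℂ) + t * I) t := by fun_prop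
  exact (ContinuousAt.comp (g := H) (f := fun t : ℝ => (c : ℂ) + t * I) h1 h2).norm

private theorem kl_two {θ c : ℝ} (hθ : 5 / 6 ≤ θ) (h : ZF θ) (hc : θ < c) (hc1 : c < 1) {ε : ℝ}
    (hε : 0 < ε) (hε1 : ε ≤ 1 / 4) : ∃ C : ℝ, 1 ≤ C ∧ ∀ (R : ℕ) (X lam : ℝ), 1 ≤ R → 1 ≤ X →
    0 < lam → lam ≤ 1 → SP R (fun r χ => ‖sm lam (E2 (zR R) χ) X‖ ^ 2) ≤
      C * X ^ (2 * c) * (R : ℝ) ^ (1 + ε) * lam ^ (-ε) := by
  obtain ⟨C1, hC1, hkm⟩ := km hθ h hc hc1 hε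
  obtain ⟨C2, hC2, hf⟩ := fam_two hε hε1
  refine ⟨4 * C2 * C1, by nlinarith, ?_⟩
  intro R X lam hR hX hl hl1
  have hr1 : ∀ r ∈ Ico R (2 * R), 1 ≤ r := fun r hr => hR.trans (mem_Ico.1 hr).1
  have hrep : ∀ r ∈ Ico R (2 * R), ∀ χ ∈ Pr r, Rep (E2 (zR R) χ) (KK (zR R) χ) c :=
    fun r hr χ hχ => kl_rep (by linarith) h hc hc1 r (zR R) (hr1 r hr) χ hχ
  have key := hf (Σ r : ℕ, DirichletCharacter ℂ r) ((Ico R (2 * R)).sigma (fun r => Pr r))
    (fun i => nH (KK (zR R) i.2) c)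
    (fun i hi => kl_cont (hrep i.1 (mem_sigma.1 hi).1 i.2 (mem_sigma.1 hi).2) (by linarith))
    (fun i _ t => norm_nonneg _) (C1 * (R : ℝ) ^ (1 + ε)) (by positivity)
    (by
      intro T hT
      have h1 := hkm R hR T hT
      rw [Real.mul_rpow (by positivity) (by linarith)] at h1
      unfold SP at h1
      rw [sum_sigma'] at h1
      rw [mul_assoc]
      exact h1) lam hl hl1
  have h2 : SP R (fun r χ => ‖sm lam (E2 (zR R) χ) X‖ ^ 2) ≤
      SP R (fun r χ => 4 * X ^ (2 * c) * Q2 lam (nH (KK (zR R) χ) c)) :=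
    kl_sp_le fun r hr χ hχ => sm_ptw (hrep r hr χ hχ) (by linarith) hc1.le hl hl1 (by linarith)
  have h3 : SP R (fun r χ => 4 * X ^ (2 * c) * Q2 lam (nH (KK (zR R) χ) c)) =
      4 * X ^ (2 * c) * ∑ i ∈ (Ico R (2 * R)).sigma (fun r => Pr r),
        Q2 lam (nH (KK (zR R) i.2) c) := by
    unfold SP
    simp only [← mul_sum]
    rw [sum_sigma']
  rw [h3] at h2
  refine h2.trans ?_
  calc 4 * X ^ (2 * c) * ∑ i ∈ (Ico R (2 * R)).sigma (fun r => Pr r),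
        Q2 lam (nH (KK (zR R) i.2) c)
      ≤ 4 * X ^ (2 * c) * (C2 * (C1 * (R : ℝ) ^ (1 + ε)) * lam ^ (-ε)) :=
        mul_le_mul_of_nonneg_left key (by positivity)
    _ = 4 * C2 * C1 * X ^ (2 * c) * (R : ℝ) ^ (1 + ε) * lam ^ (-ε) := by ring

private theorem kl_log {ε : ℝ} (hε : 0 < ε) : ∃ A : ℝ, 1 ≤ A ∧ ∀ X : ℝ, 1 ≤ X →
    1 ≤ Real.log (X + 2) ∧ Real.log (X + 2) ^ 4 ≤ A * X ^ ε := by
  set δ := ε / 4 with hδ
  have hδ0 : 0 < δ := by positivity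
  refine ⟨max 1 ((3 ^ δ / δ) ^ 4), le_max_left _ _, fun X hX => ?_⟩
  have hl : 1 ≤ Real.log (X + 2) := by
    rw [Real.le_log_iff_exp_le (by linarith)]
    have := Real.exp_one_lt_d9
    linarith
  refine ⟨hl, ?_⟩
  have h1 : Real.log (X + 2) ≤ 3 ^ δ / δ * X ^ δ := by
    calc Real.log (X + 2) ≤ (X + 2) ^ δ / δ := Real.log_le_rpow_div (by linarith) hδ0
      _ ≤ (3 * X) ^ δ / δ := by
          apply div_le_div_of_nonneg_right _ hδ0.le
          exact Real.rpow_le_rpow (by linarith) (by linarith) hδ0.le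
      _ = 3 ^ δ / δ * X ^ δ := by
          rw [Real.mul_rpow (by norm_num) (by linarith)]
          ring
  calc Real.log (X + 2) ^ 4 ≤ (3 ^ δ / δ * X ^ δ) ^ 4 := pow_le_pow_left₀ (by linarith) h1 4
    _ = (3 ^ δ / δ) ^ 4 * X ^ ε := by
        rw [mul_pow]
        congr 1
        rw [← Real.rpow_natCast (X ^ δ) 4, ← Real.rpow_mul (by linarith)]
        congr 1
        rw [hδ]
        push_cast
        ring
    _ ≤ max 1 ((3 ^ δ / δ) ^ 4) * X ^ ε :=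
        mul_le_mul_of_nonneg_right (le_max_right _ _) (by positivity)

theorem kl_pr {θ c : ℝ} (hθ : 5 / 6 ≤ θ) (h : ZF θ) (hc : θ < c) (hc1 : c < 1) {ε : ℝ}
    (hε : 0 < ε) : ∃ C : ℝ, 1 ≤ C ∧ ∀ (R : ℕ) (X : ℝ), 1 ≤ R → (R : ℝ) ^ 3 ≤ X →
    SP R (fun r χ => ‖EE χ X‖ ^ 2) ≤ C * R * X ^ (2 * c + ε) := by
  obtain ⟨A, hA, hlog⟩ := kl_log hε
  obtain ⟨C1, hC1, h1⟩ := short
  set δ := min (ε / 3) (1 / 4) with hδ
  have hδ0 : 0 < δ := lt_min (by positivity) (by norm_num)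
  obtain ⟨C2, hC2, h2⟩ := kl_two hθ h hc hc1 hδ0 (min_le_right _ _)
  obtain ⟨C3, hC3, h3⟩ := ei_sm
  refine ⟨3 * (6 * C1 * A + C2 + C3 * A), by nlinarith, ?_⟩
  intro R X hR hRX
  have hR1 : (1 : ℝ) ≤ R := by exact_mod_cast hR
  have hR0 : (0 : ℝ) < R := by linarith
  have hRX1 : (R : ℝ) ≤ X := by
    refine le_trans ?_ hRX
    nlinarith [mul_nonneg (sub_nonneg.2 hR1) (sub_nonneg.2 hR1)]
  have hX : 1 ≤ X := hR1.trans hRX1
  have hX0 : 0 < X := by linarith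
  obtain ⟨hL1, hL⟩ := hlog X hX
  set L := Real.log (X + 2) with hLdef
  have hL0 : 0 ≤ L := by linarith
  -- the parameter
  set T := max 1 (X ^ (1 - c) * (R : ℝ) ^ (-(1 / 2) : ℝ)) with hT
  have hT1 : 1 ≤ T := le_max_left _ _
  have hT0 : 0 < T := by linarith
  set lam := (T ^ 2)⁻¹ with hlam
  have hl : 0 < lam := by positivity
  have hl1 : lam ≤ 1 := inv_le_one_of_one_le₀ (one_le_pow₀ hT1)
  have hsq : Real.sqrt lam = T⁻¹ := by
    rw [hlam, Real.sqrt_inv, Real.sqrt_sq hT0.le]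
  set W := X ^ c * (R : ℝ) ^ (1 / 2 : ℝ) with hW
  have hXc : 1 ≤ X ^ c := Real.one_le_rpow hX (by linarith)
  have hRh : 1 ≤ (R : ℝ) ^ (1 / 2 : ℝ) := Real.one_le_rpow hR1 (by norm_num)
  have hW1 : 1 ≤ W := by nlinarith
  have hWW : W * W = X ^ (2 * c) * R := by
    rw [hW]
    have e1 : X ^ (2 * c) = X ^ c * X ^ c := by
      rw [← Real.rpow_add hX0]; congr 1; ring
    have e2 : (R : ℝ) = (R : ℝ) ^ (1 / 2 : ℝ) * (R : ℝ) ^ (1 / 2 : ℝ) := by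
      rw [← Real.rpow_add hR0]; norm_num
    calc X ^ c * (R : ℝ) ^ (1 / 2 : ℝ) * (X ^ c * (R : ℝ) ^ (1 / 2 : ℝ)) =
        (X ^ c * X ^ c) * ((R : ℝ) ^ (1 / 2 : ℝ) * (R : ℝ) ^ (1 / 2 : ℝ)) := by ring
      _ = X ^ (2 * c) * R := by rw [← e1, ← e2]
  have hXT : X * Real.sqrt lam ≤ W := by
    rw [hsq, ← div_eq_mul_inv, div_le_iff₀ hT0]
    have e1 : W * (X ^ (1 - c) * (R : ℝ) ^ (-(1 / 2) : ℝ)) = X := by
      have e2 : X ^ c * X ^ (1 - c) = X := by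
        rw [← Real.rpow_add hX0, add_sub_cancel, Real.rpow_one]
      have e3 : (R : ℝ) ^ (1 / 2 : ℝ) * (R : ℝ) ^ (-(1 / 2) : ℝ) = 1 := by
        rw [← Real.rpow_add hR0, add_neg_cancel, Real.rpow_zero]
      calc W * (X ^ (1 - c) * (R : ℝ) ^ (-(1 / 2) : ℝ)) =
          (X ^ c * X ^ (1 - c)) * ((R : ℝ) ^ (1 / 2 : ℝ) * (R : ℝ) ^ (-(1 / 2) : ℝ)) := by
            rw [hW]; ring
        _ = X := by rw [e2, e3, mul_one]
    calc X = W * (X ^ (1 - c) * (R : ℝ) ^ (-(1 / 2) : ℝ)) := e1.symm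
      _ ≤ W * T := mul_le_mul_of_nonneg_left (le_max_right _ _) (by linarith)
  have hR2 : (R : ℝ) ^ 2 ≤ W := by
    have e1 : (R : ℝ) ^ 2 = (R : ℝ) ^ (3 / 2 : ℝ) * (R : ℝ) ^ (1 / 2 : ℝ) := by
      rw [← Real.rpow_add hR0, ← Real.rpow_natCast]; norm_num
    have e2 : (R : ℝ) ^ (3 / 2 : ℝ) ≤ X ^ c := by
      calc (R : ℝ) ^ (3 / 2 : ℝ) = ((R : ℝ) ^ 3) ^ (1 / 2 : ℝ) := by
            rw [← Real.rpow_natCast, ← Real.rpow_mul hR0.le]; norm_num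
        _ ≤ X ^ (1 / 2 : ℝ) := Real.rpow_le_rpow (by positivity) hRX (by norm_num)
        _ ≤ X ^ c := Real.rpow_le_rpow_of_exponent_le hX (by linarith)
    rw [e1, hW]
    exact mul_le_mul_of_nonneg_right e2 (by linarith)
  have hR5 : (R : ℝ) ^ 5 ≤ X ^ (2 * c) := by
    calc (R : ℝ) ^ 5 = ((R : ℝ) ^ 3) ^ (5 / 3 : ℝ) := by
          rw [← Real.rpow_natCast, ← Real.rpow_natCast, ← Real.rpow_mul hR0.le]; norm_num
      _ ≤ X ^ (5 / 3 : ℝ) := Real.rpow_le_rpow (by positivity) hRX (by norm_num)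
      _ ≤ X ^ (2 * c) := Real.rpow_le_rpow_of_exponent_le hX (by linarith)
  have hTX : T ≤ X := by
    apply max_le hX
    calc X ^ (1 - c) * (R : ℝ) ^ (-(1 / 2) : ℝ) ≤ X ^ (1 : ℝ) * 1 := by
          apply mul_le_mul (Real.rpow_le_rpow_of_exponent_le hX (by linarith))
            (Real.rpow_le_one_of_one_le_of_nonpos hR1 (by norm_num)) (by positivity)
            (by positivity)
      _ = X := by rw [Real.rpow_one, mul_one]
  have hlamT : lam ^ (-δ) ≤ X ^ (2 * δ) := by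
    have e1 : lam ^ (-δ) = T ^ (2 * δ) := by
      rw [hlam, ← Real.rpow_natCast, ← Real.rpow_neg hT0.le, ← Real.rpow_mul hT0.le]
      congr 1
      push_cast
      ring
    rw [e1]
    exact Real.rpow_le_rpow hT0.le hTX (by positivity)
  have hXsum : X ^ (2 * c + ε) = X ^ (2 * c) * X ^ ε := Real.rpow_add hX0 _ _
  have hXc2 : 0 < X ^ (2 * c) := by positivity
  have hXe : 1 ≤ X ^ ε := Real.one_le_rpow hX hε.le
  -- the three parts
  have k1 : SP R (fun r χ => ‖EE χ X - sm lam (E0 χ) X‖ ^ 2) ≤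
      6 * C1 * A * R * X ^ (2 * c + ε) := by
    have hL2 : L ^ 2 ≤ A * X ^ ε :=
      (pow_le_pow_right₀ hL1 (by norm_num)).trans hL
    have ha : 0 ≤ X * Real.sqrt lam := by positivity
    have m1 : (R : ℝ) ^ 2 + X * Real.sqrt lam + 1 ≤ 3 * W := by linarith
    have m2 : X * Real.sqrt lam + 1 ≤ 2 * W := by linarith
    calc SP R (fun r χ => ‖EE χ X - sm lam (E0 χ) X‖ ^ 2)
        ≤ C1 * L ^ 2 * ((R : ℝ) ^ 2 + X * Real.sqrt lam + 1) * (X * Real.sqrt lam + 1) :=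
          h1 R X lam hR hX hl hl1
      _ ≤ C1 * (A * X ^ ε) * (3 * W) * (2 * W) := by
          apply mul_le_mul _ m2 (by positivity) (by positivity)
          apply mul_le_mul _ m1 (by positivity) (by positivity)
          exact mul_le_mul_of_nonneg_left hL2 (by linarith)
      _ = 6 * C1 * A * X ^ ε * (W * W) := by ring
      _ = 6 * C1 * A * R * X ^ (2 * c + ε) := by rw [hWW, hXsum]; ring
  have k2 : SP R (fun r χ => ‖sm lam (E2 (zR R) χ) X‖ ^ 2) ≤ C2 * R * X ^ (2 * c + ε) := by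
    have m1 : (R : ℝ) ^ (1 + δ) ≤ R * X ^ δ := by
      rw [Real.rpow_add hR0, Real.rpow_one]
      exact mul_le_mul_of_nonneg_left (Real.rpow_le_rpow hR0.le hRX1 hδ0.le) hR0.le
    have m2 : X ^ δ * X ^ (2 * δ) ≤ X ^ ε := by
      rw [← Real.rpow_add hX0]
      apply Real.rpow_le_rpow_of_exponent_le hX
      have := min_le_left (ε / 3) (1 / 4 : ℝ)
      rw [← hδ] at this
      linarith
    calc SP R (fun r χ => ‖sm lam (E2 (zR R) χ) X‖ ^ 2)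
        ≤ C2 * X ^ (2 * c) * (R : ℝ) ^ (1 + δ) * lam ^ (-δ) := h2 R X lam hR hX hl hl1
      _ ≤ C2 * X ^ (2 * c) * (R * X ^ δ) * X ^ (2 * δ) := by
          apply mul_le_mul _ hlamT (by positivity) (by positivity)
          exact mul_le_mul_of_nonneg_left m1 (by positivity)
      _ = C2 * R * (X ^ (2 * c) * (X ^ δ * X ^ (2 * δ))) := by ring
      _ ≤ C2 * R * (X ^ (2 * c) * X ^ ε) := by
          apply mul_le_mul_of_nonneg_left _ (by positivity)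
          exact mul_le_mul_of_nonneg_left m2 hXc2.le
      _ = C2 * R * X ^ (2 * c + ε) := by rw [hXsum]
  have k3 : SP R (fun r χ => ‖sm lam (EI (zR R) χ) X‖ ^ 2) ≤ C3 * A * R * X ^ (2 * c + ε) := by
    have m1 : Real.log (R + 1) ≤ L := Real.log_le_log (by linarith) (by linarith)
    have m0 : 0 ≤ Real.log ((R : ℝ) + 1) := Real.log_nonneg (by linarith)
    have m2 : Real.log (R + 1) ^ 2 ≤ L ^ 2 := pow_le_pow_left₀ m0 m1 2
    calc SP R (fun r χ => ‖sm lam (EI (zR R) χ) X‖ ^ 2)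
        ≤ C3 * (R : ℝ) ^ 6 * Real.log (R + 1) ^ 2 * L ^ 2 := h3 R X lam hR hX hl hl1
      _ ≤ C3 * (R : ℝ) ^ 6 * L ^ 2 * L ^ 2 := by
          apply mul_le_mul_of_nonneg_right _ (by positivity)
          exact mul_le_mul_of_nonneg_left m2 (by positivity)
      _ = C3 * R * ((R : ℝ) ^ 5 * L ^ 4) := by ring
      _ ≤ C3 * R * (X ^ (2 * c) * (A * X ^ ε)) := by
          apply mul_le_mul_of_nonneg_left _ (by positivity)
          exact mul_le_mul hR5 hL (by positivity) hXc2.le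
      _ = C3 * A * R * X ^ (2 * c + ε) := by rw [hXsum]; ring
  have k4 : SP R (fun r χ => ‖EE χ X‖ ^ 2) ≤ SP R (fun r χ =>
      3 * (‖EE χ X - sm lam (E0 χ) X‖ ^ 2 + ‖sm lam (E2 (zR R) χ) X‖ ^ 2 +
        ‖sm lam (EI (zR R) χ) X‖ ^ 2)) := by
    apply kl_sp_le
    intro r hr χ hχ
    have e1 := sm_split (zR R) r χ hl hX
    have e2 : EE χ X = (EE χ X - sm lam (E0 χ) X) + sm lam (E2 (zR R) χ) X +
        sm lam (EI (zR R) χ) X := by
      rw [e1]; ring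
    exact kl_three e2
  rw [kl_sp_three] at k4
  refine k4.trans ?_
  calc 3 * (SP R (fun r χ => ‖EE χ X - sm lam (E0 χ) X‖ ^ 2) +
        SP R (fun r χ => ‖sm lam (E2 (zR R) χ) X‖ ^ 2) +
        SP R (fun r χ => ‖sm lam (EI (zR R) χ) X‖ ^ 2))
      ≤ 3 * (6 * C1 * A * R * X ^ (2 * c + ε) + C2 * R * X ^ (2 * c + ε) +
        C3 * A * R * X ^ (2 * c + ε)) := by linarith
    _ = 3 * (6 * C1 * A + C2 + C3 * A) * R * X ^ (2 * c + ε) := by ring

end Pool.Agent.XS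

namespace Pool.Agent.XS

/-- alias -/
theorem kl : type_of% @kl_pr := @kl_pr

end Pool.Agent.XS
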