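import Pool.Agent.Lib_helper26.XS.Defs
import Pool.Agent.Lib_helper26.XSF.SHF

set_option autoImplicit false

namespace Pool.Agent.XS

open Finset Complex MeasureTheory Pool.Agent.Var35 Pool.Agent.Var73 Pool.Agent.HC Pool.Agent.MF
open scoped ArithmeticFunction ArithmeticFunction.Moebius Topology

private lemma der_gs_norm (lam c t : ℝ) :
    ‖gs lam c t‖ = Real.exp (lam * c ^ 2) * Real.exp (-lam * t ^ 2) := by
  unfold gs
  rw [Complex.norm_exp, ← Real.exp_add]
  congr 1
  have : ((lam : ℂ) * ((c : ℂ) + t * I) ^ 2) =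
      ((lam * (c ^ 2 - t ^ 2) : ℝ) : ℂ) + ((2 * lam * c * t : ℝ) : ℂ) * I := by
    push_cast
    ring_nf
    rw [Complex.I_sq]; ring
  rw [this, Complex.add_re, Complex.ofReal_re, Complex.re_ofReal_mul, Complex.I_re]
  ring

private lemma der_gs_cont (lam c : ℝ) : Continuous (gs lam c) := by
  unfold gs; fun_prop

/-- a polynomial times a Gaussian is integrable -/
private lemma der_int (m : ℕ) {lam : ℝ} (hl : 0 < lam) :
    Integrable (fun t : ℝ => (1 + |t|) ^ m * Real.exp (-lam * t ^ 2)) := by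
  have h1 : Integrable (fun t : ℝ => Real.exp (-lam * t ^ 2)) := integrable_exp_neg_mul_sq hl
  have h2 : Integrable (fun t : ℝ => |t| ^ m * Real.exp (-lam * t ^ 2)) := by
    have := (integrable_rpow_mul_exp_neg_mul_sq hl (s := (m : ℝ))
      (by have : (0 : ℝ) ≤ m := Nat.cast_nonneg m; linarith)).norm
    refine this.congr (Filter.Eventually.of_forall (fun t => ?_))
    simp only [Real.rpow_natCast, norm_mul, norm_pow, Real.norm_eq_abs, Real.abs_exp]
  have h3 := ((h1.add h2).const_mul ((2 : ℝ) ^ m))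
  refine h3.mono' ?_ (Filter.Eventually.of_forall (fun t => ?_))
  · apply Continuous.aestronglyMeasurable; fun_prop
  · rw [Real.norm_of_nonneg (by positivity)]
    have h4 : (1 + |t|) ^ m ≤ 2 ^ m * (1 + |t| ^ m) := by
      rcases le_total |t| 1 with ht | ht
      · calc (1 + |t|) ^ m ≤ 2 ^ m := pow_le_pow_left₀ (by positivity) (by linarith) m
          _ ≤ 2 ^ m * (1 + |t| ^ m) := by
            have : 0 ≤ |t| ^ m := by positivity
            have h2m : (0 : ℝ) ≤ 2 ^ m := by positivity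
            nlinarith
      · calc (1 + |t|) ^ m ≤ (2 * |t|) ^ m := pow_le_pow_left₀ (by positivity) (by linarith) m
          _ = 2 ^ m * |t| ^ m := by rw [mul_pow]
          _ ≤ 2 ^ m * (1 + |t| ^ m) := by
            have h2m : (0 : ℝ) ≤ 2 ^ m := by positivity
            nlinarith
    have h5 : 0 < Real.exp (-lam * t ^ 2) := Real.exp_pos _
    calc (1 + |t|) ^ m * Real.exp (-lam * t ^ 2) ≤
        2 ^ m * (1 + |t| ^ m) * Real.exp (-lam * t ^ 2) := by gcongr
      _ = _ := by simp only [Pi.add_apply]; ring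

private lemma der_H_cont {E : ℝ → ℂ} {H : ℂ → ℂ} {c : ℝ} (h : Rep E H c) (hc1 : c ≤ 1) :
    Continuous (fun t : ℝ => H (c + t * I)) := by
  obtain ⟨c', hc', hd⟩ := h.diff
  have h1 : ContinuousOn H {s : ℂ | c' < s.re ∧ s.re < 3} := hd.continuousOn
  apply h1.comp_continuous (by fun_prop)
  intro t
  simp only [Set.mem_setOf_eq, add_re, ofReal_re, mul_re, I_re, mul_zero, ofReal_im, I_im,
    mul_one, sub_self, add_zero]
  exact ⟨hc', by linarith⟩

private lemma der_H_bound {E : ℝ → ℂ} {H : ℂ → ℂ} {c : ℝ} (h : Rep E H c) (hc1 : c ≤ 1) :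
    ∃ A : ℝ, 0 ≤ A ∧ ∃ m : ℕ, ∀ t : ℝ, ‖H (c + t * I)‖ ≤ A * (1 + |t|) ^ m := by
  obtain ⟨A, m, hb⟩ := h.growth
  refine ⟨A, ?_, m, ?_⟩
  · have := (norm_nonneg _).trans (hb (c : ℂ) (by simp) (by simp; linarith))
    simpa using this
  · intro t
    have := hb (c + t * I) (by simp) (by simp; linarith)
    simpa using this

private lemma der_cpow_norm {y c : ℝ} (hy : 0 < y) (t : ℝ) :
    ‖(y : ℂ) ^ ((c : ℂ) - 1 + t * I)‖ = y ^ (c - 1) := by
  rw [Complex.norm_cpow_eq_rpow_re_of_pos hy]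
  simp

/-- the majorant of the derivative on `(x/2, 2x)` -/
private lemma der_bound {E : ℝ → ℂ} {H : ℂ → ℂ} {c : ℝ} (h : Rep E H c) (hc1 : c ≤ 1)
    {lam x : ℝ} (hl : 0 < lam) (hx : 0 < x) :
    ∃ b : ℝ → ℝ, Integrable b ∧ ∀ t : ℝ, ∀ y : ℝ, x / 2 < y →
      ‖H (c + t * I) * gs lam c t * (y : ℂ) ^ ((c : ℂ) - 1 + t * I)‖ ≤ b t := by
  obtain ⟨A, hA, m, hb⟩ := der_H_bound h hc1
  refine ⟨fun t => (A * Real.exp (lam * c ^ 2) * (x / 2) ^ (c - 1)) *
    ((1 + |t|) ^ m * Real.exp (-lam * t ^ 2)), (der_int m hl).const_mul _, ?_⟩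
  intro t y hy
  have hy0 : 0 < y := by linarith
  rw [norm_mul, norm_mul, der_gs_norm, der_cpow_norm hy0]
  have h1 : y ^ (c - 1) ≤ (x / 2) ^ (c - 1) :=
    Real.rpow_le_rpow_of_nonpos (by linarith) hy.le (by linarith)
  have h2 := hb t
  calc ‖H (c + t * I)‖ * (Real.exp (lam * c ^ 2) * Real.exp (-lam * t ^ 2)) * y ^ (c - 1) ≤
      (A * (1 + |t|) ^ m) * (Real.exp (lam * c ^ 2) * Real.exp (-lam * t ^ 2)) *
        (x / 2) ^ (c - 1) := by gcongr
    _ = _ := by ring

theorem sm_deriv_pr {E : ℝ → ℂ} {H : ℂ → ℂ} {c : ℝ} (h : Rep E H c) (hc : 3 / 4 ≤ c) (hc1 : c ≤ 1)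
    {lam x : ℝ} (hl : 0 < lam) (hx : 0 < x) : HasDerivAt (sm lam E) (gd lam H c x) x := by
  obtain ⟨b, hbi, hb⟩ := der_bound h hc1 hl hx
  have hHc := der_H_cont h hc1
  obtain ⟨A, hA, m, hAb⟩ := der_H_bound h hc1
  have hne : ∀ t : ℝ, (c : ℂ) + t * I ≠ 0 := by
    intro t ht
    have := congrArg Complex.re ht
    simp at this
    linarith
  -- the function on a neighbourhood
  set F : ℝ → ℝ → ℂ := fun y t =>
    H (c + t * I) / (c + t * I) * gs lam c t * (y : ℂ) ^ ((c : ℂ) + t * I) with hF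
  set F' : ℝ → ℝ → ℂ := fun y t =>
    H (c + t * I) * gs lam c t * (y : ℂ) ^ ((c : ℂ) - 1 + t * I) with hF'
  have hcpow : ∀ y : ℝ, 0 < y → ∀ w : ℂ, Continuous (fun t : ℝ => (y : ℂ) ^ (w + t * I)) := by
    intro y hy w
    refine continuous_iff_continuousAt.mpr (fun t => ?_)
    refine ContinuousAt.const_cpow (by fun_prop) (Or.inl ?_)
    exact_mod_cast hy.ne'
  have hFc : ∀ y : ℝ, 0 < y → Continuous (F y) := by
    intro y hy
    exact ((hHc.div (by fun_prop) hne).mul (der_gs_cont lam c)).mul (hcpow y hy c)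
  have hF'c : ∀ y : ℝ, 0 < y → Continuous (F' y) := by
    intro y hy
    exact (hHc.mul (der_gs_cont lam c)).mul (hcpow y hy (c - 1))
  have key := hasDerivAt_integral_of_dominated_loc_of_deriv_le (F := F) (F' := F')
    (x₀ := x) (s := Set.Ioo (x / 2) (2 * x)) (bound := b)
    (Ioo_mem_nhds (by linarith) (by linarith))
    (by
      filter_upwards [Ioo_mem_nhds (show x / 2 < x by linarith) (show x < 2 * x by linarith)]
        with y hy
      exact (hFc y (by linarith [hy.1])).aestronglyMeasurable)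
    (by
      refine ((der_int m hl).const_mul
        (2 * A * Real.exp (lam * c ^ 2) * x ^ c)).mono' (hFc x hx).aestronglyMeasurable ?_
      refine Filter.Eventually.of_forall (fun t => ?_)
      simp only [hF]
      rw [norm_mul, norm_mul, norm_div, der_gs_norm, Complex.norm_cpow_eq_rpow_re_of_pos hx]
      have e1 : ((c : ℂ) + t * I).re = c := by simp
      rw [e1]
      have h1 : 1 / 2 ≤ ‖(c : ℂ) + t * I‖ := by
        have := Complex.abs_re_le_norm ((c : ℂ) + t * I)
        rw [e1, abs_of_nonneg (by linarith)] at this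
        linarith
      have h2 : ‖H (c + t * I)‖ / ‖(c : ℂ) + t * I‖ ≤ 2 * (A * (1 + |t|) ^ m) := by
        rw [div_le_iff₀ (by linarith)]
        have h3 := hAb t
        have h4 : 0 ≤ A * (1 + |t|) ^ m := by positivity
        nlinarith
      calc ‖H (c + t * I)‖ / ‖(c : ℂ) + t * I‖ *
            (Real.exp (lam * c ^ 2) * Real.exp (-lam * t ^ 2)) * x ^ c ≤
          2 * (A * (1 + |t|) ^ m) * (Real.exp (lam * c ^ 2) * Real.exp (-lam * t ^ 2)) * x ^ c := by
            gcongr
        _ = _ := by ring)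
    (hF'c x hx).aestronglyMeasurable
    (Filter.Eventually.of_forall (fun t y hy => hb t y hy.1))
    hbi
    (by
      refine Filter.Eventually.of_forall (fun t y hy => ?_)
      have hy0 : 0 < y := by linarith [hy.1]
      have h1 : HasDerivAt (fun y : ℝ => (y : ℂ) ^ ((c : ℂ) + t * I))
          (((c : ℂ) + t * I) * (y : ℂ) ^ ((c : ℂ) + t * I - 1)) y :=
        hasDerivAt_ofReal_cpow_const hy0.ne' (hne t)
      have h2 := h1.const_mul (H (c + t * I) / (c + t * I) * gs lam c t)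
      have e2 : F' y t = H (c + t * I) / (c + t * I) * gs lam c t *
          (((c : ℂ) + t * I) * (y : ℂ) ^ ((c : ℂ) + t * I - 1)) := by
        simp only [hF']
        have e3 : (c : ℂ) - 1 + t * I = (c : ℂ) + t * I - 1 := by ring
        rw [e3]
        have := hne t
        field_simp
      rw [e2]
      exact h2)
  have key2 := key.2.const_mul (((1 / (2 * Real.pi) : ℝ) : ℂ))
  have e1 : gd lam H c x = ((1 / (2 * Real.pi) : ℝ) : ℂ) * ∫ t : ℝ, F' x t := rfl
  rw [e1]
  refine key2.congr_of_eventuallyEq ?_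
  filter_upwards [Ioi_mem_nhds hx] with y hy
  exact sm_line h hc hc1 hl hy

theorem gd_cont_pr {E : ℝ → ℂ} {H : ℂ → ℂ} {c : ℝ} (h : Rep E H c) (hc : 3 / 4 ≤ c) (hc1 : c ≤ 1)
    {lam : ℝ} (hl : 0 < lam) : ContinuousOn (gd lam H c) (Set.Ioi 0) := by
  intro x hx
  have hx0 : 0 < x := hx
  apply ContinuousAt.continuousWithinAt
  obtain ⟨b, hbi, hb⟩ := der_bound h hc1 hl hx0
  have hHc := der_H_cont h hc1
  unfold gd
  refine continuousAt_const.mul ?_
  apply continuousAt_of_dominated (bound := b) _ _ hbi _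
  · filter_upwards [Ioi_mem_nhds hx0] with y hy
    apply Continuous.aestronglyMeasurable
    refine (hHc.mul (der_gs_cont lam c)).mul ?_
    refine continuous_iff_continuousAt.mpr (fun t => ?_)
    refine ContinuousAt.const_cpow (by fun_prop) (Or.inl ?_)
    exact_mod_cast (ne_of_gt hy : y ≠ 0)
  · filter_upwards [Ioi_mem_nhds (show x / 2 < x by linarith)] with y hy
    exact Filter.Eventually.of_forall (fun t => hb t y hy)
  · refine Filter.Eventually.of_forall (fun t => ?_)
    refine continuousAt_const.mul ?_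
    exact Complex.continuousAt_ofReal_cpow_const x _ (Or.inr hx0.ne')

end Pool.Agent.XS

namespace Pool.Agent.XS

/-- alias -/
theorem sm_deriv : type_of% @sm_deriv_pr := @sm_deriv_pr

/-- alias -/
theorem gd_cont : type_of% @gd_cont_pr := @gd_cont_pr

end Pool.Agent.XS
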