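import Pool.Agent.Lib_helper26.XS.Defs
import Pool.Agent.Lib_helper26.XSF.DER
import Pool.Agent.Lib_helper58.Planch
/-! Block DL2 of project XS: the mean square of the derivative of the smoothing. -/

set_option autoImplicit false

namespace Pool.Agent.XS

open Finset Complex MeasureTheory Pool.Agent.Var35 Pool.Agent.Var73 Pool.Agent.HC Pool.Agent.MF
open scoped ArithmeticFunction ArithmeticFunction.Moebius FourierTransform

/-- the integrand on the line -/
noncomputable def dl2_f (lam : ℝ) (H : ℂ → ℂ) (c t : ℝ) : ℂ := H (c + t * I) * gs lam c t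

theorem dl2_gs (lam c t : ℝ) : ‖gs lam c t‖ = Real.exp (lam * (c ^ 2 - t ^ 2)) := by
  unfold gs
  rw [Complex.norm_exp]
  congr 1
  have : ((lam : ℂ) * ((c : ℂ) + t * I) ^ 2) = ((lam * (c ^ 2 - t ^ 2) : ℝ) : ℂ) +
      ((lam * (2 * c * t) : ℝ) : ℂ) * I := by
    push_cast
    ring_nf
    rw [I_sq]
    ring
  rw [this, add_re, ofReal_re, re_ofReal_mul, I_re, mul_zero, add_zero]

theorem dl2_cont {E : ℝ → ℂ} {H : ℂ → ℂ} {c : ℝ} (h : Rep E H c) (hc1 : c ≤ 1) (lam : ℝ) :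
    Continuous (dl2_f lam H c) := by
  unfold dl2_f gs
  refine Continuous.mul ?_ (by fun_prop)
  obtain ⟨c', hc', hd⟩ := h.diff
  refine hd.continuousOn.comp_continuous (by fun_prop) (fun t => ?_)
  have h1 : ((c : ℂ) + t * I).re = c := by simp
  exact ⟨by rw [h1]; exact hc', by rw [h1]; linarith⟩

theorem dl2_bound {E : ℝ → ℂ} {H : ℂ → ℂ} {c : ℝ} (h : Rep E H c) (hc1 : c ≤ 1) {lam : ℝ}
    (hl : 0 < lam) : ∃ K : ℝ, 0 ≤ K ∧ ∀ t : ℝ,
      ‖dl2_f lam H c t‖ ≤ K * Real.exp (-(lam / 2) * t ^ 2) := by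
  obtain ⟨A, m, hA⟩ := h.growth
  refine ⟨|A| * (m.factorial * Real.exp (1 + 1 / (2 * lam) + lam * c ^ 2)), by positivity,
    fun t => ?_⟩
  unfold dl2_f
  rw [norm_mul, dl2_gs]
  have h1 := hA (c + t * I) (by simp) (by simp; linarith)
  have h2 : ((c : ℂ) + t * I).im = t := by simp
  rw [h2] at h1
  have h3 : (1 + |t|) ^ m ≤ m.factorial * Real.exp (1 + |t|) := by
    have := Real.pow_div_factorial_le_exp (1 + |t|) (by positivity) m
    rwa [div_le_iff₀ (by positivity), mul_comm] at this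
  have h4 : 1 + |t| + lam * (c ^ 2 - t ^ 2) ≤
      (1 + 1 / (2 * lam) + lam * c ^ 2) + -(lam / 2) * t ^ 2 := by
    have h5 : |t| ≤ 1 / (2 * lam) + lam / 2 * t ^ 2 := by
      have h6 : 0 ≤ (lam * |t| - 1) ^ 2 / (2 * lam) := by positivity
      have h7 : (lam * |t| - 1) ^ 2 / (2 * lam) = 1 / (2 * lam) + lam / 2 * |t| ^ 2 - |t| := by
        field_simp
        ring
      rw [h7, sq_abs] at h6
      linarith
    nlinarith
  calc ‖H (c + t * I)‖ * Real.exp (lam * (c ^ 2 - t ^ 2))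
      ≤ (A * (1 + |t|) ^ m) * Real.exp (lam * (c ^ 2 - t ^ 2)) :=
        mul_le_mul_of_nonneg_right h1 (Real.exp_nonneg _)
    _ ≤ (|A| * (m.factorial * Real.exp (1 + |t|))) * Real.exp (lam * (c ^ 2 - t ^ 2)) := by
        apply mul_le_mul_of_nonneg_right _ (Real.exp_nonneg _)
        exact mul_le_mul (le_abs_self A) h3 (by positivity) (abs_nonneg A)
    _ = |A| * (m.factorial * Real.exp (1 + |t| + lam * (c ^ 2 - t ^ 2))) := by
        rw [Real.exp_add (1 + |t|)]; ring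
    _ ≤ |A| * (m.factorial *
        Real.exp ((1 + 1 / (2 * lam) + lam * c ^ 2) + -(lam / 2) * t ^ 2)) := by
        gcongr
    _ = _ := by rw [Real.exp_add (1 + 1 / (2 * lam) + lam * c ^ 2)]; ring

theorem dl2_int {E : ℝ → ℂ} {H : ℂ → ℂ} {c : ℝ} (h : Rep E H c) (hc1 : c ≤ 1) {lam : ℝ}
    (hl : 0 < lam) : Integrable (dl2_f lam H c) ∧
      Integrable (fun t => ‖dl2_f lam H c t‖ ^ 2) := by
  obtain ⟨K, hK0, hK⟩ := dl2_bound h hc1 hl
  have hc := dl2_cont h hc1 lam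
  constructor
  · exact ((integrable_exp_neg_mul_sq (b := lam / 2) (by positivity)).const_mul K).mono'
      hc.aestronglyMeasurable (Filter.Eventually.of_forall hK)
  · refine ((integrable_exp_neg_mul_sq (b := lam) hl).const_mul (K ^ 2)).mono'
      (hc.norm.pow 2).aestronglyMeasurable (Filter.Eventually.of_forall fun t => ?_)
    rw [Real.norm_of_nonneg (by positivity)]
    calc ‖dl2_f lam H c t‖ ^ 2 ≤ (K * Real.exp (-(lam / 2) * t ^ 2)) ^ 2 :=
          pow_le_pow_left₀ (norm_nonneg _) (hK t) 2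
      _ = K ^ 2 * Real.exp (-lam * t ^ 2) := by
          rw [mul_pow, ← Real.exp_nat_mul]
          congr 2
          push_cast
          ring

theorem dl2_sq {lam : ℝ} {H : ℂ → ℂ} {c : ℝ} :
    ∫ t, ‖dl2_f lam H c t‖ ^ 2 = Real.exp (2 * lam * c ^ 2) * Q1 lam (nH H c) := by
  unfold Q1
  rw [← integral_const_mul]
  refine integral_congr_ae (Filter.Eventually.of_forall fun t => ?_)
  simp only [dl2_f, nH]
  have h1 : Real.exp (lam * (c ^ 2 - t ^ 2)) ^ 2 =
      Real.exp (2 * lam * c ^ 2) * Real.exp (-(2 * lam * t ^ 2)) := by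
    rw [← Real.exp_nat_mul, ← Real.exp_add]
    congr 1
    push_cast
    ring
  rw [norm_mul, dl2_gs, mul_pow, h1]
  ring

theorem dl2_gd (lam : ℝ) (H : ℂ → ℂ) (c u : ℝ) :
    gd lam H c (Real.exp u) = ((1 / (2 * Real.pi) * Real.exp (u * (c - 1)) : ℝ) : ℂ) *
      𝓕 (dl2_f lam H c) (u * (-1 / (2 * Real.pi))) := by
  unfold gd
  rw [Real.fourier_real_eq_integral_exp_smul, ofReal_mul, mul_assoc]
  congr 1
  rw [← integral_const_mul]
  refine integral_congr_ae (Filter.Eventually.of_forall fun t => ?_)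
  simp only [dl2_f, smul_eq_mul]
  have h0 : ((Real.exp u : ℝ) : ℂ) ≠ 0 := by
    exact_mod_cast (Real.exp_pos u).ne'
  have h1 : ((Real.exp u : ℝ) : ℂ) ^ ((c : ℂ) - 1 + t * I) =
      ((Real.exp (u * (c - 1)) : ℝ) : ℂ) *
      Complex.exp (((-2 * Real.pi * t * (u * (-1 / (2 * Real.pi))) : ℝ) : ℂ) * Complex.I) := by
    rw [Complex.cpow_def_of_ne_zero h0, ← Complex.ofReal_log (Real.exp_pos u).le, Real.log_exp,
      ofReal_exp, ← Complex.exp_add]
    congr 1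
    have hp : (Real.pi : ℂ) ≠ 0 := by exact_mod_cast Real.pi_ne_zero
    push_cast
    field_simp
  rw [h1]
  ring

theorem dl2_integral_exp {F : ℝ → ℝ}
    (hF : Integrable (fun u : ℝ => Real.exp u * F (Real.exp u))) :
    IntegrableOn F (Set.Ioi 0) ∧
    ∫ y in Set.Ioi (0 : ℝ), F y = ∫ u : ℝ, Real.exp u * F (Real.exp u) := by
  have h := integral_image_eq_integral_abs_deriv_smul (s := Set.univ) (f := Real.exp)
    (f' := Real.exp) MeasurableSet.univ (fun x _ => (Real.hasDerivAt_exp x).hasDerivWithinAt)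
    (Real.exp_injective.injOn) F
  have h' := integrableOn_image_iff_integrableOn_abs_deriv_smul (s := Set.univ) (f := Real.exp)
    (f' := Real.exp) MeasurableSet.univ (fun x _ => (Real.hasDerivAt_exp x).hasDerivWithinAt)
    (Real.exp_injective.injOn) F
  rw [Set.image_univ, Real.range_exp, Measure.restrict_univ] at h
  rw [Set.image_univ, Real.range_exp, integrableOn_univ] at h'
  simp only [Real.abs_exp, smul_eq_mul] at h h'
  exact ⟨h'.2 hF, h⟩

theorem dl2_planch {E : ℝ → ℂ} {H : ℂ → ℂ} {c : ℝ} (h : Rep E H c) (hc1 : c ≤ 1) {lam : ℝ}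
    (hl : 0 < lam) :
    Integrable (fun ξ => ‖𝓕 (dl2_f lam H c) ξ‖ ^ 2) ∧
    ∫ ξ, ‖𝓕 (dl2_f lam H c) ξ‖ ^ 2 = ∫ t, ‖dl2_f lam H c t‖ ^ 2 := by
  obtain ⟨h1, hsq⟩ := dl2_int h hc1 hl
  have hc := dl2_cont h hc1 lam
  have h2 : MemLp (dl2_f lam H c) 2 :=
    (memLp_two_iff_integrable_sq_norm hc.aestronglyMeasurable).2 hsq
  have hpl := H58.plancherel (dl2_f lam H c) h1 h2
  have hcont : Continuous (𝓕 (dl2_f lam H c)) :=
    (VectorFourier.fourierIntegral_continuous Real.continuous_fourierChar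
      (by exact (innerSL ℝ (E := ℝ)).continuous₂) h1)
  have hconv : ∀ g : ℝ → ℂ, ∀ x, ENNReal.ofReal (‖g x‖ ^ 2) = ‖g x‖ₑ ^ 2 := fun g x => by
    rw [ENNReal.ofReal_pow (norm_nonneg _), ofReal_norm]
  have hF : Integrable (fun ξ => ‖𝓕 (dl2_f lam H c) ξ‖ ^ 2) := by
    refine ⟨(hcont.norm.pow 2).aestronglyMeasurable, ?_⟩
    rw [hasFiniteIntegral_iff_ofReal (Filter.Eventually.of_forall fun x => by positivity)]
    simp_rw [hconv]
    rw [hpl]
    have h3 := hsq.2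
    rw [hasFiniteIntegral_iff_ofReal (Filter.Eventually.of_forall fun x => by positivity)] at h3
    simp_rw [hconv] at h3
    exact h3
  refine ⟨hF, ?_⟩
  rw [integral_eq_lintegral_of_nonneg_ae (Filter.Eventually.of_forall fun x => by positivity)
    hF.1, integral_eq_lintegral_of_nonneg_ae
    (Filter.Eventually.of_forall fun x => by positivity) hsq.1]
  simp_rw [hconv]
  rw [hpl]

/-- the weighted mean square over the half line -/
theorem dl2_all {E : ℝ → ℂ} {H : ℂ → ℂ} {c : ℝ} (h : Rep E H c) (hc1 : c ≤ 1) {lam : ℝ}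
    (hl : 0 < lam) :
    IntegrableOn (fun x : ℝ => ‖gd lam H c x‖ ^ 2 * x ^ (1 - 2 * c)) (Set.Ioi 0) ∧
    ∫ x in Set.Ioi (0 : ℝ), ‖gd lam H c x‖ ^ 2 * x ^ (1 - 2 * c) =
      1 / (2 * Real.pi) * (Real.exp (2 * lam * c ^ 2) * Q1 lam (nH H c)) := by
  obtain ⟨hF, heq⟩ := dl2_planch h hc1 hl
  have hpi : 0 < 2 * Real.pi := by positivity
  have hne : (-1 / (2 * Real.pi)) ≠ 0 := div_ne_zero (by norm_num) hpi.ne'
  have hpt : ∀ u : ℝ, Real.exp u * (‖gd lam H c (Real.exp u)‖ ^ 2 * Real.exp u ^ (1 - 2 * c)) =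
      (1 / (2 * Real.pi)) ^ 2 *
        (fun ξ => ‖𝓕 (dl2_f lam H c) ξ‖ ^ 2) (u * (-1 / (2 * Real.pi))) := by
    intro u
    rw [dl2_gd, norm_mul, Complex.norm_real, Real.norm_of_nonneg (by positivity)]
    have h1 : Real.exp u ^ (1 - 2 * c) = Real.exp (u * (1 - 2 * c)) := by
      rw [← Real.exp_mul]
    rw [h1]
    have h2 : Real.exp u * (Real.exp (u * (c - 1)) ^ 2 * Real.exp (u * (1 - 2 * c))) = 1 := by
      rw [← Real.exp_nat_mul, ← Real.exp_add, ← Real.exp_add, Real.exp_eq_one_iff]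
      push_cast
      ring
    simp only
    calc _ = (1 / (2 * Real.pi)) ^ 2 * ‖𝓕 (dl2_f lam H c) (u * (-1 / (2 * Real.pi)))‖ ^ 2 *
          (Real.exp u * (Real.exp (u * (c - 1)) ^ 2 * Real.exp (u * (1 - 2 * c)))) := by ring
      _ = _ := by rw [h2, mul_one]
  have hI : Integrable (fun u : ℝ => Real.exp u *
      (‖gd lam H c (Real.exp u)‖ ^ 2 * Real.exp u ^ (1 - 2 * c))) := by
    simp_rw [hpt]
    exact (hF.comp_mul_right' hne).const_mul _
  obtain ⟨h1, h2⟩ := dl2_integral_exp (F := fun x : ℝ => ‖gd lam H c x‖ ^ 2 * x ^ (1 - 2 * c)) hI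
  refine ⟨h1, ?_⟩
  rw [h2]
  simp_rw [hpt]
  rw [integral_const_mul, Measure.integral_comp_mul_right
    (fun ξ => ‖𝓕 (dl2_f lam H c) ξ‖ ^ 2) (-1 / (2 * Real.pi)), heq, dl2_sq]
  have h4 : |(-1 / (2 * Real.pi))⁻¹| = 2 * Real.pi := by
    rw [show (-1 / (2 * Real.pi))⁻¹ = -(2 * Real.pi) by field_simp, abs_neg,
      abs_of_pos (by positivity)]
  rw [h4, smul_eq_mul]
  field_simp

theorem gd_l2_pr {E : ℝ → ℂ} {H : ℂ → ℂ} {c : ℝ} (h : Rep E H c) (hc : 3 / 4 ≤ c) (hc1 : c ≤ 1)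
    {lam X : ℝ} (hl : 0 < lam) (hl1 : lam ≤ 1) (hX : 0 < X) :
    IntervalIntegrable (fun x => ‖gd lam H c x‖ ^ 2) volume 0 X ∧
      ∫ x in (0 : ℝ)..X, ‖gd lam H c x‖ ^ 2 ≤ 2 * X ^ (2 * c - 1) * Q1 lam (nH H c) := by
  obtain ⟨hI, hv⟩ := dl2_all h hc1 hl
  have hsub : Set.Ioc 0 X ⊆ Set.Ioi (0 : ℝ) := fun x hx => hx.1
  have hQ : 0 ≤ Q1 lam (nH H c) := by
    unfold Q1
    exact integral_nonneg fun t => by positivity
  have hpt : ∀ x ∈ Set.Ioc 0 X, ‖gd lam H c x‖ ^ 2 ≤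
      X ^ (2 * c - 1) * (‖gd lam H c x‖ ^ 2 * x ^ (1 - 2 * c)) := by
    intro x hx
    have h1 : 1 ≤ X ^ (2 * c - 1) * x ^ (1 - 2 * c) := by
      have h2 : x ^ (2 * c - 1) ≤ X ^ (2 * c - 1) := Real.rpow_le_rpow hx.1.le hx.2 (by linarith)
      calc (1 : ℝ) = x ^ (2 * c - 1) * x ^ (1 - 2 * c) := by
            rw [← Real.rpow_add hx.1]; norm_num
        _ ≤ _ := mul_le_mul_of_nonneg_right h2 (Real.rpow_nonneg hx.1.le _)
    calc ‖gd lam H c x‖ ^ 2 = ‖gd lam H c x‖ ^ 2 * 1 := by ring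
      _ ≤ ‖gd lam H c x‖ ^ 2 * (X ^ (2 * c - 1) * x ^ (1 - 2 * c)) :=
          mul_le_mul_of_nonneg_left h1 (by positivity)
      _ = _ := by ring
  have hIoc : IntegrableOn (fun x : ℝ => X ^ (2 * c - 1) *
      (‖gd lam H c x‖ ^ 2 * x ^ (1 - 2 * c))) (Set.Ioc 0 X) :=
    (hI.mono_set hsub).const_mul _
  have hm : AEStronglyMeasurable (fun x => ‖gd lam H c x‖ ^ 2)
      (volume.restrict (Set.Ioc 0 X)) :=
    (((gd_cont h hc hc1 hl).mono hsub).norm.pow 2).aestronglyMeasurable measurableSet_Ioc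
  have hInt : IntegrableOn (fun x => ‖gd lam H c x‖ ^ 2) (Set.Ioc 0 X) := by
    refine hIoc.mono' hm ?_
    rw [ae_restrict_iff' measurableSet_Ioc]
    refine Filter.Eventually.of_forall fun x hx => ?_
    rw [Real.norm_of_nonneg (by positivity)]
    exact hpt x hx
  refine ⟨(intervalIntegrable_iff_integrableOn_Ioc_of_le hX.le).2 hInt, ?_⟩
  rw [intervalIntegral.integral_of_le hX.le]
  have hXp : 0 ≤ X ^ (2 * c - 1) := Real.rpow_nonneg hX.le _
  have hexp : 1 / (2 * Real.pi) * Real.exp (2 * lam * c ^ 2) ≤ 2 := by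
    have h1 : Real.exp (2 * lam * c ^ 2) ≤ Real.exp 2 := by
      apply Real.exp_le_exp.2
      have : lam * c ^ 2 ≤ 1 := by
        have hc2 : c ^ 2 ≤ 1 := by nlinarith
        nlinarith [sq_nonneg c]
      linarith
    have h2 : Real.exp 2 ≤ 8 := by
      have h3 : Real.exp 2 = Real.exp 1 * Real.exp 1 := by
        rw [← Real.exp_add]; norm_num
      rw [h3]
      have h4 := Real.exp_one_lt_d9
      have h5 := Real.exp_pos 1
      nlinarith
    have h3 : 3 < Real.pi := Real.pi_gt_three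
    rw [one_div_mul_eq_div, div_le_iff₀ (by positivity)]
    linarith
  calc ∫ x in Set.Ioc 0 X, ‖gd lam H c x‖ ^ 2
      ≤ ∫ x in Set.Ioc 0 X, X ^ (2 * c - 1) * (‖gd lam H c x‖ ^ 2 * x ^ (1 - 2 * c)) :=
        setIntegral_mono_on hInt hIoc measurableSet_Ioc hpt
    _ = X ^ (2 * c - 1) * ∫ x in Set.Ioc 0 X, (‖gd lam H c x‖ ^ 2 * x ^ (1 - 2 * c)) :=
        integral_const_mul _ _
    _ ≤ X ^ (2 * c - 1) * ∫ x in Set.Ioi 0, (‖gd lam H c x‖ ^ 2 * x ^ (1 - 2 * c)) := by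
        apply mul_le_mul_of_nonneg_left _ hXp
        refine setIntegral_mono_set hI ?_ hsub.eventuallyLE
        rw [Filter.EventuallyLE, ae_restrict_iff' measurableSet_Ioi]
        refine Filter.Eventually.of_forall fun x hx => ?_
        exact mul_nonneg (by positivity) (Real.rpow_nonneg (le_of_lt hx) _)
    _ = X ^ (2 * c - 1) * ((1 / (2 * Real.pi) * Real.exp (2 * lam * c ^ 2)) *
          Q1 lam (nH H c)) := by rw [hv]; ring
    _ ≤ X ^ (2 * c - 1) * (2 * Q1 lam (nH H c)) := by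
        gcongr
    _ = _ := by ring

end Pool.Agent.XS

namespace Pool.Agent.XS

/-- alias -/
theorem gd_l2 : type_of% @gd_l2_pr := @gd_l2_pr

end Pool.Agent.XS
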