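import Pool.Agent.Lib_helper26.XS.Defs
import Pool.Agent.Lib_helper26.XSF.SHF
import Pool.Agent.Lib_helper58.Planch

set_option autoImplicit false

namespace Pool.Agent.XS

open Finset Complex MeasureTheory Pool.Agent.Var35 Pool.Agent.Var73 Pool.Agent.HC Pool.Agent.MF
open scoped ArithmeticFunction ArithmeticFunction.Moebius FourierTransform

/-- the function whose Fourier transform is the difference -/
noncomputable def fta_u (H : ℂ → ℂ) (c nu t : ℝ) : ℂ :=
  H (c + t * I) / (c + t * I) * gs nu c t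

theorem fta_contH {E : ℝ → ℂ} {H : ℂ → ℂ} {c : ℝ} (h : Rep E H c) (hc1 : c ≤ 1) :
    Continuous (fun t : ℝ => H (c + t * I)) := by
  obtain ⟨c', hc', hd⟩ := h.diff
  refine ContinuousOn.comp_continuous hd.continuousOn (by fun_prop) fun t => ?_
  show c' < ((c : ℂ) + t * I).re ∧ ((c : ℂ) + t * I).re < 3
  simp only [Complex.add_re, Complex.ofReal_re, Complex.re_ofReal_mul, Complex.I_re, mul_zero,
    add_zero]
  exact ⟨hc', by linarith⟩

theorem fta_ne {c : ℝ} (hc : 3 / 4 ≤ c) (t : ℝ) : (c : ℂ) + t * I ≠ 0 := by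
  intro h0
  have h1 := congrArg Complex.re h0
  simp only [Complex.add_re, Complex.ofReal_re, Complex.re_ofReal_mul, Complex.I_re, mul_zero,
    add_zero, Complex.zero_re] at h1
  linarith

theorem fta_normsq (c t : ℝ) : ‖(c : ℂ) + t * I‖ ^ 2 = c ^ 2 + t ^ 2 := by
  rw [← Complex.normSq_eq_norm_sq, Complex.normSq_apply]
  simp only [Complex.add_re, Complex.ofReal_re, Complex.re_ofReal_mul, Complex.I_re, mul_zero,
    add_zero, Complex.add_im, Complex.ofReal_im, Complex.im_ofReal_mul, Complex.I_im, mul_one,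
    zero_add]
  ring

theorem fta_norm_ge {c : ℝ} (hc : 3 / 4 ≤ c) (t : ℝ) : 3 / 4 ≤ ‖(c : ℂ) + t * I‖ := by
  have h1 := fta_normsq c t
  have h2 : (3 / 4 : ℝ) ^ 2 ≤ ‖(c : ℂ) + t * I‖ ^ 2 := by
    rw [h1]
    nlinarith [sq_nonneg t]
  exact le_of_sq_le_sq h2 (norm_nonneg _)
where
  le_of_sq_le_sq {a b : ℝ} (h : a ^ 2 ≤ b ^ 2) (hb : 0 ≤ b) : a ≤ b := by
    exact (abs_le_of_sq_le_sq' h hb).2

theorem fta_cont {E : ℝ → ℂ} {H : ℂ → ℂ} {c : ℝ} (h : Rep E H c) (hc : 3 / 4 ≤ c) (hc1 : c ≤ 1)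
    (nu : ℝ) : Continuous (fta_u H c nu) := by
  unfold fta_u gs
  refine Continuous.mul (Continuous.div (fta_contH h hc1) (by fun_prop) (fta_ne hc)) ?_
  fun_prop

theorem fta_sq_re (nu c t : ℝ) : ((nu : ℂ) * ((c : ℂ) + t * I) ^ 2) =
    ((nu * (c ^ 2 - t ^ 2) : ℝ) : ℂ) + ((2 * nu * c * t : ℝ) : ℂ) * I := by
  push_cast
  linear_combination (nu * (t : ℂ) ^ 2 : ℂ) * I_sq

theorem fta_re (nu c t : ℝ) : ((nu : ℂ) * ((c : ℂ) + t * I) ^ 2).re = nu * (c ^ 2 - t ^ 2) := by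
  rw [fta_sq_re]
  simp only [Complex.add_re, Complex.ofReal_re, Complex.re_ofReal_mul, Complex.I_re, mul_zero,
    add_zero]

theorem fta_norm_gs (nu c t : ℝ) : ‖gs nu c t‖ = Real.exp (nu * (c ^ 2 - t ^ 2)) := by
  unfold gs
  rw [Complex.norm_exp, fta_re]

theorem fta_bd {E : ℝ → ℂ} {H : ℂ → ℂ} {c : ℝ} (h : Rep E H c) (hc : 3 / 4 ≤ c) (hc1 : c ≤ 1)
    {nu : ℝ} (hn : 0 < nu) :
    ∃ K : ℝ, ∀ t : ℝ, ‖fta_u H c nu t‖ ≤ K * Real.exp (-(nu / 2) * t ^ 2) := by
  obtain ⟨A, m, hA⟩ := h.growth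
  have hA0 : 0 ≤ A := by
    have h1 := hA (c : ℂ) (by simp) (by simpa using by linarith)
    have h2 := (norm_nonneg _).trans h1
    simpa using h2
  refine ⟨A * (m.factorial * Real.exp (1 + 1 / (2 * nu))) * (4 / 3) * Real.exp (nu * c ^ 2),
    fun t => ?_⟩
  have h1 : ‖H (c + t * I)‖ ≤ A * (1 + |t|) ^ m := by
    have h2 := hA ((c : ℂ) + t * I) (by simp) (by simpa using by linarith)
    simpa using h2
  have h3 : (1 + |t|) ^ m ≤ m.factorial * Real.exp (1 + |t|) := by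
    have h4 := Real.pow_div_factorial_le_exp (1 + |t|) (by positivity) m
    rw [div_le_iff₀ (by positivity)] at h4
    linarith
  have h5 : 1 + |t| ≤ (1 + 1 / (2 * nu)) + nu / 2 * t ^ 2 := by
    have h6 : 0 ≤ (nu * |t| - 1) ^ 2 := sq_nonneg _
    have h7 : |t| ^ 2 = t ^ 2 := sq_abs t
    have h8 : |t| = ((2 * nu * |t|) / (2 * nu)) := by field_simp
    have h9 : nu / 2 * t ^ 2 = (nu ^ 2 * t ^ 2) / (2 * nu) := by field_simp
    rw [h9, h8, add_assoc, ← add_div]
    gcongr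
    nlinarith
  have h10 : Real.exp (1 + |t|) ≤ Real.exp (1 + 1 / (2 * nu)) * Real.exp (nu / 2 * t ^ 2) := by
    rw [← Real.exp_add]
    exact Real.exp_le_exp.2 h5
  have h11 : ‖fta_u H c nu t‖ ≤ A * (m.factorial * (Real.exp (1 + 1 / (2 * nu)) *
      Real.exp (nu / 2 * t ^ 2))) * (4 / 3) * Real.exp (nu * (c ^ 2 - t ^ 2)) := by
    unfold fta_u
    rw [norm_mul, norm_div, fta_norm_gs]
    have h12 : ‖H (c + t * I)‖ / ‖(c : ℂ) + t * I‖ ≤ A * (m.factorial *
        (Real.exp (1 + 1 / (2 * nu)) * Real.exp (nu / 2 * t ^ 2))) * (4 / 3) := by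
      rw [div_eq_mul_inv]
      have h13 : ‖(c : ℂ) + t * I‖⁻¹ ≤ 4 / 3 := by
        rw [show (4 / 3 : ℝ) = (3 / 4)⁻¹ by norm_num]
        exact inv_anti₀ (by norm_num) (fta_norm_ge hc t)
      have h14 : ‖H (c + t * I)‖ ≤ A * (m.factorial *
        (Real.exp (1 + 1 / (2 * nu)) * Real.exp (nu / 2 * t ^ 2))) := by
        refine h1.trans (mul_le_mul_of_nonneg_left (h3.trans ?_) hA0)
        exact mul_le_mul_of_nonneg_left h10 (by positivity)
      exact mul_le_mul h14 h13 (by positivity) (by positivity)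
    exact mul_le_mul_of_nonneg_right h12 (Real.exp_pos _).le
  refine h11.trans (le_of_eq ?_)
  have h15 : Real.exp (nu * (c ^ 2 - t ^ 2)) = Real.exp (nu * c ^ 2) * Real.exp (-(nu / 2) * t ^ 2) *
      Real.exp (-(nu / 2) * t ^ 2) := by
    rw [← Real.exp_add, ← Real.exp_add]
    congr 1
    ring
  have h16 : Real.exp (nu / 2 * t ^ 2) * Real.exp (-(nu / 2) * t ^ 2) = 1 := by
    rw [← Real.exp_add]
    have : nu / 2 * t ^ 2 + -(nu / 2) * t ^ 2 = 0 := by ring
    rw [this, Real.exp_zero]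
  rw [h15]
  linear_combination (A * (m.factorial * Real.exp (1 + 1 / (2 * nu))) * (4 / 3) *
    Real.exp (nu * c ^ 2) * Real.exp (-(nu / 2) * t ^ 2)) * h16

theorem fta_int {E : ℝ → ℂ} {H : ℂ → ℂ} {c : ℝ} (h : Rep E H c) (hc : 3 / 4 ≤ c) (hc1 : c ≤ 1)
    {nu : ℝ} (hn : 0 < nu) : Integrable (fta_u H c nu) := by
  obtain ⟨K, hK⟩ := fta_bd h hc hc1 hn
  refine ((integrable_exp_neg_mul_sq (half_pos hn)).const_mul K).mono'
    (fta_cont h hc hc1 nu).aestronglyMeasurable (Filter.Eventually.of_forall hK)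

theorem fta_memLp {E : ℝ → ℂ} {H : ℂ → ℂ} {c : ℝ} (h : Rep E H c) (hc : 3 / 4 ≤ c) (hc1 : c ≤ 1)
    {nu : ℝ} (hn : 0 < nu) : MemLp (fta_u H c nu) 2 := by
  obtain ⟨K, hK⟩ := fta_bd h hc hc1 hn
  refine (memLp_two_iff_integrable_sq_norm (fta_cont h hc hc1 nu).aestronglyMeasurable).2 ?_
  refine ((integrable_exp_neg_mul_sq hn).const_mul (K ^ 2)).mono'
    ((fta_cont h hc hc1 nu).norm.pow 2).aestronglyMeasurable
    (Filter.Eventually.of_forall fun t => ?_)
  rw [Real.norm_eq_abs, abs_of_nonneg (by positivity)]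
  have h1 := pow_le_pow_left₀ (norm_nonneg _) (hK t) 2
  refine h1.trans (le_of_eq ?_)
  rw [mul_pow, ← Real.exp_nat_mul]
  congr 2
  push_cast
  ring

/-- the two exponentials -/
theorem fta_diff {c : ℝ} (hc : 3 / 4 ≤ c) (hc1 : c ≤ 1) {mu lam : ℝ} (hm : 0 < mu)
    (hml : mu ≤ lam) (hl1 : lam ≤ 1) (t : ℝ) :
    ‖gs mu c t - gs lam c t‖ ≤ 12 * min 1 (lam * (1 + t ^ 2)) := by
  have he : Real.exp 1 ≤ 3 := by
    have := Real.exp_one_lt_d9
    linarith
  have hc2 : c ^ 2 ≤ 1 := by nlinarith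
  set w : ℂ := ((lam - mu : ℝ) : ℂ) * ((c : ℂ) + t * I) ^ 2 with hw
  have e1 : gs mu c t - gs lam c t = gs mu c t * (1 - cexp w) := by
    unfold gs
    rw [mul_sub, mul_one, ← Complex.exp_add, hw]
    congr 3
    push_cast
    ring
  have hre : w.re = (lam - mu) * (c ^ 2 - t ^ 2) := fta_re (lam - mu) c t
  have hre1 : w.re ≤ 1 := by
    rw [hre]
    nlinarith [sq_nonneg t]
  have hgs : ‖gs mu c t‖ ≤ 3 := by
    rw [fta_norm_gs]
    refine (Real.exp_le_exp.2 ?_).trans he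
    nlinarith [sq_nonneg t]
  have hb1 : ‖1 - cexp w‖ ≤ 4 := by
    refine (norm_sub_le _ _).trans ?_
    rw [norm_one, Complex.norm_exp]
    have : Real.exp w.re ≤ 3 := (Real.exp_le_exp.2 hre1).trans he
    linarith
  have hb2 : ‖1 - cexp w‖ ≤ 4 * (lam * (1 + t ^ 2)) := by
    have h1 : ‖1 - cexp w‖ ≤ 3 * ‖w‖ := by
      have hd : ∀ s ∈ Set.Icc (0 : ℝ) 1, HasDerivWithinAt (fun s : ℝ => cexp (s * w))
          (cexp (s * w) * w) (Set.Icc 0 1) s := by
        intro s _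
        apply HasDerivAt.hasDerivWithinAt
        have h2 : HasDerivAt (fun s : ℝ => (s : ℂ) * w) w s := by
          simpa using (Complex.ofRealCLM.hasDerivAt (x := s)).mul_const w
        exact h2.cexp
      have hbd : ∀ s ∈ Set.Ico (0 : ℝ) 1, ‖cexp (s * w) * w‖ ≤ 3 * ‖w‖ := by
        intro s hs
        rw [norm_mul]
        refine mul_le_mul_of_nonneg_right ?_ (norm_nonneg _)
        rw [Complex.norm_exp, Complex.re_ofReal_mul]
        refine (Real.exp_le_exp.2 ?_).trans he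
        rcases le_total 0 w.re with h0 | h0
        · nlinarith [hs.1, hs.2]
        · nlinarith [hs.1, hs.2]
      have h3 := norm_image_sub_le_of_norm_deriv_le_segment' hd hbd 1 (by simp)
      rw [norm_sub_rev]
      simpa using h3
    have h4 : ‖w‖ ≤ lam * (1 + t ^ 2) := by
      rw [hw, norm_mul, norm_pow, fta_normsq, Complex.norm_real, Real.norm_eq_abs,
        abs_of_nonneg (by linarith)]
      have : (lam - mu) * (c ^ 2 + t ^ 2) ≤ lam * (1 + t ^ 2) := by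
        nlinarith [sq_nonneg t, mul_nonneg hm.le (add_nonneg (sq_nonneg c) (sq_nonneg t))]
      exact this
    nlinarith [norm_nonneg w, sq_nonneg t]
  rw [e1, norm_mul]
  have hmin : ‖1 - cexp w‖ ≤ 4 * min 1 (lam * (1 + t ^ 2)) := by
    rcases le_total 1 (lam * (1 + t ^ 2)) with h0 | h0
    · rw [min_eq_left h0]; linarith
    · rw [min_eq_right h0]; exact hb2
  calc ‖gs mu c t‖ * ‖1 - cexp w‖ ≤ 3 * (4 * min 1 (lam * (1 + t ^ 2))) :=
        mul_le_mul hgs hmin (norm_nonneg _) (by norm_num)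
    _ = _ := by ring

theorem fta_pt {H : ℂ → ℂ} {c : ℝ} (hc : 3 / 4 ≤ c) (hc1 : c ≤ 1) {mu lam : ℝ} (hm : 0 < mu)
    (hml : mu ≤ lam) (hl1 : lam ≤ 1) (t : ℝ) :
    ‖fta_u H c mu t - fta_u H c lam t‖ ^ 2 ≤
      256 * (nH H c t ^ 2 / (1 + t ^ 2) * (min 1 (lam * (1 + t ^ 2))) ^ 2) := by
  have e1 : fta_u H c mu t - fta_u H c lam t =
      H (c + t * I) / (c + t * I) * (gs mu c t - gs lam c t) := by
    unfold fta_u
    ring
  rw [e1, norm_mul, norm_div, mul_pow, div_pow, fta_normsq]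
  have h1 := pow_le_pow_left₀ (norm_nonneg _) (fta_diff hc hc1 hm hml hl1 t) 2
  have h2 : ‖H (c + t * I)‖ ^ 2 / (c ^ 2 + t ^ 2) ≤ (16 / 9) * (nH H c t ^ 2 / (1 + t ^ 2)) := by
    unfold nH
    rw [← mul_div_assoc, div_le_div_iff₀ (by nlinarith [sq_nonneg t]) (by positivity)]
    have h3 : 1 + t ^ 2 ≤ (16 / 9) * (c ^ 2 + t ^ 2) := by nlinarith [sq_nonneg t]
    have h4 : 0 ≤ ‖H (c + t * I)‖ ^ 2 := by positivity
    nlinarith
  calc ‖H (c + t * I)‖ ^ 2 / (c ^ 2 + t ^ 2) * ‖gs mu c t - gs lam c t‖ ^ 2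
      ≤ (16 / 9) * (nH H c t ^ 2 / (1 + t ^ 2)) * (12 * min 1 (lam * (1 + t ^ 2))) ^ 2 :=
        mul_le_mul h2 h1 (by positivity) (by positivity)
    _ = _ := by ring

/-- `x = exp(-2 pi xi)` -/
theorem fta_change (g : ℝ → ℝ) (hg : Integrable g) :
    IntegrableOn (fun x : ℝ => g (-(Real.log x / (2 * Real.pi))) * x⁻¹) (Set.Ioi 0) ∧
    ∫ x in Set.Ioi (0 : ℝ), g (-(Real.log x / (2 * Real.pi))) * x⁻¹ =
      2 * Real.pi * ∫ ξ, g ξ := by
  have hpi := Real.pi_pos
  have himg : (fun ξ : ℝ => Real.exp (-(2 * Real.pi * ξ))) '' Set.univ = Set.Ioi 0 := by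
    ext y
    constructor
    · rintro ⟨v, -, rfl⟩
      exact Real.exp_pos _
    · intro hy
      refine ⟨-(Real.log y / (2 * Real.pi)), Set.mem_univ _, ?_⟩
      show Real.exp (-(2 * Real.pi * -(Real.log y / (2 * Real.pi)))) = y
      have : -(2 * Real.pi * -(Real.log y / (2 * Real.pi))) = Real.log y := by field_simp
      rw [this, Real.exp_log hy]
  have hd : ∀ v ∈ (Set.univ : Set ℝ), HasDerivWithinAt (fun ξ : ℝ => Real.exp (-(2 * Real.pi * ξ)))
      (-(2 * Real.pi * Real.exp (-(2 * Real.pi * v)))) Set.univ v := by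
    intro v _
    apply HasDerivAt.hasDerivWithinAt
    have h1 : HasDerivAt (fun ξ : ℝ => -(2 * Real.pi * ξ)) (-(2 * Real.pi)) v := by
      simpa using ((hasDerivAt_id v).const_mul (2 * Real.pi)).fun_neg
    have h2 := h1.exp
    exact h2.congr_deriv (by ring)
  have hinj : Set.InjOn (fun ξ : ℝ => Real.exp (-(2 * Real.pi * ξ))) Set.univ := by
    intro a _ b _ hab
    have h2 := Real.exp_injective hab
    have h3 : 2 * Real.pi * a = 2 * Real.pi * b := neg_injective h2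
    exact mul_left_cancel₀ (by positivity) h3
  have hval : ∀ v : ℝ, |(-(2 * Real.pi * Real.exp (-(2 * Real.pi * v))))| •
      (g (-(Real.log (Real.exp (-(2 * Real.pi * v))) / (2 * Real.pi))) *
        (Real.exp (-(2 * Real.pi * v)))⁻¹) = 2 * Real.pi * g v := by
    intro v
    have hp : 0 < Real.exp (-(2 * Real.pi * v)) := Real.exp_pos _
    rw [abs_neg, abs_of_pos (by positivity), Real.log_exp, smul_eq_mul]
    have : -(-(2 * Real.pi * v) / (2 * Real.pi)) = v := by field_simp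
    rw [this]
    field_simp
  constructor
  · have h := (integrableOn_image_iff_integrableOn_abs_deriv_smul MeasurableSet.univ hd hinj
      (fun x : ℝ => g (-(Real.log x / (2 * Real.pi))) * x⁻¹)).2 (by
        rw [integrableOn_univ]
        simp_rw [hval]
        exact hg.const_mul _)
    rwa [himg] at h
  · have h := integral_image_eq_integral_abs_deriv_smul MeasurableSet.univ hd hinj
      (fun x : ℝ => g (-(Real.log x / (2 * Real.pi))) * x⁻¹)
    rw [himg, Measure.restrict_univ] at h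
    rw [h]
    simp_rw [hval]
    rw [integral_const_mul]

/-- FTA: two smoothings -/
theorem fat_two_pr {E : ℝ → ℂ} {H : ℂ → ℂ} {c : ℝ} (h : Rep E H c) (hc : 3 / 4 ≤ c) (hc1 : c ≤ 1)
    {mu lam : ℝ} (hm : 0 < mu) (hml : mu ≤ lam) (hl1 : lam ≤ 1)
    (hint : Integrable (fun t => nH H c t ^ 2 / (1 + t ^ 2))) {X : ℝ} (hX : 0 < X) :
    ∫ x in (0 : ℝ)..X, ‖sm mu E x - sm lam E x‖ ^ 2 ≤
      100 * X ^ (2 * c + 1) * Q3 lam (nH H c) := by
  have hl : 0 < lam := hm.trans_le hml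
  have hpi := Real.pi_pos
  set f : ℝ → ℂ := fun t => fta_u H c mu t - fta_u H c lam t with hf
  have hf1 : Integrable f := (fta_int h hc hc1 hm).sub (fta_int h hc hc1 hl)
  have hf2 : MemLp f 2 := (fta_memLp h hc hc1 hm).sub (fta_memLp h hc hc1 hl)
  have hcf : Continuous f := (fta_cont h hc hc1 mu).sub (fta_cont h hc hc1 lam)
  have hsq : Integrable (fun t => ‖f t‖ ^ 2) :=
    (memLp_two_iff_integrable_sq_norm hcf.aestronglyMeasurable).1 hf2
  -- Plancherel
  have hpl := H58.plancherel f hf1 hf2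
  have hcont : Continuous (𝓕 f) :=
    (VectorFourier.fourierIntegral_continuous Real.continuous_fourierChar
      (by exact (innerSL ℝ (E := ℝ)).continuous₂) hf1)
  have hconv : ∀ g : ℝ → ℂ, ∀ x, ENNReal.ofReal (‖g x‖ ^ 2) = ‖g x‖ₑ ^ 2 := fun g x => by
    rw [ENNReal.ofReal_pow (norm_nonneg _), ofReal_norm]
  have hF : Integrable (fun ξ => ‖𝓕 f ξ‖ ^ 2) := by
    refine ⟨(hcont.norm.pow 2).aestronglyMeasurable, ?_⟩
    rw [hasFiniteIntegral_iff_ofReal (Filter.Eventually.of_forall fun x => by positivity)]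
    simp_rw [hconv]
    rw [hpl]
    have h3 := hsq.2
    rw [hasFiniteIntegral_iff_ofReal (Filter.Eventually.of_forall fun x => by positivity)] at h3
    simp_rw [hconv] at h3
    exact h3
  have heq : ∫ ξ, ‖𝓕 f ξ‖ ^ 2 = ∫ u, ‖f u‖ ^ 2 := by
    rw [integral_eq_lintegral_of_nonneg_ae (Filter.Eventually.of_forall fun x => by positivity)
      hF.1, integral_eq_lintegral_of_nonneg_ae
      (Filter.Eventually.of_forall fun x => by positivity) hsq.1]
    simp_rw [hconv]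
    rw [hpl]
  -- the difference as a Fourier transform
  have hD : ∀ x : ℝ, 0 < x → ‖sm mu E x - sm lam E x‖ ^ 2 =
      x ^ (2 * c) / (4 * Real.pi ^ 2) * ‖𝓕 f (-(Real.log x / (2 * Real.pi)))‖ ^ 2 := by
    intro x hx
    have hx' : (x : ℂ) ≠ 0 := by exact_mod_cast hx.ne'
    have e0 : ∀ nu : ℝ, 0 < nu → sm nu E x = ((1 / (2 * Real.pi) : ℝ) : ℂ) *
        ∫ t : ℝ, fta_u H c nu t * (x : ℂ) ^ ((c : ℂ) + t * I) := fun nu hn => by
      rw [sm_line h hc hc1 hn hx]
      rfl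
    have hi : ∀ nu : ℝ, 0 < nu → Integrable (fun t : ℝ => fta_u H c nu t *
        (x : ℂ) ^ ((c : ℂ) + t * I)) := fun nu hn => by
      refine (fta_int h hc hc1 hn).mul_bdd (c := x ^ c) ?_ ?_
      · apply Continuous.aestronglyMeasurable
        exact Continuous.const_cpow (by fun_prop) (Or.inl hx')
      · refine Filter.Eventually.of_forall fun t => ?_
        rw [Complex.norm_cpow_eq_rpow_re_of_pos hx]
        simp
    have e1 : sm mu E x - sm lam E x = ((1 / (2 * Real.pi) : ℝ) : ℂ) *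
        ((x ^ c : ℝ) : ℂ) * 𝓕 f (-(Real.log x / (2 * Real.pi))) := by
      rw [e0 mu hm, e0 lam hl, ← mul_sub, ← integral_sub (hi mu hm) (hi lam hl), mul_assoc]
      refine congrArg (fun z : ℂ => ((1 / (2 * Real.pi) : ℝ) : ℂ) * z) ?_
      rw [Real.fourier_real_eq_integral_exp_smul, ← integral_const_mul]
      refine integral_congr_ae (Filter.Eventually.of_forall fun t => ?_)
      show fta_u H c mu t * (x : ℂ) ^ ((c : ℂ) + t * I) -
        fta_u H c lam t * (x : ℂ) ^ ((c : ℂ) + t * I) =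
        ((x ^ c : ℝ) : ℂ) * (cexp (((-2 * Real.pi * t * (-(Real.log x / (2 * Real.pi))) : ℝ) : ℂ) * I) •
          (fta_u H c mu t - fta_u H c lam t))
      have e2 : (-2 * Real.pi * t * (-(Real.log x / (2 * Real.pi))) : ℝ) = t * Real.log x := by
        field_simp
      rw [e2, smul_eq_mul, Complex.cpow_add _ _ hx', Complex.ofReal_cpow hx.le]
      have e3 : (x : ℂ) ^ ((t : ℂ) * I) = cexp (((t * Real.log x : ℝ) : ℂ) * I) := by
        rw [Complex.cpow_def_of_ne_zero hx', ← Complex.ofReal_log hx.le]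
        congr 1
        push_cast
        ring
      rw [e3]
      ring
    rw [e1, norm_mul, norm_mul, mul_pow, mul_pow, Complex.norm_real, Complex.norm_real,
      Real.norm_eq_abs, Real.norm_eq_abs, sq_abs, sq_abs]
    have e4 : (x ^ c) ^ 2 = x ^ (2 * c) := by
      rw [← Real.rpow_natCast, ← Real.rpow_mul hx.le]
      congr 1
      push_cast
      ring
    rw [e4]
    have e5 : (1 / (2 * Real.pi)) ^ 2 = 1 / (4 * Real.pi ^ 2) := by
      rw [div_pow, one_pow]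
      ring
    rw [e5]
    ring
  obtain ⟨hci, hce⟩ := fta_change (fun ξ => ‖𝓕 f ξ‖ ^ 2) hF
  -- the bound
  rw [intervalIntegral.integral_of_le hX.le]
  have hb1 : ∫ x in Set.Ioc 0 X, ‖sm mu E x - sm lam E x‖ ^ 2 ≤
      ∫ x in Set.Ioc 0 X, X ^ (2 * c + 1) / (4 * Real.pi ^ 2) *
        (‖𝓕 f (-(Real.log x / (2 * Real.pi)))‖ ^ 2 * x⁻¹) := by
    refine integral_mono_of_nonneg (Filter.Eventually.of_forall fun x => by positivity)
      ((hci.mono_set Set.Ioc_subset_Ioi_self).const_mul _) ?_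
    filter_upwards [ae_restrict_mem measurableSet_Ioc] with x hx
    rw [hD x hx.1]
    have h1 : x ^ (2 * c) ≤ X ^ (2 * c + 1) * x⁻¹ := by
      have h2 : x ^ (2 * c) = x ^ (2 * c + 1) * x⁻¹ := by
        rw [Real.rpow_add hx.1, Real.rpow_one, mul_assoc, mul_inv_cancel₀ hx.1.ne', mul_one]
      rw [h2]
      exact mul_le_mul_of_nonneg_right
        (Real.rpow_le_rpow hx.1.le hx.2 (by linarith)) (by have := hx.1; positivity)
    have h3 : 0 ≤ ‖𝓕 f (-(Real.log x / (2 * Real.pi)))‖ ^ 2 / (4 * Real.pi ^ 2) := by positivity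
    have h4 := mul_le_mul_of_nonneg_right h1 h3
    calc x ^ (2 * c) / (4 * Real.pi ^ 2) * ‖𝓕 f (-(Real.log x / (2 * Real.pi)))‖ ^ 2
        = x ^ (2 * c) * (‖𝓕 f (-(Real.log x / (2 * Real.pi)))‖ ^ 2 / (4 * Real.pi ^ 2)) := by ring
      _ ≤ X ^ (2 * c + 1) * x⁻¹ *
          (‖𝓕 f (-(Real.log x / (2 * Real.pi)))‖ ^ 2 / (4 * Real.pi ^ 2)) := h4
      _ = _ := by ring
  have hb2 : ∫ x in Set.Ioc 0 X, X ^ (2 * c + 1) / (4 * Real.pi ^ 2) *
        (‖𝓕 f (-(Real.log x / (2 * Real.pi)))‖ ^ 2 * x⁻¹) ≤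
      X ^ (2 * c + 1) / (4 * Real.pi ^ 2) * (2 * Real.pi * ∫ u, ‖f u‖ ^ 2) := by
    rw [integral_const_mul, ← heq, ← hce]
    refine mul_le_mul_of_nonneg_left ?_ (by positivity)
    refine setIntegral_mono_set hci ?_ (Set.Ioc_subset_Ioi_self.eventuallyLE)
    filter_upwards [ae_restrict_mem measurableSet_Ioi] with x hx
    have : 0 < x := hx
    show 0 ≤ ‖𝓕 f (-(Real.log x / (2 * Real.pi)))‖ ^ 2 * x⁻¹
    positivity
  have hnH : Continuous (nH H c) := (fta_contH h hc1).norm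
  have hb3 : ∫ u, ‖f u‖ ^ 2 ≤ 256 * Q3 lam (nH H c) := by
    unfold Q3
    rw [← integral_const_mul]
    refine integral_mono_of_nonneg (Filter.Eventually.of_forall fun x => by positivity) ?_
      (Filter.Eventually.of_forall fun t => fta_pt hc hc1 hm hml hl1 t)
    apply Integrable.const_mul
    refine hint.mono' ?_ (Filter.Eventually.of_forall fun t => ?_)
    · apply Continuous.aestronglyMeasurable
      refine Continuous.mul (Continuous.div (hnH.pow 2) (by fun_prop) fun t => by positivity) ?_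
      fun_prop
    · have h1 : 0 ≤ min 1 (lam * (1 + t ^ 2)) := le_min zero_le_one (by positivity)
      have h2 : min 1 (lam * (1 + t ^ 2)) ≤ 1 := min_le_left _ _
      have h3 : (min 1 (lam * (1 + t ^ 2))) ^ 2 ≤ 1 := pow_le_one₀ h1 h2
      have h4 : 0 ≤ nH H c t ^ 2 / (1 + t ^ 2) := by positivity
      rw [Real.norm_eq_abs, abs_of_nonneg (by positivity)]
      nlinarith
  have hQ : 0 ≤ Q3 lam (nH H c) := by
    unfold Q3
    exact integral_nonneg fun t => by positivity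
  refine (hb1.trans hb2).trans ?_
  have hXp : 0 < X ^ (2 * c + 1) := Real.rpow_pos_of_pos hX _
  have h5 : X ^ (2 * c + 1) / (4 * Real.pi ^ 2) * (2 * Real.pi * ∫ u, ‖f u‖ ^ 2) =
      X ^ (2 * c + 1) * ((∫ u, ‖f u‖ ^ 2) / (2 * Real.pi)) := by
    field_simp
    ring
  rw [h5]
  have h6 : (∫ u, ‖f u‖ ^ 2) / (2 * Real.pi) ≤ 100 * Q3 lam (nH H c) := by
    rw [div_le_iff₀ (by positivity)]
    have h7 : 3 < Real.pi := Real.pi_gt_three
    nlinarith
  calc X ^ (2 * c + 1) * ((∫ u, ‖f u‖ ^ 2) / (2 * Real.pi))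
      ≤ X ^ (2 * c + 1) * (100 * Q3 lam (nH H c)) := mul_le_mul_of_nonneg_left h6 hXp.le
    _ = _ := by ring

end Pool.Agent.XS

namespace Pool.Agent.XS

/-- alias -/
theorem fat_two : type_of% @fat_two_pr := @fat_two_pr

end Pool.Agent.XS
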