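import Pool.Agent.Lib_helper26.XS.Defs

/-!
# XS, block FTB: the Gaussian smoothing is an approximate identity
-/

set_option autoImplicit false

namespace Pool.Agent.XS

open Finset Complex MeasureTheory Pool.Agent.Var35 Pool.Agent.Var73 Pool.Agent.HC Pool.Agent.MF
open scoped ArithmeticFunction ArithmeticFunction.Moebius

/-- substitution -/
theorem ftb_subst (E : ℝ → ℂ) {mu : ℝ} (hm : 0 < mu) (x : ℝ) :
    sm mu E x = (((Real.sqrt Real.pi)⁻¹ : ℝ) : ℂ) *
      ∫ u : ℝ, E (x * Real.exp (-(2 * Real.sqrt mu * u))) * (Real.exp (-(u ^ 2)) : ℂ) := by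
  have hs : 0 < Real.sqrt mu := Real.sqrt_pos.mpr hm
  have ha : 0 < 2 * Real.sqrt mu := by positivity
  have h1 := Measure.integral_comp_mul_left
    (fun v : ℝ => E (x * Real.exp (-v)) * (Real.exp (-(v ^ 2 / (4 * mu))) : ℂ)) (2 * Real.sqrt mu)
  have h2 : (fun u : ℝ => E (x * Real.exp (-(2 * Real.sqrt mu * u))) *
      (Real.exp (-((2 * Real.sqrt mu * u) ^ 2 / (4 * mu))) : ℂ)) =
      fun u : ℝ => E (x * Real.exp (-(2 * Real.sqrt mu * u))) * (Real.exp (-(u ^ 2)) : ℂ) := by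
    funext u
    have h3 : (2 * Real.sqrt mu * u) ^ 2 / (4 * mu) = u ^ 2 := by
      rw [mul_pow, mul_pow, Real.sq_sqrt hm.le]
      field_simp
      ring
    rw [h3]
  rw [h2] at h1
  rw [h1, sm, abs_of_pos (inv_pos.mpr ha), Complex.real_smul, ← mul_assoc]
  congr 1
  rw [← Complex.ofReal_mul]
  congr 1
  have h4 : Real.sqrt (4 * Real.pi * mu) = 2 * Real.sqrt Real.pi * Real.sqrt mu := by
    rw [Real.sqrt_mul (by positivity), Real.sqrt_mul (by norm_num)]
    have : Real.sqrt 4 = 2 := by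
      rw [show (4 : ℝ) = 2 ^ 2 by norm_num]
      exact Real.sqrt_sq (by norm_num)
    rw [this]
  rw [h4]
  have h5 : 0 < Real.sqrt Real.pi := Real.sqrt_pos.mpr Real.pi_pos
  field_simp

theorem ftb_bound {E : ℝ → ℂ} {H : ℂ → ℂ} {c : ℝ} (h : Rep E H c) :
    ∃ A : ℝ, 0 ≤ A ∧ ∀ y : ℝ, 0 < y → ‖E y‖ ≤ A * y ^ (3 / 2 : ℝ) := by
  obtain ⟨A, hA⟩ := h.bound
  refine ⟨|A|, abs_nonneg _, fun y hy => ?_⟩
  rcases lt_or_ge y 1 with h1 | h1
  · rw [h.zero y h1, norm_zero]
    positivity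
  · refine (hA y h1).trans ?_
    gcongr
    exact le_abs_self A

theorem ftb_exp (u : ℝ) : Real.exp (3 * |u|) * Real.exp (-(u ^ 2)) ≤
    Real.exp (9 / 2) * Real.exp (-(1 / 2) * u ^ 2) := by
  rw [← Real.exp_add, ← Real.exp_add]
  apply Real.exp_le_exp.mpr
  have h1 : 0 ≤ (|u| - 3) ^ 2 := sq_nonneg _
  have h2 : |u| ^ 2 = u ^ 2 := sq_abs u
  nlinarith

/-- FTB: approximate identity -/
theorem fat_lim_pr {E : ℝ → ℂ} {H : ℂ → ℂ} {c : ℝ} (h : Rep E H c) {x : ℝ} (hx : 0 < x)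
    (hxn : ∀ n : ℕ, x ≠ n) :
    Filter.Tendsto (fun mu : ℝ => sm mu E x) (nhdsWithin 0 (Set.Ioi 0)) (nhds (E x)) := by
  obtain ⟨A, hA0, hA⟩ := ftb_bound h
  have hpi : Real.sqrt Real.pi ≠ 0 := (Real.sqrt_pos.mpr Real.pi_pos).ne'
  have key : Filter.Tendsto (fun mu : ℝ => ∫ u : ℝ, E (x * Real.exp (-(2 * Real.sqrt mu * u))) *
      (Real.exp (-(u ^ 2)) : ℂ)) (nhdsWithin 0 (Set.Ioi 0))
      (nhds (∫ u : ℝ, E x * (Real.exp (-(u ^ 2)) : ℂ))) := by
    refine tendsto_integral_filter_of_dominated_convergence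
      (fun u : ℝ => A * x ^ (3 / 2 : ℝ) * (Real.exp (9 / 2) * Real.exp (-(1 / 2) * u ^ 2)))
      ?_ ?_ ?_ ?_
    · refine Filter.Eventually.of_forall fun mu => ?_
      refine Measurable.aestronglyMeasurable ?_
      refine (h.meas.comp ?_).mul ?_
      · fun_prop
      · fun_prop
    · have h1 : Set.Ioc (0 : ℝ) 1 ∈ nhdsWithin (0 : ℝ) (Set.Ioi 0) :=
        Ioc_mem_nhdsGT (by norm_num)
      filter_upwards [h1] with mu hmu
      refine Filter.Eventually.of_forall fun u => ?_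
      have hy : 0 < x * Real.exp (-(2 * Real.sqrt mu * u)) := by positivity
      have hs1 : Real.sqrt mu ≤ 1 := by
        rw [Real.sqrt_le_one]
        exact hmu.2
      have hs0 : 0 ≤ Real.sqrt mu := Real.sqrt_nonneg _
      have e0 : -(2 * Real.sqrt mu * u) ≤ 2 * |u| := by
        have h2 : -(Real.sqrt mu * u) ≤ |Real.sqrt mu * u| := neg_le_abs _
        rw [abs_mul, abs_of_nonneg hs0] at h2
        nlinarith [abs_nonneg u, mul_nonneg (sub_nonneg.mpr hs1) (abs_nonneg u)]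
      have e1 : (x * Real.exp (-(2 * Real.sqrt mu * u))) ^ (3 / 2 : ℝ) ≤
          x ^ (3 / 2 : ℝ) * Real.exp (3 * |u|) := by
        rw [Real.mul_rpow hx.le (Real.exp_pos _).le, ← Real.exp_mul]
        have h7 : Real.exp (-(2 * Real.sqrt mu * u) * (3 / 2)) ≤ Real.exp (3 * |u|) :=
          Real.exp_le_exp.mpr (by linarith)
        exact mul_le_mul_of_nonneg_left h7 (by positivity)
      have e2 : ‖((Real.exp (-(u ^ 2)) : ℝ) : ℂ)‖ = Real.exp (-(u ^ 2)) := by
        rw [Complex.norm_real, Real.norm_eq_abs, abs_of_pos (Real.exp_pos _)]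
      rw [norm_mul, e2]
      calc ‖E (x * Real.exp (-(2 * Real.sqrt mu * u)))‖ * Real.exp (-(u ^ 2))
          ≤ A * (x ^ (3 / 2 : ℝ) * Real.exp (3 * |u|)) * Real.exp (-(u ^ 2)) := by
            gcongr
            exact (hA _ hy).trans (by gcongr)
        _ = A * x ^ (3 / 2 : ℝ) * (Real.exp (3 * |u|) * Real.exp (-(u ^ 2))) := by ring
        _ ≤ _ := by
            have := ftb_exp u
            gcongr
    · exact ((integrable_exp_neg_mul_sq (by norm_num : (0 : ℝ) < 1 / 2)).const_mul _).const_mul _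
    · refine Filter.Eventually.of_forall fun u => ?_
      refine Filter.Tendsto.mul_const _ ?_
      have h1 : Filter.Tendsto (fun mu : ℝ => x * Real.exp (-(2 * Real.sqrt mu * u)))
          (nhdsWithin 0 (Set.Ioi 0)) (nhds x) := by
        have h2 : Continuous (fun mu : ℝ => x * Real.exp (-(2 * Real.sqrt mu * u))) := by
          fun_prop
        have h3 := (h2.tendsto 0).mono_left
          (nhdsWithin_le_nhds : nhdsWithin (0 : ℝ) (Set.Ioi 0) ≤ nhds 0)
        simpa using h3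
      exact (h.cont x hxn).tendsto.comp h1
  have hgauss : ∫ u : ℝ, E x * (Real.exp (-(u ^ 2)) : ℂ) = E x * ((Real.sqrt Real.pi : ℝ) : ℂ) := by
    rw [integral_const_mul, integral_complex_ofReal]
    have h3 := integral_gaussian 1
    simp only [neg_mul, one_mul, div_one] at h3
    rw [h3]
  rw [hgauss] at key
  have h4 := key.const_mul (((Real.sqrt Real.pi)⁻¹ : ℝ) : ℂ)
  have h5 : (((Real.sqrt Real.pi)⁻¹ : ℝ) : ℂ) * (E x * ((Real.sqrt Real.pi : ℝ) : ℂ)) = E x := by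
    have h6 : ((Real.sqrt Real.pi : ℝ) : ℂ) ≠ 0 := by exact_mod_cast hpi
    rw [Complex.ofReal_inv]
    field_simp
  rw [h5] at h4
  refine h4.congr' ?_
  filter_upwards [self_mem_nhdsWithin] with mu hmu
  exact (ftb_subst E hmu x).symm

end Pool.Agent.XS

namespace Pool.Agent.XS

/-- alias -/
theorem fat_lim : type_of% @fat_lim_pr := @fat_lim_pr

end Pool.Agent.XS
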