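import Pool.Agent.Lib_helper26.XS.Defs
import Pool.Agent.Lib_helper26.XSF.DER
import Pool.Agent.Lib_helper26.XSF.FTA
import Pool.Agent.Lib_helper26.XSF.FTB
import Pool.Agent.Lib_helper26.XSF.PTW

/-!
# XS, block FTC: mean square of the rest (Fatou)
-/

set_option autoImplicit false

namespace Pool.Agent.XS

open Finset Complex MeasureTheory Pool.Agent.Var35 Pool.Agent.Var73 Pool.Agent.HC Pool.Agent.MF
open scoped ArithmeticFunction ArithmeticFunction.Moebius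

theorem ftc_meas {E : ℝ → ℂ} {H : ℂ → ℂ} {c : ℝ} (h : Rep E H c) (hc : 3 / 4 ≤ c) (hc1 : c ≤ 1)
    {lam : ℝ} (hl : 0 < lam) (X : ℝ) :
    AEStronglyMeasurable (sm lam E) (volume.restrict (Set.Ioc 0 X)) := by
  have h1 : ContinuousOn (sm lam E) (Set.Ioc 0 X) := fun x hx =>
    (sm_deriv h hc hc1 hl hx.1).continuousAt.continuousWithinAt
  exact h1.aestronglyMeasurable measurableSet_Ioc

theorem ftc_sq (a b : ℂ) : ‖a - b‖ ^ 2 ≤ 2 * ‖a‖ ^ 2 + 2 * ‖b‖ ^ 2 := by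
  have h1 := norm_sub_le a b
  have h2 := norm_nonneg (a - b)
  nlinarith [sq_nonneg (‖a‖ - ‖b‖)]

theorem ftc_int {E : ℝ → ℂ} {H : ℂ → ℂ} {c : ℝ} (h : Rep E H c) (hc : 3 / 4 ≤ c) (hc1 : c ≤ 1)
    {mu lam : ℝ} (hm : 0 < mu) (hm1 : mu ≤ 1) (hl : 0 < lam) (hl1 : lam ≤ 1) (X : ℝ) :
    IntegrableOn (fun x => ‖sm mu E x - sm lam E x‖ ^ 2) (Set.Ioc 0 X) := by
  refine Integrable.of_bound (((ftc_meas h hc hc1 hm X).sub (ftc_meas h hc hc1 hl X)).norm.pow 2)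
    (8 * X ^ (2 * c) * (Q2 mu (nH H c) + Q2 lam (nH H c))) ?_
  filter_upwards [ae_restrict_mem measurableSet_Ioc] with x hx
  show ‖‖sm mu E x - sm lam E x‖ ^ 2‖ ≤ _
  rw [Real.norm_of_nonneg (sq_nonneg _)]
  have h1 := sm_ptw h hc hc1 hm hm1 hx.1
  have h2 := sm_ptw h hc hc1 hl hl1 hx.1
  have h3 : x ^ (2 * c) ≤ X ^ (2 * c) := Real.rpow_le_rpow hx.1.le hx.2 (by linarith)
  have h4 : 0 ≤ Q2 mu (nH H c) := sq_nonneg _
  have h5 : 0 ≤ Q2 lam (nH H c) := sq_nonneg _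
  have h6 := ftc_sq (sm mu E x) (sm lam E x)
  have h7 := mul_le_mul_of_nonneg_right h3 h4
  have h8 := mul_le_mul_of_nonneg_right h3 h5
  nlinarith

theorem ftc_ae (X : ℝ) :
    ∀ᵐ x : ℝ ∂(volume.restrict (Set.Ioc (0 : ℝ) X)), 0 < x ∧ ∀ n : ℕ, x ≠ (n : ℝ) := by
  have h1 : ∀ᵐ x ∂(volume : Measure ℝ), x ∉ Set.range (fun n : ℕ => (n : ℝ)) :=
    (Set.countable_range (fun n : ℕ => (n : ℝ))).ae_notMem volume
  filter_upwards [ae_restrict_mem measurableSet_Ioc, ae_restrict_of_ae h1] with x hx hx1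
  exact ⟨hx.1, fun n hn => hx1 ⟨n, hn.symm⟩⟩

theorem fat_pr {E : ℝ → ℂ} {H : ℂ → ℂ} {c : ℝ} (h : Rep E H c) (hc : 3 / 4 ≤ c) (hc1 : c ≤ 1)
    {lam : ℝ} (hl : 0 < lam) (hl1 : lam ≤ 1)
    (hint : Integrable (fun t => nH H c t ^ 2 / (1 + t ^ 2))) {X : ℝ} (hX : 0 < X) :
    IntervalIntegrable (fun x => ‖E x - sm lam E x‖ ^ 2) volume 0 X ∧
    ∫ x in (0 : ℝ)..X, ‖E x - sm lam E x‖ ^ 2 ≤ 100 * X ^ (2 * c + 1) * Q3 lam (nH H c) := by
  set B : ℝ := 100 * X ^ (2 * c + 1) * Q3 lam (nH H c) with hB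
  set ν : Measure ℝ := volume.restrict (Set.Ioc 0 X) with hν
  let mu : ℕ → ℝ := fun k => lam / (k + 1)
  have hk1 : ∀ k : ℕ, (1 : ℝ) ≤ k + 1 := fun k => by
    have : (0 : ℝ) ≤ k := Nat.cast_nonneg k
    linarith
  have hmu : ∀ k, 0 < mu k := fun k => div_pos hl (by linarith [hk1 k])
  have hml : ∀ k, mu k ≤ lam := fun k => div_le_self hl.le (hk1 k)
  have hm1 : ∀ k, mu k ≤ 1 := fun k => (hml k).trans hl1
  -- the bound for the approximations
  have hF : ∀ k, ∫⁻ x, ENNReal.ofReal (‖sm (mu k) E x - sm lam E x‖ ^ 2) ∂ν ≤ ENNReal.ofReal B := by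
    intro k
    have h1 := fat_two h hc hc1 (hmu k) (hml k) hl1 hint hX
    rw [intervalIntegral.integral_of_le hX.le] at h1
    have h2 := ftc_int h hc hc1 (hmu k) (hm1 k) hl hl1 X
    rw [← ofReal_integral_eq_lintegral_ofReal h2 (Filter.Eventually.of_forall fun x => sq_nonneg _)]
    exact ENNReal.ofReal_le_ofReal h1
  have hB0 : 0 ≤ B := by
    have h1 := fat_two h hc hc1 hl le_rfl hl1 hint hX
    refine le_trans ?_ h1
    exact intervalIntegral.integral_nonneg hX.le fun x _ => sq_nonneg _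
  have hmE : AEStronglyMeasurable (fun x => ‖E x - sm lam E x‖ ^ 2) ν :=
    (h.meas.aestronglyMeasurable.sub (ftc_meas h hc hc1 hl X)).norm.pow 2
  have hmF : ∀ k, AEMeasurable (fun x => ENNReal.ofReal (‖sm (mu k) E x - sm lam E x‖ ^ 2)) ν :=
    fun k => ((((ftc_meas h hc hc1 (hmu k) X).sub (ftc_meas h hc hc1 hl X)).norm.pow
      2).aemeasurable).ennreal_ofReal
  have hlim : Filter.Tendsto mu Filter.atTop (nhdsWithin 0 (Set.Ioi 0)) := by
    rw [tendsto_nhdsWithin_iff]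
    refine ⟨?_, Filter.Eventually.of_forall hmu⟩
    have h1 := (tendsto_one_div_add_atTop_nhds_zero_nat (𝕜 := ℝ)).const_mul lam
    rw [mul_zero] at h1
    refine h1.congr fun k => ?_
    show lam * (1 / ((k : ℝ) + 1)) = lam / (k + 1)
    rw [mul_one_div]
  have hle : ∫⁻ x, ENNReal.ofReal (‖E x - sm lam E x‖ ^ 2) ∂ν ≤ ENNReal.ofReal B := by
    have h1 : ∫⁻ x, ENNReal.ofReal (‖E x - sm lam E x‖ ^ 2) ∂ν =
        ∫⁻ x, Filter.liminf (fun k => ENNReal.ofReal (‖sm (mu k) E x - sm lam E x‖ ^ 2))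
          Filter.atTop ∂ν := by
      refine lintegral_congr_ae ?_
      filter_upwards [ftc_ae X] with x hx
      have h2 := (fat_lim h hx.1 hx.2).comp hlim
      have h3 : Filter.Tendsto (fun k => ENNReal.ofReal (‖sm (mu k) E x - sm lam E x‖ ^ 2))
          Filter.atTop (nhds (ENNReal.ofReal (‖E x - sm lam E x‖ ^ 2))) :=
        ENNReal.tendsto_ofReal (((h2.sub_const _).norm).pow 2)
      exact h3.liminf_eq.symm
    rw [h1]
    refine (lintegral_liminf_le' hmF).trans ?_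
    refine Filter.liminf_le_of_frequently_le' (Filter.Frequently.of_forall hF)
  have hI : Integrable (fun x => ‖E x - sm lam E x‖ ^ 2) ν := by
    refine ⟨hmE, ?_⟩
    rw [hasFiniteIntegral_iff_ofReal (Filter.Eventually.of_forall fun x => sq_nonneg _)]
    exact hle.trans_lt ENNReal.ofReal_lt_top
  refine ⟨(intervalIntegrable_iff_integrableOn_Ioc_of_le hX.le).2 hI, ?_⟩
  rw [intervalIntegral.integral_of_le hX.le,
    integral_eq_lintegral_of_nonneg_ae (Filter.Eventually.of_forall fun x => sq_nonneg _) hmE]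
  exact ENNReal.toReal_le_of_le_ofReal hB0 hle

end Pool.Agent.XS

namespace Pool.Agent.XS

/-- alias -/
theorem fat : type_of% @fat_pr := @fat_pr

end Pool.Agent.XS
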