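import Pool.Agent.Lib_helper26.XS.Defs
import Pool.Agent.Lib_helper26.XSF.BES
import Pool.Agent.Lib_helper26.XSF.DER
import Pool.Agent.Lib_helper26.XSF.DL2
import Pool.Agent.Lib_helper26.XSF.FTC
import Pool.Agent.Lib_helper26.XSF.PTW
/-! Block ONE of project XS: one function, low and high frequencies. -/

set_option autoImplicit false

namespace Pool.Agent.XS

open Finset Complex MeasureTheory Pool.Agent.Var35 Pool.Agent.Var73 Pool.Agent.HC Pool.Agent.MF
open scoped ArithmeticFunction ArithmeticFunction.Moebius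

theorem one_e_norm (x : ℝ) : ‖e x‖ = 1 := by
  unfold e
  exact Complex.norm_exp_ofReal_mul_I _

theorem one_e_cont : Continuous e := by
  unfold e
  fun_prop

theorem one_e_deriv (β x : ℝ) : HasDerivAt (fun x : ℝ => e (x * β))
    (((2 * Real.pi * β : ℝ) : ℂ) * I * e (x * β)) x := by
  unfold e
  have h1 : HasDerivAt (fun x : ℝ => ((2 * Real.pi * (x * β) : ℝ) : ℂ) * I)
      (((2 * Real.pi * β : ℝ) : ℂ) * I) x := by
    have h2 : HasDerivAt (fun x : ℝ => 2 * Real.pi * (x * β)) (2 * Real.pi * β) x := by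
      have := ((hasDerivAt_id x).mul_const β).const_mul (2 * Real.pi)
      simpa using this
    exact h2.ofReal_comp.mul_const I
  have := h1.cexp
  rw [mul_comm (cexp _)] at this
  exact this

/-- integrals against `e (x β)` of an integrable function are continuous in `β` -/
theorem one_cont_int {f : ℝ → ℂ} {X : ℝ} (hf : IntervalIntegrable f volume 0 X) :
    Continuous (fun β : ℝ => ∫ x in (0 : ℝ)..X, f x * e (x * β)) := by
  refine intervalIntegral.continuous_of_dominated_interval (bound := fun x => ‖f x‖) ?_ ?_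
    hf.norm ?_
  · intro β
    have h1 : AEStronglyMeasurable (fun x : ℝ => e (x * β)) (volume.restrict (Set.uIoc 0 X)) :=
      (one_e_cont.comp (by fun_prop)).aestronglyMeasurable
    exact hf.def'.aestronglyMeasurable.mul h1
  · intro β
    refine Filter.Eventually.of_forall fun x _ => ?_
    rw [norm_mul, one_e_norm, mul_one]
  · refine Filter.Eventually.of_forall fun x _ => ?_
    exact continuous_const.mul (one_e_cont.comp (by fun_prop))

theorem one_ii {f : ℝ → ℂ} {X : ℝ} (hf : IntervalIntegrable f volume 0 X) (β : ℝ) :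
    IntervalIntegrable (fun x => f x * e (x * β)) volume 0 X :=
  hf.mul_continuousOn (one_e_cont.comp (by fun_prop)).continuousOn

/-- an `L²` function on a finite interval is integrable -/
theorem one_l2 {f : ℝ → ℂ} {X : ℝ} (hX : 0 ≤ X)
    (hm : AEStronglyMeasurable f (volume.restrict (Set.Ioc 0 X)))
    (h2 : IntervalIntegrable (fun x => ‖f x‖ ^ 2) volume 0 X) :
    IntervalIntegrable f volume 0 X := by
  rw [intervalIntegrable_iff_integrableOn_Ioc_of_le hX] at h2 ⊢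
  have h3 : IntegrableOn (fun x => 1 + ‖f x‖ ^ 2) (Set.Ioc 0 X) :=
    (integrableOn_const (by simp)).add h2
  refine h3.mono' hm (Filter.Eventually.of_forall fun x => ?_)
  nlinarith [sq_nonneg (‖f x‖ - 1), sq_nonneg (‖f x‖)]

theorem one_Q1 (lam : ℝ) (h : ℝ → ℝ) : 0 ≤ Q1 lam h :=
  integral_nonneg fun t => by positivity

theorem one_Q2 (lam : ℝ) (h : ℝ → ℝ) : 0 ≤ Q2 lam h := by
  unfold Q2; positivity

theorem one_Q3 (lam : ℝ) (h : ℝ → ℝ) : 0 ≤ Q3 lam h :=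
  integral_nonneg fun t => by positivity

theorem one_sm_zero {E : ℝ → ℂ} {H : ℂ → ℂ} {c : ℝ} (h : Rep E H c) (lam : ℝ) :
    sm lam E 0 = 0 := by
  unfold sm
  simp only [zero_mul]
  rw [h.zero 0 (by norm_num)]
  simp

theorem one_sm_cont {E : ℝ → ℂ} {H : ℂ → ℂ} {c : ℝ} (h : Rep E H c) (hc : 3 / 4 ≤ c)
    (hc1 : c ≤ 1) {lam : ℝ} (hl : 0 < lam) (hl1 : lam ≤ 1) (X : ℝ) :
    ContinuousOn (sm lam E) (Set.Icc 0 X) := by
  intro x hx
  rcases eq_or_lt_of_le hx.1 with h0 | h0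
  · subst h0
    rw [ContinuousWithinAt, one_sm_zero h]
    rw [tendsto_zero_iff_norm_tendsto_zero]
    have hlim : Filter.Tendsto (fun x : ℝ => Real.sqrt (4 * x ^ (2 * c) * Q2 lam (nH H c)))
        (nhdsWithin 0 (Set.Icc 0 X)) (nhds 0) := by
      have h1 : Continuous (fun x : ℝ => Real.sqrt (4 * x ^ (2 * c) * Q2 lam (nH H c))) := by
        have h2 : Continuous (fun x : ℝ => x ^ (2 * c)) :=
          Real.continuous_rpow_const (by linarith)
        fun_prop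
      have h3 := (h1.tendsto 0).mono_left (nhdsWithin_le_nhds (s := Set.Icc 0 X))
      rw [Real.zero_rpow (by linarith)] at h3
      simpa using h3
    refine squeeze_zero' (Filter.Eventually.of_forall fun x => norm_nonneg _) ?_ hlim
    refine Filter.eventually_of_mem self_mem_nhdsWithin fun x hx => ?_
    rcases eq_or_lt_of_le hx.1 with h0 | h0
    · rw [← h0, one_sm_zero h, norm_zero]
      exact Real.sqrt_nonneg _
    · apply Real.le_sqrt_of_sq_le
      exact sm_ptw h hc hc1 hl hl1 h0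
  · exact (sm_deriv h hc hc1 hl h0).continuousAt.continuousWithinAt

theorem one_E_ii {E : ℝ → ℂ} {H : ℂ → ℂ} {c : ℝ} (h : Rep E H c) {X : ℝ} (hX : 1 ≤ X) :
    IntervalIntegrable E volume 0 X := by
  obtain ⟨A, hA⟩ := h.bound
  rw [intervalIntegrable_iff_integrableOn_Ioc_of_le (by linarith)]
  have h3 : IntegrableOn (fun _ : ℝ => |A| * X ^ (3 / 2 : ℝ)) (Set.Ioc 0 X) :=
    integrableOn_const (by simp)
  refine h3.mono' h.meas.aestronglyMeasurable ?_
  rw [ae_restrict_iff' measurableSet_Ioc]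
  refine Filter.Eventually.of_forall fun x hx => ?_
  rcases lt_or_ge x 1 with h1 | h1
  · rw [h.zero x h1, norm_zero]
    positivity
  · calc ‖E x‖ ≤ A * x ^ (3 / 2 : ℝ) := hA x h1
      _ ≤ |A| * X ^ (3 / 2 : ℝ) := by
        apply mul_le_mul (le_abs_self A) (Real.rpow_le_rpow (by linarith) hx.2 (by norm_num))
          (Real.rpow_nonneg (by linarith) _) (abs_nonneg _)

/-- integration by parts for the smoothing -/
theorem one_parts {E : ℝ → ℂ} {H : ℂ → ℂ} {c : ℝ} (h : Rep E H c) (hc : 3 / 4 ≤ c)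
    (hc1 : c ≤ 1) {lam : ℝ} (hl : 0 < lam) (hl1 : lam ≤ 1) {X : ℝ} (hX : 1 ≤ X) (β : ℝ) :
    Bf (sm lam E) X β = ∫ x in (0 : ℝ)..X, gd lam H c x * e (x * β) := by
  have hX0 : 0 < X := by linarith
  have hG : ContinuousOn (sm lam E) (Set.Icc 0 X) := one_sm_cont h hc hc1 hl hl1 X
  have hGi : IntervalIntegrable (sm lam E) volume 0 X :=
    (hG.mono (by rw [Set.uIcc_of_le hX0.le])).intervalIntegrable
  have hgi : IntervalIntegrable (gd lam H c) volume 0 X :=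
    one_l2 hX0.le (((gd_cont h hc hc1 hl).mono
      (fun x hx => hx.1)).aestronglyMeasurable measurableSet_Ioc) (gd_l2 h hc hc1 hl hl1 hX0).1
  have h1 := intervalIntegral.integral_eq_sub_of_hasDerivAt_of_le hX0.le
    (f := fun x => sm lam E x * e (x * β))
    (f' := fun x => gd lam H c x * e (x * β) +
      sm lam E x * (((2 * Real.pi * β : ℝ) : ℂ) * I * e (x * β)))
    (hG.mul (one_e_cont.comp (by fun_prop)).continuousOn)
    (fun x hx => (sm_deriv h hc hc1 hl hx.1).mul (one_e_deriv β x))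
    ((one_ii hgi β).add (by
      have := (one_ii hGi β).const_mul (((2 * Real.pi * β : ℝ) : ℂ) * I)
      refine this.congr fun x _ => ?_
      ring))
  rw [intervalIntegral.integral_add (one_ii hgi β) (by
      have := (one_ii hGi β).const_mul (((2 * Real.pi * β : ℝ) : ℂ) * I)
      refine this.congr fun x _ => ?_
      ring)] at h1
  have h2 : ∫ x in (0 : ℝ)..X, sm lam E x * (((2 * Real.pi * β : ℝ) : ℂ) * I * e (x * β)) =
      ((2 * Real.pi * β : ℝ) : ℂ) * I * ∫ x in (0 : ℝ)..X, sm lam E x * e (x * β) := by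
    rw [← intervalIntegral.integral_const_mul]
    refine intervalIntegral.integral_congr fun x _ => ?_
    ring
  rw [h2, one_sm_zero h, zero_mul, sub_zero] at h1
  unfold Bf
  rw [mul_comm (e (X * β)), ← h1]
  ring

theorem one_Bf_add {f g : ℝ → ℂ} {X : ℝ} (hf : IntervalIntegrable f volume 0 X)
    (hg : IntervalIntegrable g volume 0 X) (β : ℝ) :
    Bf (fun x => f x + g x) X β = Bf f X β + Bf g X β := by
  unfold Bf
  have h1 : ∫ x in (0 : ℝ)..X, (f x + g x) * e (x * β) =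
      (∫ x in (0 : ℝ)..X, f x * e (x * β)) + ∫ x in (0 : ℝ)..X, g x * e (x * β) := by
    rw [← intervalIntegral.integral_add (one_ii hf β) (one_ii hg β)]
    refine intervalIntegral.integral_congr fun x _ => ?_
    ring
  rw [h1]
  ring

theorem one_Bf_cont {f : ℝ → ℂ} {X : ℝ} (hf : IntervalIntegrable f volume 0 X) :
    Continuous (Bf f X) := by
  unfold Bf
  have h1 := one_cont_int hf
  have h2 : Continuous (fun β : ℝ => e (X * β)) := one_e_cont.comp (by fun_prop)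
  fun_prop

theorem one_Bf_bound {D : ℝ → ℂ} {X Δ : ℝ} (hX : 0 ≤ X) (hΔ : 0 ≤ Δ)
    (hm : AEStronglyMeasurable D (volume.restrict (Set.Ioc 0 X)))
    (h2 : IntervalIntegrable (fun x => ‖D x‖ ^ 2) volume 0 X) :
    ∫ β in (-Δ)..Δ, ‖Bf D X β‖ ^ 2 ≤
      4 * Δ * ‖D X‖ ^ 2 + 80 * Δ ^ 2 * ∫ x in (0 : ℝ)..X, ‖D x‖ ^ 2 := by
  have hD := one_l2 hX hm h2
  have hle : -Δ ≤ Δ := by linarith
  have hpt : ∀ β ∈ Set.Icc (-Δ) Δ, ‖Bf D X β‖ ^ 2 ≤ 2 * ‖D X‖ ^ 2 +
      80 * Δ ^ 2 * ‖∫ x in (0 : ℝ)..X, D x * e (x * β)‖ ^ 2 := by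
    intro β hβ
    unfold Bf
    set J := ∫ x in (0 : ℝ)..X, D x * e (x * β)
    have h3 : ‖e (X * β) * D X - ((2 * Real.pi * β : ℝ) : ℂ) * I * J‖ ≤
        ‖D X‖ + 2 * Real.pi * |β| * ‖J‖ := by
      refine (norm_sub_le _ _).trans (le_of_eq ?_)
      rw [norm_mul, norm_mul, norm_mul, one_e_norm, Complex.norm_real, norm_I, Real.norm_eq_abs,
        abs_mul, abs_of_pos (show (0 : ℝ) < 2 * Real.pi by positivity)]
      ring
    have h4 : |β| ^ 2 ≤ Δ ^ 2 := by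
      rw [sq_abs]
      exact sq_le_sq' hβ.1 hβ.2
    have h5 : Real.pi ^ 2 ≤ 10 := by
      have := Real.pi_lt_d2
      have := Real.pi_pos
      nlinarith
    calc ‖e (X * β) * D X - ((2 * Real.pi * β : ℝ) : ℂ) * I * J‖ ^ 2
        ≤ (‖D X‖ + 2 * Real.pi * |β| * ‖J‖) ^ 2 := pow_le_pow_left₀ (norm_nonneg _) h3 2
      _ ≤ 2 * ‖D X‖ ^ 2 + 2 * (2 * Real.pi * |β| * ‖J‖) ^ 2 := by
          nlinarith [sq_nonneg (‖D X‖ - 2 * Real.pi * |β| * ‖J‖)]
      _ = 2 * ‖D X‖ ^ 2 + 8 * Real.pi ^ 2 * |β| ^ 2 * ‖J‖ ^ 2 := by ring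
      _ ≤ 2 * ‖D X‖ ^ 2 + 8 * 10 * Δ ^ 2 * ‖J‖ ^ 2 := by
          gcongr
      _ = _ := by ring
  have hc1 : Continuous (fun β => ‖Bf D X β‖ ^ 2) := (one_Bf_cont hD).norm.pow 2
  have hc2 : Continuous (fun β : ℝ => ‖∫ x in (0 : ℝ)..X, D x * e (x * β)‖ ^ 2) :=
    (one_cont_int hD).norm.pow 2
  have hc3 : Continuous (fun β : ℝ =>
      80 * Δ ^ 2 * ‖∫ x in (0 : ℝ)..X, D x * e (x * β)‖ ^ 2) := continuous_const.mul hc2
  have hc4 : Continuous (fun _ : ℝ => 2 * ‖D X‖ ^ 2) := continuous_const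
  have hc5 : Continuous (fun β : ℝ => 2 * ‖D X‖ ^ 2 +
      80 * Δ ^ 2 * ‖∫ x in (0 : ℝ)..X, D x * e (x * β)‖ ^ 2) := hc4.add hc3
  calc ∫ β in (-Δ)..Δ, ‖Bf D X β‖ ^ 2
      ≤ ∫ β in (-Δ)..Δ, (2 * ‖D X‖ ^ 2 +
        80 * Δ ^ 2 * ‖∫ x in (0 : ℝ)..X, D x * e (x * β)‖ ^ 2) :=
        intervalIntegral.integral_mono_on hle (hc1.intervalIntegrable _ _)
          (hc5.intervalIntegrable _ _) hpt
    _ = 4 * Δ * ‖D X‖ ^ 2 +
        80 * Δ ^ 2 * ∫ β in (-Δ)..Δ, ‖∫ x in (0 : ℝ)..X, D x * e (x * β)‖ ^ 2 := by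
        rw [intervalIntegral.integral_add (hc4.intervalIntegrable _ _)
          (hc3.intervalIntegrable _ _),
          intervalIntegral.integral_const, intervalIntegral.integral_const_mul, smul_eq_mul]
        ring
    _ ≤ _ := by
        have := bes D hX hΔ hm h2
        gcongr

theorem one_fun_pr {E : ℝ → ℂ} {H : ℂ → ℂ} {c : ℝ} (h : Rep E H c) (hc : 3 / 4 ≤ c) (hc1 : c ≤ 1)
    {lam : ℝ} (hl : 0 < lam) (hl1 : lam ≤ 1)
    (hint : Integrable (fun t => nH H c t ^ 2 / (1 + t ^ 2))) {X Δ : ℝ} (hX : 1 ≤ X)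
    (hΔ : 0 ≤ Δ) :
    ∫ β in (-Δ)..Δ, ‖Bf E X β‖ ^ 2 ≤ 100000 * (X ^ (2 * c - 1) * Q1 lam (nH H c) + Δ * ‖E X‖ ^ 2 +
      Δ * X ^ (2 * c) * Q2 lam (nH H c) + Δ ^ 2 * X ^ (2 * c + 1) * Q3 lam (nH H c)) := by
  have hX0 : 0 < X := by linarith
  have hG : ContinuousOn (sm lam E) (Set.Icc 0 X) := one_sm_cont h hc hc1 hl hl1 X
  have hGi : IntervalIntegrable (sm lam E) volume 0 X :=
    (hG.mono (by rw [Set.uIcc_of_le hX0.le])).intervalIntegrable
  have hgm : AEStronglyMeasurable (gd lam H c) (volume.restrict (Set.Ioc 0 X)) :=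
    ((gd_cont h hc hc1 hl).mono (fun x hx => hx.1)).aestronglyMeasurable measurableSet_Ioc
  have hg2 := gd_l2 h hc hc1 hl hl1 hX0
  have hgi : IntervalIntegrable (gd lam H c) volume 0 X := one_l2 hX0.le hgm hg2.1
  have hEi := one_E_ii h hX
  have hDi : IntervalIntegrable (fun x => E x - sm lam E x) volume 0 X := hEi.sub hGi
  have hDm : AEStronglyMeasurable (fun x => E x - sm lam E x)
      (volume.restrict (Set.Ioc 0 X)) := by
    rw [intervalIntegrable_iff_integrableOn_Ioc_of_le hX0.le] at hDi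
    exact hDi.aestronglyMeasurable
  have hfat := fat h hc hc1 hl hl1 hint hX0
  have hle : -Δ ≤ Δ := by linarith
  set J := fun β : ℝ => ∫ x in (0 : ℝ)..X, gd lam H c x * e (x * β) with hJ
  have hdec : ∀ β, Bf E X β = J β + Bf (fun x => E x - sm lam E x) X β := by
    intro β
    simp only [hJ]
    rw [← one_parts h hc hc1 hl hl1 hX β, ← one_Bf_add hGi hDi β]
    congr 1
    funext x
    ring
  have hcJ : Continuous J := one_cont_int hgi
  have hcD : Continuous (Bf (fun x => E x - sm lam E x) X) := one_Bf_cont hDi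
  have hcE : Continuous (Bf E X) := one_Bf_cont hEi
  have hpt : ∀ β ∈ Set.Icc (-Δ) Δ, ‖Bf E X β‖ ^ 2 ≤
      2 * ‖J β‖ ^ 2 + 2 * ‖Bf (fun x => E x - sm lam E x) X β‖ ^ 2 := by
    intro β _
    rw [hdec β]
    have h1 := norm_add_le (J β) (Bf (fun x => E x - sm lam E x) X β)
    calc _ ≤ (‖J β‖ + ‖Bf (fun x => E x - sm lam E x) X β‖) ^ 2 :=
          pow_le_pow_left₀ (norm_nonneg _) h1 2
      _ ≤ _ := by nlinarith [sq_nonneg (‖J β‖ - ‖Bf (fun x => E x - sm lam E x) X β‖)]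
  have hk1 : Continuous (fun β => 2 * ‖J β‖ ^ 2) := continuous_const.mul (hcJ.norm.pow 2)
  have hk2 : Continuous (fun β => 2 * ‖Bf (fun x => E x - sm lam E x) X β‖ ^ 2) :=
    continuous_const.mul (hcD.norm.pow 2)
  have hk3 : Continuous (fun β => 2 * ‖J β‖ ^ 2 +
      2 * ‖Bf (fun x => E x - sm lam E x) X β‖ ^ 2) := hk1.add hk2
  have hI1 : ∫ β in (-Δ)..Δ, ‖Bf E X β‖ ^ 2 ≤ 2 * (∫ β in (-Δ)..Δ, ‖J β‖ ^ 2) +
      2 * ∫ β in (-Δ)..Δ, ‖Bf (fun x => E x - sm lam E x) X β‖ ^ 2 := by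
    rw [← intervalIntegral.integral_const_mul, ← intervalIntegral.integral_const_mul,
      ← intervalIntegral.integral_add (hk1.intervalIntegrable _ _)
        (hk2.intervalIntegrable _ _)]
    exact intervalIntegral.integral_mono_on hle ((hcE.norm.pow 2).intervalIntegrable _ _)
      (hk3.intervalIntegrable _ _) hpt
  have hI2 : ∫ β in (-Δ)..Δ, ‖J β‖ ^ 2 ≤ 2 * X ^ (2 * c - 1) * Q1 lam (nH H c) :=
    (bes (gd lam H c) hX0.le hΔ hgm hg2.1).trans hg2.2
  have hI3 := one_Bf_bound hX0.le hΔ hDm hfat.1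
  have hDX : ‖E X - sm lam E X‖ ^ 2 ≤ 2 * ‖E X‖ ^ 2 + 8 * X ^ (2 * c) * Q2 lam (nH H c) := by
    have h1 := norm_sub_le (E X) (sm lam E X)
    have h2 := sm_ptw h hc hc1 hl hl1 hX0
    calc _ ≤ (‖E X‖ + ‖sm lam E X‖) ^ 2 := pow_le_pow_left₀ (norm_nonneg _) h1 2
      _ ≤ 2 * ‖E X‖ ^ 2 + 2 * ‖sm lam E X‖ ^ 2 := by
          nlinarith [sq_nonneg (‖E X‖ - ‖sm lam E X‖)]
      _ ≤ _ := by linarith
  have hq1 := one_Q1 lam (nH H c)
  have hq2 := one_Q2 lam (nH H c)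
  have hq3 := one_Q3 lam (nH H c)
  have hx1 : 0 ≤ X ^ (2 * c - 1) := Real.rpow_nonneg hX0.le _
  have hx2 : 0 ≤ X ^ (2 * c) := Real.rpow_nonneg hX0.le _
  have hx3 : 0 ≤ X ^ (2 * c + 1) := Real.rpow_nonneg hX0.le _
  have ha : 0 ≤ X ^ (2 * c - 1) * Q1 lam (nH H c) := by positivity
  have hb : 0 ≤ Δ * ‖E X‖ ^ 2 := by positivity
  have hcc : 0 ≤ Δ * X ^ (2 * c) * Q2 lam (nH H c) := by positivity
  have hd : 0 ≤ Δ ^ 2 * X ^ (2 * c + 1) * Q3 lam (nH H c) := by positivity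
  have hI3' : ∫ β in (-Δ)..Δ, ‖Bf (fun x => E x - sm lam E x) X β‖ ^ 2 ≤
      8 * (Δ * ‖E X‖ ^ 2) + 32 * (Δ * X ^ (2 * c) * Q2 lam (nH H c)) +
      8000 * (Δ ^ 2 * X ^ (2 * c + 1) * Q3 lam (nH H c)) := by
    refine hI3.trans ?_
    have h1 : 4 * Δ * ‖E X - sm lam E X‖ ^ 2 ≤
        4 * Δ * (2 * ‖E X‖ ^ 2 + 8 * X ^ (2 * c) * Q2 lam (nH H c)) := by gcongr
    have h2 : 80 * Δ ^ 2 * ∫ x in (0 : ℝ)..X, ‖E x - sm lam E x‖ ^ 2 ≤
        80 * Δ ^ 2 * (100 * X ^ (2 * c + 1) * Q3 lam (nH H c)) := by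
      have := hfat.2
      gcongr
    nlinarith
  nlinarith

end Pool.Agent.XS

namespace Pool.Agent.XS

/-- alias -/
theorem one_fun : type_of% @one_fun_pr := @one_fun_pr

end Pool.Agent.XS
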