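import Pool.Agent.Lib_helper26.XS.Defs
import Pool.Agent.Lib_helper26.XSF.FM1
import Pool.Agent.Lib_helper26.XSF.FM2
import Pool.Agent.Lib_helper26.XSF.FM3
import Pool.Agent.Lib_helper26.XSF.KDI
import Pool.Agent.Lib_helper26.XSF.KE1
import Pool.Agent.Lib_helper26.XSF.KE2
import Pool.Agent.Lib_helper26.XSF.KL
import Pool.Agent.Lib_helper26.XSF.KMC
import Pool.Agent.Lib_helper26.XSF.ONE
import Pool.Agent.Lib_helper26.XSF.RPA
import Pool.Agent.Lib_helper26.XSF.RPZ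

/-! XS, block KDF (helper36): the mean square on the arcs -/

set_option autoImplicit false

namespace Pool.Agent.XS

open Finset Complex MeasureTheory Pool.Agent.Var35 Pool.Agent.Var73 Pool.Agent.HC Pool.Agent.MF
open scoped ArithmeticFunction ArithmeticFunction.Moebius

theorem kdf_e_cont : Continuous e := by
  unfold e
  fun_prop

theorem kdf_norm_e (x : ℝ) : ‖e x‖ = 1 := by
  unfold e
  exact Complex.norm_exp_ofReal_mul_I _

theorem kdf_int_cont {F : ℝ → ℂ} {X : ℝ} (hF : IntervalIntegrable F volume 0 X) :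
    Continuous fun β : ℝ => ∫ x in (0 : ℝ)..X, F x * e (x * β) := by
  refine intervalIntegral.continuous_of_dominated_interval (bound := fun x => ‖F x‖) ?_ ?_
    hF.norm ?_
  · intro β
    refine AEStronglyMeasurable.mul hF.def'.aestronglyMeasurable ?_
    exact (kdf_e_cont.comp (continuous_id.mul continuous_const)).aestronglyMeasurable
  · intro β
    refine Filter.Eventually.of_forall fun x _ => ?_
    rw [norm_mul, kdf_norm_e, mul_one]
  · refine Filter.Eventually.of_forall fun x _ => ?_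
    exact continuous_const.mul (kdf_e_cont.comp (continuous_const.mul continuous_id))

theorem kdf_bf_cont {E : ℝ → ℂ} {X : ℝ} (hE : IntervalIntegrable E volume 0 X) :
    Continuous (Bf E X) := by
  have h1 := kdf_int_cont hE
  have h2 : Continuous fun β : ℝ => e (X * β) :=
    kdf_e_cont.comp (continuous_const.mul continuous_id)
  exact (h2.mul continuous_const).sub
    (((Complex.continuous_ofReal.comp (continuous_const.mul continuous_id)).mul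
      continuous_const).mul h1)

theorem kdf_eb_cont {q : ℕ} (χ : DirichletCharacter ℂ q) (X : ℝ) : Continuous (EB χ X) := by
  unfold EB
  refine Continuous.sub ?_ ?_
  · refine continuous_finsetSum _ fun n _ => continuous_const.mul ?_
    exact kdf_e_cont.comp (continuous_const.mul continuous_id)
  · split_ifs
    · have h1 := kdf_int_cont (F := fun _ => 1) (X := X) intervalIntegrable_const
      simp only [one_mul] at h1
      exact h1
    · exact continuous_const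

theorem kdf_ei_int (z : ℕ) {q : ℕ} (χ : DirichletCharacter ℂ q) {X : ℝ} (hX : 0 ≤ X) :
    IntervalIntegrable (EI z χ) volume 0 X := by
  classical
  obtain ⟨G, hG⟩ : ∃ G : ℕ → ℂ, EI z χ = fun x => G ⌊x⌋₊ := by
    refine ⟨fun N => if χ = 1 then 0 else ∑ n ∈ Icc 1 N, (cI z n : ℂ) * χ (n : ZMod q), ?_⟩
    funext x
    simp only [EI]
  rw [hG, intervalIntegrable_iff_integrableOn_Ioc_of_le hX]
  refine Measure.integrableOn_of_bounded (M := ∑ N ∈ range (⌊X⌋₊ + 1), ‖G N‖)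
    measure_Ioc_lt_top.ne ?_ ?_
  · exact ((measurable_from_top (f := G)).comp Nat.measurable_floor).aestronglyMeasurable
  · refine (ae_restrict_iff' measurableSet_Ioc).2 (Filter.Eventually.of_forall fun x hx => ?_)
    exact Finset.single_le_sum (f := fun N => ‖G N‖) (fun _ _ => norm_nonneg _)
      (Finset.mem_range.2 (Nat.lt_succ_of_le (Nat.floor_le_floor hx.2)))

theorem kdf_rep_int {E : ℝ → ℂ} {H : ℂ → ℂ} {c : ℝ} (h : Rep E H c) {X : ℝ} (hX : 0 ≤ X) :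
    IntervalIntegrable E volume 0 X := by
  obtain ⟨A, hA⟩ := h.bound
  rw [intervalIntegrable_iff_integrableOn_Ioc_of_le hX]
  refine Measure.integrableOn_of_bounded (M := |A| * X ^ (3 / 2 : ℝ)) measure_Ioc_lt_top.ne
    h.meas.aestronglyMeasurable ?_
  refine (ae_restrict_iff' measurableSet_Ioc).2 (Filter.Eventually.of_forall fun x hx => ?_)
  rcases lt_or_ge x 1 with h1 | h1
  · rw [h.zero x h1, norm_zero]
    positivity
  · refine (hA x h1).trans ?_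
    calc A * x ^ (3 / 2 : ℝ) ≤ |A| * x ^ (3 / 2 : ℝ) :=
          mul_le_mul_of_nonneg_right (le_abs_self A) (Real.rpow_nonneg (by linarith) _)
      _ ≤ |A| * X ^ (3 / 2 : ℝ) :=
          mul_le_mul_of_nonneg_left (Real.rpow_le_rpow (by linarith) hx.2 (by norm_num))
            (abs_nonneg _)

theorem kdf_nh_cont {E : ℝ → ℂ} {H : ℂ → ℂ} {c : ℝ} (h : Rep E H c) (hc : c < 3) :
    Continuous (nH H c) := by
  obtain ⟨c', h1, h2⟩ := h.diff
  refine Continuous.norm ?_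
  refine h2.continuousOn.comp_continuous (by fun_prop) fun t => ?_
  have h3 : ((c : ℂ) + t * I).re = c := by simp
  refine ⟨?_, ?_⟩
  · rw [h3]
    exact h1
  · rw [h3]
    exact hc

open scoped Classical in
theorem kdf_char {z r : ℕ} {χ : DirichletCharacter ℂ r} {c : ℝ}
    (hR : Rep (E2 z χ) (KK z χ) c) {X Δ : ℝ} (hX : 1 ≤ X) (h0 : 0 ≤ Δ) (h1 : Δ ≤ 1) :
    ∫ β in (-Δ)..Δ, ‖EB χ X β‖ ^ 2 ≤ 3 * (∫ β in (-Δ)..Δ, ‖Bf (E2 z χ) X β‖ ^ 2) +
      3 * (∫ β in (-Δ)..Δ, ‖Bf (EI z χ) X β‖ ^ 2) + (if χ = 1 then 200 * Δ else 0) := by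
  have hX0 : 0 ≤ X := by linarith
  have cA : Continuous fun β => ‖Bf (E2 z χ) X β‖ ^ 2 :=
    (kdf_bf_cont (kdf_rep_int hR hX0)).norm.pow 2
  have cB : Continuous fun β => ‖Bf (EI z χ) X β‖ ^ 2 :=
    (kdf_bf_cont (kdf_ei_int z χ hX0)).norm.pow 2
  have cE : Continuous fun β => ‖EB χ X β‖ ^ 2 := (kdf_eb_cont χ X).norm.pow 2
  have e1 : ∫ β in (-Δ)..Δ, ‖EB χ X β‖ ^ 2 ≤
      ∫ β in (-Δ)..Δ, ((3 * ‖Bf (E2 z χ) X β‖ ^ 2 + 3 * ‖Bf (EI z χ) X β‖ ^ 2) +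
        (if χ = 1 then 100 else 0)) := by
    refine intervalIntegral.integral_mono_on (by linarith) (cE.intervalIntegrable _ _)
      (Continuous.intervalIntegrable (((continuous_const.mul cA).add
        (continuous_const.mul cB)).add continuous_const) _ _) ?_
    intro β hβ
    refine (eb_split z χ hX β).trans ?_
    have h2 : β ^ 2 ≤ 1 := by
      have := hβ.1
      have := hβ.2
      nlinarith
    have h3 : (if χ = 1 then 100 * β ^ 2 else 0) ≤ (if χ = 1 then (100 : ℝ) else 0) := by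
      split_ifs
      · linarith
      · exact le_refl _
    linarith
  refine e1.trans (le_of_eq ?_)
  have i1 : IntervalIntegrable (fun β => 3 * ‖Bf (E2 z χ) X β‖ ^ 2) volume (-Δ) Δ :=
    (continuous_const.mul cA).intervalIntegrable _ _
  have i2 : IntervalIntegrable (fun β => 3 * ‖Bf (EI z χ) X β‖ ^ 2) volume (-Δ) Δ :=
    (continuous_const.mul cB).intervalIntegrable _ _
  have i3 : IntervalIntegrable (fun β => 3 * ‖Bf (E2 z χ) X β‖ ^ 2 +
      3 * ‖Bf (EI z χ) X β‖ ^ 2) volume (-Δ) Δ := i1.add i2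
  have i4 : IntervalIntegrable (fun _ : ℝ => if χ = 1 then (100 : ℝ) else 0) volume (-Δ) Δ :=
    intervalIntegrable_const
  rw [intervalIntegral.integral_add i3 i4, intervalIntegral.integral_add i1 i2,
    intervalIntegral.integral_const_mul, intervalIntegral.integral_const_mul,
    intervalIntegral.integral_const]
  congr 1
  split_ifs
  · rw [smul_eq_mul]
    ring
  · rw [smul_zero]

theorem kdf_log {ε : ℝ} (hε : 0 < ε) : ∃ K : ℝ, 1 ≤ K ∧ ∀ X : ℝ, 1 ≤ X →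
    Real.log (X + 2) ^ 4 ≤ K * X ^ ε := by
  refine ⟨max 1 (3 ^ ε / (ε / 4) ^ 4), le_max_left _ _, fun X hX => ?_⟩
  have h1 : Real.log (X + 2) ≤ (3 * X) ^ (ε / 4) / (ε / 4) := by
    refine (Real.log_le_rpow_div (by linarith) (by linarith : 0 < ε / 4)).trans ?_
    refine div_le_div_of_nonneg_right ?_ (by linarith)
    exact Real.rpow_le_rpow (by linarith) (by linarith) (by linarith)
  have h0 : 0 ≤ Real.log (X + 2) := Real.log_nonneg (by linarith)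
  calc Real.log (X + 2) ^ 4 ≤ ((3 * X) ^ (ε / 4) / (ε / 4)) ^ 4 := pow_le_pow_left₀ h0 h1 4
    _ = 3 ^ ε / (ε / 4) ^ 4 * X ^ ε := by
        rw [div_pow, ← Real.rpow_natCast ((3 * X) ^ (ε / 4)) 4, ← Real.rpow_mul (by linarith),
          Real.mul_rpow (by norm_num) (by linarith)]
        have h2 : ε / 4 * ((4 : ℕ) : ℝ) = ε := by push_cast; ring
        rw [h2]
        ring
    _ ≤ max 1 (3 ^ ε / (ε / 4) ^ 4) * X ^ ε :=
        mul_le_mul_of_nonneg_right (le_max_right _ _) (Real.rpow_nonneg (by linarith) _)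

theorem kdf_sp (R : ℕ) (f : (r : ℕ) → DirichletCharacter ℂ r → ℝ) :
    SP R f = ∑ i ∈ (Ico R (2 * R)).sigma (fun r => Pr r), f i.1 i.2 :=
  (Finset.sum_sigma (Ico R (2 * R)) (fun r => Pr r) (fun i => f i.1 i.2)).symm

theorem kdf_rep {θ c : ℝ} (hθ : 1 / 2 ≤ θ) (h : ZF θ) (hc : θ < c) (hc1 : c < 1) (z : ℕ) {r : ℕ}
    (hr : 1 ≤ r) (χ : DirichletCharacter ℂ r) (hχ : χ ∈ Pr r) : Rep (E2 z χ) (KK z χ) c := by
  rcases Nat.lt_or_ge 1 r with h1 | h1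
  · exact rep_chi hθ h hc hc1 r z h1 χ hχ
  · obtain rfl : r = 1 := le_antisymm h1 hr
    exact rep_one hθ h hc hc1 z χ

open scoped Classical in
theorem kdf_one (R : ℕ) {a : ℝ} (ha : 0 ≤ a) :
    SP R (fun _ χ => if χ = 1 then a else 0) ≤ R * a := by
  unfold SP
  have h1 : ∀ r ∈ Ico R (2 * R), ∑ χ ∈ Pr r, (if χ = 1 then a else 0) ≤ a := by
    intro r _
    rw [Finset.sum_ite_eq']
    split_ifs
    · exact le_refl _
    · exact ha
  refine (Finset.sum_le_sum h1).trans (le_of_eq ?_)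
  rw [Finset.sum_const, Nat.card_Ico, nsmul_eq_mul]
  congr 2
  omega

/-- the type II part -/
theorem kdf_two {θ c : ℝ} (hθ : 5 / 6 ≤ θ) (h : ZF θ) (hc : θ < c) (hc1 : c < 1) {ε : ℝ}
    (hε : 0 < ε) : ∃ C : ℝ, 1 ≤ C ∧ ∀ (R : ℕ) (X Δ : ℝ), 1 ≤ R → (R : ℝ) ^ 3 ≤ X → 1 / X ≤ Δ →
    Δ ≤ 1 → (R : ℝ) ^ 5 * Δ ≤ X ^ (2 * c - 1) →
    SP R (fun r χ => ∫ β in (-Δ)..Δ, ‖Bf (E2 (zR R) χ) X β‖ ^ 2) ≤
      C * R * Δ * X ^ (2 * c + ε) := by
  obtain ⟨δ, hδ0, hδ1, hδ2⟩ : ∃ δ : ℝ, 0 < δ ∧ δ ≤ 1 / 4 ∧ 3 * δ ≤ ε := by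
    refine ⟨min (ε / 4) (1 / 4), lt_min (by linarith) (by norm_num), min_le_right _ _, ?_⟩
    have := min_le_left (ε / 4) (1 / 4)
    linarith
  obtain ⟨Ck, hCk, hk⟩ := km hθ h hc hc1 hδ0
  obtain ⟨C1, hC1, f1⟩ := fam_one hδ0 hδ1
  obtain ⟨C2, hC2, f2⟩ := fam_two hδ0 hδ1
  obtain ⟨C3, hC3, f3⟩ := fam_three hδ0 hδ1
  obtain ⟨Cl, hCl, hl⟩ := kl hθ h hc hc1 hε
  obtain ⟨Ce, hCe, he⟩ := ei_sum
  obtain ⟨K, hK, hlog⟩ := kdf_log hε
  refine ⟨100000 * (C1 * Ck + (2 * Cl + 2 * (Ce * K)) + C2 * Ck + C3 * Ck), ?_, ?_⟩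
  · have a1 : 1 ≤ C1 * Ck := one_le_mul_of_one_le_of_one_le hC1 hCk
    have a2 : 1 ≤ C2 * Ck := one_le_mul_of_one_le_of_one_le hC2 hCk
    have a3 : 1 ≤ C3 * Ck := one_le_mul_of_one_le_of_one_le hC3 hCk
    have a4 : 1 ≤ Ce * K := one_le_mul_of_one_le_of_one_le hCe hK
    linarith
  intro R X Δ hR hRX hXΔ hΔ1 hRΔ
  have hR1 : (1 : ℝ) ≤ R := by exact_mod_cast hR
  have hRX' : (R : ℝ) ≤ X := by
    refine le_trans ?_ hRX
    calc (R : ℝ) = R ^ 1 := (pow_one _).symm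
      _ ≤ R ^ 3 := pow_le_pow_right₀ hR1 (by norm_num)
  have hX : 1 ≤ X := hR1.trans hRX'
  have hX0 : 0 < X := by linarith
  have hΔ0 : 0 < Δ := lt_of_lt_of_le (by positivity) hXΔ
  obtain ⟨U, hU⟩ : ∃ U : ℝ, U = X * Δ := ⟨_, rfl⟩
  have hU1 : 1 ≤ U := by
    rw [hU]
    rw [div_le_iff₀ hX0] at hXΔ
    linarith
  have hU0 : 0 < U := by linarith
  have hUX : U ≤ X := by
    rw [hU]
    nlinarith
  obtain ⟨lam, hlam⟩ : ∃ lam : ℝ, lam = U ^ (-2 : ℝ) := ⟨_, rfl⟩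
  have hl0 : 0 < lam := by
    rw [hlam]
    positivity
  have hl1 : lam ≤ 1 := by
    rw [hlam]
    exact Real.rpow_le_one_of_one_le_of_nonpos hU1 (by norm_num)
  have hP : ∀ s : ℝ, lam ^ s = U ^ (-2 * s) := fun s => by
    rw [hlam, ← Real.rpow_mul hU0.le]
  obtain ⟨S, hS⟩ : ∃ S : Finset (Σ r : ℕ, DirichletCharacter ℂ r),
    S = (Ico R (2 * R)).sigma (fun r => Pr r) := ⟨_, rfl⟩
  have hsp : ∀ f : (r : ℕ) → DirichletCharacter ℂ r → ℝ, SP R f = ∑ i ∈ S, f i.1 i.2 := fun f => by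
    rw [kdf_sp, hS]
  have hrep : ∀ i ∈ S, Rep (E2 (zR R) i.2) (KK (zR R) i.2) c := by
    intro i hi
    rw [hS, Finset.mem_sigma, Finset.mem_Ico] at hi
    exact kdf_rep (by linarith) h hc hc1 _ (hR.trans hi.1.1) _ hi.2
  obtain ⟨M, hM⟩ : ∃ M : ℝ, M = Ck * (R : ℝ) ^ (1 + δ) := ⟨_, rfl⟩
  have hM0 : 0 ≤ M := by
    rw [hM]
    positivity
  have hMT : ∀ T : ℝ, 1 ≤ T → ∑ i ∈ S, ∫ t in (-T)..T, nH (KK (zR R) i.2) c t ^ 2 ≤
      M * T ^ (1 + δ) := by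
    intro T hT
    have h1 := hk R hR T hT
    rw [hsp, Real.mul_rpow (by linarith) (by linarith)] at h1
    rw [hM, mul_assoc]
    exact h1
  have hcont : ∀ i ∈ S, Continuous (nH (KK (zR R) i.2) c) := fun i hi =>
    kdf_nh_cont (hrep i hi) (by linarith)
  have hint : ∀ i ∈ S, Integrable (fun t => nH (KK (zR R) i.2) c t ^ 2 / (1 + t ^ 2)) := by
    intro i hi
    refine fam_int hδ0 hδ1 _ (hcont i hi) (M := M) fun T hT => ?_
    refine le_trans ?_ (hMT T hT)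
    exact Finset.single_le_sum (f := fun i : (Σ r : ℕ, DirichletCharacter ℂ r) =>
        ∫ t in (-T)..T, nH (KK (zR R) i.2) c t ^ 2)
      (fun j _ => intervalIntegral.integral_nonneg (by linarith) fun _ _ => sq_nonneg _) hi
  have q1 := f1 _ S (fun i => nH (KK (zR R) i.2) c) hcont M hM0 hMT lam hl0 hl1
  have q2 := f2 _ S (fun i => nH (KK (zR R) i.2) c) hcont (fun i _ t => norm_nonneg _) M hM0 hMT
    lam hl0 hl1
  have q3 := f3 _ S (fun i => nH (KK (zR R) i.2) c) hcont M hM0 hMT lam hl0 hl1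
  have ql := hl R X hR hRX
  have qe := he R X hR
  rw [hsp] at ql qe ⊢
  rw [hP] at q1 q2 q3
  -- the value at `X`
  have qx : ∑ i ∈ S, ‖E2 (zR R) i.2 X‖ ^ 2 ≤ 2 * (Cl * R * X ^ (2 * c + ε)) +
      2 * (Ce * (R : ℝ) ^ 6 * Real.log (R + 1) ^ 2 * Real.log (|X| + 2) ^ 2) := by
    have h1 : ∀ i ∈ S, ‖E2 (zR R) i.2 X‖ ^ 2 ≤ 2 * ‖EE i.2 X‖ ^ 2 +
        2 * ‖EI (zR R) i.2 X‖ ^ 2 := by
      intro i _
      have h2 : E2 (zR R) i.2 X = EE i.2 X - EI (zR R) i.2 X := by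
        unfold E2 E0
        rw [if_neg (not_lt.2 hX)]
      rw [h2]
      have h3 := norm_sub_le (EE i.2 X) (EI (zR R) i.2 X)
      have h4 := norm_nonneg (EE i.2 X - EI (zR R) i.2 X)
      nlinarith [sq_nonneg (‖EE i.2 X‖ - ‖EI (zR R) i.2 X‖)]
    refine (Finset.sum_le_sum h1).trans ?_
    rw [Finset.sum_add_distrib, ← Finset.mul_sum, ← Finset.mul_sum]
    linarith
  -- elementary facts
  obtain ⟨V, hV⟩ : ∃ V : ℝ, V = X ^ δ := ⟨_, rfl⟩
  obtain ⟨P, hPd⟩ : ∃ P : ℝ, P = X ^ (2 * c) := ⟨_, rfl⟩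
  obtain ⟨W, hW⟩ : ∃ W : ℝ, W = X ^ ε := ⟨_, rfl⟩
  have hV1 : 1 ≤ V := by
    rw [hV]
    exact Real.one_le_rpow hX hδ0.le
  have hP0 : 0 < P := by
    rw [hPd]
    positivity
  have hW1 : V * V * V ≤ W := by
    rw [hV, hW, ← Real.rpow_add hX0, ← Real.rpow_add hX0]
    exact Real.rpow_le_rpow_of_exponent_le hX (by linarith)
  have e0 : X ^ (2 * c + ε) = P * W := by
    rw [hPd, hW, Real.rpow_add hX0]
  have e1 : X ^ (2 * c - 1) * X = P := by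
    rw [hPd, Real.rpow_sub hX0, Real.rpow_one]
    field_simp
  have e2 : X ^ (2 * c + 1) = P * X := by
    rw [hPd, Real.rpow_add hX0, Real.rpow_one]
  have e3 : U ^ δ ≤ V := by
    rw [hV]
    exact Real.rpow_le_rpow hU0.le hUX hδ0.le
  have e3' : 0 < U ^ δ := by positivity
  have e4 : (R : ℝ) ^ (1 + δ) ≤ R * V := by
    rw [Real.rpow_add (by linarith), Real.rpow_one, hV]
    exact mul_le_mul_of_nonneg_left (Real.rpow_le_rpow (by linarith) hRX' hδ0.le) (by linarith)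
  have e5 : M ≤ Ck * (R * V) := by
    rw [hM]
    exact mul_le_mul_of_nonneg_left e4 (by linarith)
  have u1 : U ^ (-2 * -((1 + δ) / 2)) = U * U ^ δ := by
    rw [show -2 * -((1 + δ) / 2) = 1 + δ by ring, Real.rpow_add hU0, Real.rpow_one]
  have u2 : U ^ (-2 * -δ) = U ^ δ * U ^ δ := by
    rw [show -2 * -δ = δ + δ by ring, Real.rpow_add hU0]
  have u3 : U ^ (-2 * ((1 - δ) / 2)) * U = U ^ δ := by
    rw [show -2 * ((1 - δ) / 2) = δ - 1 by ring, Real.rpow_sub hU0, Real.rpow_one]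
    field_simp
  rw [u1] at q1
  rw [u2] at q2
  have hc1' : 0 ≤ X ^ (2 * c - 1) := by positivity
  -- the four terms
  have t1 : X ^ (2 * c - 1) * ∑ i ∈ S, Q1 lam (nH (KK (zR R) i.2) c) ≤
      C1 * Ck * (R * Δ * (P * W)) := by
    calc X ^ (2 * c - 1) * ∑ i ∈ S, Q1 lam (nH (KK (zR R) i.2) c)
        ≤ X ^ (2 * c - 1) * (C1 * M * (U * U ^ δ)) := mul_le_mul_of_nonneg_left q1 hc1'
      _ ≤ X ^ (2 * c - 1) * (C1 * (Ck * (R * V)) * (U * V)) := by gcongr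
      _ = C1 * Ck * (R * Δ * ((X ^ (2 * c - 1) * X) * (1 * V * V))) := by
          rw [hU]
          ring
      _ ≤ C1 * Ck * (R * Δ * (P * W)) := by
          rw [e1]
          gcongr
          exact le_trans (by gcongr) hW1
  have t3 : Δ * X ^ (2 * c) * ∑ i ∈ S, Q2 lam (nH (KK (zR R) i.2) c) ≤
      C2 * Ck * (R * Δ * (P * W)) := by
    rw [← hPd]
    calc Δ * P * ∑ i ∈ S, Q2 lam (nH (KK (zR R) i.2) c)
        ≤ Δ * P * (C2 * M * (U ^ δ * U ^ δ)) := mul_le_mul_of_nonneg_left q2 (by positivity)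
      _ ≤ Δ * P * (C2 * (Ck * (R * V)) * (V * V)) := by gcongr
      _ = C2 * Ck * (R * Δ * (P * (V * V * V))) := by ring
      _ ≤ C2 * Ck * (R * Δ * (P * W)) := by gcongr
  have t4 : Δ ^ 2 * X ^ (2 * c + 1) * ∑ i ∈ S, Q3 lam (nH (KK (zR R) i.2) c) ≤
      C3 * Ck * (R * Δ * (P * W)) := by
    rw [e2]
    calc Δ ^ 2 * (P * X) * ∑ i ∈ S, Q3 lam (nH (KK (zR R) i.2) c)
        ≤ Δ ^ 2 * (P * X) * (C3 * M * U ^ (-2 * ((1 - δ) / 2))) :=
          mul_le_mul_of_nonneg_left q3 (by positivity)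
      _ = Δ * P * (C3 * M * (U ^ (-2 * ((1 - δ) / 2)) * U)) := by
          rw [hU]
          ring
      _ ≤ Δ * P * (C3 * (Ck * (R * V)) * V) := by
          rw [u3]
          gcongr
      _ = C3 * Ck * (R * Δ * (P * (1 * V * V))) := by ring
      _ ≤ C3 * Ck * (R * Δ * (P * W)) := by
          gcongr
          exact le_trans (by gcongr) hW1
  have t2 : Δ * ∑ i ∈ S, ‖E2 (zR R) i.2 X‖ ^ 2 ≤
      (2 * Cl + 2 * (Ce * K)) * (R * Δ * (P * W)) := by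
    have h5 : (R : ℝ) ^ 5 ≤ P := by
      have h6 : (R : ℝ) ^ 5 * Δ * X ≤ P := by
        rw [← e1]
        exact mul_le_mul_of_nonneg_right hRΔ hX0.le
      have h7 : (R : ℝ) ^ 5 * 1 ≤ (R : ℝ) ^ 5 * U := by gcongr
      rw [hU] at h7
      linarith
    have hl : Real.log (X + 2) ^ 4 ≤ K * W := by
      rw [hW]
      exact hlog X hX
    have h8 : Real.log (R + 1) ≤ Real.log (X + 2) := Real.log_le_log (by linarith) (by linarith)
    have h8' : 0 ≤ Real.log (R + 1) := Real.log_nonneg (by linarith)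
    have h8'' : 0 ≤ Real.log (X + 2) := Real.log_nonneg (by linarith)
    have h9 : Ce * (R : ℝ) ^ 6 * Real.log (R + 1) ^ 2 * Real.log (|X| + 2) ^ 2 ≤
        Ce * (R * P) * (K * W) := by
      rw [abs_of_pos hX0]
      calc Ce * (R : ℝ) ^ 6 * Real.log (R + 1) ^ 2 * Real.log (X + 2) ^ 2
          ≤ Ce * (R : ℝ) ^ 6 * Real.log (X + 2) ^ 2 * Real.log (X + 2) ^ 2 := by gcongr
        _ = Ce * (R * (R : ℝ) ^ 5) * Real.log (X + 2) ^ 4 := by ring
        _ ≤ Ce * (R * P) * (K * W) := by gcongr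
    calc Δ * ∑ i ∈ S, ‖E2 (zR R) i.2 X‖ ^ 2 ≤
        Δ * (2 * (Cl * R * (P * W)) + 2 * (Ce * (R * P) * (K * W))) := by
          rw [e0] at qx
          exact mul_le_mul_of_nonneg_left (by linarith) hΔ0.le
      _ = (2 * Cl + 2 * (Ce * K)) * (R * Δ * (P * W)) := by ring
  have key : ∑ i ∈ S, ∫ β in (-Δ)..Δ, ‖Bf (E2 (zR R) i.2) X β‖ ^ 2 ≤
      100000 * (X ^ (2 * c - 1) * ∑ i ∈ S, Q1 lam (nH (KK (zR R) i.2) c) +
        Δ * ∑ i ∈ S, ‖E2 (zR R) i.2 X‖ ^ 2 +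
        Δ * X ^ (2 * c) * ∑ i ∈ S, Q2 lam (nH (KK (zR R) i.2) c) +
        Δ ^ 2 * X ^ (2 * c + 1) * ∑ i ∈ S, Q3 lam (nH (KK (zR R) i.2) c)) := by
    have h1 : ∀ i ∈ S, ∫ β in (-Δ)..Δ, ‖Bf (E2 (zR R) i.2) X β‖ ^ 2 ≤
        100000 * (X ^ (2 * c - 1) * Q1 lam (nH (KK (zR R) i.2) c) +
          Δ * ‖E2 (zR R) i.2 X‖ ^ 2 +
          Δ * X ^ (2 * c) * Q2 lam (nH (KK (zR R) i.2) c) +
          Δ ^ 2 * X ^ (2 * c + 1) * Q3 lam (nH (KK (zR R) i.2) c)) := fun i hi =>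
      one_fun (hrep i hi) (by linarith) hc1.le hl0 hl1 (hint i hi) hX hΔ0.le
    refine (Finset.sum_le_sum h1).trans (le_of_eq ?_)
    rw [← Finset.mul_sum, Finset.sum_add_distrib, Finset.sum_add_distrib,
      Finset.sum_add_distrib, ← Finset.mul_sum, ← Finset.mul_sum, ← Finset.mul_sum,
      ← Finset.mul_sum]
  refine key.trans ?_
  rw [e0]
  calc _ ≤ 100000 * (C1 * Ck * (R * Δ * (P * W)) + (2 * Cl + 2 * (Ce * K)) * (R * Δ * (P * W)) +
        C2 * Ck * (R * Δ * (P * W)) + C3 * Ck * (R * Δ * (P * W))) := by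
        linarith
    _ = 100000 * (C1 * Ck + (2 * Cl + 2 * (Ce * K)) + C2 * Ck + C3 * Ck) * R * Δ * (P * W) := by
        ring

/-- KDF: mean square on the arcs -/
theorem kd_pr {θ c : ℝ} (hθ : 5 / 6 ≤ θ) (h : ZF θ) (hc : θ < c) (hc1 : c < 1) {ε : ℝ}
    (hε : 0 < ε) : ∃ C : ℝ, 1 ≤ C ∧ ∀ (R : ℕ) (X Δ : ℝ), 1 ≤ R → (R : ℝ) ^ 3 ≤ X → 1 / X ≤ Δ →
    Δ ≤ 1 → (R : ℝ) ^ 5 * Δ ≤ X ^ (2 * c - 1) →
    SP R (fun r χ => ∫ β in (-Δ)..Δ, ‖EB χ X β‖ ^ 2) ≤ C * R * Δ * X ^ (2 * c + ε) := by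
  classical
  obtain ⟨Ct, hCt, ht⟩ := kdf_two hθ h hc hc1 hε
  obtain ⟨Cd, hCd, hd⟩ := kd_one (by linarith : 5 / 6 ≤ c) hc1 hε
  refine ⟨3 * Ct + 3 * Cd + 200, by linarith, ?_⟩
  intro R X Δ hR hRX hXΔ hΔ1 hRΔ
  have hR1 : (1 : ℝ) ≤ R := by exact_mod_cast hR
  have hX : 1 ≤ X := (one_le_pow₀ hR1).trans hRX
  have hX0 : 0 < X := by linarith
  have hΔ0 : 0 < Δ := lt_of_lt_of_le (by positivity) hXΔ
  have t1 := ht R X Δ hR hRX hXΔ hΔ1 hRΔ
  have t2 := hd R X Δ hR hRX hXΔ hΔ1 hRΔ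
  have t3 := kdf_one R (a := 200 * Δ) (by positivity)
  have hX2 : 1 ≤ X ^ (2 * c + ε) := Real.one_le_rpow hX (by linarith)
  have t4 : (R : ℝ) * (200 * Δ) ≤ 200 * R * Δ * X ^ (2 * c + ε) := by
    calc (R : ℝ) * (200 * Δ) = 200 * R * Δ * 1 := by ring
      _ ≤ 200 * R * Δ * X ^ (2 * c + ε) := by gcongr
  have key : SP R (fun r χ => ∫ β in (-Δ)..Δ, ‖EB χ X β‖ ^ 2) ≤
      3 * SP R (fun r χ => ∫ β in (-Δ)..Δ, ‖Bf (E2 (zR R) χ) X β‖ ^ 2) +
      3 * SP R (fun r χ => ∫ β in (-Δ)..Δ, ‖Bf (EI (zR R) χ) X β‖ ^ 2) +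
      SP R (fun _ χ => if χ = 1 then 200 * Δ else 0) := by
    rw [kdf_sp, kdf_sp, kdf_sp, kdf_sp, Finset.mul_sum, Finset.mul_sum,
      ← Finset.sum_add_distrib, ← Finset.sum_add_distrib]
    refine Finset.sum_le_sum fun i hi => ?_
    rw [Finset.mem_sigma, Finset.mem_Ico] at hi
    have := kdf_char (kdf_rep (by linarith) h hc hc1 (zR R) (hR.trans hi.1.1) _ hi.2) hX hΔ0.le hΔ1
    convert this
  have e9 : (3 * Ct + 3 * Cd + 200) * R * Δ * X ^ (2 * c + ε) =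
      3 * (Ct * R * Δ * X ^ (2 * c + ε)) + 3 * (Cd * R * Δ * X ^ (2 * c + ε)) +
        200 * R * Δ * X ^ (2 * c + ε) := by ring
  rw [e9]
  refine key.trans ?_
  have t3' : SP R (fun _ χ => if χ = 1 then 200 * Δ else 0) ≤ R * (200 * Δ) := by
    convert t3
  linarith

end Pool.Agent.XS

namespace Pool.Agent.XS

/-- alias -/
theorem kd : type_of% @kd_pr := @kd_pr

end Pool.Agent.XS
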