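import Pool.Agent.Lib_helper26.XS.Defs
import Pool.Agent.Lib_helper26.XSF.DFA
import Pool.Agent.Lib_helper26.XSF.DNR
import Pool.Agent.Lib_helper26.XSF.KDF
import Pool.Agent.Lib_helper73.Var.Block
import Pool.Agent.Lib_helper92.HCF.MJR

/-!
# Project XS, block DFI (helper50)
-/

set_option autoImplicit false

namespace Pool.Agent.XS

open Finset Complex MeasureTheory Pool.Agent.Var35 Pool.Agent.Var73 Pool.Agent.HC Pool.Agent.MF
open scoped ArithmeticFunction ArithmeticFunction.Moebius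

/-- powers of the logarithm are small -/
theorem DFI_ev (K a : ℝ) (k : ℕ) (ha : 0 < a) :
    ∀ᶠ X : ℝ in Filter.atTop, K * Real.log X ^ k ≤ X ^ a := by
  have h1 := (isLittleO_log_rpow_rpow_atTop (k : ℝ) ha).bound
    (show (0 : ℝ) < 1 / (|K| + 1) by positivity)
  filter_upwards [h1, Filter.eventually_ge_atTop (1 : ℝ)] with X hX h1X
  have hl : 0 ≤ Real.log X := Real.log_nonneg h1X
  rw [Real.rpow_natCast, Real.norm_eq_abs, Real.norm_eq_abs,
    abs_of_nonneg (pow_nonneg hl k), abs_of_nonneg (Real.rpow_nonneg (by linarith) a)] at hX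
  have hK : K * Real.log X ^ k ≤ (|K| + 1) * Real.log X ^ k := by
    apply mul_le_mul_of_nonneg_right _ (by positivity)
    have := le_abs_self K
    linarith
  refine hK.trans ?_
  have : (|K| + 1) * Real.log X ^ k ≤ (|K| + 1) * (1 / (|K| + 1) * X ^ a) :=
    mul_le_mul_of_nonneg_left hX (by positivity)
  refine this.trans (le_of_eq ?_)
  field_simp

theorem DFI_EB_cont {q : ℕ} (χ : DirichletCharacter ℂ q) (X : ℝ) : Continuous (EB χ X) := by
  unfold EB
  refine Continuous.sub (continuous_finsetSum _ fun n _ => ?_) ?_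
  · exact continuous_const.mul (MJR_e_cont.comp (continuous_const.mul continuous_id))
  · split_ifs
    · exact MJR_Ic_cont X
    · exact continuous_const

theorem DFI_mono {q : ℕ} (χ : DirichletCharacter ℂ q) (X : ℝ) {a b : ℝ} (ha : 0 ≤ a)
    (hab : a ≤ b) : ∫ β in (-a)..a, ‖EB χ X β‖ ^ 2 ≤ ∫ β in (-b)..b, ‖EB χ X β‖ ^ 2 := by
  apply intervalIntegral.integral_mono_interval (by linarith) (by linarith) hab
  · exact Filter.Eventually.of_forall fun x => by positivity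
  · exact (((DFI_EB_cont χ X).norm).pow 2).intervalIntegrable _ _

theorem DFI_nonneg {q : ℕ} (χ : DirichletCharacter ℂ q) (X : ℝ) {a : ℝ} (ha : 0 ≤ a) :
    0 ≤ ∫ β in (-a)..a, ‖EB χ X β‖ ^ 2 :=
  intervalIntegral.integral_nonneg (by linarith) fun x _ => by positivity

theorem DFI_dyadic_aux (f : ℕ → ℝ) (J : ℕ) :
    ∑ r ∈ Ico 1 (2 ^ J), f r = ∑ j ∈ range J, ∑ r ∈ Ico (2 ^ j) (2 * 2 ^ j), f r := by
  induction J with
  | zero => simp
  | succ J ih =>
    rw [sum_range_succ, ← ih, pow_succ, mul_comm (2 ^ J) 2]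
    exact (sum_Ico_consecutive f Nat.one_le_two_pow (by linarith [Nat.one_le_two_pow (n := J)])).symm

theorem DFI_dyadic (f : ℕ → ℝ) (hf : ∀ r, 0 ≤ f r) (N : ℕ) :
    ∑ r ∈ Icc 1 N, f r ≤
      ∑ j ∈ range (Nat.log 2 N + 1), ∑ r ∈ Ico (2 ^ j) (2 * 2 ^ j), f r := by
  rw [← DFI_dyadic_aux]
  apply sum_le_sum_of_subset_of_nonneg
  · intro r hr
    rw [mem_Icc] at hr
    rw [mem_Ico]
    exact ⟨hr.1, lt_of_le_of_lt hr.2 (Nat.lt_pow_succ_log_self (by norm_num) N)⟩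
  · intro r _ _
    exact hf r

/-- DFI -/
theorem dfin_pr {θ : ℝ} (hθ : 5 / 6 ≤ θ) (hθ1 : θ < 1) (h : ZF θ) {ε η : ℝ} (hε : 0 < ε)
    (hη : 0 < η) : ∃ C : ℝ, ∀ (X : ℝ) (Y : ℕ), C ≤ X → X ^ (2 * θ - 1 + ε) ≤ (Y : ℝ) →
    (Y : ℝ) ≤ X → DD X Y ≤ η * X * Y := by
  obtain ⟨C₁, hC₁, H₁⟩ := dfar
  obtain ⟨C₂, hC₂, H₂⟩ := dnear
  set c : ℝ := θ + min (ε / 8) ((1 - θ) / 2) with hc
  have hm0 : 0 < min (ε / 8) ((1 - θ) / 2) := lt_min (by linarith) (by linarith)
  have hcθ : θ < c := by linarith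
  have hc1 : c < 1 := by
    have := min_le_right (ε / 8) ((1 - θ) / 2)
    linarith
  have hcε : c ≤ θ + ε / 8 := by
    have := min_le_left (ε / 8) ((1 - θ) / 2)
    linarith
  obtain ⟨C₃, hC₃, H₃⟩ := kd hθ h hcθ hc1 (ε := ε / 4) (by linarith)
  have hev : ∀ᶠ X : ℝ in Filter.atTop, 3 ≤ X ∧ 1 * Real.log X ^ 12 ≤ X ^ (1 / 6 : ℝ) ∧
      1 * Real.log X ^ 24 ≤ X ^ (3 * ε) ∧ 1 * Real.log X ^ 8 ≤ X ^ (ε / 4) ∧
      1 * Real.log X ^ 32 ≤ X ^ ε ∧ (3 * C₁ / η) * Real.log X ^ 2 ≤ X ^ (ε / 4) ∧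
      (3 * C₂ / η) * Real.log X ^ 12 ≤ X ^ (1 / 6 : ℝ) ∧
      (27 * C₂ * C₃ / η) * Real.log X ^ 3 ≤ X ^ (ε / 4) := by
    refine (Filter.eventually_ge_atTop 3).and ((DFI_ev _ _ _ (by norm_num)).and
      ((DFI_ev _ _ _ (by positivity)).and ((DFI_ev _ _ _ (by positivity)).and
      ((DFI_ev _ _ _ hε).and ((DFI_ev _ _ _ (by positivity)).and
      ((DFI_ev _ _ _ (by norm_num)).and (DFI_ev _ _ _ (by positivity))))))))
  obtain ⟨C, hC⟩ := Filter.eventually_atTop.1 hev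
  refine ⟨C, fun X Y hCX hY hYX => ?_⟩
  obtain ⟨hX3, e1, e2, e3, e4, e5, e6, e7⟩ := hC X hCX
  rw [one_mul] at e1 e2 e3 e4
  set L := Real.log X with hL
  have hX0 : 0 < X := by linarith
  have hX1 : 1 ≤ X := by linarith
  have hL1 : 1 ≤ L := by
    rw [hL, ← Real.log_exp 1]
    apply Real.log_le_log (Real.exp_pos 1)
    have := Real.exp_one_lt_d9
    linarith
  have hL0 : 0 < L := by linarith
  set V : ℝ := X ^ (ε / 4) with hV
  have hV1 : 1 ≤ V := Real.one_le_rpow hX1 (by positivity)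
  have hV0 : 0 < V := by linarith
  have hXY1 : (1 : ℝ) ≤ X ^ (2 * θ - 1 + ε) := Real.one_le_rpow hX1 (by linarith)
  have hY1 : (1 : ℝ) ≤ Y := hXY1.trans hY
  have hY0 : (0 : ℝ) < Y := by linarith
  have hYs : Real.sqrt X * Real.log X ^ 12 ≤ (Y : ℝ) := by
    refine le_trans ?_ hY
    rw [Real.sqrt_eq_rpow]
    calc X ^ (1 / 2 : ℝ) * L ^ 12 ≤ X ^ (1 / 2 : ℝ) * X ^ (1 / 6 : ℝ) := by gcongr
      _ = X ^ (2 / 3 : ℝ) := by rw [← Real.rpow_add hX0]; norm_num
      _ ≤ X ^ (2 * θ - 1 + ε) := Real.rpow_le_rpow_of_exponent_le hX1 (by linarith)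
  have h1 := H₁ X Y V hX3 hYs hYX hV1
  have h2 := H₂ X Y V hX3 hYs hYX hV1
  -- the order of the dissection
  have hRR : (RR X Y : ℝ) ≤ X / Y * L ^ 8 := Nat.floor_le (by positivity)
  have hRR1 : 1 ≤ RR X Y := by
    unfold RR
    rw [Nat.one_le_floor_iff]
    have h3 : 1 ≤ X / Y := (one_le_div hY0).2 hYX
    have h4 : 1 ≤ L ^ 8 := one_le_pow₀ hL1
    nlinarith
  have hRY : (RR X Y : ℝ) * Y ≤ X * L ^ 8 := by
    calc (RR X Y : ℝ) * Y ≤ X / Y * L ^ 8 * Y := by gcongr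
      _ = X * L ^ 8 := by field_simp
  have hRX : (RR X Y : ℝ) ≤ X ^ (2 - 2 * θ - ε) * L ^ 8 := by
    refine hRR.trans ?_
    apply mul_le_mul_of_nonneg_right _ (by positivity)
    rw [div_le_iff₀ hY0]
    calc X = X ^ (2 - 2 * θ - ε) * X ^ (2 * θ - 1 + ε) := by
          rw [← Real.rpow_add hX0]
          ring_nf
          rw [Real.rpow_one]
      _ ≤ X ^ (2 - 2 * θ - ε) * Y := by gcongr
  -- one dyadic block
  have hblock : ∀ R : ℕ, 1 ≤ R → R ≤ RR X Y →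
      ∑ r ∈ Ico R (2 * R), ((r : ℝ) / Nat.totient r) *
        ∑ χ ∈ Pr r, ∫ β in (-(V / (r * Y)))..(V / (r * Y)), ‖EB χ X β‖ ^ 2 ≤
      3 * L * (C₃ * (V / Y) * X ^ (2 * c + ε / 4)) := by
    intro R hR1 hRR'
    have hR1' : (1 : ℝ) ≤ R := by exact_mod_cast hR1
    have hR0 : (0 : ℝ) < R := by linarith
    have hRle : (R : ℝ) ≤ RR X Y := by exact_mod_cast hRR'
    have hR2 : (R : ℝ) ≤ X ^ (2 - 2 * θ - ε) * L ^ 8 := hRle.trans hRX
    have hR3 : (R : ℝ) ^ 3 ≤ X := by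
      calc (R : ℝ) ^ 3 ≤ (X ^ (2 - 2 * θ - ε) * L ^ 8) ^ 3 := by gcongr
        _ = X ^ ((2 - 2 * θ - ε) * 3) * L ^ 24 := by
          rw [mul_pow, ← pow_mul, ← Real.rpow_mul_natCast hX0.le]; norm_num
        _ ≤ X ^ ((2 - 2 * θ - ε) * 3) * X ^ (3 * ε) := by gcongr
        _ = X ^ (6 - 6 * θ) := by rw [← Real.rpow_add hX0]; congr 1; ring
        _ ≤ X ^ (1 : ℝ) := Real.rpow_le_rpow_of_exponent_le hX1 (by linarith)
        _ = X := Real.rpow_one X
    set Δ : ℝ := V / (R * Y) with hΔ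
    have hΔ1 : 1 / X ≤ Δ := by
      rw [hΔ, div_le_div_iff₀ hX0 (by positivity), one_mul]
      calc (R : ℝ) * Y ≤ RR X Y * Y := by gcongr
        _ ≤ X * L ^ 8 := hRY
        _ ≤ X * V := by gcongr
        _ = V * X := mul_comm _ _
    have hΔ2 : Δ ≤ 1 := by
      rw [hΔ, div_le_one (by positivity)]
      calc V ≤ X ^ (2 * θ - 1 + ε) := Real.rpow_le_rpow_of_exponent_le hX1 (by linarith)
        _ ≤ Y := hY
        _ = 1 * Y := (one_mul _).symm
        _ ≤ R * Y := by gcongr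
    have hΔ0 : 0 < Δ := by positivity
    have hΔ3 : (R : ℝ) ^ 5 * Δ ≤ X ^ (2 * c - 1) := by
      have h5 : (R : ℝ) ^ 5 * Δ = (R : ℝ) ^ 4 * V / Y := by
        rw [hΔ]; field_simp
      rw [h5, div_le_iff₀ hY0]
      calc (R : ℝ) ^ 4 * V ≤ (X ^ (2 - 2 * θ - ε) * L ^ 8) ^ 4 * V := by gcongr
        _ = X ^ ((2 - 2 * θ - ε) * 4) * L ^ 32 * V := by
          rw [mul_pow, ← pow_mul, ← Real.rpow_mul_natCast hX0.le]; norm_num
        _ ≤ X ^ ((2 - 2 * θ - ε) * 4) * X ^ ε * X ^ (ε / 4) := by gcongr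
        _ = X ^ ((2 - 2 * θ - ε) * 4 + ε + ε / 4) := by
          rw [← Real.rpow_add hX0, ← Real.rpow_add hX0]
        _ ≤ X ^ (2 * c - 1 + (2 * θ - 1 + ε)) :=
          Real.rpow_le_rpow_of_exponent_le hX1 (by linarith)
        _ = X ^ (2 * c - 1) * X ^ (2 * θ - 1 + ε) := Real.rpow_add hX0 _ _
        _ ≤ X ^ (2 * c - 1) * Y := by gcongr
    have h6 := H₃ R X Δ hR1 hR3 hΔ1 hΔ2 hΔ3
    have h2RX : (2 : ℝ) * R ≤ X := by
      rcases Nat.lt_or_ge R 2 with h7 | h7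
      · have : R = 1 := by omega
        rw [this]; push_cast; linarith
      · have h8 : (2 : ℝ) ≤ R := by exact_mod_cast h7
        have : (2 : ℝ) * R ≤ (R : ℝ) ^ 3 := by nlinarith [mul_nonneg hR0.le hR0.le]
        linarith
    calc ∑ r ∈ Ico R (2 * R), ((r : ℝ) / Nat.totient r) *
          ∑ χ ∈ Pr r, ∫ β in (-(V / (r * Y)))..(V / (r * Y)), ‖EB χ X β‖ ^ 2
        ≤ ∑ r ∈ Ico R (2 * R), 3 * L * ∑ χ ∈ Pr r, ∫ β in (-Δ)..Δ, ‖EB χ X β‖ ^ 2 := by
          apply sum_le_sum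
          intro r hr
          rw [mem_Ico] at hr
          have hr1 : 1 ≤ r := hR1.trans hr.1
          have hr0 : (0 : ℝ) < r := by exact_mod_cast hr1
          have hrR : (R : ℝ) ≤ r := by exact_mod_cast hr.1
          have hr2 : (r : ℝ) ≤ 2 * R := by exact_mod_cast hr.2.le
          apply mul_le_mul
          · have h9 : Real.log r ≤ L := Real.log_le_log hr0 (hr2.trans h2RX)
            have h10 := inv_totient_le r hr1 (3 * L) (by linarith)
            have h11 : (0 : ℝ) < Nat.totient r := by exact_mod_cast Nat.totient_pos.2 hr1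
            rw [div_le_div_iff₀ h11 hr0, one_mul] at h10
            rw [div_le_iff₀ h11]
            exact h10
          · apply sum_le_sum
            intro χ _
            apply DFI_mono χ X (by positivity)
            rw [hΔ]
            gcongr
          · exact sum_nonneg fun χ _ => DFI_nonneg χ X (by positivity)
          · positivity
      _ = 3 * L * SP R (fun r χ => ∫ β in (-Δ)..Δ, ‖EB χ X β‖ ^ 2) := by
          rw [SP, mul_sum]
      _ ≤ 3 * L * (C₃ * R * Δ * X ^ (2 * c + ε / 4)) := by gcongr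
      _ = 3 * L * (C₃ * (V / Y) * X ^ (2 * c + ε / 4)) := by
          rw [hΔ]; field_simp
  -- all blocks
  have hall : ∑ r ∈ Icc 1 (RR X Y), ((r : ℝ) / Nat.totient r) *
        ∑ χ ∈ Pr r, ∫ β in (-(V / (r * Y)))..(V / (r * Y)), ‖EB χ X β‖ ^ 2 ≤
      3 * L * (3 * L * (C₃ * (V / Y) * X ^ (2 * c + ε / 4))) := by
    refine (DFI_dyadic _ (fun r => ?_) _).trans ?_
    · exact mul_nonneg (by positivity) (sum_nonneg fun χ _ => DFI_nonneg χ X (by positivity))
    · calc _ ≤ ∑ j ∈ range (Nat.log 2 (RR X Y) + 1),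
            3 * L * (C₃ * (V / Y) * X ^ (2 * c + ε / 4)) := by
            apply sum_le_sum
            intro j hj
            rw [mem_range] at hj
            apply hblock _ Nat.one_le_two_pow
            exact Nat.pow_le_of_le_log (by omega) (by omega)
        _ = ((Nat.log 2 (RR X Y) : ℝ) + 1) *
            (3 * L * (C₃ * (V / Y) * X ^ (2 * c + ε / 4))) := by
            rw [sum_const, card_range, nsmul_eq_mul]; push_cast; ring
        _ ≤ 3 * L * (3 * L * (C₃ * (V / Y) * X ^ (2 * c + ε / 4))) := by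
            apply mul_le_mul_of_nonneg_right _ (by positivity)
            have h12 : (2 : ℝ) ^ Nat.log 2 (RR X Y) ≤ RR X Y := by
              exact_mod_cast Nat.pow_log_le_self 2 (by omega)
            have h13 : (RR X Y : ℝ) ≤ X := by
              have hR1' : (1 : ℝ) ≤ RR X Y := by exact_mod_cast hRR1
              have hR3 : (RR X Y : ℝ) ^ 3 ≤ X := by
                calc (RR X Y : ℝ) ^ 3 ≤ (X ^ (2 - 2 * θ - ε) * L ^ 8) ^ 3 := by gcongr
                  _ = X ^ ((2 - 2 * θ - ε) * 3) * L ^ 24 := by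
                    rw [mul_pow, ← pow_mul, ← Real.rpow_mul_natCast hX0.le]; norm_num
                  _ ≤ X ^ ((2 - 2 * θ - ε) * 3) * X ^ (3 * ε) := by gcongr
                  _ = X ^ (6 - 6 * θ) := by rw [← Real.rpow_add hX0]; congr 1; ring
                  _ ≤ X ^ (1 : ℝ) := Real.rpow_le_rpow_of_exponent_le hX1 (by linarith)
                  _ = X := Real.rpow_one X
              have : (RR X Y : ℝ) ≤ (RR X Y : ℝ) ^ 3 := le_self_pow₀ hR1' (by norm_num)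
              linarith
            have h14 : (Nat.log 2 (RR X Y) : ℝ) * Real.log 2 ≤ L := by
              rw [← Real.log_pow]
              exact Real.log_le_log (by positivity) (h12.trans h13)
            have h15 : (1 / 2 : ℝ) ≤ Real.log 2 := by
              have := Real.log_two_gt_d9
              linarith
            have h16 : (0 : ℝ) ≤ Nat.log 2 (RR X Y) := by positivity
            nlinarith
  -- the three terms
  have hA : C₁ * X * Y * Real.log X ^ 2 / V ≤ η / 3 * (X * Y) := by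
    rw [div_le_iff₀ hV0]
    have h17 : C₁ * L ^ 2 ≤ η / 3 * V := by
      have h18 : η / 3 * (3 * C₁ / η * L ^ 2) ≤ η / 3 * V := by gcongr
      calc C₁ * L ^ 2 = η / 3 * (3 * C₁ / η * L ^ 2) := by field_simp
        _ ≤ _ := h18
    calc C₁ * X * Y * Real.log X ^ 2 = X * Y * (C₁ * L ^ 2) := by ring
      _ ≤ X * Y * (η / 3 * V) := by gcongr
      _ = η / 3 * (X * Y) * V := by ring
  have hB : C₂ * V * (X / Y) * Real.log X ^ 12 ≤ η / 3 * (X * Y) := by
    have h17 : C₂ * L ^ 12 ≤ η / 3 * X ^ (1 / 6 : ℝ) := by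
      have h18 : η / 3 * (3 * C₂ / η * L ^ 12) ≤ η / 3 * X ^ (1 / 6 : ℝ) := by gcongr
      calc C₂ * L ^ 12 = η / 3 * (3 * C₂ / η * L ^ 12) := by field_simp
        _ ≤ _ := h18
    have h19 : V * X ^ (1 / 6 : ℝ) ≤ Y := by
      refine le_trans ?_ hY
      rw [hV, ← Real.rpow_add hX0]
      exact Real.rpow_le_rpow_of_exponent_le hX1 (by linarith)
    calc C₂ * V * (X / Y) * Real.log X ^ 12 = (X / Y) * V * (C₂ * L ^ 12) := by ring
      _ ≤ (X / Y) * V * (η / 3 * X ^ (1 / 6 : ℝ)) := by gcongr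
      _ = η / 3 * (X / Y) * (V * X ^ (1 / 6 : ℝ)) := by ring
      _ ≤ η / 3 * (X / Y) * Y := by gcongr
      _ = η / 3 * (X * 1) := by field_simp
      _ ≤ η / 3 * (X * Y) := by gcongr
  have hCC : C₂ * Real.log X * (Y * ∑ r ∈ Icc 1 (RR X Y), ((r : ℝ) / Nat.totient r) *
        ∑ χ ∈ Pr r, ∫ β in (-(V / (r * Y)))..(V / (r * Y)), ‖EB χ X β‖ ^ 2) ≤
      η / 3 * (X * Y) := by
    calc C₂ * Real.log X * (Y * ∑ r ∈ Icc 1 (RR X Y), ((r : ℝ) / Nat.totient r) *
        ∑ χ ∈ Pr r, ∫ β in (-(V / (r * Y)))..(V / (r * Y)), ‖EB χ X β‖ ^ 2)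
        ≤ C₂ * L * (Y * (3 * L * (3 * L * (C₃ * (V / Y) * X ^ (2 * c + ε / 4))))) := by
          gcongr
      _ = η / 3 * ((27 * C₂ * C₃ / η) * L ^ 3 * (V * X ^ (2 * c + ε / 4))) := by
          field_simp; ring
      _ ≤ η / 3 * (X ^ (ε / 4) * (X ^ (ε / 4) * X ^ (2 * c + ε / 4))) := by gcongr
      _ = η / 3 * X ^ (ε / 4 + (ε / 4 + (2 * c + ε / 4))) := by
          rw [← Real.rpow_add hX0, ← Real.rpow_add hX0]
      _ ≤ η / 3 * X ^ (1 + (2 * θ - 1 + ε)) := by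
          have : X ^ (ε / 4 + (ε / 4 + (2 * c + ε / 4))) ≤ X ^ (1 + (2 * θ - 1 + ε)) :=
            Real.rpow_le_rpow_of_exponent_le hX1 (by linarith)
          gcongr
      _ = η / 3 * (X * X ^ (2 * θ - 1 + ε)) := by
          rw [Real.rpow_add hX0, Real.rpow_one]
      _ ≤ η / 3 * (X * Y) := by gcongr
  calc DD X Y ≤ _ := h1
    _ ≤ (C₂ * Real.log X * (Y * ∑ r ∈ Icc 1 (RR X Y), ((r : ℝ) / Nat.totient r) *
        ∑ χ ∈ Pr r, ∫ β in (-(V / (r * Y)))..(V / (r * Y)), ‖EB χ X β‖ ^ 2) +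
        C₂ * V * (X / Y) * Real.log X ^ 12) + C₁ * X * Y * Real.log X ^ 2 / V := by
        linarith
    _ ≤ (η / 3 * (X * Y) + η / 3 * (X * Y)) + η / 3 * (X * Y) := by linarith
    _ = η * X * Y := by ring

end Pool.Agent.XS

namespace Pool.Agent.XS

/-- alias -/
theorem dfin : type_of% @dfin_pr := @dfin_pr

end Pool.Agent.XS
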