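import Pool.Agent.Lib_helper26.XS.Defs
import Pool.Agent.Lib_helper73.Var.Block
import Pool.Agent.Lib_helper59.MFF.C3a
import Pool.Agent.Lib_helper92.PVF.SHO

/-!
# XS, block LSU: the form `L` over the primitive characters
-/

set_option autoImplicit false

namespace Pool.Agent.XS

open Finset Complex MeasureTheory Pool.Agent.Var35 Pool.Agent.Var73 Pool.Agent.HC Pool.Agent.MF
open scoped ArithmeticFunction ArithmeticFunction.Moebius

/-- the sum of `1/φ` -/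
theorem lsu_tot : ∃ C : ℝ, 1 ≤ C ∧ ∀ Y : ℕ, 1 ≤ Y →
    ∑ m ∈ Icc 1 Y, 1 / (Nat.totient m : ℝ) ≤ C * (2 + Real.log Y) := by
  obtain ⟨C, hC, h⟩ := Pool.Agent.PV.shortsum_pr
  refine ⟨max 1 C, le_max_left _ _, fun Y hY => ?_⟩
  have hY1 : (1 : ℝ) ≤ Y := by exact_mod_cast hY
  have h1 := h (1 / 2) Y (by norm_num) (by linarith)
  rw [Nat.floor_natCast] at h1
  have e1 : (Icc 1 Y).filter (fun m : ℕ => (1 / 2 : ℝ) < m) = Icc 1 Y := by
    refine filter_true_of_mem fun m hm => ?_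
    have : (1 : ℝ) ≤ m := by exact_mod_cast (mem_Icc.1 hm).1
    linarith
  rw [e1] at h1
  refine h1.trans ?_
  have e2 : (Y : ℝ) / (1 / 2) = 2 * Y := by ring
  rw [e2, Real.log_mul (by norm_num) (by linarith)]
  have h2 := Real.log_two_lt_d9
  have h3 : 0 ≤ Real.log (Y : ℝ) := Real.log_nonneg hY1
  calc C * (1 + (Real.log 2 + Real.log Y)) ≤ C * (2 + Real.log Y) := by
        apply mul_le_mul_of_nonneg_left _ hC.le
        linarith
    _ ≤ _ := mul_le_mul_of_nonneg_right (le_max_right _ _) (by linarith)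

/-- the sum of `1/φ` over the multiples of `r` -/
theorem lsu_mult : ∃ C : ℝ, 1 ≤ C ∧ ∀ Y r : ℕ, 1 ≤ Y → 1 ≤ r →
    ∑ Q ∈ (Icc 1 Y).filter (fun Q => r ∣ Q), 1 / (Nat.totient Q : ℝ) ≤
      C * (2 + Real.log Y) * (1 / (Nat.totient r : ℝ)) := by
  obtain ⟨C, hC, h⟩ := lsu_tot
  refine ⟨C, hC, fun Y r hY hr => ?_⟩
  have hφr : (0 : ℝ) < Nat.totient r := by exact_mod_cast Nat.totient_pos.mpr hr
  have h2 : (Icc 1 Y).filter (fun Q => r ∣ Q) ⊆ (Icc 1 Y).image (fun m => r * m) := by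
    intro Q hQ
    rw [mem_filter, mem_Icc] at hQ
    obtain ⟨m, rfl⟩ := hQ.2
    rw [mem_image]
    refine ⟨m, ?_, rfl⟩
    rw [mem_Icc]
    constructor
    · rcases Nat.eq_zero_or_pos m with h | h
      · subst h
        simp at hQ
      · exact h
    · exact le_trans (Nat.le_mul_of_pos_left m hr) hQ.1.2
  refine (sum_le_sum_of_subset_of_nonneg h2 fun _ _ _ => by positivity).trans ?_
  rw [sum_image (by
    intro x _ y _ hxy
    exact Nat.eq_of_mul_eq_mul_left hr hxy)]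
  have h3 : ∑ m ∈ Icc 1 Y, 1 / (Nat.totient (r * m) : ℝ) ≤
      ∑ m ∈ Icc 1 Y, (1 / (Nat.totient m : ℝ)) * (1 / (Nat.totient r : ℝ)) := by
    refine sum_le_sum fun m hm => ?_
    have hm1 := (mem_Icc.1 hm).1
    have hφm : (0 : ℝ) < Nat.totient m := by exact_mod_cast Nat.totient_pos.mpr hm1
    have h4 : (Nat.totient r : ℝ) * Nat.totient m ≤ Nat.totient (r * m) := by
      exact_mod_cast Nat.totient_super_multiplicative r m
    rw [one_div_mul_one_div, mul_comm (Nat.totient m : ℝ)]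
    exact one_div_le_one_div_of_le (by positivity) h4
  refine h3.trans ?_
  rw [← sum_mul]
  exact mul_le_mul_of_nonneg_right (h Y hY) (by positivity)

theorem lsu_one {Q : ℕ} [NeZero Q] (χ : DirichletCharacter ℂ Q) : (prm χ).2 = 1 ↔ χ = 1 := by
  constructor
  · intro h
    have h1 := DirichletCharacter.changeLevel_primitiveCharacter χ
    have h2 : χ.primitiveCharacter = 1 := h
    rw [h2] at h1
    rw [← h1]
    exact map_one _
  · rintro rfl
    exact DirichletCharacter.primitiveCharacter_one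

theorem lsu_EE (X : ℝ) (hX : 3 ≤ X) (Q : ℕ) (hQ : 1 ≤ Q) (hQX : (Q : ℝ) ≤ X)
    (χ : DirichletCharacter ℂ Q) :
    ‖EE χ X‖ ^ 2 ≤ 2 * ‖EE (prm χ).2 X‖ ^ 2 + 8 * Real.log X ^ 4 := by
  classical
  have : NeZero Q := ⟨by omega⟩
  set N := ⌊X⌋₊ with hN
  have e1 : ∑ n ∈ Icc 1 N, (Lam n : ℂ) * χ (n : ZMod Q) =
      SS (Icc 1 N) (fun n => (Lam n : ℂ)) (Q / (prm χ).1) (prm χ) :=
    sum_char_prm χ (Icc 1 N) (fun n => (Lam n : ℂ))
  have hev : ∀ n : ℕ, ‖ev (prm χ) n‖ ≤ 1 := fun n => DirichletCharacter.norm_le_one _ _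
  have e2 : ∑ n ∈ Icc 1 N, (Lam n : ℂ) * ev (prm χ) n =
      ∑ n ∈ Icc 1 N, (Lam n : ℂ) * χ (n : ZMod Q) +
      ∑ n ∈ (Icc 1 N).filter (fun n => ¬ Nat.Coprime n (Q / (prm χ).1)),
        (Lam n : ℂ) * ev (prm χ) n := by
    rw [e1]
    unfold SS
    rw [← sum_filter_add_sum_filter_not (Icc 1 N)
      (fun n => Nat.Coprime n (Q / (prm χ).1)) (fun n => (Lam n : ℂ) * ev (prm χ) n)]
    congr 1
    rw [sum_filter]
    refine sum_congr rfl fun n _ => ?_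
    split_ifs <;> simp
  have e3 : ‖∑ n ∈ (Icc 1 N).filter (fun n => ¬ Nat.Coprime n (Q / (prm χ).1)),
      (Lam n : ℂ) * ev (prm χ) n‖ ≤ 2 * Real.log X ^ 2 := by
    refine (norm_sum_le _ _).trans ?_
    calc ∑ n ∈ (Icc 1 N).filter (fun n => ¬ Nat.Coprime n (Q / (prm χ).1)),
          ‖(Lam n : ℂ) * ev (prm χ) n‖
        ≤ ∑ n ∈ (Icc 1 N).filter (fun n => ¬ Nat.Coprime n (Q / (prm χ).1)), Lam n := by
          refine sum_le_sum fun n _ => ?_
          rw [norm_mul, Complex.norm_real, Real.norm_eq_abs,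
            abs_of_nonneg ArithmeticFunction.vonMangoldt_nonneg]
          exact mul_le_of_le_one_right ArithmeticFunction.vonMangoldt_nonneg (hev n)
      _ ≤ ∑ n ∈ (Icc 1 N).filter (fun n => ¬ Nat.Coprime n Q), Lam n := by
          refine sum_le_sum_of_subset_of_nonneg ?_ fun _ _ _ =>
            ArithmeticFunction.vonMangoldt_nonneg
          intro n hn
          rw [mem_filter] at hn ⊢
          refine ⟨hn.1, fun h => hn.2 ?_⟩
          exact Nat.Coprime.coprime_dvd_right (Nat.div_dvd_of_dvd χ.conductor_dvd_level) h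
      _ ≤ _ := non_cop_pr X hX Q hQ hQX
  set B := ∑ n ∈ (Icc 1 N).filter (fun n => ¬ Nat.Coprime n (Q / (prm χ).1)),
      (Lam n : ℂ) * ev (prm χ) n with hB
  have e4 : EE χ X = EE (prm χ).2 X - B := by
    obtain ⟨w, hw1, hw2⟩ : ∃ w : ℂ, EE χ X = ∑ n ∈ Icc 1 N, (Lam n : ℂ) * χ (n : ZMod Q) - w ∧
        EE (prm χ).2 X = ∑ n ∈ Icc 1 N, (Lam n : ℂ) * ev (prm χ) n - w := by
      by_cases h : χ = 1
      · refine ⟨X, ?_, ?_⟩
        · unfold EE
          rw [if_pos h]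
        · unfold EE
          rw [if_pos ((lsu_one χ).2 h)]
          rfl
      · refine ⟨0, ?_, ?_⟩
        · unfold EE
          rw [if_neg h]
        · unfold EE
          rw [if_neg (fun h' => h ((lsu_one χ).1 h'))]
          rfl
    rw [hw1, hw2, e2]
    ring
  have e5 : ‖EE χ X‖ ≤ ‖EE (prm χ).2 X‖ + 2 * Real.log X ^ 2 := by
    rw [e4]
    exact (norm_sub_le _ _).trans (by linarith)
  have e6 : ‖EE χ X‖ ^ 2 ≤ (‖EE (prm χ).2 X‖ + 2 * Real.log X ^ 2) ^ 2 :=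
    pow_le_pow_left₀ (norm_nonneg _) e5 2
  refine e6.trans ?_
  nlinarith [sq_nonneg (‖EE (prm χ).2 X‖ - 2 * Real.log X ^ 2)]

theorem lsu_LX (X : ℝ) (hX : 3 ≤ X) (Q : ℕ) (D : ℝ) (hQ : 1 ≤ Q) (hQX : (Q : ℝ) ≤ X) :
    LX X Q D ≤ ∑ r ∈ Icc 1 ⌊D⌋₊, (if r ∣ Q then
      (1 / (Nat.totient Q : ℝ)) * (2 * ∑ ψ ∈ Pr r, ‖EE ψ X‖ ^ 2) else 0) +
        8 * Real.log X ^ 4 := by
  classical
  have : NeZero Q := ⟨by omega⟩
  have hφ : (0 : ℝ) < Nat.totient Q := by exact_mod_cast Nat.totient_pos.mpr hQ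
  set H : Chr → ℝ := fun x => if (x.1 : ℝ) ≤ D then 2 * ‖EE x.2 X‖ ^ 2 else 0 with hH
  have h1 : LX X Q D ≤ (1 / (Nat.totient Q : ℝ)) * ∑ χ : DirichletCharacter ℂ Q,
      (H (prm χ) + 8 * Real.log X ^ 4) := by
    unfold LX
    refine mul_le_mul_of_nonneg_left ?_ (by positivity)
    refine sum_le_sum fun χ _ => ?_
    have h8 : 0 ≤ 8 * Real.log X ^ 4 := by positivity
    by_cases h : (χ.conductor : ℝ) ≤ D
    · have hH1 : H (prm χ) = 2 * ‖EE (prm χ).2 X‖ ^ 2 := if_pos h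
      rw [if_pos h, hH1]
      exact lsu_EE X hX Q hQ hQX χ
    · have hH1 : H (prm χ) = 0 := if_neg h
      rw [if_neg h, hH1]
      linarith
  refine h1.trans ?_
  rw [sum_add_distrib, mul_add]
  have hcard : (1 / (Nat.totient Q : ℝ)) * ∑ _χ : DirichletCharacter ℂ Q, 8 * Real.log X ^ 4 =
      8 * Real.log X ^ 4 := by
    rw [sum_const, nsmul_eq_mul, card_univ, ← Nat.card_eq_fintype_card,
      DirichletCharacter.card_eq_totient_of_hasEnoughRootsOfUnity ℂ Q]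
    field_simp
  rw [hcard]
  refine add_le_add (le_of_eq ?_) le_rfl
  rw [sum_chars Q H, sum_sigma, mul_sum]
  have h2 : ∀ r ∈ Q.divisors, (1 / (Nat.totient Q : ℝ)) * ∑ ψ ∈ Pr r, H ⟨r, ψ⟩ =
      if (r : ℝ) ≤ D then (1 / (Nat.totient Q : ℝ)) * (2 * ∑ ψ ∈ Pr r, ‖EE ψ X‖ ^ 2)
        else 0 := by
    intro r _
    rw [hH]
    dsimp only
    split_ifs with h
    · rw [mul_sum, mul_sum, mul_sum]
    · simp
  rw [sum_congr rfl h2, ← sum_filter, ← sum_filter]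
  refine sum_congr ?_ fun _ _ => rfl
  ext r
  rw [mem_filter, mem_filter, Nat.mem_divisors, mem_Icc]
  constructor
  · rintro ⟨⟨h3, h4⟩, h5⟩
    exact ⟨⟨Nat.pos_of_dvd_of_pos h3 (by omega), Nat.le_floor h5⟩, h3⟩
  · rintro ⟨⟨h3, h4⟩, h5⟩
    refine ⟨⟨h5, by omega⟩, ?_⟩
    exact (Nat.le_floor_iff' (by omega)).1 h4

/-- LSU -/
theorem lsum_pr : ∃ C : ℝ, 1 ≤ C ∧ ∀ (X : ℝ) (Y : ℕ), 3 ≤ X → 1 ≤ Y → (Y : ℝ) ≤ X →
    ∑ Q ∈ Icc 1 Y, LX X Q (X / Q * Real.log X ^ 8) ≤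
      C * Real.log X * ∑ r ∈ Icc 1 ⌊Real.sqrt X * Real.log X ^ 4⌋₊,
        (1 / (Nat.totient r : ℝ)) * ∑ χ ∈ Pr r, ‖EE χ X‖ ^ 2 + 8 * Y * Real.log X ^ 4 := by
  classical
  obtain ⟨C, hC, hm⟩ := lsu_mult
  refine ⟨6 * C, by linarith, fun X Y hX hY hYX => ?_⟩
  have hX0 : 0 < X := by linarith
  have hL1 : 1 ≤ Real.log X := by
    rw [Real.le_log_iff_exp_le (by linarith)]
    have := Real.exp_one_lt_d9
    linarith
  have hY1 : (1 : ℝ) ≤ Y := by exact_mod_cast hY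
  have hlY : 2 + Real.log Y ≤ 3 * Real.log X := by
    have := Real.log_le_log (by linarith) hYX
    linarith
  set M := ⌊Real.sqrt X * Real.log X ^ 4⌋₊ with hM
  have h1 : ∑ Q ∈ Icc 1 Y, LX X Q (X / Q * Real.log X ^ 8) ≤
      ∑ Q ∈ Icc 1 Y, (∑ r ∈ Icc 1 M, (if r ∣ Q then
        (1 / (Nat.totient Q : ℝ)) * (2 * ∑ ψ ∈ Pr r, ‖EE ψ X‖ ^ 2) else 0) +
          8 * Real.log X ^ 4) := by
    refine sum_le_sum fun Q hQ => ?_
    rw [mem_Icc] at hQ
    have hQY : (Q : ℝ) ≤ Y := by exact_mod_cast hQ.2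
    have hQ0 : (0 : ℝ) < Q := by exact_mod_cast hQ.1
    refine (lsu_LX X hX Q _ hQ.1 (by linarith)).trans ?_
    refine add_le_add ?_ le_rfl
    rw [← sum_filter, ← sum_filter]
    refine sum_le_sum_of_subset_of_nonneg ?_ fun _ _ _ => by positivity
    intro r hr
    rw [mem_filter, mem_Icc] at hr ⊢
    refine ⟨⟨hr.1.1, ?_⟩, hr.2⟩
    apply Nat.le_floor
    have h3 : (r : ℝ) ≤ X / Q * Real.log X ^ 8 :=
      (Nat.le_floor_iff' (by omega)).1 hr.1.2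
    have h4 : (r : ℝ) ≤ Q := by exact_mod_cast Nat.le_of_dvd (by omega) hr.2
    have hr0 : (0 : ℝ) ≤ r := by positivity
    have h5 : (r : ℝ) ^ 2 ≤ (Real.sqrt X * Real.log X ^ 4) ^ 2 := by
      rw [mul_pow, Real.sq_sqrt hX0.le]
      calc (r : ℝ) ^ 2 = r * r := by ring
        _ ≤ Q * (X / Q * Real.log X ^ 8) := mul_le_mul h4 h3 hr0 hQ0.le
        _ = X * (Real.log X ^ 4) ^ 2 := by field_simp
    exact (le_abs_self _).trans (abs_le_of_sq_le_sq h5 (by positivity))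
  refine h1.trans ?_
  rw [sum_add_distrib]
  have h9 : ∑ _Q ∈ Icc 1 Y, 8 * Real.log X ^ 4 = 8 * Y * Real.log X ^ 4 := by
    rw [sum_const, Nat.card_Icc, nsmul_eq_mul]
    push_cast
    ring
  rw [h9]
  refine add_le_add ?_ le_rfl
  rw [sum_comm, mul_sum]
  refine sum_le_sum fun r hr => ?_
  rw [mem_Icc] at hr
  rw [← sum_filter, ← sum_mul]
  set g := ∑ ψ ∈ Pr r, ‖EE ψ X‖ ^ 2 with hg
  have hg0 : 0 ≤ g := sum_nonneg fun _ _ => by positivity
  have h2 := hm Y r hY hr.1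
  have hφr : 0 ≤ 1 / (Nat.totient r : ℝ) := by positivity
  calc (∑ Q ∈ (Icc 1 Y).filter (fun Q => r ∣ Q), 1 / (Nat.totient Q : ℝ)) * (2 * g)
      ≤ (C * (2 + Real.log Y) * (1 / (Nat.totient r : ℝ))) * (2 * g) :=
        mul_le_mul_of_nonneg_right h2 (by positivity)
    _ ≤ (C * (3 * Real.log X) * (1 / (Nat.totient r : ℝ))) * (2 * g) := by
        apply mul_le_mul_of_nonneg_right _ (by positivity)
        apply mul_le_mul_of_nonneg_right _ hφr
        exact mul_le_mul_of_nonneg_left hlY (by linarith)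
    _ = _ := by ring


end Pool.Agent.XS

namespace Pool.Agent.XS

/-- alias -/
theorem lsum : type_of% @lsum_pr := @lsum_pr

end Pool.Agent.XS
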