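import Pool.Agent.Lib_helper26.XS.Defs
import Pool.Agent.Lib_helper26.XSF.KL
import Pool.Agent.Lib_helper26.XSF.LSU
import Pool.Agent.Lib_helper35.Var.Elem
import Pool.Agent.Lib_helper73.Var.LS

set_option autoImplicit false

namespace Pool.Agent.XS

open Finset Complex MeasureTheory Pool.Agent.Var35 Pool.Agent.Var73 Pool.Agent.HC Pool.Agent.MF
open scoped ArithmeticFunction ArithmeticFunction.Moebius

/-- powers of the logarithm are small -/
theorem lfi_log (k : ℕ) {δ A : ℝ} (hδ : 0 < δ) (hA : 0 < A) :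
    ∃ C : ℝ, 3 ≤ C ∧ ∀ X : ℝ, C ≤ X → Real.log X ^ k ≤ A * X ^ δ := by
  have h := (isLittleO_log_rpow_rpow_atTop (k : ℝ) hδ).bound hA
  rw [Filter.eventually_atTop] at h
  obtain ⟨C, hC⟩ := h
  refine ⟨max C 3, le_max_right _ _, fun X hX => ?_⟩
  have h1 := hC X ((le_max_left _ _).trans hX)
  have h3 : (3 : ℝ) ≤ X := (le_max_right _ _).trans hX
  have h4 : 0 ≤ Real.log X := Real.log_nonneg (by linarith)
  rw [Real.norm_of_nonneg (Real.rpow_nonneg h4 _),
    Real.norm_of_nonneg (Real.rpow_nonneg (by linarith) _), Real.rpow_natCast] at h1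
  exact h1

theorem lfi_Lam_nonneg (n : ℕ) : 0 ≤ Lam n := by
  unfold Lam
  exact ArithmeticFunction.vonMangoldt_nonneg

theorem lfi_Lam_le (n : ℕ) : Lam n ≤ Real.log n := by
  unfold Lam
  exact ArithmeticFunction.vonMangoldt_le_log

/-- the sum of the squares -/
theorem lfi_sq {X : ℝ} (hX : 1 ≤ X) :
    ∑ n ∈ Finset.Ioc 0 (0 + ⌊X⌋₊), ‖(Lam n : ℂ)‖ ^ 2 ≤ X * Real.log X ^ 2 := by
  have h2 : ∀ n ∈ Finset.Ioc 0 (0 + ⌊X⌋₊), ‖(Lam n : ℂ)‖ ^ 2 ≤ Real.log X ^ 2 := by
    intro n hn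
    rw [Finset.mem_Ioc, zero_add] at hn
    rw [Complex.norm_real, Real.norm_of_nonneg (lfi_Lam_nonneg n)]
    have hnx : (n : ℝ) ≤ X := (Nat.le_floor_iff (by linarith)).1 hn.2
    have hn0 : (0 : ℝ) < n := by exact_mod_cast hn.1
    exact pow_le_pow_left₀ (lfi_Lam_nonneg n) ((lfi_Lam_le n).trans (Real.log_le_log hn0 hnx)) 2
  refine (Finset.sum_le_sum h2).trans ?_
  rw [Finset.sum_const, Nat.card_Ioc, nsmul_eq_mul]
  apply mul_le_mul_of_nonneg_right _ (by positivity)
  rw [zero_add, Nat.sub_zero]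
  exact Nat.floor_le (by linarith)

open scoped Classical in
/-- a primitive character of modulus at least two is not principal -/
theorem lfi_ne {r : ℕ} (hr : 2 ≤ r) {χ : DirichletCharacter ℂ r} (hχ : χ ∈ Pr r) : χ ≠ 1 := by
  have : NeZero r := ⟨by omega⟩
  rintro rfl
  unfold Pr at hχ
  have h1 := (Finset.mem_filter.1 hχ).2
  rw [DirichletCharacter.isPrimitive_def, DirichletCharacter.conductor_one] at h1
  omega

/-- the large sieve for a dyadic block -/
theorem lfi_large {X : ℝ} (hX : 1 ≤ X) (j : ℕ) (S : Finset ℕ)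
    (hS : ∀ r ∈ S, 2 ≤ r ∧ 2 ^ j ≤ r ∧ r < 2 * 2 ^ j) :
    ∑ r ∈ S, (1 / (Nat.totient r : ℝ)) * ∑ χ ∈ Pr r, ‖EE χ X‖ ^ 2 ≤
      22 * X * Real.log X ^ 2 * (X / 2 ^ j + 4 * 2 ^ j) := by
  have h2j : (0 : ℝ) < 2 ^ j := by positivity
  have h1 : ∑ r ∈ S, (1 / (Nat.totient r : ℝ)) * ∑ χ ∈ Pr r, ‖EE χ X‖ ^ 2 ≤
      (1 / 2 ^ j) * ∑ d ∈ S, ∑ ψ ∈ Pr d, ((d : ℝ) / Nat.totient d) *
        ‖∑ m ∈ Finset.Ioc 0 (0 + ⌊X⌋₊), (Lam m : ℂ) * ψ (m : ZMod d)‖ ^ 2 := by
    rw [Finset.mul_sum]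
    refine Finset.sum_le_sum fun r hr => ?_
    obtain ⟨hr2, hrj, -⟩ := hS r hr
    have hφ : (0 : ℝ) < Nat.totient r := by exact_mod_cast Nat.totient_pos.mpr (by omega)
    rw [Finset.mul_sum, Finset.mul_sum]
    refine Finset.sum_le_sum fun χ hχ => ?_
    have hE : EE χ X = ∑ m ∈ Finset.Ioc 0 (0 + ⌊X⌋₊), (Lam m : ℂ) * χ (m : ZMod r) := by
      unfold EE
      rw [if_neg (lfi_ne hr2 hχ), sub_zero, zero_add]
      rfl
    rw [hE, ← mul_assoc]
    apply mul_le_mul_of_nonneg_right _ (by positivity)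
    rw [← mul_div_assoc, div_le_div_iff_of_pos_right hφ, one_div, ← div_eq_inv_mul,
      le_div_iff₀ h2j, one_mul]
    exact_mod_cast hrj
  refine h1.trans ?_
  have h3 := mlsP S (2 * 2 ^ j) (fun d hd => ⟨by have := (hS d hd).1; omega,
    (hS d hd).2.2.le⟩) (Nat.mul_pos (by norm_num) (by positivity)) (fun n => (Lam n : ℂ)) 0 ⌊X⌋₊
  have h4 : (1 / 2 ^ j : ℝ) * (22 * (⌊X⌋₊ + ((2 * 2 ^ j : ℕ) : ℝ) ^ 2) *
      ∑ m ∈ Finset.Ioc 0 (0 + ⌊X⌋₊), ‖(Lam m : ℂ)‖ ^ 2) ≤
      (1 / 2 ^ j) * (22 * (X + 4 * (2 ^ j * 2 ^ j)) * (X * Real.log X ^ 2)) := by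
    apply mul_le_mul_of_nonneg_left _ (by positivity)
    apply mul_le_mul _ (lfi_sq hX) (Finset.sum_nonneg fun _ _ => by positivity) (by positivity)
    apply mul_le_mul_of_nonneg_left _ (by norm_num)
    apply add_le_add (Nat.floor_le (by linarith))
    push_cast
    apply le_of_eq
    ring
  refine (mul_le_mul_of_nonneg_left h3 (by positivity)).trans (h4.trans (le_of_eq ?_))
  field_simp

theorem lfin_pr {θ : ℝ} (hθ : 5 / 6 ≤ θ) (hθ1 : θ < 1) (h : ZF θ) {ε η : ℝ} (hε : 0 < ε)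
    (hη : 0 < η) : ∃ C : ℝ, ∀ (X : ℝ) (Y : ℕ), C ≤ X → X ^ (2 * θ - 1 + ε) ≤ (Y : ℝ) →
    (Y : ℝ) ≤ X → ∑ Q ∈ Icc 1 Y, LX X Q (X / Q * Real.log X ^ 8) ≤ η * X * Y := by
  set c : ℝ := min (θ + ε / 8) ((1 + θ) / 2) with hc
  have hc1 : θ < c := lt_min (by linarith) (by linarith)
  have hc2 : c < 1 := lt_of_le_of_lt (min_le_right _ _) (by linarith)
  have hc3 : c ≤ θ + ε / 8 := min_le_left _ _
  obtain ⟨C₁, hC₁1, hC₁⟩ := lsum
  obtain ⟨C₂, hC₂1, hC₂⟩ := kl hθ h hc1 hc2 (show 0 < ε / 4 by linarith)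
  have hA : 0 < η / (2 * (C₁ * (9 * C₂ + 396))) := by positivity
  obtain ⟨C₃, hC₃3, hC₃⟩ := lfi_log 4 (show 0 < ε / 2 by linarith) hA
  obtain ⟨C₄, hC₄3, hC₄⟩ := lfi_log 4 (show (0 : ℝ) < 1 by norm_num) (show 0 < η / 16 by positivity)
  obtain ⟨C₅, hC₅3, hC₅⟩ := lfi_log 4 (show (0 : ℝ) < 1 / 6 by norm_num)
    (show (0 : ℝ) < 1 by norm_num)
  refine ⟨max (max C₃ C₄) C₅, fun X Y hX hY hYX => ?_⟩
  have hXC₃ : C₃ ≤ X := (le_max_left _ _).trans ((le_max_left _ _).trans hX)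
  have hXC₄ : C₄ ≤ X := (le_max_right _ _).trans ((le_max_left _ _).trans hX)
  have hXC₅ : C₅ ≤ X := (le_max_right _ _).trans hX
  have hX3 : 3 ≤ X := hC₃3.trans hXC₃
  have hX1 : 1 ≤ X := by linarith
  have hX0 : 0 < X := by linarith
  have hl1 : 1 ≤ Real.log X := by
    rw [Real.le_log_iff_exp_le hX0]
    exact Real.exp_one_lt_three.le.trans hX3
  have hY1 : 1 ≤ Y := by
    have : (0 : ℝ) < Y := lt_of_lt_of_le (Real.rpow_pos_of_pos hX0 _) hY
    exact_mod_cast this
  have hYp : (0 : ℝ) < Y := by exact_mod_cast hY1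
  refine (hC₁ X Y hX3 hY1 hYX).trans ?_
  set M : ℕ := ⌊Real.sqrt X * Real.log X ^ 4⌋₊ with hM
  set F : ℕ → ℝ := fun r => (1 / (Nat.totient r : ℝ)) * ∑ χ ∈ Pr r, ‖EE χ X‖ ^ 2 with hF
  have hF0 : ∀ r, 0 ≤ F r := fun r => by
    simp only [hF]
    positivity
  -- the cube root
  set u : ℝ := X ^ (1 / 3 : ℝ) with hu
  have hu0 : 0 < u := Real.rpow_pos_of_pos hX0 _
  have hu3 : u ^ 3 = X := by
    rw [hu, ← Real.rpow_natCast, ← Real.rpow_mul hX0.le]
    norm_num
  have hu1 : 1 ≤ u := Real.one_le_rpow hX1 (by norm_num)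
  have hMu : ∀ r ∈ Icc 1 M, (r : ℝ) ≤ u ^ 2 := by
    intro r hr
    rw [Finset.mem_Icc] at hr
    have h1 : (r : ℝ) ≤ Real.sqrt X * Real.log X ^ 4 :=
      (Nat.le_floor_iff (by positivity)).1 hr.2
    have h2 := hC₅ X hXC₅
    rw [one_mul] at h2
    refine h1.trans ((mul_le_mul_of_nonneg_left h2 (Real.sqrt_nonneg _)).trans (le_of_eq ?_))
    rw [Real.sqrt_eq_rpow, ← Real.rpow_add hX0, hu, ← Real.rpow_natCast, ← Real.rpow_mul hX0.le]
    norm_num
  have huX : u ^ 2 ≤ X := by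
    rw [← hu3]
    nlinarith [pow_pos hu0 2]
  set J : ℕ := Nat.log 2 ⌊X⌋₊ + 1 with hJ
  -- number of blocks
  have hfl0 : ⌊X⌋₊ ≠ 0 := by
    have : 0 < ⌊X⌋₊ := Nat.floor_pos.2 hX1
    omega
  have hJle : (J : ℝ) ≤ 3 * Real.log X := by
    have h1 : ((2 ^ Nat.log 2 ⌊X⌋₊ : ℕ) : ℝ) ≤ X := by
      have := Nat.pow_log_le_self 2 hfl0
      exact (Nat.cast_le.2 this).trans (Nat.floor_le hX0.le)
    have h2 : (Nat.log 2 ⌊X⌋₊ : ℝ) * Real.log 2 ≤ Real.log X := by
      have := Real.log_le_log (by positivity) h1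
      rw [Nat.cast_pow, Real.log_pow] at this
      exact_mod_cast this
    have h3 := Real.log_two_gt_d9
    have h4 : (Nat.log 2 ⌊X⌋₊ : ℝ) * (1 / 2) ≤ Real.log X := by
      refine le_trans ?_ h2
      apply mul_le_mul_of_nonneg_left _ (by positivity)
      linarith
    rw [hJ]
    push_cast
    linarith
  have hlogM : ∀ r ∈ Icc 1 M, Nat.log 2 r ∈ range J := by
    intro r hr
    rw [Finset.mem_range, hJ, Nat.lt_succ_iff]
    apply Nat.log_mono_right
    apply Nat.le_floor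
    exact (hMu r hr).trans huX
  -- membership in the block
  have hblk : ∀ r ∈ Icc 1 M, 2 ^ Nat.log 2 r ≤ r ∧ r < 2 * 2 ^ Nat.log 2 r := by
    intro r hr
    rw [Finset.mem_Icc] at hr
    refine ⟨Nat.pow_log_le_self 2 (by omega), ?_⟩
    have := Nat.lt_pow_succ_log_self (by norm_num : 1 < 2) r
    rw [pow_succ] at this
    omega
  -- small and large moduli
  set Ss : Finset ℕ := (Icc 1 M).filter (fun r => (r : ℝ) ^ 3 ≤ X) with hSs
  set Sl : Finset ℕ := (Icc 1 M).filter (fun r => ¬ (r : ℝ) ^ 3 ≤ X) with hSl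
  have hsplit : ∑ r ∈ Icc 1 M, F r = ∑ r ∈ Ss, F r + ∑ r ∈ Sl, F r :=
    (Finset.sum_filter_add_sum_filter_not _ _ _).symm
  have hXe : 0 < X ^ (2 * θ + ε / 2) := Real.rpow_pos_of_pos hX0 _
  have hsmall : ∑ r ∈ Ss, F r ≤ 9 * C₂ * Real.log X ^ 2 * X ^ (2 * θ + ε / 2) := by
    have hmaps : ∀ r ∈ Ss, Nat.log 2 r ∈ range J := fun r hr =>
      hlogM r (Finset.mem_filter.1 hr).1
    rw [← Finset.sum_fiberwise_of_maps_to hmaps]
    have hone : ∀ j ∈ range J, ∑ r ∈ Ss.filter (fun r => Nat.log 2 r = j), F r ≤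
        3 * Real.log X * (C₂ * X ^ (2 * θ + ε / 2)) := by
      intro j hj
      rcases (Ss.filter (fun r => Nat.log 2 r = j)).eq_empty_or_nonempty with he | ⟨r₀, hr₀⟩
      · rw [he, Finset.sum_empty]; positivity
      · have hr₀' := Finset.mem_filter.1 hr₀
        have hr₀'' := Finset.mem_filter.1 hr₀'.1
        have hb0 := hblk r₀ hr₀''.1
        rw [hr₀'.2] at hb0
        have hcube : (((2 ^ j : ℕ) : ℕ) : ℝ) ^ 3 ≤ X := by
          refine le_trans ?_ hr₀''.2
          exact pow_le_pow_left₀ (by positivity) (by exact_mod_cast hb0.1) 3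
        have hk := hC₂ (2 ^ j) X (Nat.one_le_two_pow) hcube
        unfold SP at hk
        have h2j : (0 : ℝ) < 2 ^ j := by positivity
        have hsub : ∑ r ∈ Ss.filter (fun r => Nat.log 2 r = j), F r ≤
            ∑ r ∈ Ss.filter (fun r => Nat.log 2 r = j),
              (3 * Real.log X / 2 ^ j) * ∑ χ ∈ Pr r, ‖EE χ X‖ ^ 2 := by
          refine Finset.sum_le_sum fun r hr => ?_
          have hr' := Finset.mem_filter.1 hr
          have hr'' := Finset.mem_filter.1 hr'.1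
          have hb := hblk r hr''.1
          rw [hr'.2] at hb
          have hr1 := (Finset.mem_Icc.1 hr''.1).1
          simp only [hF]
          apply mul_le_mul_of_nonneg_right _ (by positivity)
          have ht := totient_ge r hr1
          have hφ : (0 : ℝ) < Nat.totient r := by exact_mod_cast Nat.totient_pos.mpr hr1
          have hrp : (0 : ℝ) < r := by exact_mod_cast hr1
          have hlr : Real.log r ≤ Real.log X :=
            Real.log_le_log hrp ((hMu r hr''.1).trans huX)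
          rw [div_le_div_iff₀ hφ h2j, one_mul]
          calc (2 : ℝ) ^ j ≤ r := by exact_mod_cast hb.1
            _ ≤ (2 * Real.log r + 1) * (Nat.totient r : ℝ) := ht
            _ ≤ 3 * Real.log X * Nat.totient r := by
              apply mul_le_mul_of_nonneg_right _ hφ.le
              linarith
        have hsub2 : ∑ r ∈ Ss.filter (fun r => Nat.log 2 r = j),
              (3 * Real.log X / 2 ^ j) * ∑ χ ∈ Pr r, ‖EE χ X‖ ^ 2 ≤
            ∑ r ∈ Ico (2 ^ j) (2 * 2 ^ j),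
              (3 * Real.log X / 2 ^ j) * ∑ χ ∈ Pr r, ‖EE χ X‖ ^ 2 := by
          apply Finset.sum_le_sum_of_subset_of_nonneg
          · intro r hr
            have hr' := Finset.mem_filter.1 hr
            have hr'' := Finset.mem_filter.1 hr'.1
            have hb := hblk r hr''.1
            rw [hr'.2] at hb
            exact Finset.mem_Ico.2 hb
          · intro r _ _
            positivity
        refine hsub.trans (hsub2.trans ?_)
        rw [← Finset.mul_sum]
        refine (mul_le_mul_of_nonneg_left hk (by positivity)).trans ?_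
        have hexp : X ^ (2 * c + ε / 4) ≤ X ^ (2 * θ + ε / 2) :=
          Real.rpow_le_rpow_of_exponent_le hX1 (by linarith)
        have e1 : 3 * Real.log X / 2 ^ j * (C₂ * ((2 ^ j : ℕ) : ℝ) * X ^ (2 * c + ε / 4)) =
            3 * Real.log X * (C₂ * X ^ (2 * c + ε / 4)) := by
          push_cast
          field_simp
        rw [e1]
        apply mul_le_mul_of_nonneg_left _ (by positivity)
        exact mul_le_mul_of_nonneg_left hexp (by positivity)
    refine (Finset.sum_le_sum hone).trans ?_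
    rw [Finset.sum_const, Finset.card_range, nsmul_eq_mul]
    calc (J : ℝ) * (3 * Real.log X * (C₂ * X ^ (2 * θ + ε / 2))) ≤
          (3 * Real.log X) * (3 * Real.log X * (C₂ * X ^ (2 * θ + ε / 2))) :=
        mul_le_mul_of_nonneg_right hJle (by positivity)
      _ = _ := by ring
  have hlarge : ∑ r ∈ Sl, F r ≤ 396 * Real.log X ^ 3 * X ^ (2 * θ + ε / 2) := by
    have hmaps : ∀ r ∈ Sl, Nat.log 2 r ∈ range J := fun r hr =>
      hlogM r (Finset.mem_filter.1 hr).1
    rw [← Finset.sum_fiberwise_of_maps_to hmaps]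
    have hone : ∀ j ∈ range J, ∑ r ∈ Sl.filter (fun r => Nat.log 2 r = j), F r ≤
        22 * X * Real.log X ^ 2 * (6 * u ^ 2) := by
      intro j hj
      rcases (Sl.filter (fun r => Nat.log 2 r = j)).eq_empty_or_nonempty with he | ⟨r₀, hr₀⟩
      · rw [he, Finset.sum_empty]; positivity
      · have hr₀' := Finset.mem_filter.1 hr₀
        have hr₀'' := Finset.mem_filter.1 hr₀'.1
        have hb0 := hblk r₀ hr₀''.1
        rw [hr₀'.2] at hb0
        have h2j : (0 : ℝ) < 2 ^ j := by positivity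
        have hur : u < r₀ := by
          have h1 := hr₀''.2
          rw [← hu3, not_le] at h1
          exact lt_of_pow_lt_pow_left₀ 3 (by positivity) h1
        have hu2j : u ≤ 2 * 2 ^ j := by
          refine hur.le.trans ?_
          exact_mod_cast hb0.2.le
        have hju : (2 : ℝ) ^ j ≤ u ^ 2 := by
          refine le_trans ?_ (hMu r₀ hr₀''.1)
          exact_mod_cast hb0.1
        refine (lfi_large hX1 j _ ?_).trans ?_
        · intro r hr
          have hr' := Finset.mem_filter.1 hr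
          have hr'' := Finset.mem_filter.1 hr'.1
          have hb := hblk r hr''.1
          rw [hr'.2] at hb
          refine ⟨?_, hb⟩
          have h1 := hr''.2
          rw [not_le] at h1
          by_contra h2
          have h3 : (r : ℝ) ≤ 1 := by
            have : r ≤ 1 := by omega
            exact_mod_cast this
          have h4 : (r : ℝ) ^ 3 ≤ 1 := by
            have h0 : (0 : ℝ) ≤ r := Nat.cast_nonneg _
            exact pow_le_one₀ h0 h3
          linarith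
        · apply mul_le_mul_of_nonneg_left _ (by positivity)
          have h5 : X / 2 ^ j ≤ 2 * u ^ 2 := by
            rw [div_le_iff₀ h2j, ← hu3]
            nlinarith [mul_le_mul_of_nonneg_left hu2j (sq_nonneg u)]
          linarith
    refine (Finset.sum_le_sum hone).trans ?_
    rw [Finset.sum_const, Finset.card_range, nsmul_eq_mul]
    have h6 : X * u ^ 2 ≤ X ^ (2 * θ + ε / 2) := by
      have : X * u ^ 2 = X ^ (5 / 3 : ℝ) := by
        rw [hu, ← Real.rpow_natCast, ← Real.rpow_mul hX0.le]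
        nth_rewrite 1 [← Real.rpow_one X]
        rw [← Real.rpow_add hX0]
        norm_num
      rw [this]
      exact Real.rpow_le_rpow_of_exponent_le hX1 (by linarith)
    calc (J : ℝ) * (22 * X * Real.log X ^ 2 * (6 * u ^ 2)) ≤
          (3 * Real.log X) * (22 * X * Real.log X ^ 2 * (6 * u ^ 2)) :=
        mul_le_mul_of_nonneg_right hJle (by positivity)
      _ = 396 * Real.log X ^ 3 * (X * u ^ 2) := by ring
      _ ≤ _ := mul_le_mul_of_nonneg_left h6 (by positivity)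
  have hsum : ∑ r ∈ Icc 1 M, F r ≤ (9 * C₂ + 396) * Real.log X ^ 3 * X ^ (2 * θ + ε / 2) := by
    rw [hsplit]
    have h7 : 9 * C₂ * Real.log X ^ 2 * X ^ (2 * θ + ε / 2) ≤
        9 * C₂ * Real.log X ^ 3 * X ^ (2 * θ + ε / 2) := by
      apply mul_le_mul_of_nonneg_right _ hXe.le
      apply mul_le_mul_of_nonneg_left _ (by positivity)
      exact pow_le_pow_right₀ hl1 (by norm_num)
    nlinarith [hsmall, hlarge, h7]
  have hfin1 : C₁ * Real.log X * ∑ r ∈ Icc 1 M, F r ≤ η / 2 * X * Y := by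
    calc C₁ * Real.log X * ∑ r ∈ Icc 1 M, F r ≤
          C₁ * Real.log X * ((9 * C₂ + 396) * Real.log X ^ 3 * X ^ (2 * θ + ε / 2)) :=
        mul_le_mul_of_nonneg_left hsum (by positivity)
      _ = (C₁ * (9 * C₂ + 396)) * Real.log X ^ 4 * X ^ (2 * θ + ε / 2) := by ring
      _ ≤ (C₁ * (9 * C₂ + 396)) * (η / (2 * (C₁ * (9 * C₂ + 396))) * X ^ (ε / 2)) *
          X ^ (2 * θ + ε / 2) := by
        apply mul_le_mul_of_nonneg_right _ hXe.le
        exact mul_le_mul_of_nonneg_left (hC₃ X hXC₃) (by positivity)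
      _ = η / 2 * (X ^ (ε / 2) * X ^ (2 * θ + ε / 2)) := by
        field_simp
      _ = η / 2 * (X * X ^ (2 * θ - 1 + ε)) := by
        rw [← Real.rpow_add hX0]
        nth_rewrite 2 [← Real.rpow_one X]
        rw [← Real.rpow_add hX0]
        congr 2
        ring
      _ ≤ η / 2 * (X * Y) := by
        apply mul_le_mul_of_nonneg_left _ (by positivity)
        exact mul_le_mul_of_nonneg_left hY hX0.le
      _ = _ := by ring
  have hfin2 : 8 * Y * Real.log X ^ 4 ≤ η / 2 * X * Y := by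
    have h8 := hC₄ X hXC₄
    rw [Real.rpow_one] at h8
    calc 8 * Y * Real.log X ^ 4 ≤ 8 * Y * (η / 16 * X) :=
        mul_le_mul_of_nonneg_left h8 (by positivity)
      _ = _ := by ring
  calc C₁ * Real.log X * ∑ r ∈ Icc 1 M, F r + 8 * Y * Real.log X ^ 4 ≤
        η / 2 * X * Y + η / 2 * X * Y := add_le_add hfin1 hfin2
    _ = _ := by ring


end Pool.Agent.XS

namespace Pool.Agent.XS

/-- alias -/
theorem lfin : type_of% @lfin_pr := @lfin_pr

end Pool.Agent.XS
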