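import Pool.Agent.Lib_helper26.XS.Defs
import Pool.Agent.Lib_helper26.XSF.DA4
import Pool.Agent.Lib_helper26.XSF.DA5
import Pool.Agent.Lib_helper26.XSF.DFI
import Pool.Agent.Lib_helper26.XSF.LFI
import Pool.Agent.Lib_helper59.MFF.F1b

set_option autoImplicit false

namespace Pool.Agent.XS

open Finset Complex MeasureTheory Pool.Agent.Var35 Pool.Agent.Var73 Pool.Agent.HC Pool.Agent.MF
open scoped ArithmeticFunction ArithmeticFunction.Moebius

theorem upp_log_le {ε : ℝ} (hε : 0 < ε) (m : ℕ) : ∃ C : ℝ, ∀ X : ℝ, C ≤ X →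
    Real.log X ^ m ≤ X ^ ε := by
  have h := isLittleO_log_rpow_rpow_atTop (m : ℝ) hε
  have h1 := h.bound (c := 1) one_pos
  rw [Filter.eventually_atTop] at h1
  obtain ⟨C, hC⟩ := h1
  refine ⟨max C 1, fun X hX => ?_⟩
  have h2 := hC X ((le_max_left _ _).trans hX)
  have hX1 : 1 ≤ X := (le_max_right _ _).trans hX
  have hl : 0 ≤ Real.log X := Real.log_nonneg hX1
  rw [Real.rpow_natCast, Real.norm_of_nonneg (pow_nonneg hl m),
    Real.norm_of_nonneg (Real.rpow_nonneg (by linarith) _), one_mul] at h2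
  exact h2

theorem upp_LX_nonneg (X : ℝ) (Q : ℕ) (D : ℝ) : 0 ≤ LX X Q D := by
  unfold LX
  apply mul_nonneg (by positivity)
  apply Finset.sum_nonneg
  intro χ _
  split_ifs <;> positivity

theorem upp_kk {v : ℝ} (hv : 0 ≤ v) : 0 ≤ kk v := by
  unfold kk
  rw [sub_nonneg]
  exact div_le_one_of_le₀ (Nat.floor_le hv) hv

theorem upp_DD_nonneg {X : ℝ} (hX : 1 ≤ X) (Y : ℕ) : 0 ≤ MF.DD X Y := by
  unfold MF.DD
  apply mul_nonneg (Nat.cast_nonneg _)
  apply Finset.sum_nonneg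
  intro q _
  have hlog : 0 ≤ Real.log X := Real.log_nonneg hX
  apply intervalIntegral.integral_nonneg
  · have : 0 ≤ wd X Y q := by unfold wd; positivity
    linarith
  · intro β _
    apply mul_nonneg (upp_kk (by positivity))
    unfold EQ
    exact Finset.sum_nonneg fun c _ => by positivity

theorem zf_to_mean_pr {κ : ℝ} (h0 : 2 / 3 ≤ κ) (h1 : κ < 1) (h : ZF ((1 + κ) / 2)) :
    MeanAsym κ := by
  intro ε hε η hη
  have hθ : 5 / 6 ≤ (1 + κ) / 2 := by linarith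
  have hθ1 : (1 + κ) / 2 < 1 := by linarith
  obtain ⟨C1, hC1⟩ := mean_formula (η / 3) (by positivity)
  obtain ⟨C2, hC2⟩ := lfin hθ hθ1 h hε (η := η / 3) (by positivity)
  obtain ⟨C3, hC3⟩ := dfin hθ hθ1 h hε (η := η / 3) (by positivity)
  obtain ⟨C4, hC4⟩ := upp_log_le (ε := 1 / 6) (by norm_num) 12
  refine ⟨max (max (max C1 C2) (max C3 C4)) 1, fun X Y hX hY hCY => ?_⟩
  have a1 : C1 ≤ X := (((le_max_left _ _).trans (le_max_left _ _)).trans (le_max_left _ _)).trans hX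
  have a2 : C2 ≤ X := (((le_max_right _ _).trans (le_max_left _ _)).trans (le_max_left _ _)).trans hX
  have a3 : C3 ≤ X := (((le_max_left _ _).trans (le_max_right _ _)).trans (le_max_left _ _)).trans hX
  have a4 : C4 ≤ X := (((le_max_right _ _).trans (le_max_right _ _)).trans (le_max_left _ _)).trans hX
  have a5 : 1 ≤ X := (le_max_right _ _).trans hX
  have hYn : (0 : ℝ) ≤ Y := Nat.cast_nonneg _
  have b1 : C1 * Y ≤ X :=
    (mul_le_mul_of_nonneg_right (((le_max_left _ _).trans (le_max_left _ _)).trans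
      (le_max_left _ _)) hYn).trans hCY
  have b5 : (Y : ℝ) ≤ X := by
    have := (mul_le_mul_of_nonneg_right (le_max_right (max (max C1 C2) (max C3 C4)) 1) hYn).trans hCY
    linarith
  have hX0 : (0 : ℝ) < X := by linarith
  have hs : Real.sqrt X * Real.log X ^ 12 ≤ (Y : ℝ) := by
    refine le_trans ?_ hY
    rw [Real.sqrt_eq_rpow]
    calc X ^ (1 / 2 : ℝ) * Real.log X ^ 12 ≤ X ^ (1 / 2 : ℝ) * X ^ (1 / 6 : ℝ) := by
          gcongr
          exact hC4 X a4
      _ = X ^ (2 / 3 : ℝ) := by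
          rw [← Real.rpow_add hX0]; norm_num
      _ ≤ X ^ (κ + ε) := Real.rpow_le_rpow_of_exponent_le a5 (by linarith)
  have e1 := hC1 X Y a1 hs b1
  have hκ : 2 * ((1 + κ) / 2) - 1 + ε = κ + ε := by ring
  have e2 := hC2 X Y a2 (by rw [hκ]; exact hY) b5
  have e3 := hC3 X Y a3 (by rw [hκ]; exact hY) b5
  have e4 : 0 ≤ ∑ Q ∈ Icc 1 Y, LX X Q (X / Q * Real.log X ^ 8) :=
    Finset.sum_nonneg fun Q _ => upp_LX_nonneg _ _ _
  have e5 := upp_DD_nonneg a5 Y
  have e6 : ∑ Q ∈ Icc 1 Y, (GX X Q - X * (Real.log Q - CQ Q)) =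
      (∑ Q ∈ Icc 1 Y, (GX X Q - LX X Q (X / Q * Real.log X ^ 8) - X * (Real.log Q - CQ Q)) +
        MF.DD X Y) + ∑ Q ∈ Icc 1 Y, LX X Q (X / Q * Real.log X ^ 8) - MF.DD X Y := by
    rw [show ∀ a b c : ℝ, a + b + c - b = a + c by intros; ring, ← Finset.sum_add_distrib]
    exact Finset.sum_congr rfl fun Q _ => by ring
  rw [e6, abs_le]
  rw [abs_le] at e1
  constructor <;> nlinarith [e1.1, e1.2]

theorem one_to_zf_pr {κ : ℝ} (h0 : 0 < κ) (h1 : κ < 1) (h : OneModulus κ) :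
    ZF ((1 + κ) / 2) := by
  intro q _ χ s hs hs1
  set ε := (s.re - (1 + κ) / 2) / 2 with hε
  have hε0 : 0 < ε := by rw [hε]; linarith
  obtain ⟨C, hC⟩ := one_to_bound h0 h1 h hε0 q χ
  exact bound_to_zf (by positivity) χ hC (by rw [hε]; linarith) hs1

end Pool.Agent.XS

namespace Pool.Agent.XS

/-- alias -/
theorem zf_to_mean : type_of% @zf_to_mean_pr := @zf_to_mean_pr

/-- alias -/
theorem one_to_zf : type_of% @one_to_zf_pr := @one_to_zf_pr

end Pool.Agent.XS
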