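import Pool.Agent.Lib_helper26.XSF.DA1

/-!
# XS: from the asymptotic formula for every single modulus to one modulus
-/

set_option autoImplicit false

namespace Pool.Agent.XS

open Finset Complex MeasureTheory Pool.Agent.Var35 Pool.Agent.Var73 Pool.Agent.HC Pool.Agent.MF

/-- the asymptotic formula with the second order term for every `Q` with
`X^(κ+ε) < Q < X^(1-ε)` -/
def EveryQ (κ : ℝ) : Prop :=
  ∀ ε : ℝ, 0 < ε → ∀ η : ℝ, 0 < η → ∃ C : ℝ, ∀ (X : ℝ) (Q : ℕ), C ≤ X → X ^ (κ + ε) < (Q : ℝ) →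
    (Q : ℝ) < X ^ (1 - ε) → |GX X Q - X * (Real.log Q - CQ Q)| ≤ η * X

theorem every_to_one {κ : ℝ} (h0 : 0 < κ) (h1 : κ < 1) (h : EveryQ κ) : OneModulus κ := by
  intro ε hε q hq
  set ε' : ℝ := min (ε / 2) ((1 - κ) / 4) with hε'
  have he0 : 0 < ε' := lt_min (by linarith) (by linarith)
  have he1 : ε' ≤ ε / 2 := min_le_left _ _
  have he2 : ε' ≤ (1 - κ) / 4 := min_le_right _ _
  have hq0 : (0 : ℝ) < q := by exact_mod_cast hq
  obtain ⟨C0, hC0⟩ := h ε' he0 1 one_pos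
  have ev1 := (tendsto_rpow_atTop (show 0 < (1 - κ) / 4 by linarith)).eventually_ge_atTop
    (2 * q + 1 : ℝ)
  have ev2 := (tendsto_rpow_atTop (show 0 < ε / 2 by linarith)).eventually_ge_atTop (2 * q : ℝ)
  have ev4 := Filter.eventually_ge_atTop (1 : ℝ)
  have ev5 := Filter.eventually_ge_atTop C0
  have ev6 : ∀ᶠ X : ℝ in Filter.atTop, ‖Real.log X‖ ≤ 1 / 2 * ‖X ^ ε‖ :=
    (isLittleO_log_rpow_atTop hε).bound (by positivity)
  have ev7 := (tendsto_rpow_atTop hε).eventually_ge_atTop (2 : ℝ)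
  obtain ⟨C, hC⟩ := Filter.eventually_atTop.1
    (ev1.and (ev2.and (ev4.and (ev5.and (ev6.and ev7)))))
  refine ⟨C, fun X hX => ?_⟩
  obtain ⟨a1, a2, a4, a5, a6, a7⟩ := hC X hX
  have hX0 : 0 < X := by linarith
  set Z : ℝ := X ^ (κ + ε') with hZ
  have hZ1 : 1 ≤ Z := Real.one_le_rpow a4 (by linarith)
  set Y : ℕ := ⌊Z⌋₊ + 1 with hYdef
  have hY1 : Z < (Y : ℝ) := by
    rw [hYdef]
    push_cast
    exact Nat.lt_floor_add_one Z
  have hY2 : (Y : ℝ) ≤ 2 * Z := by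
    rw [hYdef]
    push_cast
    have := Nat.floor_le (show 0 ≤ Z by linarith)
    linarith
  have hq1 : (1 : ℝ) ≤ q := by exact_mod_cast hq
  have hYZ : (q : ℝ) * Y ≤ 2 * q * Z := by nlinarith
  have hX1 : X ^ ((1 - κ) / 4) * Z ≤ X ^ (1 - ε') := by
    rw [hZ, ← Real.rpow_add hX0]
    exact Real.rpow_le_rpow_of_exponent_le a4 (by linarith)
  have hX2 : X ^ (ε / 2) * Z ≤ X ^ (κ + ε) := by
    rw [hZ, ← Real.rpow_add hX0]
    exact Real.rpow_le_rpow_of_exponent_le a4 (by linarith)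
  have hQ3 : ((q * Y : ℕ) : ℝ) < X ^ (1 - ε') := by
    push_cast
    have : (2 * q + 1) * Z ≤ X ^ ((1 - κ) / 4) * Z := mul_le_mul_of_nonneg_right a1 (by linarith)
    linarith
  have hQ4 : ((q * Y : ℕ) : ℝ) ≤ X ^ (κ + ε) := by
    push_cast
    have : (2 * q) * Z ≤ X ^ (ε / 2) * Z := mul_le_mul_of_nonneg_right a2 (by linarith)
    linarith
  have hQ2 : Z < ((q * Y : ℕ) : ℝ) := by
    push_cast
    nlinarith
  have hQ1 : 1 ≤ q * Y := Nat.one_le_iff_ne_zero.2 (Nat.mul_ne_zero (by omega) (by omega))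
  refine ⟨q * Y, hQ1, dvd_mul_right q Y, hQ4, ?_⟩
  have hg := (le_abs_self _).trans (hC0 X (q * Y) a5 hQ2 hQ3)
  have hc := DA1_cq (q * Y)
  have hlog : Real.log ((q * Y : ℕ) : ℝ) ≤ Real.log X := by
    apply Real.log_le_log (by linarith)
    calc ((q * Y : ℕ) : ℝ) ≤ X ^ (1 - ε') := hQ3.le
      _ ≤ X ^ (1 : ℝ) := Real.rpow_le_rpow_of_exponent_le a4 (by linarith)
      _ = X := Real.rpow_one X
  have hxe : 0 < X ^ ε := Real.rpow_pos_of_pos hX0 _
  rw [Real.norm_eq_abs, Real.norm_eq_abs, abs_of_pos hxe] at a6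
  have a6' := (le_abs_self _).trans a6
  rw [Real.rpow_add hX0, Real.rpow_one]
  have h5 : X * (Real.log ((q * Y : ℕ) : ℝ) - CQ (q * Y)) ≤ X * Real.log X :=
    mul_le_mul_of_nonneg_left (by linarith) hX0.le
  have h6 : X * (Real.log X + 1) ≤ X * X ^ ε := mul_le_mul_of_nonneg_left (by linarith) hX0.le
  linarith

end Pool.Agent.XS
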