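import Pool.Agent.Lib_helper26.XS.Defs

set_option autoImplicit false

namespace Pool.Agent.XS

open Finset Complex MeasureTheory Pool.Agent.Var35 Pool.Agent.Var73 Pool.Agent.HC Pool.Agent.MF
open scoped ArithmeticFunction ArithmeticFunction.Moebius

theorem DA1_gx (X : ℝ) (Q : ℕ) : 0 ≤ GX X Q := Finset.sum_nonneg fun _ _ => sq_nonneg _

theorem DA1_cq (Q : ℕ) : 0 ≤ CQ Q := by
  have h1 : (0 : ℝ) < Real.eulerMascheroniConstant := by
    have := Real.one_half_lt_eulerMascheroniConstant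
    linarith
  have h2 : (0 : ℝ) ≤ Real.log (2 * Real.pi) := by
    apply Real.log_nonneg
    have := Real.pi_gt_three
    linarith
  have h3 : (0 : ℝ) ≤ ∑ p ∈ Q.primeFactors, Real.log p / ((p : ℝ) - 1) := by
    refine Finset.sum_nonneg fun p hp => ?_
    have hp1 : (1 : ℝ) ≤ p := by exact_mod_cast (Nat.prime_of_mem_primeFactors hp).one_lt.le
    exact div_nonneg (Real.log_nonneg hp1) (by linarith)
  unfold CQ
  linarith

theorem mean_to_almost_pr {κ : ℝ} (h0 : 0 < κ) (h1 : κ < 1) (h : MeanAsym κ) : AlmostAll κ := by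
  intro ε hε η hη
  obtain ⟨C1, hC1⟩ := h ε hε 1 one_pos
  have e1 : ∀ᶠ X : ℝ in Filter.atTop, C1 ≤ X := Filter.eventually_ge_atTop C1
  have e2 : ∀ᶠ X : ℝ in Filter.atTop, (1 : ℝ) ≤ X := Filter.eventually_ge_atTop 1
  have ht := tendsto_rpow_atTop hε
  have e3 : ∀ᶠ X : ℝ in Filter.atTop, C1 ≤ X ^ ε := ht.eventually_ge_atTop C1
  have e4 : ∀ᶠ X : ℝ in Filter.atTop, 2 / η ≤ X ^ ε := ht.eventually_ge_atTop _
  have e5 : ∀ᶠ X : ℝ in Filter.atTop, ‖Real.log X‖ ≤ η / 2 * ‖X ^ ε‖ :=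
    (isLittleO_log_rpow_atTop hε).bound (by positivity)
  obtain ⟨C, hC⟩ := Filter.eventually_atTop.1 (e1.and (e2.and (e3.and (e4.and e5))))
  refine ⟨C, fun X Y hX hY1 hY2 => ?_⟩
  obtain ⟨g1, g2, g3, g4, g5⟩ := hC X hX
  have hX0 : 0 < X := by linarith
  have hxe : 0 < X ^ ε := Real.rpow_pos_of_pos hX0 _
  have hY0 : (0 : ℝ) ≤ Y := Nat.cast_nonneg Y
  have hlog : 1 + Real.log X ≤ η * X ^ ε := by
    rw [Real.norm_eq_abs, Real.norm_eq_abs, abs_of_pos hxe] at g5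
    have h2 := (le_abs_self _).trans g5
    have h3 : 1 ≤ η / 2 * X ^ ε := by
      rw [div_le_iff₀ hη] at g4
      linarith
    linarith
  have hYX : (Y : ℝ) ≤ X := by
    refine hY2.trans ?_
    calc X ^ (1 - ε) ≤ X ^ (1 : ℝ) := Real.rpow_le_rpow_of_exponent_le g2 (by linarith)
      _ = X := Real.rpow_one X
  have hCY : C1 * (Y : ℝ) ≤ X := by
    calc C1 * (Y : ℝ) ≤ X ^ ε * Y := mul_le_mul_of_nonneg_right g3 hY0
      _ ≤ X ^ ε * X ^ (1 - ε) := mul_le_mul_of_nonneg_left hY2 hxe.le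
      _ = X := by
        rw [← Real.rpow_add hX0]
        norm_num
  have hm := hC1 X Y g1 hY1 hCY
  have hs : ∑ Q ∈ Icc 1 Y, GX X Q ≤ X * Y * (1 + Real.log X) := by
    have k1 : ∑ Q ∈ Icc 1 Y, (GX X Q - X * (Real.log Q - CQ Q)) ≤ 1 * X * Y :=
      (le_abs_self _).trans hm
    have k2 : ∑ Q ∈ Icc 1 Y, X * (Real.log Q - CQ Q) ≤ ∑ _Q ∈ Icc 1 Y, X * Real.log X := by
      refine Finset.sum_le_sum fun Q hQ => ?_
      rw [Finset.mem_Icc] at hQ
      have hQ1 : (0 : ℝ) < Q := by exact_mod_cast hQ.1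
      have hQ2 : (Q : ℝ) ≤ X := by
        refine le_trans ?_ hYX
        exact_mod_cast hQ.2
      have := Real.log_le_log hQ1 hQ2
      have := DA1_cq Q
      exact mul_le_mul_of_nonneg_left (by linarith) hX0.le
    rw [Finset.sum_sub_distrib] at k1
    rw [Finset.sum_const, Nat.card_Icc, nsmul_eq_mul] at k2
    have k3 : ((Y + 1 - 1 : ℕ) : ℝ) = Y := by simp
    rw [k3] at k2
    nlinarith
  set B := (Icc 1 Y).filter (fun Q : ℕ => X ^ (1 + ε) < GX X Q) with hB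
  have hb : (B.card : ℝ) * X ^ (1 + ε) ≤ ∑ Q ∈ Icc 1 Y, GX X Q := by
    calc (B.card : ℝ) * X ^ (1 + ε) = ∑ _Q ∈ B, X ^ (1 + ε) := by
          rw [Finset.sum_const, nsmul_eq_mul]
      _ ≤ ∑ Q ∈ B, GX X Q := Finset.sum_le_sum fun Q hQ => (Finset.mem_filter.1 hQ).2.le
      _ ≤ ∑ Q ∈ Icc 1 Y, GX X Q :=
          Finset.sum_le_sum_of_subset_of_nonneg (Finset.filter_subset _ _)
            fun Q _ _ => DA1_gx X Q
  have hx1 : X ^ (1 + ε) = X * X ^ ε := by rw [Real.rpow_add hX0, Real.rpow_one]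
  have hpos : 0 < X * X ^ ε := by positivity
  have hfin : (B.card : ℝ) * (X * X ^ ε) ≤ (η * Y) * (X * X ^ ε) := by
    calc (B.card : ℝ) * (X * X ^ ε) = (B.card : ℝ) * X ^ (1 + ε) := by rw [hx1]
      _ ≤ X * Y * (1 + Real.log X) := hb.trans hs
      _ ≤ X * Y * (η * X ^ ε) := mul_le_mul_of_nonneg_left hlog (by positivity)
      _ = (η * Y) * (X * X ^ ε) := by ring
  exact le_of_mul_le_mul_right hfin hpos

end Pool.Agent.XS

namespace Pool.Agent.XS

/-- alias -/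
theorem mean_to_almost : type_of% @mean_to_almost_pr := @mean_to_almost_pr

end Pool.Agent.XS
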